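import Mathlib

/-!
# The divisor bound

Standard: for a prime power `(k + 1) ≤ C_p p ^ (k δ)` with `C_p = 1` as soon as `p ^ δ ≥ 2`
(`k + 1 ≤ 2 ^ k`), and for the finitely many other primes
`(k + 1) ≤ (1 + 1 / (δ log 2)) p ^ (k δ)` (`1 + k ≤ ...` from `exp x ≥ 1 + x`). Multiply over the
factorization.
-/

set_option autoImplicit false

namespace Pool.Agent.Lib.MP_640417_ag.All

private theorem divisor_local_one (δ : ℝ) (hδ : 0 < δ) (p a : ℕ) (hp : 2 ≤ p) :
    ((a : ℝ) + 1) ≤ (1 + 1 / (δ * Real.log 2)) * (((p : ℝ) ^ a) ^ δ) := by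
  have hl2 : 0 < Real.log 2 := Real.log_pos (by norm_num)
  have hp0 : (0 : ℝ) < p := by positivity
  have hlp : Real.log 2 ≤ Real.log p :=
    Real.log_le_log (by norm_num) (by exact_mod_cast hp)
  have h1 : ((p : ℝ) ^ a) ^ δ = Real.exp (a * δ * Real.log p) := by
    rw [Real.rpow_def_of_pos (by positivity), Real.log_pow]
    ring_nf
  have h2 : 1 + a * δ * Real.log 2 ≤ ((p : ℝ) ^ a) ^ δ := by
    rw [h1]
    have h3 := Real.add_one_le_exp (a * δ * Real.log p)
    have h4 : (a : ℝ) * δ * Real.log 2 ≤ a * δ * Real.log p :=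
      mul_le_mul_of_nonneg_left hlp (by positivity)
    linarith
  have h5 : 0 < δ * Real.log 2 := by positivity
  calc ((a : ℝ) + 1) ≤ (1 + 1 / (δ * Real.log 2)) * (1 + a * δ * Real.log 2) := by
        have : (1 + 1 / (δ * Real.log 2)) * (1 + a * δ * Real.log 2) =
            (a + 1) + (a * (δ * Real.log 2) + 1 / (δ * Real.log 2)) := by
          field_simp
          ring
        rw [this]
        have : 0 ≤ (a : ℝ) * (δ * Real.log 2) + 1 / (δ * Real.log 2) := by positivity
        linarith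
    _ ≤ _ := mul_le_mul_of_nonneg_left h2 (by positivity)

private theorem divisor_local_two (δ : ℝ) (hδ : 0 < δ) (p a : ℕ)
    (hp : (2 : ℝ) ^ (1 / δ) ≤ p) : ((a : ℝ) + 1) ≤ ((p : ℝ) ^ a) ^ δ := by
  have hp0 : (0 : ℝ) ≤ p := Nat.cast_nonneg p
  have h1 : (2 : ℝ) ≤ (p : ℝ) ^ δ := by
    calc (2 : ℝ) = ((2 : ℝ) ^ (1 / δ)) ^ δ := by
          rw [← Real.rpow_mul (by norm_num), one_div, inv_mul_cancel₀ hδ.ne', Real.rpow_one]
      _ ≤ _ := Real.rpow_le_rpow (by positivity) hp hδ.le
  have h2 : ((p : ℝ) ^ a) ^ δ = ((p : ℝ) ^ δ) ^ a := by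
    rw [← Real.rpow_natCast, ← Real.rpow_natCast, ← Real.rpow_mul hp0, ← Real.rpow_mul hp0,
      mul_comm]
  rw [h2]
  have h3 : (a : ℝ) + 1 ≤ 2 ^ a := by
    have : a + 1 ≤ 2 ^ a := Nat.lt_two_pow_self
    exact_mod_cast this
  exact h3.trans (pow_le_pow_left₀ (by norm_num) h1 a)

theorem divisor_bound (δ : ℝ) (hδ : 0 < δ) : ∃ C : ℝ, 0 < C ∧ ∀ m : ℕ, 0 < m →
    (m.divisors.card : ℝ) ≤ C * (m : ℝ) ^ δ := by
  obtain ⟨B, hB⟩ := exists_nat_ge ((2 : ℝ) ^ (1 / δ))
  have hl2 : 0 < Real.log 2 := Real.log_pos (by norm_num)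
  set K : ℝ := 1 + 1 / (δ * Real.log 2) with hK
  have hK1 : 1 ≤ K := by
    have : 0 ≤ 1 / (δ * Real.log 2) := by positivity
    linarith
  refine ⟨K ^ B, by positivity, ?_⟩
  intro m hm
  have hm0 : m ≠ 0 := hm.ne'
  have h1 : (m : ℝ) = ∏ p ∈ m.primeFactors, (p : ℝ) ^ (m.factorization p) := by
    conv_lhs => rw [← Nat.prod_factorization_pow_eq_self hm0]
    rw [Nat.prod_factorization_eq_prod_primeFactors]
    push_cast
    rfl
  have h2 : (m : ℝ) ^ δ = ∏ p ∈ m.primeFactors, ((p : ℝ) ^ (m.factorization p)) ^ δ := by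
    conv_lhs => rw [h1]
    rw [Real.finsetProd_rpow]
    intro i _
    positivity
  rw [Nat.card_divisors hm0]
  push_cast
  calc ∏ p ∈ m.primeFactors, ((m.factorization p : ℝ) + 1)
      ≤ ∏ p ∈ m.primeFactors, ((if p < B then K else 1) *
          ((p : ℝ) ^ (m.factorization p)) ^ δ) := by
        refine Finset.prod_le_prod (fun i _ => by positivity) ?_
        intro p hp
        have hp2 : 2 ≤ p := (Nat.prime_of_mem_primeFactors hp).two_le
        split_ifs with h
        · exact divisor_local_one δ hδ p _ hp2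
        · rw [one_mul]
          refine divisor_local_two δ hδ p _ (hB.trans ?_)
          exact_mod_cast not_lt.mp h
    _ = (∏ p ∈ m.primeFactors, if p < B then K else 1) * (m : ℝ) ^ δ := by
        rw [Finset.prod_mul_distrib, ← h2]
    _ ≤ K ^ B * (m : ℝ) ^ δ := by
        refine mul_le_mul_of_nonneg_right ?_ (by positivity)
        rw [Finset.prod_ite, Finset.prod_const_one, mul_one, Finset.prod_const]
        refine pow_le_pow_right₀ hK1 ?_
        calc (m.primeFactors.filter (· < B)).card ≤ (Finset.range B).card := by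
              refine Finset.card_le_card fun x hx => ?_
              rw [Finset.mem_filter] at hx
              exact Finset.mem_range.mpr hx.2
          _ = B := Finset.card_range B

end Pool.Agent.Lib.MP_640417_ag.All
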