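import Pool.Agent.Lib.MP_640417_ag.All.Basic

/-!
# AM-GM over the translates of a base, on a cover

Copy of `OddRel.prod_le_average` with the cover. With `P = ∏_X y (τ x)` and `P_G = ∏_G y h` one has
`P² = P_G ^ κ` (`Cover.prod_sq`) and `∏_k (∏_b y (B b k)) ^ t = P_G ^ (|ι| t)`. As
`κ |G| = 2 |X|` and `0 ≤ P_G ≤ 1`:
`P ^ (2 |G|) = P_G ^ (κ |G|) = P_G ^ (2 |X|) ≤ P_G ^ (2 |ι| t) = (∏_k x_k)²`, so
`P ^ |G| ≤ ∏_k x_k ≤ ((∑_k x_k) / |G|) ^ |G|`.
-/

set_option autoImplicit false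

namespace Pool.Agent.Lib.MP_640417_ag.All

open Module Finset Pool.Agent.Lib.MP_640417_ag.OddGal

variable {G X : Type} [Group G] [Fintype G] [Fintype X] {c : G} {τ : X → G} {κ : ℕ}

/-- AM-GM for the translates of a base. -/
theorem prod_le_averageX (hc : Cover c τ κ) (y : G → ℝ) (h0 : ∀ h, 0 ≤ y h) (h1 : ∀ h, y h ≤ 1)
    (hy : ∀ h, y (c * h) = y h) {ι : Type} [Fintype ι] (B : ι → G) (t : ℕ)
    (ht : Fintype.card ι * t ≤ Fintype.card X) :
    ∏ x, y (τ x) ≤ (∑ k : G, (∏ b : ι, y (B b * k)) ^ t) / Fintype.card G := by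
  classical
  set g := Fintype.card G with hg
  have hg0 : 0 < g := Fintype.card_pos
  set P := ∏ x, y (τ x) with hP
  set Q := ∏ h, y h with hQ
  have hP0 : 0 ≤ P := Finset.prod_nonneg (fun x _ => h0 _)
  have hQ0 : 0 ≤ Q := Finset.prod_nonneg (fun h _ => h0 h)
  have hQ1 : Q ≤ 1 := Finset.prod_le_one (fun h _ => h0 h) (fun h _ => h1 h)
  have hPQ : P ^ 2 = Q ^ κ := hc.prod_sq y hy
  set x : G → ℝ := fun k => (∏ b : ι, y (B b * k)) ^ t with hx
  have hx0 : ∀ k, 0 ≤ x k := fun k => pow_nonneg (Finset.prod_nonneg (fun b _ => h0 _)) t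
  have h2 : ∏ k, x k = Q ^ (Fintype.card ι * t) := by
    simp only [hx]
    rw [Finset.prod_pow, Finset.prod_comm, pow_mul]
    congr 1
    have h3 : ∀ b : ι, ∏ k, y (B b * k) = Q := fun b => Equiv.prod_comp (Equiv.mulLeft (B b)) y
    simp only [h3]
    rw [Finset.prod_const, Finset.card_univ]
  have h6 : 0 ≤ ∏ k, x k := Finset.prod_nonneg (fun k _ => hx0 k)
  have h3 : P ^ g ≤ ∏ k, x k := by
    have h7 : (P ^ g) ^ 2 ≤ (∏ k, x k) ^ 2 := by
      rw [h2, ← pow_mul, mul_comm g 2, pow_mul, hPQ, ← pow_mul, ← pow_mul, hc.card_mul]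
      apply pow_le_pow_of_le_one hQ0 hQ1
      rw [mul_comm 2]
      exact Nat.mul_le_mul_right 2 ht
    exact (pow_le_pow_iff_left₀ (pow_nonneg hP0 g) h6 two_ne_zero).mp h7
  have h4 : ∏ k, x k ≤ ((∑ k, x k) / g) ^ g := by
    have h5 := Real.geom_mean_le_arith_mean Finset.univ (fun _ : G => (1 : ℝ)) x
      (fun _ _ => zero_le_one) (by simp [hg.symm, hg0]) (fun k _ => hx0 k)
    simp only [Real.rpow_one, one_mul, Finset.sum_const, Finset.card_univ, nsmul_eq_mul,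
      mul_one] at h5
    rw [← hg] at h5
    have h7 := pow_le_pow_left₀ (Real.rpow_nonneg h6 _) h5 g
    rwa [← Real.rpow_natCast, ← Real.rpow_mul h6, inv_mul_cancel₀ (by exact_mod_cast hg0.ne'),
      Real.rpow_one] at h7
  have h5 : 0 ≤ (∑ k, x k) / g := div_nonneg (Finset.sum_nonneg (fun k _ => hx0 k)) (by positivity)
  exact (pow_le_pow_iff_left₀ hP0 h5 hg0.ne').mp (h3.trans h4)

end Pool.Agent.Lib.MP_640417_ag.All
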