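import Pool.Agent.Lib.MP_640417_ag.Far.Types
import Pool.Agent.Lib.MP_640417_ag.Far.Indep

/-!
# Representatives of the irreducible odd spaces, refined count

As `Far/Types.lean`, but only the spaces `U i` which are not fixed by the point stabilizer are
counted, and they are counted together with the functions invariant under the normal closure `N` of
the stabilizer.

Let `P f (s) = (1 / |N|) ∑_{ν ∈ N} f (ν s)`, a projection onto `invF ℚ N` which commutes with the
translations (`N` normal), so it maps stable spaces into themselves. If `U i` is not contained in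
`invF ℚ (stabilizer)` then `P (U i) ⊆ U i ⊓ invF ℚ N` is a stable subspace of `U i` different from
`U i`, so `P (U i) = 0`. Hence if `f + ∑ f_i = 0` with `f ∈ invF ℚ N`, `f_i ∈ U i`, then
`f = P f = 0` and all `f_i = 0` by `indep`. So
`dim invF ℚ N + ∑ dim (U i ⊓ invF ℚ (stabilizer)) ≤ dim invF ℚ (stabilizer)`
`≤ number of its orbits` (`types_finrank_invF`), and `dim invF ℚ N` is the number of orbits of `N`.
-/

set_option autoImplicit false

namespace Pool.Agent.Lib.MP_640417_ag.All

open Module Finset MulAction Pool.Agent.Lib.MP_640417_ag.Far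

section FarTypes

variable {S G : Type} [Fintype S] [Group G] [Finite G] [MulAction G S]

/-- Representatives of the irreducible odd spaces. -/
private lemma FarTypes_reps [IsPretransitive G S] (s₀ : S) (z : G) :
    ∃ (n : ℕ) (U : Fin n → Submodule ℚ (S → ℚ)), (∀ i, IsIrr G (U i) ∧ IsOddSp z (U i)) ∧
      (∀ i j, i ≠ j → ¬ IsoF G (U i) (U j)) ∧
      (∀ U' : Submodule ℚ (S → ℚ), IsIrr G U' → IsOddSp z U' → ∃ i, IsoF G (U i) U') := by
  classical
  set M : ℕ := Nat.card (orbitRel.Quotient (stabilizer G s₀) S) with hM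
  let P : ℕ → Prop := fun n => ∃ U : Fin n → Submodule ℚ (S → ℚ),
    (∀ i, IsIrr G (U i) ∧ IsOddSp z (U i)) ∧ ∀ i j, i ≠ j → ¬ IsoF G (U i) (U j)
  have hsum : ∀ (n : ℕ) (U : Fin n → Submodule ℚ (S → ℚ)),
      (∀ i, IsIrr G (U i) ∧ IsOddSp z (U i)) → (∀ i j, i ≠ j → ¬ IsoF G (U i) (U j)) →
      ∑ i, finrank ℚ ↥(U i ⊓ invF ℚ (stabilizer G s₀)) ≤ M := by
    intro n U hU hiso
    exact (types_sum_le indep U (fun i => U i ⊓ invF ℚ (stabilizer G s₀))
      (invF ℚ (stabilizer G s₀)) (fun i => (hU i).1) hiso (fun i => inf_le_left)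
      (fun i => inf_le_right)).trans (types_finrank_invF _)
  have hbound : ∀ n, P n → n ≤ M := by
    rintro n ⟨U, hU, hiso⟩
    refine le_trans ?_ (hsum n U hU hiso)
    calc n = ∑ _i : Fin n, 1 := by simp
      _ ≤ _ := by
        refine Finset.sum_le_sum fun i _ => ?_
        rw [Nat.one_le_iff_ne_zero, Ne, Submodule.finrank_eq_zero]
        exact types_inf_ne_bot s₀ (U i) (hU i).1.1 (hU i).1.2.1
  have hP0 : P 0 := ⟨fun i => i.elim0, fun i => i.elim0, fun i => i.elim0⟩
  set n : ℕ := Nat.findGreatest P M with hn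
  have hPn : P n := Nat.findGreatest_spec (P := P) (Nat.zero_le M) hP0
  have hmax : ¬ P (n + 1) := by
    intro h
    have h2 := Nat.le_findGreatest (hbound _ h) h
    omega
  obtain ⟨U, hU, hiso⟩ := hPn
  refine ⟨n, U, hU, hiso, ?_⟩
  intro U' hirr hodd
  by_contra hno
  push Not at hno
  apply hmax
  refine ⟨Fin.snoc (α := fun _ => Submodule ℚ (S → ℚ)) U U', ?_, ?_⟩
  · intro i
    refine Fin.lastCases ?_ (fun a => ?_) i
    · rw [Fin.snoc_last]
      exact ⟨hirr, hodd⟩
    · rw [Fin.snoc_castSucc]
      exact hU a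
  · intro i j
    refine Fin.lastCases ?_ (fun a => ?_) i
    · refine Fin.lastCases ?_ (fun b => ?_) j
      · intro h; exact absurd rfl h
      · intro _ h
        rw [Fin.snoc_last, Fin.snoc_castSucc] at h
        exact hno b (IsoF.symm hirr.2.1 h)
    · refine Fin.lastCases ?_ (fun b => ?_) j
      · intro _ h
        rw [Fin.snoc_last, Fin.snoc_castSucc] at h
        exact hno a h
      · intro hab h
        rw [Fin.snoc_castSucc, Fin.snoc_castSucc] at h
        exact hiso a b (fun e => hab (by rw [e])) h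

omit [Finite G] in
/-- The number of orbits is at most the dimension of the space of invariant functions. -/
private lemma FarTypes_card_le (H : Subgroup G) :
    Nat.card (orbitRel.Quotient H S) ≤ finrank ℚ (invF ℚ H : Submodule ℚ (S → ℚ)) := by
  classical
  have : Finite (orbitRel.Quotient H S) := Quotient.finite _
  have : Fintype (orbitRel.Quotient H S) := Fintype.ofFinite _
  let φ : (orbitRel.Quotient H S → ℚ) →ₗ[ℚ] (invF ℚ H : Submodule ℚ (S → ℚ)) :=
    { toFun := fun f => ⟨fun s => f (Quotient.mk (orbitRel H S) s), by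
        intro b hb s
        have h1 : (Quotient.mk (orbitRel H S) (b • s)) = Quotient.mk (orbitRel H S) s := by
          apply Quotient.sound
          exact ⟨⟨b, hb⟩, rfl⟩
        simp only [h1]⟩
      map_add' := fun _ _ => rfl
      map_smul' := fun _ _ => rfl }
  have hφ : Function.Injective φ := by
    intro f f' h
    funext q
    induction q using Quotient.inductionOn with
    | _ s =>
      have h1 := congrArg (fun F : (invF ℚ H : Submodule ℚ (S → ℚ)) => F.1 s) h
      exact h1
  have h1 := LinearMap.finrank_le_finrank_of_injective hφ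
  rwa [Module.finrank_fintype_fun_eq_card, ← Nat.card_eq_fintype_card] at h1

end FarTypes

theorem farTypes (S G : Type) [Fintype S] [Group G] [Finite G] [MulAction G S]
    [IsPretransitive G S] (s₀ : S) (z : G) :
    ∃ (n : ℕ) (U : Fin n → Submodule ℚ (S → ℚ)), (∀ i, IsIrr G (U i) ∧ IsOddSp z (U i)) ∧
      (∀ U' : Submodule ℚ (S → ℚ), IsIrr G U' → IsOddSp z U' → ∃ i, IsoF G (U i) U') ∧
      ∀ J : Finset (Fin n), (∀ i ∈ J, ¬ U i ≤ invF ℚ (stabilizer G s₀)) →
        ∑ i ∈ J, finrank ℚ ↥(U i ⊓ invF ℚ (stabilizer G s₀)) +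
          Nat.card (orbitRel.Quotient (Subgroup.normalClosure (stabilizer G s₀ : Set G)) S)
          ≤ Nat.card (orbitRel.Quotient (stabilizer G s₀) S) := by
  classical
  obtain ⟨n, U, hU, hiso, hex⟩ := FarTypes_reps (S := S) (G := G) s₀ z
  refine ⟨n, U, hU, hex, fun J hJ => ?_⟩
  set H : Subgroup G := stabilizer G s₀ with hH
  set N : Subgroup G := Subgroup.normalClosure (H : Set G) with hN
  have hNn : N.Normal := Subgroup.normalClosure_normal
  have hFN : Fintype N := Fintype.ofFinite _
  have hHN : H ≤ N := Subgroup.subset_normalClosure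
  -- the averaging operator
  let P : (S → ℚ) →ₗ[ℚ] (S → ℚ) :=
    { toFun := fun f s => ∑ ν : N, f ((ν : G) • s)
      map_add' := by
        intro f f'
        funext s
        simp only [Pi.add_apply, Finset.sum_add_distrib]
      map_smul' := by
        intro c f
        funext s
        simp only [Pi.smul_apply, smul_eq_mul, RingHom.id_apply, Finset.mul_sum] }
  have hPval : ∀ f s, P f s = ∑ ν : N, f ((ν : G) • s) := fun f s => rfl
  -- it fixes invariant functions up to the order of `N`
  have hPinv : ∀ f ∈ (invF ℚ N : Submodule ℚ (S → ℚ)), P f = (Fintype.card N : ℚ) • f := by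
    intro f hf
    funext s
    rw [hPval]
    have h1 : ∀ ν : N, f ((ν : G) • s) = f s := fun ν => hf ν ν.2 s
    rw [Finset.sum_congr rfl fun ν _ => h1 ν, Finset.sum_const, nsmul_eq_mul, Finset.card_univ]
    rfl
  -- the image is invariant
  have hPmem : ∀ f, P f ∈ (invF ℚ N : Submodule ℚ (S → ℚ)) := by
    intro f b hb s
    rw [hPval, hPval]
    refine Fintype.sum_equiv (Equiv.mulRight (⟨b, hb⟩ : N)) _ _ ?_
    intro c
    simp only [Equiv.coe_mulRight, Subgroup.coe_mul, mul_smul]
  -- it maps stable spaces into themselves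
  have hPstab : ∀ W : Submodule ℚ (S → ℚ), IsStab G W → ∀ f ∈ W, P f ∈ W := by
    intro W hW f hf
    have h1 : P f = ∑ ν : N, (fun s => f ((ν : G) • s)) := by
      funext s
      rw [hPval, Finset.sum_apply]
    rw [h1]
    exact Submodule.sum_mem _ fun ν _ => hW f hf ν
  -- it kills the `U i`
  have hP0 : ∀ i ∈ J, ∀ f ∈ U i, P f = 0 := by
    intro i hi f hf
    have h1 : IsStab G (U i ⊓ invF ℚ N) := by
      rintro f' ⟨hf1, hf2⟩ γ
      refine ⟨(hU i).1.2.1 f' hf1 γ, ?_⟩
      intro b hb s
      have h2 := hf2 (γ * b * γ⁻¹) (hNn.conj_mem b hb γ) (γ • s)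
      rw [mul_smul, mul_smul, inv_smul_smul] at h2
      exact h2
    rcases (hU i).1.2.2 (U i ⊓ invF ℚ N) inf_le_left h1 with h2 | h2
    · have h3 : P f ∈ U i ⊓ invF ℚ N := ⟨hPstab _ (hU i).1.2.1 f hf, hPmem f⟩
      rw [h2, Submodule.mem_bot] at h3
      exact h3
    · exfalso
      apply hJ i hi
      intro f' hf' b hb s
      rw [← h2] at hf'
      exact hf'.2 b (hHN hb) s
  -- the injective map
  let A : Fin n → Submodule ℚ (S → ℚ) := fun i => if i ∈ J then U i ⊓ invF ℚ H else ⊥
  have hAU : ∀ i, A i ≤ U i := by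
    intro i
    by_cases hi : i ∈ J
    · simp only [A, if_pos hi]; exact inf_le_left
    · simp only [A, if_neg hi]; exact bot_le
  have hAT : ∀ i, A i ≤ invF ℚ H := by
    intro i
    by_cases hi : i ∈ J
    · simp only [A, if_pos hi]; exact inf_le_right
    · simp only [A, if_neg hi]; exact bot_le
  have hA0 : ∀ i, ∀ f ∈ A i, P f = 0 := by
    intro i f hf
    by_cases hi : i ∈ J
    · simp only [A, if_pos hi] at hf
      exact hP0 i hi f hf.1
    · simp only [A, if_neg hi, Submodule.mem_bot] at hf
      rw [hf, map_zero]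
  have hNT : (invF ℚ N : Submodule ℚ (S → ℚ)) ≤ invF ℚ H := by
    intro f hf b hb s
    exact hf b (hHN hb) s
  let φ : (∀ i, A i) × (invF ℚ N : Submodule ℚ (S → ℚ)) →ₗ[ℚ] (invF ℚ H : Submodule ℚ (S → ℚ)) :=
    (∑ i, (Submodule.inclusion (hAT i)) ∘ₗ LinearMap.proj i).coprod (Submodule.inclusion hNT)
  have hval : ∀ f, ((φ f : (invF ℚ H : Submodule ℚ (S → ℚ))) : S → ℚ) =
      ∑ i, ((f.1 i : A i) : S → ℚ) + f.2.1 := by
    intro f
    simp only [φ, LinearMap.coprod_apply, LinearMap.sum_apply, LinearMap.comp_apply,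
      LinearMap.proj_apply, Submodule.coe_sum, Submodule.coe_inclusion, Submodule.coe_add]
  have hφ : Function.Injective φ := by
    rw [← LinearMap.ker_eq_bot, LinearMap.ker_eq_bot']
    rintro ⟨f, f'⟩ hf
    have h1 : ∑ i, ((f i : A i) : S → ℚ) + f'.1 = 0 := by
      have h2 := hval (f, f')
      rw [hf] at h2
      exact h2.symm
    have h2 : P f'.1 = 0 := by
      have h3 := congrArg P h1
      rw [map_add, map_sum, map_zero, Finset.sum_eq_zero (fun i _ => hA0 i _ (f i).2),
        zero_add] at h3
      exact h3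
    rw [hPinv _ f'.2] at h2
    have h3 : f'.1 = 0 := by
      rcases smul_eq_zero.mp h2 with h4 | h4
      · exfalso
        have h5 : (Fintype.card N : ℚ) ≠ 0 := by
          exact_mod_cast Fintype.card_ne_zero
        exact h5 h4
      · exact h4
    rw [h3, add_zero] at h1
    have h4 := indep S G n U (fun i => (hU i).1) hiso (fun i => ((f i : A i) : S → ℚ))
      (fun i => hAU i (f i).2) h1
    refine Prod.ext ?_ (Subtype.ext h3)
    funext i
    exact Subtype.ext (h4 i)
  have h1 := LinearMap.finrank_le_finrank_of_injective hφ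
  rw [Module.finrank_prod, Module.finrank_pi_fintype] at h1
  have h2 : ∑ i, finrank ℚ (A i) = ∑ i ∈ J, finrank ℚ ↥(U i ⊓ invF ℚ H) := by
    rw [← Finset.sum_filter_add_sum_filter_not Finset.univ (fun i => i ∈ J)]
    have h3 : ∑ i ∈ Finset.univ.filter (fun i => i ∉ J), finrank ℚ (A i) = 0 := by
      apply Finset.sum_eq_zero
      intro i hi
      have h4 : i ∉ J := (Finset.mem_filter.mp hi).2
      have h5 : A i = ⊥ := if_neg h4
      rw [h5]
      exact finrank_bot ℚ _
    rw [h3, add_zero]
    have h5 : Finset.univ.filter (fun i => i ∈ J) = J := by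
      ext i
      simp
    rw [h5]
    apply Finset.sum_congr rfl
    intro i hi
    have h6 : A i = U i ⊓ invF ℚ H := if_pos hi
    rw [h6]
  rw [h2] at h1
  exact (Nat.add_le_add_left (FarTypes_card_le N) _).trans (h1.trans (types_finrank_invF H))

end Pool.Agent.Lib.MP_640417_ag.All
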