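import Pool.Agent.Lib.MP_640417_ag.Far.Main
import Pool.Agent.Lib.MP_640417_ag.Far.BNcore
import Pool.Agent.Lib.MP_640417_ag.Far.Red
import Pool.Agent.Lib.MP_640417_ag.Far.BN
import Pool.Agent.Lib.MP_640417_ag.Far.Count
import Pool.Agent.Lib.MP_640417_ag.Far.Bad
import Pool.Agent.Lib.MP_640417_ag.Far.Semi
import Pool.Agent.Lib.MP_640417_ag.Far.Index
import Pool.Agent.Lib.MP_640417_ag.Far.Tame
import Pool.Agent.Lib.MP_640417_ag.Far.Prime
import Pool.Agent.Lib.MP_640417_ag.Far.Num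
import Pool.Agent.Lib.MP_640417_ag.Far.IrrEx
import Pool.Agent.Lib.MP_640417_ag.All.FarTypes

/-!
# The irreducible spaces which are not fixed by the stabilizer

As in `Far/Main.lean` (`main_abs`), only for the types `U i` not contained in
`invF ℚ (stabilizer)` (second part of `key`), with the count of `farTypes`. `R'` bounds the
difference of the numbers of orbits of the stabilizer and of its normal closure.
(If `IsoF G (U i) U'` then `U i ≤ invF ℚ (stabilizer)` iff `U' ≤ invF ℚ (stabilizer)`: an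
equivariant isomorphism transports `f (b • s) = f s`.)
-/

set_option autoImplicit false

namespace Pool.Agent.Lib.MP_640417_ag.All

open Module Finset MulAction Pool.Agent.Lib.MP_640417_ag.Far

/-- Isomorphic spaces are fixed by the same elements. -/
private lemma FarPart_le_invF {S G : Type} [Group G] [MulAction G S]
    (H : Subgroup G) {U U' : Submodule ℚ (S → ℚ)} (hiso : IsoF G U U')
    (hle : U ≤ invF ℚ H) : U' ≤ invF ℚ H := by
  obtain ⟨θ, hθ⟩ := hiso
  intro f hf b hb s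
  have h1 := hθ (θ.symm ⟨f, hf⟩) (θ.symm ⟨f, hf⟩) b
    (fun s => (hle (θ.symm ⟨f, hf⟩).2 b hb s).symm) s
  rw [LinearEquiv.apply_symm_apply] at h1
  exact h1.symm

theorem farPart (δ : ℝ) (hδ : 0 < δ) (hδ1 : δ < 1 / 2) : ∃ C : ℝ, 0 < C ∧
    ∀ (S G : Type) [Fintype S] [Group G] [Finite G] [MulAction G S] [IsPretransitive G S]
      (s₀ : S) (z : G) (_ : ∀ γ : G, γ * z = z * γ) (_ : ∀ s : S, z • z • s = s)
      (_ : ∀ s : S, z • s ≠ s) (g : ℕ) (R' : ℝ) (_ : Fintype.card S = 2 * g)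
      (_ : (Nat.card (orbitRel.Quotient (stabilizer G s₀) S) : ℝ) -
        Nat.card (orbitRel.Quotient (Subgroup.normalClosure (stabilizer G s₀ : Set G)) S) ≤ R')
      (_ : R' ≤ (g : ℝ) ^ (1 - δ)),
      ({e : S → ℤ | IsSgn z e ∧ ∃ U' : Submodule ℚ (S → ℚ), IsIrr G U' ∧ IsOddSp z U' ∧
        ¬ U' ≤ invF ℚ (stabilizer G s₀) ∧ Perp e U'}.ncard : ℝ)
      ≤ C * (g : ℝ) ^ (δ - 1) * R' * 2 ^ g := by
  have hBad : StBad := bad_of red_rank (bn_of_core bnCore red_rank) (count_of red_rank)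
  have hIndex : StIndex := index_of semi
  have hTame : StTame := tame
  have hNum : StNum := num_of primeSel
  obtain ⟨C, hC, hnum⟩ := hNum δ hδ hδ1
  refine ⟨C, hC, ?_⟩
  intro S G _ _ _ _ _ s₀ z hz hzz hzne g R' hcard hR hRg
  classical
  obtain ⟨X, hX⟩ := exists_transversal (fun s : S => z • s) hzz hzne
  have hXcard : X.card = g := by
    have h1 := two_mul_card_transversal (fun s : S => z • s) hzz X hX
    omega
  have hg0 : 0 < g := by
    have h1 : 0 < Fintype.card S := Fintype.card_pos_iff.mpr ⟨s₀⟩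
    omega
  have hg0' : (0 : ℝ) < g := by exact_mod_cast hg0
  have hXpow : (2 : ℝ) ^ X.card = 2 ^ g := by rw [hXcard]
  have h2g : (0 : ℝ) < 2 ^ g := by positivity
  obtain ⟨n, U, hU, hUex, hUJ⟩ := farTypes S G s₀ z
  -- dimension data
  set D : Fin n → ℕ := fun i => finrank ℚ (U i) with hD
  set h : Fin n → ℕ := fun i => finrank ℚ ↥(U i ⊓ invF ℚ (stabilizer G s₀)) with hh
  set N : Fin n → ℕ := fun i => (kerSub G (U i)).index with hN
  set x : Fin n → ℝ := fun i => ((badSet z (U i)).ncard : ℝ) / 2 ^ g with hx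
  set J : Finset (Fin n) := Finset.univ.filter (fun i => ¬ U i ≤ invF ℚ (stabilizer G s₀)) with hJ
  have hJmem : ∀ i ∈ J, ¬ U i ≤ invF ℚ (stabilizer G s₀) := fun i hi => (Finset.mem_filter.mp hi).2
  have hsumJ : ((∑ i ∈ J, h i : ℕ) : ℝ) ≤ R' := by
    have h1 := hUJ J hJmem
    have h2 : ((∑ i ∈ J, h i : ℕ) : ℝ) +
        Nat.card (orbitRel.Quotient (Subgroup.normalClosure (stabilizer G s₀ : Set G)) S)
        ≤ Nat.card (orbitRel.Quotient (stabilizer G s₀) S) := by exact_mod_cast h1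
    linarith
  have hhD : ∀ i, h i ≤ D i := fun i => Submodule.finrank_mono inf_le_left
  have hh1 : ∀ i, 1 ≤ h i := by
    intro i
    have h1 := types_inf_ne_bot (G := G) s₀ (U i) (hU i).1.1 (hU i).1.2.1
    rw [Nat.one_le_iff_ne_zero]
    intro h0
    exact h1 (Submodule.finrank_eq_zero.mp h0)
  have hDg : ∀ i, D i ≤ g := fun i => hXcard ▸ Far.finrank_odd_le z X hX (U i) (hU i).2
  have hNpos : ∀ i, 0 < N i := fun i => Nat.pos_of_ne_zero Subgroup.index_ne_zero_of_finite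
  have hhR : ∀ i ∈ J, (h i : ℝ) ≤ (g : ℝ) ^ (1 - δ) := by
    intro i hi
    have h1 : h i ≤ ∑ i ∈ J, h i := Finset.single_le_sum (fun j _ => Nat.zero_le _) hi
    have h2 : (h i : ℝ) ≤ ((∑ i ∈ J, h i : ℕ) : ℝ) := by exact_mod_cast h1
    exact h2.trans (hsumJ.trans hRg)
  have hx0 : ∀ i, 0 ≤ x i := fun i => by positivity
  have hbadle : ∀ i, ((badSet z (U i)).ncard : ℝ) ≤ 2 ^ g := by
    intro i
    have h1 := ncard_isSgn_le z hzz X hX (fun e => ∃ U' : Submodule ℚ (S → ℚ), IsStab G U' ∧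
      IsoF G (U i) U' ∧ Perp e U')
    rw [hXcard] at h1
    have h2 : (((badSet z (U i)).ncard : ℕ) : ℝ) ≤ ((2 ^ g : ℕ) : ℝ) := by
      exact_mod_cast h1
    push_cast at h2
    exact h2
  have hx1 : ∀ i, x i ≤ 1 := by
    intro i
    rw [hx]
    exact (div_le_one h2g).mpr (hbadle i)
  have key : ∀ i ∈ J, h i < D i → x i ≤ C * h i * (g : ℝ) ^ (δ - 1) := by
    intro i hiJ
    have hb := hBad S G s₀ z hzz X hX (U i) (hU i).1.1 (hU i).1.2.1 (hU i).2
    refine (hnum g (D i) (h i) (N i) (x i) (hh1 i) (hhD i) (hDg i) (hNpos i) (hhR i hiJ)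
      (hx0 i) (hx1 i) ?_ ?_ ?_ ?_).2
    · intro r hr
      have h1 := hIndex S G s₀ (U i) (hU i).1 r hr
      rw [hcard] at h1
      have h2 : ((N i : ℕ) : ℝ) ≤ (((2 * g) ^ r : ℕ) : ℝ) := by exact_mod_cast h1
      push_cast at h2
      exact h2
    · intro p hp hDp
      exact hTame S G (U i) (hU i).1.2.1 p hp hDp
    · intro p hp hp2 hpN a ha haD
      have h1 := (hb p hp2 hpN).1 a ha (by rw [hXcard]; exact haD)
      rw [hXpow] at h1
      have h3 : ((p : ℝ) - 1) * x i = ((p : ℝ) - 1) * (badSet z (U i)).ncard / 2 ^ g := by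
        rw [hx]
        ring
      rw [h3, div_le_iff₀ h2g]
      calc _ ≤ _ := h1
        _ = _ := by ring
    · intro p hp hp2 hpN
      have h1 := (hb p hp2 hpN).2
      rw [hXpow] at h1
      have h3 : ((p : ℝ) - 1) * x i = ((p : ℝ) - 1) * (badSet z (U i)).ncard / 2 ^ g := by
        rw [hx]
        ring
      rw [h3, div_le_iff₀ h2g]
      calc _ ≤ _ := h1
        _ = _ := by ring
  -- the set is covered
  have hcover : {e : S → ℤ | IsSgn z e ∧ ∃ U' : Submodule ℚ (S → ℚ), IsIrr G U' ∧ IsOddSp z U' ∧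
        ¬ U' ≤ invF ℚ (stabilizer G s₀) ∧ Perp e U'} ⊆ ⋃ i ∈ J, badSet z (U i) := by
    rintro e ⟨he, U', hU'1, hU'2, hU'3, hU'4⟩
    obtain ⟨i, hi⟩ := hUex U' hU'1 hU'2
    have hiJ : i ∈ J := by
      rw [hJ, Finset.mem_filter]
      exact ⟨Finset.mem_univ i, fun hle => hU'3 (FarPart_le_invF _ hi hle)⟩
    simp only [Set.mem_iUnion]
    exact ⟨i, hiJ, he, U', hU'1.2.1, hi, hU'4⟩
  have hfin : ∀ i, (badSet z (U i)).Finite := fun i => finite_isSgn z _
  have hsum : ({e : S → ℤ | IsSgn z e ∧ ∃ U' : Submodule ℚ (S → ℚ), IsIrr G U' ∧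
        IsOddSp z U' ∧ ¬ U' ≤ invF ℚ (stabilizer G s₀) ∧ Perp e U'}.ncard : ℝ)
        ≤ (∑ i ∈ J, x i) * 2 ^ g := by
    have h1 : {e : S → ℤ | IsSgn z e ∧ ∃ U' : Submodule ℚ (S → ℚ), IsIrr G U' ∧ IsOddSp z U' ∧
        ¬ U' ≤ invF ℚ (stabilizer G s₀) ∧ Perp e U'}.ncard
        ≤ ∑ i ∈ J, (badSet z (U i)).ncard :=
      (Set.ncard_le_ncard hcover (Set.Finite.biUnion (Set.toFinite _) (fun i _ => hfin i))).trans
        (Finset.set_ncard_biUnion_le _ _)
    have h2 : ((∑ i ∈ J, (badSet z (U i)).ncard : ℕ) : ℝ) = (∑ i ∈ J, x i) * 2 ^ g := by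
      push_cast
      rw [Finset.sum_mul]
      apply Finset.sum_congr rfl
      intro i _
      rw [hx]
      field_simp
    rw [← h2]
    exact_mod_cast h1
  refine hsum.trans (mul_le_mul_of_nonneg_right ?_ h2g.le)
  calc ∑ i ∈ J, x i ≤ ∑ i ∈ J, C * h i * (g : ℝ) ^ (δ - 1) := by
        apply Finset.sum_le_sum
        intro i hi
        apply key i hi
        apply Submodule.finrank_lt_finrank_of_lt
        apply lt_of_le_of_ne inf_le_left
        intro h1
        exact (hJmem i hi) (inf_eq_left.mp h1)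
    _ = C * (g : ℝ) ^ (δ - 1) * ((∑ i ∈ J, h i : ℕ) : ℝ) := by
        push_cast
        rw [Finset.mul_sum]
        apply Finset.sum_congr rfl
        intro i _
        ring
    _ ≤ C * (g : ℝ) ^ (δ - 1) * R' :=
        mul_le_mul_of_nonneg_left hsumJ (by positivity)

end Pool.Agent.Lib.MP_640417_ag.All
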