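import Pool.Agent.Lib.MP_640417_ag.All.JPart
import Pool.Agent.Lib.MP_640417_ag.All.FarPart
import Pool.Agent.Lib.MP_640417_ag.Far.Semi
import Pool.Agent.Lib.MP_640417_ag.Far.IrrEx

/-!
# The group theoretic form

By `irrEx` the set below is the union of the sets of `jPart` and `farPart`. If `R' > g^{1-δ}` the
bound is trivial (`ncard_isSgn_le`).
-/

set_option autoImplicit false

namespace Pool.Agent.Lib.MP_640417_ag.All

open Module Finset MulAction Pool.Agent.Lib.MP_640417_ag.Far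

theorem absMain (δ : ℝ) (hδ : 0 < δ) (hδ1 : δ < 1 / 2) : ∃ C : ℝ, 0 < C ∧
    ∀ (S G : Type) [Fintype S] [Group G] [Finite G] [MulAction G S] [IsPretransitive G S]
      (s₀ : S) (z : G) (_ : ∀ γ : G, γ * z = z * γ) (_ : ∀ s : S, z • z • s = s)
      (_ : ∀ s : S, z • s ≠ s) (g : ℕ) (_ : Fintype.card S = 2 * g) (N : Subgroup G)
      [N.Normal] (_ : N = Subgroup.normalClosure (stabilizer G s₀ : Set G)) (R' : ℝ)
      (_ : (Nat.card (orbitRel.Quotient (stabilizer G s₀) S) : ℝ) -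
        Nat.card (orbitRel.Quotient (Subgroup.normalClosure (stabilizer G s₀ : Set G)) S) ≤ R')
      (_ : 0 ≤ R'),
      ({e : S → ℤ | IsSgn z e ∧ ∃ v : S → ℤ, v ≠ 0 ∧ (∀ s, v (z • s) = - v s) ∧
        ∀ γ : G, ∑ s, v s * e (γ • s) = 0}.ncard : ℝ)
      ≤ C * (numA (G ⧸ N) z / Real.sqrt g + numB (G ⧸ N) z / g + (g : ℝ) ^ (δ - 1) *
            (1 + ((numS (G ⧸ N) : ℝ) * (Nat.card (G ⧸ N) : ℝ) ^ 3) ^ (1 / 4 : ℝ) + R')) * 2 ^ g := by
  classical
  obtain ⟨C₁, hC₁, hj⟩ := jPart δ hδ hδ1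
  obtain ⟨C₂, hC₂, hf⟩ := farPart δ hδ hδ1
  refine ⟨C₁ + C₂ + 1, by linarith, ?_⟩
  intro S G _ _ _ _ _ s₀ z hz hzz hzne g hcard N _ hN R' hR' hR0
  have hg0 : 0 < g := by
    have h1 : 0 < Fintype.card S := Fintype.card_pos_iff.mpr ⟨s₀⟩
    omega
  have hg0' : (0 : ℝ) < g := by exact_mod_cast hg0
  have h2g : (0 : ℝ) < 2 ^ g := by positivity
  set X : ℝ := ((numS (G ⧸ N) : ℝ) * (Nat.card (G ⧸ N) : ℝ) ^ 3) ^ (1 / 4 : ℝ) with hX
  set A : ℝ := numA (G ⧸ N) z / Real.sqrt g with hA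
  set B : ℝ := numB (G ⧸ N) z / g with hB
  set q : ℝ := (g : ℝ) ^ (δ - 1) with hq
  have hX0 : 0 ≤ X := by positivity
  have hA0 : 0 ≤ A := by positivity
  have hB0 : 0 ≤ B := by positivity
  have hq0 : 0 < q := by positivity
  have hqX : 0 ≤ q * (1 + X) := by positivity
  have hqR : 0 ≤ q * R' := by positivity
  by_cases hRg : R' ≤ (g : ℝ) ^ (1 - δ)
  · -- both parts
    have h1 := hj S G s₀ z hz hzz hzne g hcard N hN
    have h2 := hf S G s₀ z hz hzz hzne g R' hcard hR' hRg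
    have hcover : {e : S → ℤ | IsSgn z e ∧ ∃ v : S → ℤ, v ≠ 0 ∧ (∀ s, v (z • s) = - v s) ∧
        ∀ γ : G, ∑ s, v s * e (γ • s) = 0} ⊆
        {e : S → ℤ | IsSgn z e ∧ ∃ U' : Submodule ℚ (S → ℚ), IsIrr G U' ∧ IsOddSp z U' ∧
          U' ≤ invF ℚ (stabilizer G s₀) ∧ Perp e U'} ∪
        {e : S → ℤ | IsSgn z e ∧ ∃ U' : Submodule ℚ (S → ℚ), IsIrr G U' ∧ IsOddSp z U' ∧
          ¬ U' ≤ invF ℚ (stabilizer G s₀) ∧ Perp e U'} := by
      rintro e ⟨he, v, hv0, hvz, hv⟩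
      obtain ⟨U', hU'1, hU'2, hU'3⟩ := irrEx S G z hz e v hv0 hvz hv
      by_cases hle : U' ≤ invF ℚ (stabilizer G s₀)
      · exact Or.inl ⟨he, U', hU'1, hU'2, hle, hU'3⟩
      · exact Or.inr ⟨he, U', hU'1, hU'2, hle, hU'3⟩
    have h3 := (Set.ncard_le_ncard hcover
      (Set.Finite.union (finite_isSgn z _) (finite_isSgn z _))).trans (Set.ncard_union_le _ _)
    have h4 : (({e : S → ℤ | IsSgn z e ∧ ∃ v : S → ℤ, v ≠ 0 ∧ (∀ s, v (z • s) = - v s) ∧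
        ∀ γ : G, ∑ s, v s * e (γ • s) = 0}.ncard : ℕ) : ℝ) ≤
        (({e : S → ℤ | IsSgn z e ∧ ∃ U' : Submodule ℚ (S → ℚ), IsIrr G U' ∧ IsOddSp z U' ∧
          U' ≤ invF ℚ (stabilizer G s₀) ∧ Perp e U'}.ncard : ℕ) : ℝ) +
        (({e : S → ℤ | IsSgn z e ∧ ∃ U' : Submodule ℚ (S → ℚ), IsIrr G U' ∧ IsOddSp z U' ∧
          ¬ U' ≤ invF ℚ (stabilizer G s₀) ∧ Perp e U'}.ncard : ℕ) : ℝ) := by
      exact_mod_cast h3
    refine h4.trans ((add_le_add h1 h2).trans ?_)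
    rw [← add_mul]
    refine mul_le_mul_of_nonneg_right ?_ h2g.le
    have e1 : (C₁ + C₂ + 1) * (A + B + q * (1 + X + R')) =
        C₁ * (A + B + q * (1 + X)) + C₂ * q * R' +
          (C₁ * (q * R') + C₂ * (A + B + q * (1 + X)) + (A + B + q * (1 + X) + q * R')) := by
      ring
    rw [e1]
    have e2 : 0 ≤ C₁ * (q * R') + C₂ * (A + B + q * (1 + X)) + (A + B + q * (1 + X) + q * R') := by
      positivity
    linarith
  · -- the bound is trivial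
    push Not at hRg
    obtain ⟨T, hT⟩ := exists_transversal (fun s : S => z • s) hzz hzne
    have hTcard : T.card = g := by
      have h1 := two_mul_card_transversal (fun s : S => z • s) hzz T hT
      omega
    have h1 := ncard_isSgn_le z hzz T hT (fun e => ∃ v : S → ℤ, v ≠ 0 ∧
      (∀ s, v (z • s) = - v s) ∧ ∀ γ : G, ∑ s, v s * e (γ • s) = 0)
    rw [hTcard] at h1
    have h2 : (({e : S → ℤ | IsSgn z e ∧ ∃ v : S → ℤ, v ≠ 0 ∧ (∀ s, v (z • s) = - v s) ∧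
        ∀ γ : G, ∑ s, v s * e (γ • s) = 0}.ncard : ℕ) : ℝ) ≤ 2 ^ g := by
      exact_mod_cast h1
    refine h2.trans ?_
    have h3 : 1 ≤ q * R' := by
      have h4 : q * (g : ℝ) ^ (1 - δ) = 1 := by
        rw [hq, ← Real.rpow_add hg0']
        have h5 : δ - 1 + (1 - δ) = 0 := by ring
        rw [h5, Real.rpow_zero]
      rw [← h4]
      exact mul_le_mul_of_nonneg_left hRg.le hq0.le
    have h6 : 1 ≤ (C₁ + C₂ + 1) * (A + B + q * (1 + X + R')) := by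
      have e1 : (C₁ + C₂ + 1) * (A + B + q * (1 + X + R')) =
          q * R' + ((C₁ + C₂) * (A + B + q * (1 + X) + q * R') + (A + B + q * (1 + X))) := by
        ring
      rw [e1]
      have e2 : 0 ≤ (C₁ + C₂) * (A + B + q * (1 + X) + q * R') + (A + B + q * (1 + X)) := by
        positivity
      linarith
    calc (2 : ℝ) ^ g = 1 * 2 ^ g := by ring
      _ ≤ _ := mul_le_mul_of_nonneg_right h6 h2g.le

end Pool.Agent.Lib.MP_640417_ag.All
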