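import Pool.Agent.Lib.MP_640417_ag.All.Defs

/-!
# Basic facts on covers

All statements are elementary. `x ∈ X` is counted for exactly the two elements `h = τ x` and
`h = c (τ x)` (they differ as `c ≠ 1`, and `c (c h) = h`).
-/

set_option autoImplicit false

namespace Pool.Agent.Lib.MP_640417_ag.All

open Module Finset Pool.Agent.Lib.MP_640417_ag.OddGal

variable {G X : Type} [Group G] [Fintype G] [Fintype X] {c : G} {τ : X → G} {κ : ℕ}

open Classical in
private theorem Basic_prod {M : Type} [CommMonoid M] (hc : Cover c τ κ) (y : G → M)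
    (hy : ∀ h, y (c * h) = y h) :
    (∏ x, y (τ x)) ^ 2 = (∏ h, y h) ^ κ := by
  have h1 : ∀ x : X, (∏ h ∈ Finset.univ.filter (fun h => τ x = h ∨ τ x = c * h), y h)
      = y (τ x) ^ 2 := by
    intro x
    have hset : Finset.univ.filter (fun h => τ x = h ∨ τ x = c * h) = {τ x, c * τ x} := by
      ext h
      simp only [Finset.mem_filter, Finset.mem_univ, true_and, Finset.mem_insert,
        Finset.mem_singleton]
      constructor
      · rintro (h1 | h1)
        · left; exact h1.symm
        · right
          rw [h1, ← mul_assoc, hc.sq, one_mul]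
      · rintro (h1 | h1)
        · left; exact h1.symm
        · right
          rw [h1, ← mul_assoc, hc.sq, one_mul]
    have hne : τ x ≠ c * τ x := by
      intro h
      exact hc.ne_one (by simpa using h.symm)
    rw [hset, Finset.prod_pair hne, hy, sq]
  have h2 : ∀ h : G, (∏ x ∈ Finset.univ.filter (fun x => τ x = h ∨ τ x = c * h), y h)
      = y h ^ κ := by
    intro h
    rw [Finset.prod_const]
    congr 1
    rw [← hc.count h, ← Set.ncard_coe_finset]
    congr 1
    ext x
    simp
  rw [← Finset.prod_pow, ← Finset.prod_pow, ← Finset.prod_congr rfl (fun x _ => h1 x),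
    ← Finset.prod_congr rfl (fun h _ => h2 h)]
  simp_rw [Finset.prod_filter]
  rw [Finset.prod_comm]

/-- The same over a `c`-stable set `A`. -/
theorem Cover.ncard_preimage (hc : Cover c τ κ) (A : Set G) (hA : ∀ h, h ∈ A ↔ c * h ∈ A) :
    2 * {x : X | τ x ∈ A}.ncard = κ * A.ncard := by
  classical
  have h := Basic_prod (M := Multiplicative ℕ) hc
    (fun h => Multiplicative.ofAdd (if h ∈ A then 1 else 0)) (by
      intro h
      by_cases hh : h ∈ A
      · rw [if_pos hh, if_pos ((hA h).1 hh)]
      · rw [if_neg hh, if_neg (fun h2 => hh ((hA h).2 h2))])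
  have h' := congrArg Multiplicative.toAdd h
  rw [toAdd_pow, toAdd_pow, toAdd_prod, toAdd_prod] at h'
  simp only [toAdd_ofAdd, Finset.sum_boole, smul_eq_mul, Nat.cast_id] at h'
  have e1 : {x : X | τ x ∈ A}.ncard = (Finset.univ.filter (fun x => τ x ∈ A)).card := by
    rw [← Set.ncard_coe_finset]
    congr 1
    ext x
    simp
  have e2 : A.ncard = (Finset.univ.filter (fun x => x ∈ A)).card := by
    rw [← Set.ncard_coe_finset]
    congr 1
    ext x
    simp
  rw [e1, e2]
  exact h'

/-- Double counting of pairs `(x, h)` with `τ x ∈ {h, c h}`. -/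
theorem Cover.card_mul (hc : Cover c τ κ) : κ * Fintype.card G = 2 * Fintype.card X := by
  have h := hc.ncard_preimage Set.univ (by simp)
  simp only [Set.mem_univ, Set.ofPred_true, Set.ncard_univ, Nat.card_eq_fintype_card] at h
  exact h.symm

/-- Products over the cover of an even function: over the fibres of `X → G/c` the factor
`y h` occurs `κ` times for the pair `{h, c h}`. -/
theorem Cover.prod_sq (hc : Cover c τ κ) (y : G → ℝ) (hy : ∀ h, y (c * h) = y h) :
    (∏ x, y (τ x)) ^ 2 = (∏ h, y h) ^ κ :=
  Basic_prod hc y hy

/-- The composite with the quotient by a normal subgroup not containing `c`. -/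
theorem Cover.quotient (hc : Cover c τ κ) (N : Subgroup G) [N.Normal] (hN : c ∉ N) :
    Cover (c : G ⧸ N) (fun x => (τ x : G ⧸ N)) (κ * Nat.card N) := by
  classical
  refine ⟨?_, ?_, ?_, ?_⟩
  · intro h
    induction h using QuotientGroup.induction_on with
    | H z =>
      rw [← QuotientGroup.mk_mul, ← QuotientGroup.mk_mul, hc.central]
  · rw [← QuotientGroup.mk_mul, hc.sq, QuotientGroup.mk_one]
  · intro h
    exact hN ((QuotientGroup.eq_one_iff c).1 h)
  · intro h
    induction h using QuotientGroup.induction_on with
    | H z =>
      have hcc : ∀ g : G, c * (c * g) = g := fun g => by rw [← mul_assoc, hc.sq, one_mul]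
      have key := hc.ncard_preimage
        {g : G | (g : G ⧸ N) = (z : G ⧸ N) ∨ (g : G ⧸ N) = (c : G ⧸ N) * (z : G ⧸ N)} (by
          intro g
          simp only [Set.mem_ofPred_eq]
          have hcc' : ((c : G ⧸ N)) * (c : G ⧸ N) = 1 := by
            rw [← QuotientGroup.mk_mul, hc.sq, QuotientGroup.mk_one]
          rw [QuotientGroup.mk_mul]
          constructor
          · rintro (h1 | h1)
            · right; rw [h1]
            · left; rw [h1, ← mul_assoc, hcc', one_mul]
          · rintro (h1 | h1)
            · right
              rw [← h1, ← mul_assoc, hcc', one_mul]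
            · left
              exact mul_left_cancel h1)
      have hcard : {g : G | (g : G ⧸ N) = (z : G ⧸ N) ∨
          (g : G ⧸ N) = (c : G ⧸ N) * (z : G ⧸ N)}.ncard = 2 * Nat.card N := by
        have hsplit : {g : G | (g : G ⧸ N) = (z : G ⧸ N) ∨
            (g : G ⧸ N) = (c : G ⧸ N) * (z : G ⧸ N)} =
            ((fun n : G => z * n) '' (N : Set G)) ∪ ((fun n : G => (c * z) * n) '' (N : Set G)) := by
          ext g
          simp only [Set.mem_ofPred_eq, Set.mem_union, Set.mem_image, SetLike.mem_coe]
          rw [← QuotientGroup.mk_mul]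
          constructor
          · rintro (h1 | h1)
            · left
              exact ⟨z⁻¹ * g, QuotientGroup.eq.1 h1.symm, by group⟩
            · right
              exact ⟨(c * z)⁻¹ * g, QuotientGroup.eq.1 h1.symm, by group⟩
          · rintro (⟨n, hn, rfl⟩ | ⟨n, hn, rfl⟩)
            · left
              exact (QuotientGroup.eq.2 (by simpa using hn)).symm
            · right
              exact (QuotientGroup.eq.2 (by
                rw [← mul_assoc, inv_mul_cancel, one_mul]; exact hn)).symm
        have hdisj : Disjoint ((fun n : G => z * n) '' (N : Set G))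
            ((fun n : G => (c * z) * n) '' (N : Set G)) := by
          rw [Set.disjoint_left]
          rintro g ⟨n, hn, rfl⟩ ⟨m, hm, hmn⟩
          simp only at hmn
          apply hN
          have h3 : c * (z * m) = z * n := by rw [← hmn, mul_assoc]
          have h4 : z * c * m = z * n := by rw [← h3, ← mul_assoc, hc.central z]
          have h5 : c * m = n := by
            rw [mul_assoc] at h4
            exact mul_left_cancel h4
          have h6 : c = n * m⁻¹ := by rw [← h5]; group
          rw [h6]
          exact N.mul_mem hn (N.inv_mem hm)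
        rw [hsplit, Set.ncard_union_eq hdisj (Set.toFinite _) (Set.toFinite _),
          Set.ncard_image_of_injective _ (mul_right_injective _),
          Set.ncard_image_of_injective _ (mul_right_injective _), two_mul]
        have : (N : Set G).ncard = Nat.card N := by
          rw [← Nat.card_coe_set_eq]
          rfl
        rw [this]
      rw [hcard] at key
      simp only [Set.mem_ofPred_eq] at key
      have : 2 * {x : X | (τ x : G ⧸ N) = (z : G ⧸ N) ∨
          (τ x : G ⧸ N) = (c : G ⧸ N) * (z : G ⧸ N)}.ncard = 2 * (κ * Nat.card N) := by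
        rw [key]; ring
      exact Nat.eq_of_mul_eq_mul_left (by norm_num) this

/-- Transport along an isomorphism of groups. -/
theorem Cover.congr {G' : Type} [Group G'] (hc : Cover c τ κ) (φ : G ≃* G') :
    Cover (φ c) (fun x => φ (τ x)) κ := by
  refine ⟨?_, ?_, ?_, ?_⟩
  · intro h
    obtain ⟨g, rfl⟩ := φ.surjective h
    rw [← map_mul, ← map_mul, hc.central]
  · rw [← map_mul, hc.sq, map_one]
  · intro h
    exact hc.ne_one (φ.injective (by rw [h, map_one]))
  · intro h
    obtain ⟨g, rfl⟩ := φ.surjective h
    rw [← hc.count g]
    congr 1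
    ext x
    simp only [Set.mem_ofPred_eq]
    rw [← map_mul, φ.injective.eq_iff, φ.injective.eq_iff]

end Pool.Agent.Lib.MP_640417_ag.All
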