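import Pool.Agent.Lib.MP_640417_ag.All.Defs

/-!
# The singular sign vectors depend only on the character

For a rational matrix `M` (here `M = ∑ ε x • ρ (τ x)`): `M` is singular iff there is a matrix
`B ≠ 0` with `M B = 0`. Write `B = ∑_h f h • ρ h` with `f : G → ℚ` (`Rep.span`). By the same
property a matrix `Z` is `0` iff `tr (ρ g * Z) = 0` for all `g`. So `M` is singular iff there is
`f : G → ℚ` with `∑_h f h χ(g h) ≠ 0` for some `g` and `∑_x ∑_h ε x f h χ(g (τ x) h) = 0` for all
`g`, where `χ = trace ∘ ρ`.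
-/

set_option autoImplicit false

namespace Pool.Agent.Lib.MP_640417_ag.All

open Module Finset Matrix Pool.Agent.Lib.MP_640417_ag.OddGal

variable {G X : Type} [Group G] [Fintype G] [Fintype X] {c : G}

/-- Singular matrices have a nonzero right annihilator. -/
private theorem charEvent_ann {n : ℕ} (M : Matrix (Fin n) (Fin n) ℚ) :
    M.det = 0 ↔ ∃ B : Matrix (Fin n) (Fin n) ℚ, B ≠ 0 ∧ M * B = 0 := by
  constructor
  · intro h
    obtain ⟨v, hv0, hv⟩ := Matrix.exists_mulVec_eq_zero_iff.mpr h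
    refine ⟨Matrix.of fun i _ => v i, ?_, ?_⟩
    · intro h0
      apply hv0
      funext i
      exact congrFun (congrFun h0 i) i
    · ext i j
      exact congrFun hv i
  · rintro ⟨B, hB0, hB⟩
    by_contra hdet
    apply hB0
    have h1 := Matrix.nonsing_inv_mul M (isUnit_iff_ne_zero.mpr hdet)
    calc B = (M⁻¹ * M) * B := by rw [h1, one_mul]
      _ = 0 := by rw [mul_assoc, hB, mul_zero]

/-- A matrix is zero if its products with a spanning family have trace zero. -/
private theorem charEvent_zero {n : ℕ} {R : G → Matrix (Fin n) (Fin n) ℚ}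
    (hR : Submodule.span ℚ (Set.range R) = ⊤) (Z : Matrix (Fin n) (Fin n) ℚ) :
    Z = 0 ↔ ∀ g, (R g * Z).trace = 0 := by
  constructor
  · rintro rfl g
    rw [mul_zero, Matrix.trace_zero]
  · intro h
    rw [Matrix.ext_iff_trace_mul_left]
    intro B
    rw [mul_zero, Matrix.trace_zero]
    have hB : B ∈ Submodule.span ℚ (Set.range R) := by
      rw [hR]
      exact Submodule.mem_top
    induction hB using Submodule.span_induction with
    | mem x hx =>
      obtain ⟨g, rfl⟩ := hx
      exact h g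
    | zero => rw [zero_mul, Matrix.trace_zero]
    | add x y _ _ hx hy => rw [add_mul, Matrix.trace_add, hx, hy, add_zero]
    | smul a x _ hx => rw [smul_mul_assoc, Matrix.trace_smul, hx, smul_zero]

/-- Singularity in terms of the character. -/
private theorem charEvent_iff {n : ℕ} {R : G →* Matrix (Fin n) (Fin n) ℚ}
    (hR : Submodule.span ℚ (Set.range R) = ⊤) (τ : X → G) (ε : X → ℚ) :
    (∑ x, ε x • R (τ x)).det = 0 ↔ ∃ f : G → ℚ, (∃ g, ∑ h, f h * (R (g * h)).trace ≠ 0) ∧
      ∀ g, ∑ x, ∑ h, ε x * f h * (R (g * τ x * h)).trace = 0 := by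
  have h1 : ∀ (f : G → ℚ) (g : G), (R g * ∑ h, f h • R h).trace =
      ∑ h, f h * (R (g * h)).trace := by
    intro f g
    rw [Finset.mul_sum, Matrix.trace_sum]
    apply Finset.sum_congr rfl
    intro h _
    rw [mul_smul_comm, Matrix.trace_smul, ← map_mul, smul_eq_mul]
  have h2 : ∀ (f : G → ℚ) (g : G), (R g * ((∑ x, ε x • R (τ x)) * ∑ h, f h • R h)).trace =
      ∑ x, ∑ h, ε x * f h * (R (g * τ x * h)).trace := by
    intro f g
    rw [Finset.sum_mul, Finset.mul_sum, Matrix.trace_sum]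
    apply Finset.sum_congr rfl
    intro x _
    rw [Finset.mul_sum, Finset.mul_sum, Matrix.trace_sum]
    apply Finset.sum_congr rfl
    intro h _
    rw [smul_mul_smul_comm, mul_smul_comm, Matrix.trace_smul, ← map_mul, ← map_mul, smul_eq_mul,
      mul_assoc g]
  rw [charEvent_ann]
  constructor
  · rintro ⟨B, hB0, hB⟩
    have hB' : B ∈ Submodule.span ℚ (Set.range R) := by
      rw [hR]
      exact Submodule.mem_top
    obtain ⟨f, rfl⟩ := (Submodule.mem_span_range_iff_exists_fun ℚ).mp hB'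
    refine ⟨f, ?_, fun g => ?_⟩
    · by_contra hcon
      push Not at hcon
      exact hB0 ((charEvent_zero hR _).mpr fun g => by rw [h1, hcon])
    · rw [← h2, hB, mul_zero, Matrix.trace_zero]
  · rintro ⟨f, ⟨g, hg⟩, hf⟩
    refine ⟨∑ h, f h • R h, ?_, ?_⟩
    · intro h0
      apply hg
      rw [← h1, h0, mul_zero, Matrix.trace_zero]
    · exact (charEvent_zero hR _).mpr fun g => by rw [h2, hf]

theorem singX_eq_of_trace {n : ℕ} {ρ ρ' : G →* Matrix (Fin n) (Fin n) ℤ} (hρ : Rep c n ρ)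
    (hρ' : Rep c n ρ') (h : ∀ g, (ρ g).trace = (ρ' g).trace) (τ : X → G) :
    singX ρ τ = singX ρ' τ := by
  classical
  have key : ∀ {ρ : G →* Matrix (Fin n) (Fin n) ℤ}, Rep c n ρ → ∀ ε : X → ℤ,
      (∑ x, ε x • ρ (τ x)).det = 0 ↔ ∃ f : G → ℚ, (∃ g, ∑ h, f h * ((ρ (g * h)).trace : ℚ) ≠ 0) ∧
      ∀ g, ∑ x, ∑ h, (ε x : ℚ) * f h * ((ρ (g * τ x * h)).trace : ℚ) = 0 := by
    intro ρ hρ ε
    let R : G →* Matrix (Fin n) (Fin n) ℚ :=
      (RingHom.toMonoidHom (Int.castRingHom ℚ).mapMatrix).comp ρ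
    have hR : Submodule.span ℚ (Set.range R) = ⊤ := hρ.span
    have h1 : ∀ g, (R g).trace = ((ρ g).trace : ℚ) := by
      intro g
      rw [Matrix.trace, Matrix.trace, Int.cast_sum]
      rfl
    have h2 : ((∑ x, ε x • ρ (τ x)).det : ℚ) = (∑ x, (ε x : ℚ) • R (τ x)).det := by
      have h3 := RingHom.map_det (Int.castRingHom ℚ) (∑ x, ε x • ρ (τ x))
      rw [eq_intCast] at h3
      rw [h3, map_sum]
      congr 1
      apply Finset.sum_congr rfl
      intro x _
      ext i j
      change (((ε x • ρ (τ x)) i j : ℤ) : ℚ) = (ε x : ℚ) * ((ρ (τ x) i j : ℤ) : ℚ)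
      rw [Matrix.smul_apply, smul_eq_mul, Int.cast_mul]
    have h3 := charEvent_iff hR τ (fun x => (ε x : ℚ))
    simp only [h1] at h3
    rw [← h3, ← h2, Int.cast_eq_zero]
  ext ε
  rw [singX, singX, Finset.mem_filter, Finset.mem_filter, key hρ, key hρ']
  simp only [h]

end Pool.Agent.Lib.MP_640417_ag.All
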