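import Pool.Agent.Lib.MP_640417_ag.OddLemmaCD
import Pool.Agent.Lib.MP_640417_ag.OddAlgD

/-!
# Sign vectors on a cover of a finite group: definitions

`G` is a finite group, `c` a central involution, `τ : X → G` a map which hits every pair `{h, c h}`
exactly `κ` times. A sign vector `ε` on `X` gives the element `∑ ε x • τ x` of the group ring.
-/

set_option autoImplicit false

namespace Pool.Agent.Lib.MP_640417_ag.All

open Module Finset Pool.Agent.Lib.MP_640417_ag.OddGal

/-- `c` is a central involution and `τ` hits every pair `{h, c h}` exactly `κ` times. -/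
structure Cover {G X : Type} [Group G] (c : G) (τ : X → G) (κ : ℕ) : Prop where
  central : ∀ h, c * h = h * c
  sq : c * c = 1
  ne_one : c ≠ 1
  count : ∀ h : G, {x : X | τ x = h ∨ τ x = c * h}.ncard = κ

section defs

variable {G X : Type} [Group G] [Fintype G] [Fintype X]

/-- The element `∑ ε x • τ x` of the integral group ring. -/
noncomputable def eltX (τ : X → G) (ε : X → ℤ) : MonoidAlgebra ℤ G :=
  ∑ x, MonoidAlgebra.single (τ x) (ε x)

/-- The sign vector `ε` has a nonzero left annihilator of type `e`. -/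
def BadAtX (e : MonoidAlgebra ℚ G) (τ : X → G) (ε : X → ℤ) : Prop :=
  ∃ y : MonoidAlgebra ℤ G, y ≠ 0 ∧ e * toQ y = toQ y ∧ y * eltX τ ε = 0

open Classical in
/-- The sign vectors with a nonzero left annihilator of type `e`. -/
noncomputable def badSetX (e : MonoidAlgebra ℚ G) (τ : X → G) : Finset (X → ℤ) :=
  (signs X).filter (BadAtX e τ)

/-- The sign vector `ε` has a nonzero odd left annihilator. -/
def BadX (c : G) (τ : X → G) (ε : X → ℤ) : Prop :=
  ∃ y : MonoidAlgebra ℤ G, y ≠ 0 ∧ MonoidAlgebra.single c 1 * y = -y ∧ y * eltX τ ε = 0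

/-- The type `e` is odd: `c` acts as `-1`. -/
def OddE (c : G) (e : MonoidAlgebra ℚ G) : Prop := MonoidAlgebra.single c (1 : ℚ) * e = -e

/-- There is a nonzero left ideal of `e ℚ[G]` of dimension at most `√(rk e)`. -/
def Split (e : MonoidAlgebra ℚ G) : Prop :=
  ∃ I : Submodule ℚ (MonoidAlgebra ℚ G), I ≠ ⊥ ∧ I ≤ comp e ∧ (∀ a, ∀ x ∈ I, a * x ∈ I) ∧
    finrank ℚ I ^ 2 ≤ rk e

/-- An integral representation whose matrices span all matrices over `ℚ`, `c` acting as `-1`. -/
structure Rep (c : G) (n : ℕ) (ρ : G →* Matrix (Fin n) (Fin n) ℤ) : Prop where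
  neg : ρ c = -1
  span : Submodule.span ℚ (Set.range fun h : G => (ρ h).map (Int.cast : ℤ → ℚ)) = ⊤

open Classical in
/-- The sign vectors for which the matrix `∑ ε x • ρ (τ x)` is singular. -/
noncomputable def singX {n : ℕ} (ρ : G →* Matrix (Fin n) (Fin n) ℤ) (τ : X → G) :
    Finset (X → ℤ) :=
  (signs X).filter (fun ε => (∑ x, ε x • ρ (τ x)).det = 0)

open Classical in
/-- The coordinate of `ε` at the pair `{h, c h}`. -/
noncomputable def sh (c : G) (τ : X → G) (ε : X → ℤ) (h : G) : ℤ :=
  ∑ x, ε x * (if τ x = h then 1 else if τ x = c * h then -1 else 0)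

/-- Reduction of an integral matrix modulo `p`. -/
def redM (p : ℕ) {n : ℕ} (M : Matrix (Fin n) (Fin n) ℤ) : Matrix (Fin n) (Fin n) (ZMod p) :=
  M.map (Int.cast : ℤ → ZMod p)

/-- The number of subgroups of index `2` not containing `c`. -/
noncomputable def numA (G : Type) [Group G] (c : G) : ℕ :=
  {M : Subgroup G | M.index = 2 ∧ c ∉ M}.ncard

/-- The number of normal subgroups not containing `c` with cyclic quotient of order `4`
or `6`. -/
noncomputable def numB (G : Type) [Group G] (c : G) : ℕ :=
  {M : Subgroup G | (∃ _ : M.Normal, IsCyclic (G ⧸ M)) ∧ (M.index = 4 ∨ M.index = 6) ∧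
    c ∉ M}.ncard

/-- The number of nonlinear irreducible complex characters: the number of conjugacy classes minus
the order of the abelianization. -/
noncomputable def numS (G : Type) [Group G] : ℕ :=
  Nat.card (ConjClasses G) - Nat.card (Abelianization G)

end defs

end Pool.Agent.Lib.MP_640417_ag.All
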