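import Pool.Agent.Lib.MP_640417_ag.All.AMGM

/-!
# Sums over functionals for a family with translations, on a cover

Copies of `OddRel.sum_prod_cs_le` and `OddRel.card_relSet_le` with the cover and with an arbitrary
even function `F : ZMod p → [0, 1]` in place of `cs p`.
-/

set_option autoImplicit false

namespace Pool.Agent.Lib.MP_640417_ag.All

open Module Finset Pool.Agent.Lib.MP_640417_ag.OddGal

variable {G X : Type} [Group G] [Fintype G] [Fintype X] {c : G} {τ : X → G} {κ : ℕ}
  {p : ℕ} [Fact p.Prime] {S : Type} [AddCommGroup S] [Module (ZMod p) S] [Fintype S]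

/-- Choose `a : κ' → G` with `w ∘ a` a basis of `S` (`exists_linearIndependent'`), apply
`prod_le_averageX` to `y h = F (ξ (w h))` (even since `w (c h) = - w h`), exchange the sums; for
each `k` the sum over `ξ` is a product by `sum_dual_prod` with the basis `b.map (T k)`. -/
theorem sum_prod_leX (hc : Cover c τ κ) [Fintype (Dual (ZMod p) S)] (w : G → S)
    (T : G → S ≃ₗ[ZMod p] S) (hT : ∀ k h, T k (w h) = w (h * k))
    (hspan : Submodule.span (ZMod p) (Set.range w) = ⊤) (hodd : ∀ h, w (c * h) = - w h)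
    (F : ZMod p → ℝ) (hF0 : ∀ a, 0 ≤ F a) (hF1 : ∀ a, F a ≤ 1) (hFe : ∀ a, F (-a) = F a)
    (t : ℕ) (ht : finrank (ZMod p) S * t ≤ Fintype.card X) :
    ∑ ξ : Dual (ZMod p) S, ∏ x, F (ξ (w (τ x))) ≤ (∑ a : ZMod p, F a ^ t) ^ finrank (ZMod p) S := by
  classical
  obtain ⟨ι, a, ha, hsp, hli⟩ := exists_linearIndependent' (ZMod p) w
  have : Finite ι := Finite.of_injective a ha
  have : Fintype ι := Fintype.ofFinite ι
  let b : Basis ι (ZMod p) S := Basis.mk hli (by rw [hsp, hspan])
  have hb : ∀ i, b i = w (a i) := fun i => by simp [b]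
  have hcard : Fintype.card ι = finrank (ZMod p) S := (finrank_eq_card_basis b).symm
  have hg0 : (0 : ℝ) < Fintype.card G := by exact_mod_cast Fintype.card_pos
  have h1 : ∀ ξ : Dual (ZMod p) S, ∏ x, F (ξ (w (τ x)))
      ≤ (∑ k : G, (∏ i : ι, F (ξ (w (a i * k)))) ^ t) / Fintype.card G := by
    intro ξ
    exact prod_le_averageX hc (fun h => F (ξ (w h))) (fun h => hF0 _)
      (fun h => hF1 _) (fun h => by rw [hodd, map_neg, hFe]) a t (by rw [hcard]; exact ht)
  refine (Finset.sum_le_sum (fun ξ _ => h1 ξ)).trans ?_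
  rw [← Finset.sum_div, div_le_iff₀ hg0, Finset.sum_comm]
  have h2 : ∀ k : G, ∑ ξ : Dual (ZMod p) S, (∏ i : ι, F (ξ (w (a i * k)))) ^ t
      = (∑ a : ZMod p, F a ^ t) ^ finrank (ZMod p) S := by
    intro k
    rw [← hcard, ← sum_dual_prod (b.map (T k)) (fun a => F a ^ t)]
    apply Finset.sum_congr rfl
    intro ξ _
    rw [← Finset.prod_pow]
    apply Finset.prod_congr rfl
    intro i _
    rw [Basis.map_apply, hb, hT]
  simp only [h2]
  rw [Finset.sum_const, Finset.card_univ, nsmul_eq_mul, mul_comm]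

private theorem duals_cs_neg (p : ℕ) [NeZero p] (a : ZMod p) : cs p (-a) = cs p a := by
  have h1 := norm_add_neg p (-a)
  rw [neg_neg, add_comm, norm_add_neg] at h1
  linarith

/-- The number of signed relations: `card_relSet_mul_le` (for the index type `X`), then
`sum_prod_leX` with `F = cs p` and `sum_cs_pow_pow_le`. -/
theorem card_relSetX_le (hc : Cover c τ κ) (hp2 : p ≠ 2) (w : G → S)
    (T : G → S ≃ₗ[ZMod p] S) (hT : ∀ k h, T k (w h) = w (h * k))
    (hspan : Submodule.span (ZMod p) (Set.range w) = ⊤) (hodd : ∀ h, w (c * h) = - w h) (d : ℕ)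
    (hd2 : finrank (ZMod p) S ≤ d)
    (hnum : 4 * d * Real.exp (-(2 * ((Fintype.card X / d : ℕ) : ℝ) / p ^ 2)) ≤ 1) :
    ((relSet p (fun x => w (τ x))).card : ℝ) * Fintype.card S ≤ 3 * 2 ^ Fintype.card X := by
  classical
  have : Finite (Dual (ZMod p) S) := Module.finite_of_finite (ZMod p)
  have : Fintype (Dual (ZMod p) S) := Fintype.ofFinite _
  have hcard : Fintype.card (Dual (ZMod p) S) = Fintype.card S := by
    rw [← Nat.card_eq_fintype_card, ← Nat.card_eq_fintype_card,
      Module.natCard_eq_pow_finrank (K := ZMod p) (V := Dual (ZMod p) S),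
      Module.natCard_eq_pow_finrank (K := ZMod p) (V := S), Subspace.dual_finrank_eq]
  have h1 := card_relSet_mul_le (p := p) (fun x => w (τ x))
  rw [hcard] at h1
  refine h1.trans ?_
  have h2 : finrank (ZMod p) S * (Fintype.card X / d) ≤ Fintype.card X := by
    calc finrank (ZMod p) S * (Fintype.card X / d) ≤ d * (Fintype.card X / d) :=
          Nat.mul_le_mul_right _ hd2
      _ ≤ Fintype.card X := Nat.mul_div_le _ _
  have h3 := sum_prod_leX hc w T hT hspan hodd (cs p) (cs_nonneg p) (cs_le_one p)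
    (fun a => duals_cs_neg p a) (Fintype.card X / d) h2
  have h4 : 4 * ((finrank (ZMod p) S : ℕ) : ℝ) *
      Real.exp (-(2 * ((Fintype.card X / d : ℕ) : ℝ) / p ^ 2)) ≤ 1 := by
    refine le_trans ?_ hnum
    have : ((finrank (ZMod p) S : ℕ) : ℝ) ≤ d := by exact_mod_cast hd2
    gcongr
  have h5 := sum_cs_pow_pow_le p hp2 (Fintype.card X / d) (finrank (ZMod p) S) h4
  calc 2 ^ Fintype.card X * ∑ ξ : Dual (ZMod p) S, ∏ x, cs p (ξ (w (τ x)))
      ≤ 2 ^ Fintype.card X * 3 := by gcongr; exact h3.trans h5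
    _ = 3 * 2 ^ Fintype.card X := by ring

end Pool.Agent.Lib.MP_640417_ag.All
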