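import Pool.Agent.Lib.MP_640417_ag.Far.Field
import Pool.Agent.Lib.MP_640417_ag.All.Defs

/-!
# Normal subgroups of the Galois group and subfields of a CM field

For a normal subgroup `N'` of `galGroup E` containing the stabilizer of `φ₀` the field `fixF N'` is
Galois over `ℚ` (`isGalois_fixF`), its Galois group is `galGroup E ⧸ N'` (`θ(γ)` is defined by
`(γ φ₀)|F = φ₀|F ∘ θ(γ)`; kernel `N'` by `mem_orbit_of_fixF` and the stabilizer being in `N'`), and
`N'` is determined by `fixF N'` (`N' = {γ | ∀ φ, ∀ x ∈ fixF N', (γ φ) x = φ x}`). If `z` acts as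
complex conjugation then `z ∉ N'` gives an `x ∈ fixF N'` with `φ₀ (conj x) = (z φ₀) x ≠ φ₀ x`. The
subgroups of `galGroup E ⧸ N` correspond to the subgroups of `galGroup E` containing `N`
(`Subgroup.comap`), with the same index and quotient (`QuotientGroup.quotientQuotientEquivQuotient`).
-/

set_option autoImplicit false

namespace Pool.Agent.Lib.MP_640417_ag.All

open Module Finset NumberField MulAction Pool.Agent.Lib.MP_640417_ag.Far

variable {E : Type} [Field E] [NumberField E] [IsCMField E]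

/-- The number of imaginary quadratic subfields. -/
noncomputable def numImagQuad (E : Type) [Field E] [NumberField E] [IsCMField E] : ℕ :=
  {K : IntermediateField ℚ E | finrank ℚ K = 2 ∧ ∃ x ∈ K, IsCMField.complexConj E x ≠ x}.ncard

/-- The number of subfields of degree `4` or `6` which are cyclic over `ℚ` and not real. -/
noncomputable def numCyc (E : Type) [Field E] [NumberField E] [IsCMField E] : ℕ :=
  {K : IntermediateField ℚ E | IsGalois ℚ K ∧ IsCyclic (K ≃ₐ[ℚ] K) ∧
    (finrank ℚ K = 4 ∨ finrank ℚ K = 6) ∧ ∃ x ∈ K, IsCMField.complexConj E x ≠ x}.ncard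

omit [IsCMField E] in
theorem FieldCount_finite : Finite (IntermediateField ℚ E) :=
  Field.finite_intermediateField_of_exists_primitive_element ℚ E
    (Field.exists_primitive_element ℚ E)

omit [IsCMField E] in
/-- The subgroup is determined by its field. -/
theorem FieldCount_mem_of_fix (φ₀ : Emb E) (N' : Subgroup (galGroup E)) [N'.Normal]
    (hN' : stabilizer (galGroup E) φ₀ ≤ N') (γ : galGroup E)
    (h : ∀ x ∈ fixF N', (γ • φ₀ : Emb E) x = φ₀ x) : γ ∈ N' := by
  obtain ⟨ν, hν⟩ := mem_orbit_of_fixF N' φ₀ hN' (γ • φ₀) φ₀ h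
  have hν' : ν.1 • φ₀ = γ • φ₀ := hν
  have h1 : ν.1⁻¹ * γ ∈ N' := by
    apply hN'
    rw [mem_stabilizer_iff, mul_smul, ← hν', inv_smul_smul]
  have h2 : γ = ν.1 * (ν.1⁻¹ * γ) := by group
  rw [h2]
  exact N'.mul_mem ν.2 h1

omit [IsCMField E] in
/-- The Galois group of `fixF N'`. -/
theorem nonempty_mulEquiv_fixF (φ₀ : Emb E) (N' : Subgroup (galGroup E)) [N'.Normal]
    (hN' : stabilizer (galGroup E) φ₀ ≤ N') :
    Nonempty (galGroup E ⧸ N' ≃* (fixF N' ≃ₐ[ℚ] fixF N')) := by
  have hgal := isGalois_fixF N' φ₀ hN'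
  have halg := isAlgebraic_rat_of_alg inferInstance
  have hnorm : Normal ℚ (AlgebraicClosure ℚ) := by
    rw [normal_iff]
    intro x
    exact ⟨(Algebra.IsAlgebraic.isAlgebraic x).isIntegral, IsAlgClosed.splits _⟩
  let f₀ : fixF N' →+* AlgebraicClosure ℚ := φ₀.comp (fixF N').val.toRingHom
  let _ : Algebra (fixF N') (AlgebraicClosure ℚ) := f₀.toAlgebra
  have : IsScalarTower ℚ (fixF N') (AlgebraicClosure ℚ) :=
    IsScalarTower.of_algebraMap_eq fun q => by
      change _ = f₀ _
      simp
  have : Normal ℚ (fixF N') := hgal.to_normal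
  -- all automorphisms are `ℚ`-linear
  let toA : AbsGal →* (AlgebraicClosure ℚ ≃ₐ[ℚ] AlgebraicClosure ℚ) :=
    { toFun := fun τ => AlgEquiv.ofRingEquiv (f := τ) (fun q => by simp)
      map_one' := by
        ext x
        rfl
      map_mul' := by
        intro a b
        ext x
        rfl }
  have htoA : Function.Surjective toA := by
    intro σ
    refine ⟨σ.toRingEquiv, ?_⟩
    ext x
    rfl
  let r : AbsGal →* (fixF N' ≃ₐ[ℚ] fixF N') := (AlgEquiv.restrictNormalHom (fixF N')).comp toA
  have hr : Function.Surjective r :=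
    (AlgEquiv.restrictNormalHom_surjective (AlgebraicClosure ℚ)).comp htoA
  have hrapply : ∀ (τ : AbsGal) (x : fixF N'), φ₀ (r τ x).1 = τ (φ₀ x.1) := by
    intro τ x
    have := AlgEquiv.restrictNormal_commutes (toA τ) (fixF N') x
    exact this
  let s : AbsGal →* (galGroup E ⧸ N') := (QuotientGroup.mk' N').comp (galOf E)
  have hs : Function.Surjective s :=
    (QuotientGroup.mk'_surjective N').comp (fun γ => exists_galOf γ)
  have hker : s.ker = r.ker := by
    ext τ
    rw [MonoidHom.mem_ker, MonoidHom.mem_ker]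
    have h1 : s τ = 1 ↔ galOf E τ ∈ N' := by
      change ((galOf E τ : galGroup E) : galGroup E ⧸ N') = 1 ↔ _
      rw [QuotientGroup.eq_one_iff]
    rw [h1]
    constructor
    · intro h
      apply AlgEquiv.ext
      intro x
      apply Subtype.ext
      apply φ₀.injective
      rw [hrapply]
      have := x.2 φ₀ (galOf E τ) h
      exact this
    · intro h
      apply FieldCount_mem_of_fix φ₀ N' hN'
      intro x hx
      have h2 := hrapply τ ⟨x, hx⟩
      rw [h] at h2
      exact h2.symm
  exact ⟨((QuotientGroup.quotientKerEquivOfSurjective s hs).symm.trans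
    (QuotientGroup.quotientMulEquivOfEq hker)).trans
      (QuotientGroup.quotientKerEquivOfSurjective r hr)⟩

omit [IsCMField E] in
theorem FieldCount_finrank (φ₀ : Emb E) (N' : Subgroup (galGroup E)) [N'.Normal]
    (hN' : stabilizer (galGroup E) φ₀ ≤ N') : finrank ℚ (fixF N') = N'.index := by
  obtain ⟨e⟩ := nonempty_mulEquiv_fixF φ₀ N' hN'
  have hgal := isGalois_fixF N' φ₀ hN'
  rw [← IsGalois.card_aut_eq_finrank, Subgroup.index]
  exact (Nat.card_congr e.toEquiv).symm

omit [IsCMField E] in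
theorem FieldCount_inj (φ₀ : Emb E) (N₁ N₂ : Subgroup (galGroup E)) [N₂.Normal]
    (hN₂ : stabilizer (galGroup E) φ₀ ≤ N₂) (h : fixF N₁ = fixF N₂) : N₁ ≤ N₂ := by
  intro γ hγ
  apply FieldCount_mem_of_fix φ₀ N₂ hN₂
  intro x hx
  rw [← h] at hx
  exact hx φ₀ γ hγ

theorem FieldCount_conj (φ₀ : Emb E) (z : galGroup E) (hz : ∀ φ : Emb E, z • φ = conjEmb φ)
    (N' : Subgroup (galGroup E)) [N'.Normal] (hN' : stabilizer (galGroup E) φ₀ ≤ N')
    (hzN : z ∉ N') : ∃ x ∈ fixF N', IsCMField.complexConj E x ≠ x := by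
  by_contra hcon
  push Not at hcon
  apply hzN
  apply FieldCount_mem_of_fix φ₀ N' hN'
  intro x hx
  rw [hz, conjEmb_apply, hcon x hx]

theorem numA_le (φ₀ : Emb E) (z : galGroup E) (hz : ∀ φ : Emb E, z • φ = conjEmb φ)
    (N : Subgroup (galGroup E)) [N.Normal] (hN : stabilizer (galGroup E) φ₀ ≤ N) :
    numA (galGroup E ⧸ N) z ≤ numImagQuad E := by
  unfold numA numImagQuad
  have hfin : Finite (IntermediateField ℚ E) := FieldCount_finite
  apply Set.ncard_le_ncard_of_injOn (fun M => fixF (M.comap (QuotientGroup.mk' N)))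
  · rintro M ⟨hM, hzM⟩
    have : M.Normal := Subgroup.normal_of_index_eq_two hM
    have : (M.comap (QuotientGroup.mk' N)).Normal := inferInstance
    have hle : stabilizer (galGroup E) φ₀ ≤ M.comap (QuotientGroup.mk' N) := by
      refine hN.trans ?_
      intro γ hγ
      rw [Subgroup.mem_comap]
      have : QuotientGroup.mk' N γ = 1 := (QuotientGroup.eq_one_iff γ).2 hγ
      rw [this]
      exact M.one_mem
    refine ⟨?_, ?_⟩
    · rw [FieldCount_finrank φ₀ _ hle,
        Subgroup.index_comap_of_surjective _ (QuotientGroup.mk'_surjective N), hM]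
    · apply FieldCount_conj φ₀ z hz _ hle
      rw [Subgroup.mem_comap]
      exact hzM
  · rintro M₁ ⟨hM₁, _⟩ M₂ ⟨hM₂, _⟩ h
    have key : ∀ (M : Subgroup (galGroup E ⧸ N)), M.index = 2 →
        (M.comap (QuotientGroup.mk' N)).Normal ∧
          stabilizer (galGroup E) φ₀ ≤ M.comap (QuotientGroup.mk' N) := by
      intro M hM
      have : M.Normal := Subgroup.normal_of_index_eq_two hM
      refine ⟨inferInstance, hN.trans ?_⟩
      intro γ hγ
      rw [Subgroup.mem_comap]
      have : QuotientGroup.mk' N γ = 1 := (QuotientGroup.eq_one_iff γ).2 hγ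
      rw [this]
      exact M.one_mem
    obtain ⟨k1, k1'⟩ := key M₁ hM₁
    obtain ⟨k2, k2'⟩ := key M₂ hM₂
    apply Subgroup.comap_injective (QuotientGroup.mk'_surjective N)
    exact le_antisymm (FieldCount_inj φ₀ _ _ k2' h) (FieldCount_inj φ₀ _ _ k1' h.symm)

theorem numB_le (φ₀ : Emb E) (z : galGroup E) (hz : ∀ φ : Emb E, z • φ = conjEmb φ)
    (N : Subgroup (galGroup E)) [N.Normal] (hN : stabilizer (galGroup E) φ₀ ≤ N) :
    numB (galGroup E ⧸ N) z ≤ numCyc E := by
  unfold numB numCyc
  have hfin : Finite (IntermediateField ℚ E) := FieldCount_finite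
  have key : ∀ (M : Subgroup (galGroup E ⧸ N)),
      stabilizer (galGroup E) φ₀ ≤ M.comap (QuotientGroup.mk' N) := by
    intro M
    refine hN.trans ?_
    intro γ hγ
    rw [Subgroup.mem_comap]
    have : QuotientGroup.mk' N γ = 1 := (QuotientGroup.eq_one_iff γ).2 hγ
    rw [this]
    exact M.one_mem
  apply Set.ncard_le_ncard_of_injOn (fun M => fixF (M.comap (QuotientGroup.mk' N)))
  · rintro M ⟨⟨hMn, hcyc⟩, hM, hzM⟩
    have : (M.comap (QuotientGroup.mk' N)).Normal := inferInstance
    have hfr := FieldCount_finrank φ₀ _ (key M)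
    rw [Subgroup.index_comap_of_surjective _ (QuotientGroup.mk'_surjective N)] at hfr
    refine ⟨isGalois_fixF _ φ₀ (key M), ?_, ?_, ?_⟩
    · obtain ⟨e⟩ := nonempty_mulEquiv_fixF φ₀ _ (key M)
      let f : galGroup E →* ((galGroup E ⧸ N) ⧸ M) :=
        (QuotientGroup.mk' M).comp (QuotientGroup.mk' N)
      have hf : Function.Surjective f :=
        (QuotientGroup.mk'_surjective M).comp (QuotientGroup.mk'_surjective N)
      have hker : f.ker = M.comap (QuotientGroup.mk' N) := by
        ext γ
        rw [MonoidHom.mem_ker, Subgroup.mem_comap]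
        exact QuotientGroup.eq_one_iff _
      let e2 : (galGroup E ⧸ M.comap (QuotientGroup.mk' N)) ≃* ((galGroup E ⧸ N) ⧸ M) :=
        (QuotientGroup.quotientMulEquivOfEq hker.symm).trans
          (QuotientGroup.quotientKerEquivOfSurjective f hf)
      exact isCyclic_of_surjective (e2.symm.trans e).toMonoidHom (e2.symm.trans e).surjective
    · rw [hfr]
      exact hM
    · apply FieldCount_conj φ₀ z hz _ (key M)
      rw [Subgroup.mem_comap]
      exact hzM
  · rintro M₁ ⟨⟨hM₁, _⟩, _⟩ M₂ ⟨⟨hM₂, _⟩, _⟩ h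
    have : (M₁.comap (QuotientGroup.mk' N)).Normal := inferInstance
    have : (M₂.comap (QuotientGroup.mk' N)).Normal := inferInstance
    apply Subgroup.comap_injective (QuotientGroup.mk'_surjective N)
    exact le_antisymm (FieldCount_inj φ₀ _ _ (key M₂) h) (FieldCount_inj φ₀ _ _ (key M₁) h.symm)

end Pool.Agent.Lib.MP_640417_ag.All
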