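import Pool.Agent.Lib.MP_640417_ag.Far.Field
import Pool.Agent.Lib.MP_640417_ag.All.Defs

/-!
# The largest Galois subfield and the quotient by the normal closure of the stabilizer

`N` is the normal closure of the stabilizer of `φ₀` in `galGroup E`. By `isGalois_fixF` the field
`fixF N` is Galois over `ℚ`, so `fixF N ≤ F` for the largest Galois subfield `F`. Conversely for
every `F'` Galois over `ℚ` the set `{γ | ∀ φ, ∀ x ∈ F', (γ φ) x = φ x}` is a normal subgroup
of `galGroup E` containing the stabilizer of `φ₀` (all embeddings of `F'` have the same image, on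
which `γ` acts, so it is enough to look at `φ₀`), hence contains `N`, and `F' ≤ fixF N`. So
`F = fixF N`. For `γ ∈ galGroup E` there is a unique `θ(γ) ∈ Gal(F/ℚ)` with
`(γ φ₀)|F = φ₀|F ∘ θ(γ)`, and `θ` is a homomorphism, surjective, with kernel `N`
(`mem_orbit_of_fixF`).
-/

set_option autoImplicit false

namespace Pool.Agent.Lib.MP_640417_ag.All

open Module Finset NumberField MulAction Pool.Agent.Lib.MP_640417_ag.Far

variable {E : Type} [Field E] [NumberField E]

/-- The largest subfield which is Galois over `ℚ`. -/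
def IsLargestGalois (F : IntermediateField ℚ E) : Prop :=
  IsGalois ℚ F ∧ ∀ F' : IntermediateField ℚ E, IsGalois ℚ F' → F' ≤ F

/-- Two embeddings differ on a Galois subfield by an automorphism. -/
private lemma FieldDict_exists_aut (F : IntermediateField ℚ E) (hF : IsGalois ℚ F)
    (φ₀ : Emb E) (f : F →+* AlgebraicClosure ℚ) :
    ∃ α : F ≃ₐ[ℚ] F, ∀ x : F, φ₀ (α x) = f x := by
  let f₀ : F →+* AlgebraicClosure ℚ := φ₀.comp F.val.toRingHom
  let _ : Algebra F (AlgebraicClosure ℚ) := f₀.toAlgebra
  have st : IsScalarTower ℚ F (AlgebraicClosure ℚ) := IsScalarTower.rat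
  have hn : Normal ℚ F := hF.to_normal
  let g : F →ₐ[ℚ] AlgebraicClosure ℚ := RingHom.toRatAlgHom f
  let a : F →ₐ[ℚ] F := g.restrictNormal F
  have ha : ∀ x : F, φ₀ (a x) = f x := fun x => AlgHom.restrictNormal_commutes g F x
  have hbij : Function.Bijective a := Algebra.IsAlgebraic.algHom_bijective a
  exact ⟨AlgEquiv.ofBijective a hbij, ha⟩

private lemma FieldDict_smul_aut (F : IntermediateField ℚ E) (φ₀ φ : Emb E)
    (α : F ≃ₐ[ℚ] F) (h : ∀ x : F, φ x = φ₀ (α x)) (γ : galGroup E) (x : F) :
    (γ • φ : Emb E) x = (γ • φ₀ : Emb E) (α x) := by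
  obtain ⟨τ, hτ⟩ := exists_of_galGroup γ
  rw [hτ, hτ, galEmb_apply, galEmb_apply, h]

theorem largest_eq_fixF (F : IntermediateField ℚ E) (hF : IsLargestGalois F) (φ₀ : Emb E)
    (N : Subgroup (galGroup E)) [N.Normal]
    (hN : N = Subgroup.normalClosure (stabilizer (galGroup E) φ₀ : Set (galGroup E))) :
    F = fixF N := by
  have hNs : stabilizer (galGroup E) φ₀ ≤ N := by
    rw [hN]
    exact Subgroup.subset_normalClosure
  apply le_antisymm
  · let K : Subgroup (galGroup E) :=
      { carrier := {γ | ∀ φ : Emb E, ∀ x ∈ F, (γ • φ : Emb E) x = φ x}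
        mul_mem' := by
          intro a b ha hb φ x hx
          rw [mul_smul, ha _ x hx, hb _ x hx]
        one_mem' := by
          intro φ x _
          rw [one_smul]
        inv_mem' := by
          intro a ha φ x hx
          rw [← ha (a⁻¹ • φ) x hx, smul_inv_smul] }
    have hK : ∀ γ, γ ∈ K ↔ ∀ φ : Emb E, ∀ x ∈ F, (γ • φ : Emb E) x = φ x := fun γ => Iff.rfl
    have hKn : K.Normal := by
      refine ⟨fun γ hγ δ φ x hx => ?_⟩
      obtain ⟨τ, hτ⟩ := exists_of_galGroup δ
      have h1 : ((δ * γ * δ⁻¹) • φ : Emb E) = galEmb τ (γ • (δ⁻¹ • φ)) := by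
        rw [mul_smul, mul_smul, hτ]
      have h2 : φ = galEmb τ (δ⁻¹ • φ) := by
        rw [← hτ, smul_inv_smul]
      rw [h1, galEmb_apply, hγ _ x hx, ← galEmb_apply, ← h2]
    have hKs : stabilizer (galGroup E) φ₀ ≤ K := by
      intro γ hγ φ x hx
      obtain ⟨α, hα⟩ := FieldDict_exists_aut F hF.1 φ₀ (φ.comp F.val.toRingHom)
      have h1 : ∀ y : F, φ y = φ₀ (α y) := fun y => (hα y).symm
      have h2 := FieldDict_smul_aut F φ₀ φ α h1 γ ⟨x, hx⟩
      rw [mem_stabilizer_iff.mp hγ, ← h1] at h2
      exact h2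
    have hNK : N ≤ K := by
      rw [hN]
      exact Subgroup.normalClosure_le_normal hKs
    intro x hx
    rw [mem_fixF]
    intro φ ν hν
    exact hNK hν φ x hx
  · exact hF.2 _ (isGalois_fixF N φ₀ hNs)

/-- Every embedding of a subfield is the restriction of one of the conjugates of `φ₀`. -/
private lemma FieldDict_exists_ext (F : IntermediateField ℚ E) (φ₀ : Emb E)
    (f : F →+* AlgebraicClosure ℚ) : ∃ γ : galGroup E, ∀ x : F, (γ • φ₀ : Emb E) x = f x := by
  have halg : Algebra.IsAlgebraic ℚ E := inferInstance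
  obtain ⟨φ, hφ⟩ := exists_lift_of_embeddings (E := F) (L := E) (M := AlgebraicClosure ℚ) halg
    F.val.toRingHom f
  have : IsPretransitive (galGroup E) (Emb E) := isPretransitive_galGroup
  obtain ⟨γ, hγ⟩ := exists_smul_eq (galGroup E) φ₀ φ
  refine ⟨γ, fun x => ?_⟩
  rw [hγ]
  exact hφ x

theorem nonempty_mulEquiv (F : IntermediateField ℚ E) (hF : IsLargestGalois F) (φ₀ : Emb E)
    (N : Subgroup (galGroup E)) [N.Normal]
    (hN : N = Subgroup.normalClosure (stabilizer (galGroup E) φ₀ : Set (galGroup E))) :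
    Nonempty (galGroup E ⧸ N ≃* (F ≃ₐ[ℚ] F)) := by
  classical
  have hNs : stabilizer (galGroup E) φ₀ ≤ N := by
    rw [hN]
    exact Subgroup.subset_normalClosure
  have hfix := largest_eq_fixF F hF φ₀ N hN
  have hex : ∀ γ : galGroup E, ∃ α : F ≃ₐ[ℚ] F, ∀ x : F, φ₀ (α x) = (γ • φ₀ : Emb E) x :=
    fun γ => FieldDict_exists_aut F hF.1 φ₀ ((γ • φ₀ : Emb E).comp F.val.toRingHom)
  choose θ hθ using hex
  have hinj : ∀ α β : F ≃ₐ[ℚ] F, (∀ x : F, φ₀ (α x) = φ₀ (β x)) → α = β := by
    intro α β h
    apply AlgEquiv.ext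
    intro x
    exact Subtype.ext (φ₀.injective (h x))
  let Θ : galGroup E →* (F ≃ₐ[ℚ] F) :=
    { toFun := θ
      map_one' := by
        apply hinj
        intro x
        rw [hθ, one_smul]
        rfl
      map_mul' := by
        intro γ δ
        apply hinj
        intro x
        rw [hθ, mul_smul, FieldDict_smul_aut F φ₀ (δ • φ₀) (θ δ) (fun y => (hθ δ y).symm) γ x,
          ← hθ γ]
        rfl }
  have hΘ : ∀ γ, Θ γ = θ γ := fun γ => rfl
  have hsurj : Function.Surjective Θ := by
    intro α
    obtain ⟨γ, hγ⟩ := FieldDict_exists_ext F φ₀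
      ((φ₀.comp F.val.toRingHom).comp (α : F →+* F))
    refine ⟨γ, hinj _ _ fun x => ?_⟩
    rw [hΘ, hθ, hγ]
    rfl
  have hker : Θ.ker = N := by
    ext γ
    rw [MonoidHom.mem_ker, hΘ]
    constructor
    · intro h1
      have h2 : ∀ x ∈ fixF N, (γ • φ₀ : Emb E) x = φ₀ x := by
        intro x hx
        rw [← hfix] at hx
        have h3 := hθ γ ⟨x, hx⟩
        rw [h1] at h3
        exact h3.symm
      obtain ⟨ν, hν⟩ := mem_orbit_of_fixF N φ₀ hNs (γ • φ₀) φ₀ h2
      have hν' : ν.1 • φ₀ = γ • φ₀ := hν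
      have h4 : (ν.1)⁻¹ * γ ∈ stabilizer (galGroup E) φ₀ := by
        rw [mem_stabilizer_iff, mul_smul, ← hν', inv_smul_smul]
      have h5 : γ = ν.1 * ((ν.1)⁻¹ * γ) := by group
      rw [h5]
      exact N.mul_mem ν.2 (hNs h4)
    · intro hγ
      apply hinj
      intro x
      have hx : (x : E) ∈ fixF N := by
        rw [← hfix]
        exact x.2
      rw [hθ, hx φ₀ γ hγ]
      rfl
  exact ⟨(QuotientGroup.quotientMulEquivOfEq hker.symm).trans
    (QuotientGroup.quotientKerEquivOfSurjective Θ hsurj)⟩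

theorem card_orbits_eq (F : IntermediateField ℚ E) (hF : IsLargestGalois F) (φ₀ : Emb E) :
    Nat.card (orbitRel.Quotient
      (Subgroup.normalClosure (stabilizer (galGroup E) φ₀ : Set (galGroup E))) (Emb E))
      = finrank ℚ F := by
  set N : Subgroup (galGroup E) := Subgroup.normalClosure
    ((stabilizer (galGroup E) φ₀ : Subgroup (galGroup E)) : Set (galGroup E)) with hNdef
  have hN : stabilizer (galGroup E) φ₀ ≤ N := Subgroup.subset_normalClosure
  have hNn : N.Normal := Subgroup.normalClosure_normal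
  have hfix := largest_eq_fixF F hF φ₀ N hNdef
  subst hfix
  have hnf : NumberField (fixF N) := inferInstance
  rw [← Embeddings.card (fixF N) (AlgebraicClosure ℚ), ← Nat.card_eq_fintype_card]
  let g : orbitRel.Quotient N (Emb E) → (fixF N →+* AlgebraicClosure ℚ) :=
    Quotient.lift (fun φ : Emb E => φ.comp (fixF N).val.toRingHom) (by
      intro a b hab
      have hab' : a ∈ orbit N b := hab
      obtain ⟨ν, rfl⟩ := hab'
      apply RingHom.ext
      intro x
      exact x.2 b ν.1 ν.2)
  apply Nat.card_congr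
  refine Equiv.ofBijective g ⟨?_, ?_⟩
  · intro a b
    induction a using Quotient.inductionOn with
    | h a =>
      induction b using Quotient.inductionOn with
      | h b =>
        intro hab
        apply Quotient.sound
        apply mem_orbit_of_fixF N φ₀ hN
        intro x hx
        exact congrArg (fun f : fixF N →+* AlgebraicClosure ℚ => f ⟨x, hx⟩) hab
  · intro f
    obtain ⟨γ, hγ⟩ := FieldDict_exists_ext (fixF N) φ₀ f
    refine ⟨Quotient.mk _ (γ • φ₀), ?_⟩
    apply RingHom.ext
    intro x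
    exact hγ x

theorem numS_congr {Q Q' : Type} [Group Q] [Group Q'] (e : Q ≃* Q') : numS Q = numS Q' := by
  have h1 : Nat.card (ConjClasses Q) = Nat.card (ConjClasses Q') := by
    apply Nat.card_congr
    refine ⟨ConjClasses.map e.toMonoidHom, ConjClasses.map e.symm.toMonoidHom, ?_, ?_⟩
    · intro a
      induction a using ConjClasses.mk_surjective.forall.mpr with
      | _ a =>
        change ConjClasses.mk (e.symm (e a)) = ConjClasses.mk a
        rw [MulEquiv.symm_apply_apply]
    · intro a
      induction a using ConjClasses.mk_surjective.forall.mpr with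
      | _ a =>
        change ConjClasses.mk (e (e.symm a)) = ConjClasses.mk a
        rw [MulEquiv.apply_symm_apply]
  have h2 : Nat.card (Abelianization Q) = Nat.card (Abelianization Q') :=
    Nat.card_congr e.abelianizationCongr.toEquiv
  unfold numS
  rw [h1, h2]

end Pool.Agent.Lib.MP_640417_ag.All
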