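import Pool.Agent.Lib.MP_640417_ag.All.Local

/-!
# The number of sign vectors with a given matrix

Let `T₀` be a transversal of the pairs `{h, c h}`. Then
`M(ε) := ∑ ε x • ρ (τ x) = ∑_{h ∈ T₀} s_h(ε) • ρ h` (`s_h = sh c τ ε h`, `ρ (c h) = - ρ h`). Choose
`A ⊆ T₀` such that the `ρ h`, `h ∈ A`, form a basis of the rational matrices, `|A| = n²`. The signs
outside the blocks of `A` determine `∑_{h ∈ A} s_h(ε) • ρ h = M₀ - (rest)`, hence the `s_h(ε)`,
`h ∈ A`: apply `local_bound` with `r = 1 / √κ` (`choose_le_sqrt`).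
-/

set_option autoImplicit false

namespace Pool.Agent.Lib.MP_640417_ag.All

open Module Finset Matrix Pool.Agent.Lib.MP_640417_ag.OddGal

/-- A finite set `A` of group elements whose matrices form a basis of the rational matrices. -/
theorem fixEq_basis {G : Type} [Group G] [Fintype G] (c : G) (hc1 : c ≠ 1) {n : ℕ}
    {ρ : G →* Matrix (Fin n) (Fin n) ℤ} (hρ : Rep c n ρ) :
    ∃ A : Finset G, A.card = n ^ 2 ∧ (∀ h ∈ A, ∀ h' ∈ A, h' ≠ c * h) ∧
      ∀ f g : G → ℤ, ∑ h ∈ A, f h • ρ h = ∑ h ∈ A, g h • ρ h → ∀ h ∈ A, f h = g h := by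
  classical
  obtain ⟨v, hv⟩ : ∃ v : G → Matrix (Fin n) (Fin n) ℚ, v = fun h => (ρ h).map (Int.cast : ℤ → ℚ) :=
    ⟨_, rfl⟩
  have hsp := hρ.span
  rw [← hv] at hsp
  obtain ⟨ι, a, ha, hspan, hli⟩ := exists_linearIndependent' ℚ v
  have : Finite ι := Finite.of_injective a ha
  have : Fintype ι := Fintype.ofFinite ι
  have key : ∀ f g : G → ℤ, ∑ h ∈ univ.map ⟨a, ha⟩, f h • ρ h = ∑ h ∈ univ.map ⟨a, ha⟩, g h • ρ h →
      ∀ h ∈ univ.map ⟨a, ha⟩, f h = g h := by
    intro f g hfg h hh
    rw [sum_map, sum_map] at hfg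
    simp only [Function.Embedding.coeFn_mk] at hfg
    have h0 : ∑ i, ((f (a i) - g (a i) : ℤ) : ℚ) • (v ∘ a) i = 0 := by
      have h1 : ∑ i, (f (a i) - g (a i)) • ρ (a i) = 0 := by
        simp only [sub_smul, sum_sub_distrib]
        rw [hfg, sub_self]
      have h2 := congrArg (fun M : Matrix (Fin n) (Fin n) ℤ => M.map (Int.cast : ℤ → ℚ)) h1
      ext i j
      have h3 := congrFun (congrFun h2 i) j
      simp only [Matrix.map_apply, Matrix.sum_apply, Matrix.smul_apply, Matrix.zero_apply,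
        Int.cast_zero, Int.cast_sum, smul_eq_mul, Int.cast_mul] at h3
      rw [Matrix.sum_apply, Matrix.zero_apply]
      simp only [hv, Function.comp_apply, Matrix.smul_apply, Matrix.map_apply, smul_eq_mul]
      exact h3
    have h4 := Fintype.linearIndependent_iff.mp hli _ h0
    rw [mem_map] at hh
    obtain ⟨i, -, rfl⟩ := hh
    have h5 := h4 i
    have h6 : f (a i) - g (a i) = 0 := by exact_mod_cast h5
    show f (a i) = g (a i)
    omega
  refine ⟨univ.map ⟨a, ha⟩, ?_, ?_, key⟩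
  · rw [card_map, card_univ]
    have h1 := finrank_span_eq_card hli
    rw [hspan, hsp, finrank_top, Module.finrank_matrix] at h1
    rw [← h1]
    simp [sq]
  · intro h hh h' hh' heq
    have hne : h ≠ c * h := by
      intro h1
      exact hc1 (by simpa using h1)
    have h1 := key (fun x => if x = h then 1 else if x = c * h then 1 else 0) (fun _ => 0) (by
      simp only [zero_smul, sum_const_zero, ite_smul, one_smul]
      rw [← sum_filter_add_sum_filter_not _ (fun x => x = h)]
      have e1 : (univ.map ⟨a, ha⟩).filter (fun x => x = h) = {h} := by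
        ext x
        simp only [mem_filter, mem_singleton]
        exact ⟨fun hx => hx.2, fun hx => ⟨hx ▸ hh, hx⟩⟩
      rw [e1, sum_singleton, if_pos rfl]
      have e2 : ∑ x ∈ (univ.map ⟨a, ha⟩).filter (fun x => ¬ x = h),
          (if x = h then ρ x else if x = c * h then ρ x else 0) = ρ (c * h) := by
        rw [sum_eq_single (c * h)]
        · rw [if_neg (fun h => hne h.symm), if_pos rfl]
        · intro b hb hbne
          rw [if_neg (mem_filter.mp hb).2, if_neg hbne]
        · intro hb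
          exfalso
          apply hb
          rw [mem_filter]
          exact ⟨heq ▸ hh', fun h => hne h.symm⟩
      rw [e2, map_mul, hρ.neg, neg_mul, one_mul, add_neg_cancel]) h hh
    simp at h1

theorem card_eq_matrix_le {G : Type} [Group G] [Fintype G] (c : G) {n : ℕ}
    {ρ : G →* Matrix (Fin n) (Fin n) ℤ} (hρ : Rep c n ρ) (X : Type) [Fintype X] (τ : X → G)
    (κ : ℕ) (hc : Cover c τ κ) (hκ : 0 < κ) (M₀ : Matrix (Fin n) (Fin n) ℤ) :
    ({ε : X → ℤ | ε ∈ signs X ∧ ∑ x, ε x • ρ (τ x) = M₀}.ncard : ℝ)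
      ≤ 2 ^ Fintype.card X * (1 / Real.sqrt κ) ^ (n ^ 2) := by
  classical
  obtain ⟨A, hA1, hA2, hA3⟩ := fixEq_basis c hc.ne_one hρ
  rw [← hA1]
  -- the part outside the blocks
  obtain ⟨R, hR⟩ : ∃ R : (X → ℤ) → Matrix (Fin n) (Fin n) ℤ, R = fun ε =>
      ∑ x, if (∀ h ∈ A, τ x ≠ h ∧ τ x ≠ c * h) then ε x • ρ (τ x) else 0 := ⟨_, rfl⟩
  have hex : ∀ M : Matrix (Fin n) (Fin n) ℤ, ∃ f : G → ℤ,
      (∃ g : G → ℤ, ∑ h ∈ A, g h • ρ h = M) → ∑ h ∈ A, f h • ρ h = M := by
    intro M
    by_cases h : ∃ g : G → ℤ, ∑ h ∈ A, g h • ρ h = M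
    · obtain ⟨g, hg⟩ := h
      exact ⟨g, fun _ => hg⟩
    · exact ⟨0, fun h' => absurd h' h⟩
  choose S hS using hex
  have hdec : ∀ ε : X → ℤ, ∑ x, ε x • ρ (τ x) = ∑ h ∈ A, sh c τ ε h • ρ h + R ε := by
    intro ε
    have e1 : ∑ h ∈ A, sh c τ ε h • ρ h =
        ∑ x, ε x • ∑ h ∈ A, ((if τ x = h then 1 else if τ x = c * h then -1 else 0 : ℤ) • ρ h) := by
      simp only [sh, sum_smul, smul_sum, mul_smul]
      rw [sum_comm]
    rw [e1, hR, ← sum_add_distrib]
    refine sum_congr rfl fun x _ => ?_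
    by_cases hx : ∀ h ∈ A, τ x ≠ h ∧ τ x ≠ c * h
    · rw [if_pos hx]
      have : ∑ h ∈ A, ((if τ x = h then 1 else if τ x = c * h then -1 else 0 : ℤ) • ρ h) = 0 := by
        refine sum_eq_zero fun h hh => ?_
        rw [if_neg (hx h hh).1, if_neg (hx h hh).2, zero_smul]
      rw [this, smul_zero, zero_add]
    · rw [if_neg hx, add_zero]
      congr 1
      push Not at hx
      obtain ⟨h, hh, hxh⟩ := hx
      rw [sum_eq_single h]
      · by_cases h1 : τ x = h
        · rw [if_pos h1, one_smul, h1]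
        · rw [if_neg h1, if_pos (hxh h1), hxh h1, map_mul, hρ.neg]
          simp
      · intro b hb hbne
        have h1 : τ x ≠ b := by
          intro h1
          by_cases h2 : τ x = h
          · exact hbne (h1.symm.trans h2)
          · exact hA2 h hh b hb (h1.symm.trans (hxh h2))
        have h2 : τ x ≠ c * b := by
          intro h2
          by_cases h3 : τ x = h
          · exact hA2 b hb h hh (h3.symm.trans h2)
          · have := (hxh h3).symm.trans h2
            exact hbne (mul_left_cancel this).symm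
        rw [if_neg h1, if_neg h2, zero_smul]
      · intro h'
        exact absurd hh h'
  have hb := local_bound hc (1 / Real.sqrt κ) (by positivity) (fun j => choose_le_sqrt κ j hκ) A hA2
    (fun ε => S (M₀ - R ε)) (by
      intro ε ε' h
      have : R ε = R ε' := by
        rw [hR]
        refine sum_congr rfl fun x _ => ?_
        by_cases hx : ∀ h ∈ A, τ x ≠ h ∧ τ x ≠ c * h
        · rw [if_pos hx, if_pos hx, h x hx]
        · rw [if_neg hx, if_neg hx]
      simp only [this])
  refine le_trans ?_ hb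
  rw [← Set.ncard_coe_finset]
  exact_mod_cast Set.ncard_le_ncard (by
    rintro ε ⟨h1, h2⟩
    rw [mem_coe, mem_filter]
    refine ⟨h1, ?_⟩
    have h3 : ∑ h ∈ A, sh c τ ε h • ρ h = M₀ - R ε := by
      rw [← h2, hdec ε, add_sub_cancel_right]
    have h4 := hS (M₀ - R ε) ⟨_, h3⟩
    exact hA3 _ _ (h3.trans h4.symm)) (Finset.finite_toSet _)

end Pool.Agent.Lib.MP_640417_ag.All
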