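import Pool.Agent.Lib.MP_640417_ag.All.Divisor

/-!
# A bilinear equation in a box
-/

set_option autoImplicit false

namespace Pool.Agent.Lib.MP_640417_ag.All

open Module Finset Matrix

/-- integral divisors of an integer -/
private noncomputable def zdiv (N : ℤ) : Finset ℤ :=
  (N.natAbs.divisors.image (fun n : ℕ => (n : ℤ))) ∪ (N.natAbs.divisors.image (fun n : ℕ => -(n : ℤ)))

private lemma card_zdiv_le (N : ℤ) : (zdiv N).card ≤ 2 * N.natAbs.divisors.card := by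
  unfold zdiv
  calc _ ≤ (N.natAbs.divisors.image (fun n : ℕ => (n : ℤ))).card +
        (N.natAbs.divisors.image (fun n : ℕ => -(n : ℤ))).card := Finset.card_union_le _ _
    _ ≤ N.natAbs.divisors.card + N.natAbs.divisors.card :=
        Nat.add_le_add Finset.card_image_le Finset.card_image_le
    _ = _ := by ring

private lemma mem_zdiv {N d : ℤ} (hN : N ≠ 0) (h : d ∣ N) : d ∈ zdiv N := by
  unfold zdiv
  rw [Finset.mem_union, Finset.mem_image, Finset.mem_image]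
  have hd : d.natAbs ∈ N.natAbs.divisors :=
    Nat.mem_divisors.2 ⟨Int.natAbs_dvd_natAbs.2 h, Int.natAbs_ne_zero.2 hN⟩
  rcases Int.natAbs_eq d with h1 | h1
  · exact Or.inl ⟨d.natAbs, hd, h1.symm⟩
  · exact Or.inr ⟨d.natAbs, hd, h1.symm⟩

private lemma card_box (T : ℕ) : (Finset.Icc (-(T : ℤ)) T).card = 2 * T + 1 := by
  rw [Int.card_Icc]
  omega

/-- two coordinates are determined -/
private lemma ncard_two_le (T : ℕ) (q c c' : ℤ) (hq : q ≠ 0) (i j k l : Fin 4)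
    (h : ∀ m : Fin 4, m = i ∨ m = j ∨ m = k ∨ m = l) :
    ({s : Fin 4 → ℤ | (∀ i, |s i| ≤ (T : ℤ)) ∧ q * s i + c = 0 ∧ q * s j + c' = 0}).ncard ≤
      (2 * T + 1) ^ 2 := by
  have hc : ((Finset.Icc (-(T : ℤ)) T ×ˢ Finset.Icc (-(T : ℤ)) T : Finset (ℤ × ℤ)) :
      Set (ℤ × ℤ)).ncard = (2 * T + 1) ^ 2 := by
    rw [Set.ncard_coe_finset, Finset.card_product, card_box]; ring
  rw [← hc]
  refine Set.ncard_le_ncard_of_injOn (fun s => (s k, s l)) ?_ ?_ (Finset.finite_toSet _)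
  · intro s hs
    have h1 := abs_le.1 (hs.1 k)
    have h2 := abs_le.1 (hs.1 l)
    simp only [Finset.coe_product, Finset.coe_Icc, Set.mem_prod, Set.mem_Icc]
    exact ⟨h1, h2⟩
  · intro s hs t ht hst
    obtain ⟨-, h1, h2⟩ := hs
    obtain ⟨-, h3, h4⟩ := ht
    have e1 : s i = t i := by
      have : q * s i = q * t i := by linarith
      exact mul_left_cancel₀ hq this
    have e2 : s j = t j := by
      have : q * s j = q * t j := by linarith
      exact mul_left_cancel₀ hq this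
    have e3 : s k = t k := congrArg Prod.fst hst
    have e4 : s l = t l := congrArg Prod.snd hst
    funext m
    rcases h m with h | h | h | h
    · rw [h, e1]
    · rw [h, e2]
    · rw [h, e3]
    · rw [h, e4]

private lemma box_finite (T : ℕ) : {s : Fin 4 → ℤ | ∀ i, |s i| ≤ (T : ℤ)}.Finite := by
  have : {s : Fin 4 → ℤ | ∀ i, |s i| ≤ (T : ℤ)} ⊆
      Set.pi Set.univ (fun _ : Fin 4 => Set.Icc (-(T : ℤ)) T) := by
    intro s hs i _
    exact abs_le.1 (hs i)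
  exact (Set.Finite.pi' (fun _ => Set.finite_Icc _ _)).subset (fun s hs i => abs_le.1 (hs i))

private lemma ncard_zero_le (T : ℕ) (q a b a' b' : ℤ) (hq : q ≠ 0) :
    ({s : Fin 4 → ℤ | (∀ i, |s i| ≤ (T : ℤ)) ∧
      (q * s 0 + a) * (q * s 3 + b') = (q * s 2 + a') * (q * s 1 + b) ∧
      (q * s 2 + a') * (q * s 1 + b) = 0}).ncard ≤ 4 * (2 * T + 1) ^ 2 := by
  have hfin : ∀ P : (Fin 4 → ℤ) → Prop,
      {s : Fin 4 → ℤ | (∀ i, |s i| ≤ (T : ℤ)) ∧ P s}.Finite := fun P =>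
    (box_finite T).subset (fun s hs => hs.1)
  set A := {s : Fin 4 → ℤ | (∀ i, |s i| ≤ (T : ℤ)) ∧ q * s 0 + a = 0 ∧ q * s 2 + a' = 0} with hA
  set B := {s : Fin 4 → ℤ | (∀ i, |s i| ≤ (T : ℤ)) ∧ q * s 0 + a = 0 ∧ q * s 1 + b = 0} with hB
  set C := {s : Fin 4 → ℤ | (∀ i, |s i| ≤ (T : ℤ)) ∧ q * s 3 + b' = 0 ∧ q * s 2 + a' = 0} with hC
  set D := {s : Fin 4 → ℤ | (∀ i, |s i| ≤ (T : ℤ)) ∧ q * s 3 + b' = 0 ∧ q * s 1 + b = 0} with hD
  have hAle : A.ncard ≤ (2 * T + 1) ^ 2 := ncard_two_le T q a a' hq 0 2 1 3 (by decide)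
  have hBle : B.ncard ≤ (2 * T + 1) ^ 2 := ncard_two_le T q a b hq 0 1 2 3 (by decide)
  have hCle : C.ncard ≤ (2 * T + 1) ^ 2 := ncard_two_le T q b' a' hq 3 2 0 1 (by decide)
  have hDle : D.ncard ≤ (2 * T + 1) ^ 2 := ncard_two_le T q b' b hq 3 1 0 2 (by decide)
  have hAf : A.Finite := hfin _
  have hBf : B.Finite := hfin _
  have hCf : C.Finite := hfin _
  have hDf : D.Finite := hfin _
  have hsub : {s : Fin 4 → ℤ | (∀ i, |s i| ≤ (T : ℤ)) ∧
      (q * s 0 + a) * (q * s 3 + b') = (q * s 2 + a') * (q * s 1 + b) ∧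
      (q * s 2 + a') * (q * s 1 + b) = 0} ⊆ (A ∪ B) ∪ (C ∪ D) := by
    rintro s ⟨h0, h1, h2⟩
    rw [h2] at h1
    rcases mul_eq_zero.1 h1 with h3 | h3 <;> rcases mul_eq_zero.1 h2 with h4 | h4
    · exact Or.inl (Or.inl ⟨h0, h3, h4⟩)
    · exact Or.inl (Or.inr ⟨h0, h3, h4⟩)
    · exact Or.inr (Or.inl ⟨h0, h3, h4⟩)
    · exact Or.inr (Or.inr ⟨h0, h3, h4⟩)
  have h1 := Set.ncard_le_ncard hsub ((hAf.union hBf).union (hCf.union hDf))
  have h2 := Set.ncard_union_le (A ∪ B) (C ∪ D)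
  have h3 := Set.ncard_union_le A B
  have h4 := Set.ncard_union_le C D
  omega

private lemma ncard_ne_le (T M : ℕ) (q a b a' b' : ℤ) (hq : q ≠ 0)
    (hM : ∀ y z : ℤ, |y| ≤ T → |z| ≤ T → (q * z + a') * (q * y + b) ≠ 0 →
      ((q * z + a') * (q * y + b)).natAbs.divisors.card ≤ M) :
    ({s : Fin 4 → ℤ | (∀ i, |s i| ≤ (T : ℤ)) ∧
      (q * s 0 + a) * (q * s 3 + b') = (q * s 2 + a') * (q * s 1 + b) ∧
      (q * s 2 + a') * (q * s 1 + b) ≠ 0}).ncard ≤ (2 * T + 1) ^ 2 * (2 * M) := by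
  classical
  set box : Finset (ℤ × ℤ) := ((Finset.Icc (-(T : ℤ)) T) ×ˢ (Finset.Icc (-(T : ℤ)) T)).filter
    (fun p => (q * p.2 + a') * (q * p.1 + b) ≠ 0) with hbox
  set U : Finset (Σ _ : ℤ × ℤ, ℤ) := box.sigma (fun p => zdiv ((q * p.2 + a') * (q * p.1 + b)))
    with hU
  have hbc : box.card ≤ (2 * T + 1) ^ 2 := by
    calc _ ≤ ((Finset.Icc (-(T : ℤ)) T) ×ˢ (Finset.Icc (-(T : ℤ)) T)).card :=
          Finset.card_filter_le _ _
      _ = _ := by rw [Finset.card_product, card_box]; ring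
  have hUc : U.card ≤ (2 * T + 1) ^ 2 * (2 * M) := by
    rw [hU, Finset.card_sigma]
    calc _ ≤ ∑ _p ∈ box, 2 * M := by
          refine Finset.sum_le_sum fun p hp => ?_
          rw [hbox, Finset.mem_filter, Finset.mem_product, Finset.mem_Icc, Finset.mem_Icc] at hp
          refine (card_zdiv_le _).trans ?_
          exact Nat.mul_le_mul_left 2 (hM p.1 p.2 (abs_le.2 hp.1.1) (abs_le.2 hp.1.2) hp.2)
      _ = box.card * (2 * M) := by rw [Finset.sum_const, smul_eq_mul]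
      _ ≤ _ := Nat.mul_le_mul_right _ hbc
  refine le_trans ?_ hUc
  rw [← Set.ncard_coe_finset]
  refine Set.ncard_le_ncard_of_injOn (fun s => (⟨(s 1, s 2), q * s 0 + a⟩ : Σ _ : ℤ × ℤ, ℤ))
    ?_ ?_ (Finset.finite_toSet _)
  · rintro s ⟨h0, h1, h2⟩
    rw [Finset.mem_coe, hU, Finset.mem_sigma]
    refine ⟨?_, ?_⟩
    · rw [hbox, Finset.mem_filter, Finset.mem_product, Finset.mem_Icc, Finset.mem_Icc]
      exact ⟨⟨abs_le.1 (h0 1), abs_le.1 (h0 2)⟩, h2⟩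
    · exact mem_zdiv h2 ⟨_, h1.symm⟩
  · rintro s ⟨_, h1, h2⟩ t ⟨_, h3, h4⟩ hst
    have e := Sigma.mk.inj_iff.1 hst
    have e12 : s 1 = t 1 ∧ s 2 = t 2 := Prod.ext_iff.1 e.1
    have e0 : q * s 0 + a = q * t 0 + a := eq_of_heq e.2
    have e00 : s 0 = t 0 := mul_left_cancel₀ hq (by linarith)
    have e3 : s 3 = t 3 := by
      rw [e12.1, e12.2, e00] at h1
      rw [e12.1, e12.2] at h2
      have hne : q * t 0 + a ≠ 0 := by
        intro h
        rw [h, zero_mul] at h3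
        exact h4 h3.symm
      have : (q * t 0 + a) * (q * s 3 + b') = (q * t 0 + a) * (q * t 3 + b') := h1.trans h3.symm
      have := mul_left_cancel₀ hne this
      exact mul_left_cancel₀ hq (by linarith)
    funext m
    fin_cases m
    · exact e00
    · exact e12.1
    · exact e12.2
    · exact e3

/-- The equation `(q x + a) (q w + b') = (q z + a') (q y + b)` in a box. Given `(y, z)` with right
hand side `N ≠ 0`, `q x + a` is one of the at most `2 τ(|N|)` divisors of `N` and determines `x`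
and then `w`; if `N = 0`, `y` or `z` is determined and `x` or `w` is determined. Here
`|N| ≤ (B T')²`-like bounds are polynomial in `T`: the hypothesis `hB` bounds the coefficients. -/
theorem ncard_quad_le (δ : ℝ) (hδ : 0 < δ) (k : ℕ) : ∃ C : ℝ, 0 < C ∧ ∀ (T : ℕ) (B : ℝ), 1 ≤ T →
    1 ≤ B → ∀ (q a b a' b' : ℤ), q ≠ 0 → |(q : ℝ)| ≤ B * T ^ k → |(a : ℝ)| ≤ B * T ^ k →
    |(b : ℝ)| ≤ B * T ^ k → |(a' : ℝ)| ≤ B * T ^ k → |(b' : ℝ)| ≤ B * T ^ k →
    ({s : Fin 4 → ℤ | (∀ i, |s i| ≤ T) ∧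
      (q * s 0 + a) * (q * s 3 + b') = (q * s 2 + a') * (q * s 1 + b)}.ncard : ℝ)
      ≤ C * B * (T : ℝ) ^ (2 + δ) := by
  -- exponent
  set η : ℝ := min (δ / (2 * k + 2)) (1 / 2) with hη
  have hηpos : 0 < η := lt_min (by positivity) (by norm_num)
  have hη1 : η * (2 * k + 2) ≤ δ := by
    have : η ≤ δ / (2 * k + 2) := min_le_left _ _
    have hk : (0 : ℝ) < 2 * k + 2 := by positivity
    calc η * (2 * k + 2) ≤ δ / (2 * k + 2) * (2 * k + 2) := by gcongr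
      _ = δ := by field_simp
  have hη2 : η ≤ 1 / 2 := min_le_right _ _
  obtain ⟨C₀, hC₀, hdiv⟩ := divisor_bound η hηpos
  refine ⟨36 * (C₀ + 1) + 36, by positivity, ?_⟩
  intro T B hT hB q a b a' b' hq hqB haB hbB ha'B hb'B
  have hT' : (1 : ℝ) ≤ T := by exact_mod_cast hT
  have hT0 : (0 : ℝ) < T := by linarith
  have hB0 : (0 : ℝ) < B := by linarith
  set L : ℝ := C₀ * (2 * B * (T : ℝ) ^ δ) with hL
  have hLpos : 0 ≤ L := by positivity
  -- the divisor bound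
  have hMR : ∀ y z : ℤ, |y| ≤ (T : ℤ) → |z| ≤ (T : ℤ) → (q * z + a') * (q * y + b) ≠ 0 →
      ((((q * z + a') * (q * y + b)).natAbs.divisors.card : ℕ) : ℝ) ≤ L := by
    intro y z hy hz hne
    set N := (q * z + a') * (q * y + b) with hN
    have hNpos : 0 < N.natAbs := Int.natAbs_pos.2 hne
    have h1 := hdiv N.natAbs hNpos
    refine h1.trans ?_
    rw [hL]
    refine mul_le_mul_of_nonneg_left ?_ hC₀.le
    have hfac : ∀ (u c : ℤ), |u| ≤ (T : ℤ) → |(c : ℝ)| ≤ B * T ^ k →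
        |(q : ℝ) * u + c| ≤ 2 * B * (T : ℝ) ^ (k + 1) := by
      intro u c hu hc
      have hu' : |(u : ℝ)| ≤ T := by exact_mod_cast hu
      calc |(q : ℝ) * u + c| ≤ |(q : ℝ) * u| + |(c : ℝ)| := abs_add_le _ _
        _ = |(q : ℝ)| * |(u : ℝ)| + |(c : ℝ)| := by rw [abs_mul]
        _ ≤ (B * T ^ k) * T + B * T ^ k := by gcongr
        _ ≤ (B * T ^ k) * T + (B * T ^ k) * T := by
            have : B * (T : ℝ) ^ k * 1 ≤ B * (T : ℝ) ^ k * T := by gcongr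
            linarith
        _ = 2 * B * (T : ℝ) ^ (k + 1) := by ring
    have hNle : ((N.natAbs : ℕ) : ℝ) ≤ (2 * B * (T : ℝ) ^ (k + 1)) ^ 2 := by
      have e : ((N.natAbs : ℕ) : ℝ) = |(N : ℝ)| := by
        rw [Nat.cast_natAbs, Int.cast_abs]
      rw [e, hN]
      push_cast
      rw [abs_mul, pow_two]
      exact mul_le_mul (hfac z a' hz ha'B) (hfac y b hy hbB) (abs_nonneg _) (by positivity)
    calc ((N.natAbs : ℕ) : ℝ) ^ η ≤ ((2 * B * (T : ℝ) ^ (k + 1)) ^ 2) ^ η := by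
          gcongr
      _ = (2 * B) ^ (2 * η) * (T : ℝ) ^ (η * (2 * k + 2)) := by
          rw [← Real.rpow_natCast (2 * B * (T : ℝ) ^ (k + 1)) 2, ← Real.rpow_mul (by positivity),
            Real.mul_rpow (by positivity) (by positivity), ← Real.rpow_natCast (T : ℝ) (k + 1),
            ← Real.rpow_mul hT0.le]
          push_cast
          congr 2
          ring
      _ ≤ (2 * B) ^ (1 : ℝ) * (T : ℝ) ^ δ := by
          have h2B : (1 : ℝ) ≤ 2 * B := by linarith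
          have : 2 * η ≤ 1 := by linarith
          gcongr
      _ = 2 * B * (T : ℝ) ^ δ := by rw [Real.rpow_one]
  set M : ℕ := ⌊L⌋₊ with hM
  have hMn : ∀ y z : ℤ, |y| ≤ (T : ℤ) → |z| ≤ (T : ℤ) → (q * z + a') * (q * y + b) ≠ 0 →
      ((q * z + a') * (q * y + b)).natAbs.divisors.card ≤ M := by
    intro y z hy hz hne
    exact Nat.le_floor (hMR y z hy hz hne)
  have hML : (M : ℝ) ≤ L := Nat.floor_le hLpos
  have hz := ncard_zero_le T q a b a' b' hq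
  have hn := ncard_ne_le T M q a b a' b' hq hMn
  -- union
  set S0 := {s : Fin 4 → ℤ | (∀ i, |s i| ≤ (T : ℤ)) ∧
      (q * s 0 + a) * (q * s 3 + b') = (q * s 2 + a') * (q * s 1 + b) ∧
      (q * s 2 + a') * (q * s 1 + b) = 0} with hS0
  set S1 := {s : Fin 4 → ℤ | (∀ i, |s i| ≤ (T : ℤ)) ∧
      (q * s 0 + a) * (q * s 3 + b') = (q * s 2 + a') * (q * s 1 + b) ∧
      (q * s 2 + a') * (q * s 1 + b) ≠ 0} with hS1
  have hsub : {s : Fin 4 → ℤ | (∀ i, |s i| ≤ (T : ℤ)) ∧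
      (q * s 0 + a) * (q * s 3 + b') = (q * s 2 + a') * (q * s 1 + b)} ⊆ S0 ∪ S1 := by
    rintro s ⟨h0, h1⟩
    by_cases h : (q * s 2 + a') * (q * s 1 + b) = 0
    · exact Or.inl ⟨h0, h1, h⟩
    · exact Or.inr ⟨h0, h1, h⟩
  have hfin : (S0 ∪ S1).Finite :=
    ((box_finite T).subset (fun s hs => hs.1)).union ((box_finite T).subset (fun s hs => hs.1))
  have h1 := Set.ncard_le_ncard hsub hfin
  have h2 := Set.ncard_union_le S0 S1
  have h3 : ({s : Fin 4 → ℤ | (∀ i, |s i| ≤ (T : ℤ)) ∧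
      (q * s 0 + a) * (q * s 3 + b') = (q * s 2 + a') * (q * s 1 + b)}).ncard ≤
      4 * (2 * T + 1) ^ 2 + (2 * T + 1) ^ 2 * (2 * M) := by omega
  have h4 : (({s : Fin 4 → ℤ | (∀ i, |s i| ≤ (T : ℤ)) ∧
      (q * s 0 + a) * (q * s 3 + b') = (q * s 2 + a') * (q * s 1 + b)}).ncard : ℝ) ≤
      4 * (2 * T + 1) ^ 2 + (2 * T + 1) ^ 2 * (2 * M) := by exact_mod_cast h3
  refine h4.trans ?_
  have hTT : (2 * (T : ℝ) + 1) ^ 2 ≤ 9 * (T : ℝ) ^ 2 := by nlinarith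
  have hTd : (1 : ℝ) ≤ (T : ℝ) ^ δ := Real.one_le_rpow hT' hδ.le
  have e2 : (T : ℝ) ^ (2 + δ) = (T : ℝ) ^ 2 * (T : ℝ) ^ δ := by
    rw [Real.rpow_add hT0]
    congr 1
    exact_mod_cast Real.rpow_natCast (T : ℝ) 2
  rw [e2]
  calc 4 * (2 * (T : ℝ) + 1) ^ 2 + (2 * T + 1) ^ 2 * (2 * M)
      ≤ 4 * (9 * (T : ℝ) ^ 2) + (9 * (T : ℝ) ^ 2) * (2 * L) := by gcongr
    _ = 36 * (T : ℝ) ^ 2 + 36 * C₀ * B * ((T : ℝ) ^ 2 * (T : ℝ) ^ δ) := by rw [hL]; ring
    _ ≤ 36 * (B * ((T : ℝ) ^ 2 * (T : ℝ) ^ δ)) + 36 * C₀ * B * ((T : ℝ) ^ 2 * (T : ℝ) ^ δ) := by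
        have : (T : ℝ) ^ 2 ≤ B * ((T : ℝ) ^ 2 * (T : ℝ) ^ δ) := by
          calc (T : ℝ) ^ 2 = 1 * ((T : ℝ) ^ 2 * 1) := by ring
            _ ≤ B * ((T : ℝ) ^ 2 * (T : ℝ) ^ δ) := by gcongr
        linarith
    _ ≤ (36 * (C₀ + 1) + 36) * B * ((T : ℝ) ^ 2 * (T : ℝ) ^ δ) := by
        have : 0 ≤ B * ((T : ℝ) ^ 2 * (T : ℝ) ^ δ) := by positivity
        nlinarith

end Pool.Agent.Lib.MP_640417_ag.All
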