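import Pool.Agent.Lib.MP_640417_ag.All.SingCountA
import Pool.Agent.Lib.MP_640417_ag.All.SingCountQ

/-!
# The number of singular integral matrices in a box
-/

set_option autoImplicit false

namespace Pool.Agent.Lib.MP_640417_ag.All

open Module Finset Matrix

/-- the matrix with rows `e_i`, `e_j`, `Q` -/
def singCountN {m : ℕ} (i j : Fin (m + 2)) (Q : Fin m → Fin (m + 2) → ℤ) :
    Matrix (Fin (m + 2)) (Fin (m + 2)) ℤ :=
  Matrix.of (Fin.cons (Pi.single i 1) (Fin.cons (Pi.single j 1) Q))

/-- the first linear form -/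
def singCountF {m : ℕ} (i j : Fin (m + 2)) (Q : Fin m → Fin (m + 2) → ℤ)
    (x : Fin (m + 2) → ℤ) : ℤ := ((singCountN i j Q).updateRow 0 x).det

/-- the second linear form -/
def singCountG {m : ℕ} (i j : Fin (m + 2)) (Q : Fin m → Fin (m + 2) → ℤ)
    (x : Fin (m + 2) → ℤ) : ℤ := ((singCountN i j Q).updateRow 1 x).det

lemma singCount_N_zero {m : ℕ} (i j : Fin (m + 2)) (Q : Fin m → Fin (m + 2) → ℤ) :
    singCountN i j Q 0 = Pi.single i 1 := rfl

lemma singCount_N_one {m : ℕ} (i j : Fin (m + 2)) (Q : Fin m → Fin (m + 2) → ℤ) :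
    singCountN i j Q 1 = Pi.single j 1 := rfl

lemma singCount_N_succ {m : ℕ} (i j : Fin (m + 2)) (Q : Fin m → Fin (m + 2) → ℤ) (k : Fin m) :
    singCountN i j Q k.succ.succ = Q k := rfl

/-- zero two coordinates -/
def singCountZ {m : ℕ} (i j : Fin (m + 2)) (x : Fin (m + 2) → ℤ) : Fin (m + 2) → ℤ :=
  fun k => if k = i ∨ k = j then 0 else x k

lemma singCount_split {m : ℕ} {i j : Fin (m + 2)} (hij : i ≠ j) (x : Fin (m + 2) → ℤ) :
    x = singCountZ i j x + (x i • Pi.single i 1 + x j • Pi.single j 1) := by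
  ext k
  simp only [singCountZ, Pi.add_apply, Pi.smul_apply, smul_eq_mul]
  by_cases h1 : k = i
  · subst h1
    simp [hij]
  · by_cases h2 : k = j
    · subst h2
      simp [h1]
    · simp [h1, h2]

lemma singCount_F_eq {m : ℕ} {i j : Fin (m + 2)} (hij : i ≠ j) (Q : Fin m → Fin (m + 2) → ℤ)
    (x : Fin (m + 2) → ℤ) : singCountF i j Q x =
      (singCountN i j Q).det * x i + singCountF i j Q (singCountZ i j x) := by
  have h1 : singCountF i j Q (Pi.single i 1) = (singCountN i j Q).det := by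
    unfold singCountF
    rw [← singCount_N_zero i j Q, updateRow_eq_self]
  have h2 : singCountF i j Q (Pi.single j 1) = 0 := by
    unfold singCountF
    refine det_zero_of_row_eq (i := 0) (j := 1) (by simp) ?_
    rw [updateRow_self, updateRow_ne (by simp), singCount_N_one]
  conv_lhs => rw [singCount_split hij x]
  unfold singCountF at h1 h2 ⊢
  rw [det_updateRow_add, det_updateRow_add, det_updateRow_smul, det_updateRow_smul, h1, h2]
  ring

lemma singCount_G_eq {m : ℕ} {i j : Fin (m + 2)} (hij : i ≠ j) (Q : Fin m → Fin (m + 2) → ℤ)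
    (x : Fin (m + 2) → ℤ) : singCountG i j Q x =
      (singCountN i j Q).det * x j + singCountG i j Q (singCountZ i j x) := by
  have h1 : singCountG i j Q (Pi.single j 1) = (singCountN i j Q).det := by
    unfold singCountG
    rw [← singCount_N_one i j Q, updateRow_eq_self]
  have h2 : singCountG i j Q (Pi.single i 1) = 0 := by
    unfold singCountG
    refine det_zero_of_row_eq (i := 1) (j := 0) (by simp) ?_
    rw [updateRow_self, updateRow_ne (by simp), singCount_N_zero]
  conv_lhs => rw [singCount_split hij x]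
  unfold singCountG at h1 h2 ⊢
  rw [det_updateRow_add, det_updateRow_add, det_updateRow_smul, det_updateRow_smul, h1, h2]
  ring

/-- the bilinear equation -/
lemma singCount_key {m : ℕ} (M : Matrix (Fin (m + 2)) (Fin (m + 2)) ℤ) (hM : M.det = 0)
    (i j : Fin (m + 2)) (hq : (singCountN i j fun k => M k.succ.succ).det ≠ 0) :
    singCountF i j (fun k => M k.succ.succ) (M 0) * singCountG i j (fun k => M k.succ.succ) (M 1) =
    singCountF i j (fun k => M k.succ.succ) (M 1) *
      singCountG i j (fun k => M k.succ.succ) (M 0) := by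
  set Q : Fin m → Fin (m + 2) → ℤ := fun k => M k.succ.succ with hQ
  obtain ⟨v, hv, hMv⟩ := Matrix.exists_mulVec_eq_zero_iff.mpr hM
  have hrow : ∀ k, M k ⬝ᵥ v = 0 := fun k => congrFun hMv k
  have hN : ∀ x : Fin (m + 2) → ℤ, (singCountN i j Q).det * (x ⬝ᵥ v) =
      singCountF i j Q x * v i + singCountG i j Q x * v j := by
    intro x
    have h1 := Matrix.mulVec_cramer (singCountN i j Q)ᵀ x
    rw [det_transpose] at h1
    have h2 : (singCountN i j Q).det * (x ⬝ᵥ v) =
        (singCountN i j Q)ᵀ.cramer x ⬝ᵥ (singCountN i j Q).mulVec v := by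
      rw [← smul_eq_mul, ← smul_dotProduct, ← h1, mulVec_transpose, dotProduct_mulVec]
    rw [h2, dotProduct, Fin.sum_univ_succ, Fin.sum_univ_succ]
    have h3 : ∀ k : Fin m, (singCountN i j Q).mulVec v k.succ.succ = 0 := fun k => hrow k.succ.succ
    have h4 : (singCountN i j Q).mulVec v 0 = v i := by
      change (singCountN i j Q 0) ⬝ᵥ v = v i
      rw [singCount_N_zero, single_one_dotProduct]
    have h5 : (singCountN i j Q).mulVec v (Fin.succ 0) = v j := by
      change (singCountN i j Q 1) ⬝ᵥ v = v j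
      rw [singCount_N_one, single_one_dotProduct]
    rw [h4, h5, cramer_transpose_apply, cramer_transpose_apply]
    simp only [h3, mul_zero, Finset.sum_const_zero, add_zero]
    rfl
  have e0 := hN (M 0)
  have e1 := hN (M 1)
  rw [hrow, mul_zero] at e0 e1
  have hvv : v i ≠ 0 ∨ v j ≠ 0 := by
    by_contra hcon
    push Not at hcon
    obtain ⟨h1, h2⟩ := hcon
    apply hq
    refine Matrix.exists_mulVec_eq_zero_iff.mp ⟨v, hv, ?_⟩
    funext k
    refine Fin.cases ?_ (fun k => ?_) k
    · change (singCountN i j Q 0) ⬝ᵥ v = 0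
      rw [singCount_N_zero, single_one_dotProduct, h1]
    · refine Fin.cases ?_ (fun k => ?_) k
      · change (singCountN i j Q 1) ⬝ᵥ v = 0
        rw [singCount_N_one, single_one_dotProduct, h2]
      · exact hrow k.succ.succ
  set A := singCountF i j Q (M 0)
  set A' := singCountF i j Q (M 1)
  set B := singCountG i j Q (M 0)
  set B' := singCountG i j Q (M 1)
  have h1 : v i * (A * B' - A' * B) = 0 := by linear_combination (-B') * e0 + B * e1
  have h2 : v j * (A * B' - A' * B) = 0 := by linear_combination A' * e0 - A * e1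
  have h3 : A * B' - A' * B = 0 := by
    rcases hvv with h | h
    · exact (mul_eq_zero.mp h1).resolve_left h
    · exact (mul_eq_zero.mp h2).resolve_left h
  linarith

/-- extension by a unit vector -/
lemma singCount_extend {m n : ℕ} (hmn : m < n) (Q : Fin m → Fin n → ℚ)
    (hQ : LinearIndependent ℚ Q) :
    ∃ j, LinearIndependent ℚ (Fin.cons (Pi.single j 1) Q : Fin (m + 1) → Fin n → ℚ) := by
  by_contra hcon
  push Not at hcon
  have h1 : ∀ j : Fin n, (Pi.single j 1 : Fin n → ℚ) ∈ Submodule.span ℚ (Set.range Q) := by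
    intro j
    by_contra hj
    exact hcon j (linearIndependent_finCons.mpr ⟨hQ, hj⟩)
  have h2 : Submodule.span ℚ (Set.range Q) = ⊤ := by
    rw [eq_top_iff, ← (Pi.basisFun ℚ (Fin n)).span_eq, Submodule.span_le]
    rintro _ ⟨j, rfl⟩
    rw [Pi.basisFun_apply]
    exact h1 j
  have h3 := finrank_span_eq_card hQ
  rw [h2, finrank_top, Module.finrank_fin_fun, Fintype.card_fin] at h3
  omega

lemma singCount_exists {m : ℕ} (Q : Fin m → Fin (m + 2) → ℤ)
    (hQ : LinearIndependent ℚ (fun i j => (Q i j : ℚ))) :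
    ∃ i j, i ≠ j ∧ (singCountN i j Q).det ≠ 0 := by
  obtain ⟨j, hj⟩ := singCount_extend (by omega) _ hQ
  obtain ⟨i, hi⟩ := singCount_extend (by omega) _ hj
  have hdet : (singCountN i j Q).det ≠ 0 := by
    intro h0
    have h1 : ((singCountN i j Q).map (Int.cast : ℤ → ℚ)).row = Fin.cons (Pi.single i 1)
        (Fin.cons (Pi.single j 1) (fun i j => (Q i j : ℚ))) := by
      funext k l
      refine Fin.cases ?_ (fun k => ?_) k
      · change (((Pi.single i 1 : Fin (m + 2) → ℤ) l : ℤ) : ℚ) = (Pi.single i 1 : Fin (m + 2) → ℚ) l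
        rw [Pi.single_apply, Pi.single_apply]
        split_ifs <;> simp
      · refine Fin.cases ?_ (fun k => ?_) k
        · change (((Pi.single j 1 : Fin (m + 2) → ℤ) l : ℤ) : ℚ) =
            (Pi.single j 1 : Fin (m + 2) → ℚ) l
          rw [Pi.single_apply, Pi.single_apply]
          split_ifs <;> simp
        · rfl
    rw [← h1, linearIndependent_rows_iff_isUnit, isUnit_iff_isUnit_det] at hi
    have h2 : ((singCountN i j Q).map (Int.cast : ℤ → ℚ)).det = ((singCountN i j Q).det : ℚ) := by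
      have := (Int.castRingHom ℚ).map_det (singCountN i j Q)
      exact this.symm
    rw [h2, h0] at hi
    simp at hi
  refine ⟨i, j, ?_, hdet⟩
  rintro rfl
  exact hdet (det_zero_of_row_eq (i := 0) (j := 1) (by simp) rfl)

/-! ### Counting -/

/-- matrices with entries in a box -/
noncomputable def singCountBox (m n T : ℕ) : Finset (Fin m → Fin n → ℤ) :=
  Fintype.piFinset fun _ => Fintype.piFinset fun _ => Icc (-(T : ℤ)) T

lemma singCount_mem_box {m n T : ℕ} (M : Fin m → Fin n → ℤ) :
    M ∈ singCountBox m n T ↔ ∀ i j, |M i j| ≤ T := by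
  simp only [singCountBox, Fintype.mem_piFinset, Finset.mem_Icc, abs_le]

lemma singCount_card_box (m n T : ℕ) : (singCountBox m n T).card = (2 * T + 1) ^ (m * n) := by
  have h : (Icc (-(T : ℤ)) T).card = 2 * T + 1 := by
    rw [Int.card_Icc]
    omega
  simp only [singCountBox, Fintype.card_piFinset, h, Finset.prod_const, Finset.card_univ,
    Fintype.card_fin]
  rw [← pow_mul, Nat.mul_comm n m]

open Classical in
/-- dependent part -/
lemma singCount_dep (m T : ℕ) :
    ((singCountBox (m + 2) (m + 2) T).filter fun M =>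
      ¬ LinearIndependent ℚ (fun (i : Fin m) j => (M i.succ.succ j : ℚ))).card ≤
      m * (2 * T + 1) ^ ((m - 1) * ((m + 2) + 1)) * (2 * T + 1) ^ (2 * (m + 2)) := by
  have h1 := ncard_dependent_le m (m + 2) T
  have h2 : {Q : Fin m → Fin (m + 2) → ℤ | (∀ i j, |Q i j| ≤ T) ∧
      ¬ LinearIndependent ℚ (fun i j => (Q i j : ℚ))} =
      ↑((singCountBox m (m + 2) T).filter fun Q =>
        ¬ LinearIndependent ℚ (fun i j => (Q i j : ℚ))) := by
    ext Q
    simp only [Finset.coe_filter, singCount_mem_box, Set.mem_ofPred_eq]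
  rw [h2, Set.ncard_coe_finset] at h1
  rw [← singCount_card_box 2 (m + 2) T]
  refine le_trans ?_ (Nat.mul_le_mul_right _ h1)
  rw [← Finset.card_product]
  refine Finset.card_le_card_of_injOn
    (fun M => ((fun i => M i.succ.succ), (fun i : Fin 2 => M (Fin.castLE (by omega) i)))) ?_ ?_
  · intro M hM
    rw [Finset.mem_coe, Finset.mem_filter, singCount_mem_box] at hM
    rw [Finset.mem_coe, Finset.mem_product, Finset.mem_filter, singCount_mem_box,
      singCount_mem_box]
    exact ⟨⟨fun i j => hM.1 _ _, hM.2⟩, fun i j => hM.1 _ _⟩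
  · intro M _ M' _ h
    rw [Prod.mk.injEq] at h
    obtain ⟨h3, h4⟩ := h
    funext k
    refine Fin.cases ?_ (fun k => ?_) k
    · exact congrFun h4 0
    · refine Fin.cases ?_ (fun k => ?_) k
      · exact congrFun h4 1
      · exact congrFun h3 k

/-- set four entries to zero -/
def singCountR {m : ℕ} (i j : Fin (m + 2)) (M : Fin (m + 2) → Fin (m + 2) → ℤ) :
    Fin (m + 2) → Fin (m + 2) → ℤ :=
  fun a b => if (a = 0 ∨ a = 1) ∧ (b = i ∨ b = j) then 0 else M a b

/-- the box with four zero entries -/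
noncomputable def singCountBox' {m : ℕ} (i j : Fin (m + 2)) (T : ℕ) :
    Finset (Fin (m + 2) → Fin (m + 2) → ℤ) :=
  Fintype.piFinset fun a => Fintype.piFinset fun b =>
    if (a = 0 ∨ a = 1) ∧ (b = i ∨ b = j) then {0} else Icc (-(T : ℤ)) T

lemma singCount_card_box' {m : ℕ} {i j : Fin (m + 2)} (hij : i ≠ j) (T : ℕ) :
    (singCountBox' i j T).card = (2 * T + 1) ^ (m * m + 4 * m) := by
  have h : (Icc (-(T : ℤ)) T).card = 2 * T + 1 := by
    rw [Int.card_Icc]
    omega
  have hc : ∀ a b : Fin (m + 2), (if (a = 0 ∨ a = 1) ∧ (b = i ∨ b = j) then {0}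
      else Icc (-(T : ℤ)) T : Finset ℤ).card =
      if (a = 0 ∨ a = 1) ∧ (b = i ∨ b = j) then 1 else 2 * T + 1 := by
    intro a b
    split_ifs
    · simp
    · exact h
  have hrow : ∏ b : Fin (m + 2), (if b = i ∨ b = j then 1 else 2 * T + 1) = (2 * T + 1) ^ m := by
    rw [Finset.prod_ite, Finset.prod_const_one, one_mul, Finset.prod_const]
    congr 1
    have h3 : (Finset.univ.filter fun b : Fin (m + 2) => ¬ (b = i ∨ b = j)) =
        Finset.univ \ {i, j} := by
      ext b
      simp
    rw [h3, Finset.card_sdiff_of_subset (Finset.subset_univ _), Finset.card_univ, Fintype.card_fin,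
      Finset.card_pair hij]
    omega
  simp only [singCountBox', Fintype.card_piFinset, hc]
  set f : Fin (m + 2) → ℕ := fun a => ∏ b : Fin (m + 2),
    (if (a = 0 ∨ a = 1) ∧ (b = i ∨ b = j) then 1 else 2 * T + 1) with hf
  change ∏ a, f a = _
  rw [Fin.prod_univ_succ, Fin.prod_univ_succ]
  have h0 : f 0 = (2 * T + 1) ^ m := by
    rw [hf, ← hrow]
    refine Finset.prod_congr rfl fun b _ => ?_
    simp
  have h1 : f (Fin.succ 0) = (2 * T + 1) ^ m := by
    rw [hf, ← hrow]
    refine Finset.prod_congr rfl fun b _ => ?_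
    simp
  have h2 : ∀ k : Fin m, f k.succ.succ = (2 * T + 1) ^ (m + 2) := by
    intro k
    have h3 : ¬ ((k.succ.succ : Fin (m + 2)) = 0 ∨ (k.succ.succ : Fin (m + 2)) = 1) := by
      rintro (h4 | h4)
      · exact absurd h4 (Fin.succ_ne_zero _)
      · have := congrArg Fin.val h4
        simp at this
    rw [hf]
    have h5 : ∀ b ∈ (Finset.univ : Finset (Fin (m + 2))), (if ((k.succ.succ : Fin (m + 2)) = 0 ∨
        (k.succ.succ : Fin (m + 2)) = 1) ∧ (b = i ∨ b = j) then 1 else 2 * T + 1) =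
        2 * T + 1 := fun b _ => if_neg fun h => h3 h.1
    dsimp only
    rw [Finset.prod_congr rfl h5, Finset.prod_const, Finset.card_univ, Fintype.card_fin]
  rw [h0, h1, Finset.prod_congr rfl fun k _ => h2 k, Finset.prod_const, Finset.card_univ,
    Fintype.card_fin, ← pow_mul, ← pow_add, ← pow_add]
  congr 1
  ring

lemma singCount_R_mem {m : ℕ} {i j : Fin (m + 2)} {T : ℕ} {M : Fin (m + 2) → Fin (m + 2) → ℤ}
    (hM : M ∈ singCountBox (m + 2) (m + 2) T) : singCountR i j M ∈ singCountBox' i j T := by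
  rw [singCountBox', Fintype.mem_piFinset]
  intro a
  rw [Fintype.mem_piFinset]
  intro b
  unfold singCountR
  split_ifs with h
  · simp
  · rw [singCount_mem_box] at hM
    rw [Finset.mem_Icc]
    exact abs_le.mp (hM a b)

lemma singCount_abs_det {n T : ℕ} (hT : 1 ≤ T) (A : Matrix (Fin n) (Fin n) ℤ)
    (hA : ∀ i j, |A i j| ≤ T) : |(A.det : ℝ)| ≤ (n.factorial : ℝ) * (T : ℝ) ^ n := by
  have h1 := Matrix.det_le (abv := (AbsoluteValue.abs : AbsoluteValue ℤ ℤ)) (x := (T : ℤ)) hA
  rw [Fintype.card_fin, AbsoluteValue.abs_apply, nsmul_eq_mul] at h1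
  have h2 : ((|A.det| : ℤ) : ℝ) ≤ (((n.factorial : ℤ) * (T : ℤ) ^ n : ℤ) : ℝ) := by
    exact_mod_cast h1
  rw [Int.cast_abs] at h2
  refine h2.trans (le_of_eq ?_)
  push_cast
  ring

lemma singCount_N_abs {m T : ℕ} (hT : 1 ≤ T) (i j : Fin (m + 2)) (Q : Fin m → Fin (m + 2) → ℤ)
    (hQ : ∀ k l, |Q k l| ≤ T) (k l : Fin (m + 2)) : |singCountN i j Q k l| ≤ T := by
  have hs : ∀ i : Fin (m + 2), |(Pi.single i 1 : Fin (m + 2) → ℤ) l| ≤ (T : ℤ) := by
    intro i
    rw [Pi.single_apply]
    have : (1 : ℤ) ≤ T := by exact_mod_cast hT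
    split_ifs
    · simpa using this
    · simp
  refine Fin.cases ?_ (fun k => ?_) k
  · exact hs i
  · refine Fin.cases ?_ (fun k => ?_) k
    · exact hs j
    · exact hQ k l

/-- the nondegenerate part -/
lemma singCount_nd {m : ℕ} {i j : Fin (m + 2)} (hij : i ≠ j) (δ C : ℝ) (hC : 0 < C)
    (hquad : ∀ (T : ℕ) (B : ℝ), 1 ≤ T →
    1 ≤ B → ∀ (q a b a' b' : ℤ), q ≠ 0 → |(q : ℝ)| ≤ B * T ^ (m + 2) →
    |(a : ℝ)| ≤ B * T ^ (m + 2) →
    |(b : ℝ)| ≤ B * T ^ (m + 2) → |(a' : ℝ)| ≤ B * T ^ (m + 2) → |(b' : ℝ)| ≤ B * T ^ (m + 2) →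
    ({s : Fin 4 → ℤ | (∀ i, |s i| ≤ T) ∧
      (q * s 0 + a) * (q * s 3 + b') = (q * s 2 + a') * (q * s 1 + b)}.ncard : ℝ)
      ≤ C * B * (T : ℝ) ^ (2 + δ)) (T : ℕ) (hT : 1 ≤ T) :
    (((singCountBox (m + 2) (m + 2) T).filter fun M => Matrix.det (Matrix.of M) = 0 ∧
      (singCountN i j fun k => M k.succ.succ).det ≠ 0).card : ℝ) ≤
      (2 * T + 1) ^ (m * m + 4 * m) * (C * (m + 2).factorial * (T : ℝ) ^ (2 + δ)) := by
  set S := (singCountBox (m + 2) (m + 2) T).filter fun M => Matrix.det (Matrix.of M) = 0 ∧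
      (singCountN i j fun k => M k.succ.succ).det ≠ 0 with hS
  have hmem : ∀ M ∈ S, (∀ a b, |M a b| ≤ T) ∧ Matrix.det (Matrix.of M) = 0 ∧
      (singCountN i j fun k => M k.succ.succ).det ≠ 0 := by
    intro M hM
    rw [hS, Finset.mem_filter, singCount_mem_box] at hM
    exact hM
  have h1 : S.card = ∑ R ∈ singCountBox' i j T, (S.filter fun M => singCountR i j M = R).card :=
    Finset.card_eq_sum_card_fiberwise fun M hM => by
      rw [Finset.mem_coe]
      exact singCount_R_mem (Finset.mem_filter.mp hM).1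
  rw [h1]
  push_cast
  have h2 : ∀ R ∈ singCountBox' i j T, ((S.filter fun M => singCountR i j M = R).card : ℝ) ≤
      C * (m + 2).factorial * (T : ℝ) ^ (2 + δ) := by
    intro R _
    rcases (S.filter fun M => singCountR i j M = R).eq_empty_or_nonempty with he | ⟨M₀, hM₀⟩
    · rw [he, Finset.card_empty]
      push_cast
      positivity
    · rw [Finset.mem_filter] at hM₀
      obtain ⟨hM₀S, hM₀R⟩ := hM₀
      obtain ⟨hb, hd, hq⟩ := hmem M₀ hM₀S
      set Q : Fin m → Fin (m + 2) → ℤ := fun k => M₀ k.succ.succ with hQ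
      have hfac : (1 : ℝ) ≤ (m + 2).factorial := by
        exact_mod_cast Nat.factorial_pos _
      have hZ : ∀ (x : Fin (m + 2) → ℤ), (∀ b, |x b| ≤ T) → ∀ b, |singCountZ i j x b| ≤ T := by
        intro x hx b
        unfold singCountZ
        split_ifs
        · simp
        · exact hx b
      have hN := singCount_N_abs hT i j Q (fun k l => hb _ _)
      have hup : ∀ (r : Fin (m + 2)) (x : Fin (m + 2) → ℤ), (∀ b, |x b| ≤ T) → ∀ a b,
          |(singCountN i j Q).updateRow r x a b| ≤ T := by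
        intro r x hx a b
        rw [Matrix.updateRow_apply]
        split_ifs
        · exact hx b
        · exact hN a b
      have hr : ∀ k : Fin (m + 2), ∀ b, |singCountZ i j (M₀ k) b| ≤ T := fun k =>
        hZ _ fun b => hb k b
      have hcount := hquad T (m + 2).factorial hT hfac (singCountN i j Q).det
        (singCountF i j Q (singCountZ i j (M₀ 0))) (singCountG i j Q (singCountZ i j (M₀ 0)))
        (singCountF i j Q (singCountZ i j (M₀ 1))) (singCountG i j Q (singCountZ i j (M₀ 1)))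
        hq (singCount_abs_det hT _ hN) (singCount_abs_det hT _ (hup 0 _ (hr 0)))
        (singCount_abs_det hT _ (hup 1 _ (hr 0))) (singCount_abs_det hT _ (hup 0 _ (hr 1)))
        (singCount_abs_det hT _ (hup 1 _ (hr 1)))
      refine le_trans ?_ hcount
      have hfin : {s : Fin 4 → ℤ | (∀ i, |s i| ≤ T) ∧
          ((singCountN i j Q).det * s 0 + singCountF i j Q (singCountZ i j (M₀ 0))) *
            ((singCountN i j Q).det * s 3 + singCountG i j Q (singCountZ i j (M₀ 1))) =
          ((singCountN i j Q).det * s 2 + singCountF i j Q (singCountZ i j (M₀ 1))) *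
            ((singCountN i j Q).det * s 1 + singCountG i j Q (singCountZ i j (M₀ 0)))}.Finite := by
        refine Set.Finite.subset (Set.Finite.pi' fun _ => Set.finite_Icc (-(T : ℤ)) T) ?_
        intro s hs i
        exact abs_le.mp (hs.1 i)
      have hle := Set.ncard_le_ncard_of_injOn
        (s := ((S.filter fun M => singCountR i j M = R : Finset _) :
          Set (Fin (m + 2) → Fin (m + 2) → ℤ)))
        (fun M => ![M 0 i, M 0 j, M 1 i, M 1 j]) (t := {s : Fin 4 → ℤ | (∀ i, |s i| ≤ T) ∧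
          ((singCountN i j Q).det * s 0 + singCountF i j Q (singCountZ i j (M₀ 0))) *
            ((singCountN i j Q).det * s 3 + singCountG i j Q (singCountZ i j (M₀ 1))) =
          ((singCountN i j Q).det * s 2 + singCountF i j Q (singCountZ i j (M₀ 1))) *
            ((singCountN i j Q).det * s 1 + singCountG i j Q (singCountZ i j (M₀ 0)))})
        ?_ ?_ hfin
      · rw [Set.ncard_coe_finset] at hle
        exact_mod_cast hle
      · intro M hM
        rw [Finset.mem_coe, Finset.mem_filter] at hM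
        obtain ⟨hMS, hMR⟩ := hM
        obtain ⟨hb', hd', hq'⟩ := hmem M hMS
        have hRR : ∀ a b, ¬ ((a = 0 ∨ a = 1) ∧ (b = i ∨ b = j)) → M a b = M₀ a b := by
          intro a b hab
          have h3 := congrFun (congrFun (hMR.trans hM₀R.symm) a) b
          unfold singCountR at h3
          rwa [if_neg hab, if_neg hab] at h3
        have hQM : (fun k : Fin m => M k.succ.succ) = Q := by
          funext k l
          refine hRR _ _ fun h => ?_
          rcases h.1 with h4 | h4
          · exact absurd h4 (Fin.succ_ne_zero _)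
          · have := congrArg Fin.val h4
            simp at this
        have hZM : ∀ k, singCountZ i j (M k) = singCountZ i j (M₀ k) := by
          intro k
          funext b
          unfold singCountZ
          split_ifs with h4
          · rfl
          · exact hRR _ _ fun h => h4 h.2
        have hk := singCount_key (Matrix.of M) hd' i j hq'
        change singCountF i j (fun k => M k.succ.succ) (M 0) *
          singCountG i j (fun k => M k.succ.succ) (M 1) =
          singCountF i j (fun k => M k.succ.succ) (M 1) *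
            singCountG i j (fun k => M k.succ.succ) (M 0) at hk
        rw [hQM, singCount_F_eq hij Q (M 0), singCount_F_eq hij Q (M 1),
          singCount_G_eq hij Q (M 0), singCount_G_eq hij Q (M 1), hZM, hZM] at hk
        refine ⟨?_, ?_⟩
        · intro l
          fin_cases l
          · exact hb' 0 i
          · exact hb' 0 j
          · exact hb' 1 i
          · exact hb' 1 j
        · exact hk
      · intro M hM M' hM' h
        rw [Finset.mem_coe, Finset.mem_filter] at hM hM'
        have e0 := congrFun h 0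
        have e1 := congrFun h 1
        have e2 := congrFun h 2
        have e3 := congrFun h 3
        change M 0 i = M' 0 i at e0
        change M 0 j = M' 0 j at e1
        change M 1 i = M' 1 i at e2
        change M 1 j = M' 1 j at e3
        funext a b
        by_cases hab : (a = 0 ∨ a = 1) ∧ (b = i ∨ b = j)
        · rcases hab with ⟨h4 | h4, h5 | h5⟩ <;> subst h4 <;> subst h5 <;> assumption
        · have h3 := congrFun (congrFun (hM.2.trans hM'.2.symm) a) b
          unfold singCountR at h3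
          rwa [if_neg hab, if_neg hab] at h3
  refine (Finset.sum_le_card_nsmul _ _ _ h2).trans (le_of_eq ?_)
  rw [nsmul_eq_mul, singCount_card_box' hij]
  push_cast
  ring

/-- The number of singular matrices. Write `n = m + 2`, let `r, r'` be the first two rows and `Q`
the other `m` rows. (i) If the rows of `Q` are dependent: `ncard_dependent_le` with
`(m - 1) (n + 1) = m n - 3` (for `m = 0` there is no such `Q`) and `(2T+1)^{2n}` choices of
`(r, r')`: at most `m (2T+1)^{n² - 3}`. (ii) Otherwise there are `i < j` such that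
`q = det (e_i; e_j; Q) ≠ 0` (extend the rows of `Q` to a basis by two unit vectors). The linear
forms `A(r) = det (r; e_j; Q)`, `B(r) = det (e_i; r; Q)` satisfy
`A(r) B(r') - A(r') B(r) = q det (r; r'; Q)` (write `r = α e_i + β e_j + (rows of Q)`), and
`A(r) = q r_i + a`, `B(r) = q r_j + b` with `a, b` depending on the coordinates of `r` other than
`i, j` (`A(e_i) = q`, `A(e_j) = 0`, `B(e_i) = 0`, `B(e_j) = q`). All these numbers are at most
`n! T^{n}` in absolute value. For given `Q`, `i`, `j` and given other coordinates of `r`, `r'`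
(at most `(2T+1)^{n² - 4}` choices, `n²` pairs `(i, j)`) use `ncard_quad_le` for
`(r_i, r_j, r'_i, r'_j)`. -/
theorem ncard_singular_le (n : ℕ) (hn : 2 ≤ n) (δ : ℝ) (hδ : 0 < δ) : ∃ C : ℝ, 0 < C ∧
    ∀ T : ℕ, 1 ≤ T → ({M : Matrix (Fin n) (Fin n) ℤ | (∀ i j, |M i j| ≤ T) ∧ M.det = 0}.ncard : ℝ)
      ≤ C * (T : ℝ) ^ ((n : ℝ) ^ 2 - 2 + δ) := by
  classical
  obtain ⟨m, rfl⟩ : ∃ m, n = m + 2 := ⟨n - 2, by omega⟩
  obtain ⟨C, hC, hquad⟩ := ncard_quad_le δ hδ (m + 2)
  refine ⟨(m : ℝ) * 3 ^ ((m + 2) ^ 2) +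
    (m + 2) ^ 2 * (3 ^ ((m + 2) ^ 2) * (C * (m + 2).factorial)), by positivity, fun T hT => ?_⟩
  have hTr : (1 : ℝ) ≤ T := by exact_mod_cast hT
  have hT0 : (0 : ℝ) < T := by linarith
  set S := (singCountBox (m + 2) (m + 2) T).filter fun M => Matrix.det (Matrix.of M) = 0 with hS
  have h0 : {M : Matrix (Fin (m + 2)) (Fin (m + 2)) ℤ | (∀ i j, |M i j| ≤ T) ∧ M.det = 0} =
      (S : Set (Fin (m + 2) → Fin (m + 2) → ℤ)) := by
    ext M
    rw [hS, Finset.coe_filter]
    simp only [Set.mem_ofPred_eq, singCount_mem_box]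
    rfl
  have h0' : {M : Matrix (Fin (m + 2)) (Fin (m + 2)) ℤ | (∀ i j, |M i j| ≤ T) ∧
      M.det = 0}.ncard = S.card := by
    rw [h0]
    exact Set.ncard_coe_finset S
  rw [h0']
  set D := (singCountBox (m + 2) (m + 2) T).filter fun M =>
      ¬ LinearIndependent ℚ (fun (i : Fin m) j => (M i.succ.succ j : ℚ)) with hD
  set N : Fin (m + 2) × Fin (m + 2) → Finset (Fin (m + 2) → Fin (m + 2) → ℤ) := fun p =>
    (singCountBox (m + 2) (m + 2) T).filter fun M => Matrix.det (Matrix.of M) = 0 ∧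
      (singCountN p.1 p.2 fun k => M k.succ.succ).det ≠ 0 with hN
  have hsub : S ⊆ D ∪ (Finset.univ.filter fun p : Fin (m + 2) × Fin (m + 2) =>
      p.1 ≠ p.2).biUnion N := by
    intro M hM
    rw [hS, Finset.mem_filter] at hM
    rw [Finset.mem_union]
    by_cases hli : LinearIndependent ℚ (fun (i : Fin m) j => (M i.succ.succ j : ℚ))
    · right
      obtain ⟨i, j, hij, hq⟩ := singCount_exists (fun k => M k.succ.succ) hli
      rw [Finset.mem_biUnion]
      refine ⟨(i, j), ?_, ?_⟩
      · rw [Finset.mem_filter]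
        exact ⟨Finset.mem_univ _, hij⟩
      · rw [hN, Finset.mem_filter]
        exact ⟨hM.1, hM.2, hq⟩
    · left
      rw [hD, Finset.mem_filter]
      exact ⟨hM.1, hli⟩
  have hcard : (S.card : ℝ) ≤ (D.card : ℝ) +
      ∑ p ∈ (Finset.univ.filter fun p : Fin (m + 2) × Fin (m + 2) => p.1 ≠ p.2),
        ((N p).card : ℝ) := by
    have h1 := (Finset.card_le_card hsub).trans ((Finset.card_union_le _ _).trans
      (Nat.add_le_add_left Finset.card_biUnion_le _))
    exact_mod_cast h1
  -- powers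
  have h3T : ((2 * T + 1 : ℕ) : ℝ) ≤ 3 * T := by
    push_cast
    linarith
  have hexp : ((m + 2 : ℕ) : ℝ) ^ 2 - 2 + δ = ((m * m + 4 * m : ℕ) : ℝ) + (2 + δ) := by
    push_cast
    ring
  have hpowT : (T : ℝ) ^ (((m + 2 : ℕ) : ℝ) ^ 2 - 2 + δ) =
      (T : ℝ) ^ (m * m + 4 * m) * (T : ℝ) ^ (2 + δ) := by
    rw [hexp, Real.rpow_add hT0, Real.rpow_natCast]
  have hDle : (D.card : ℝ) ≤ (m : ℝ) * 3 ^ ((m + 2) ^ 2) *
      (T : ℝ) ^ (((m + 2 : ℕ) : ℝ) ^ 2 - 2 + δ) := by
    have h1 := singCount_dep m T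
    rcases Nat.eq_zero_or_pos m with hm | hm
    · subst hm
      have h2 : D.card = 0 := by
        have h3 : D.card ≤ 0 := by
          refine h1.trans ?_
          simp
        omega
      rw [h2]
      simp
    · have h2 : m * (2 * T + 1) ^ ((m - 1) * ((m + 2) + 1)) * (2 * T + 1) ^ (2 * (m + 2)) =
          m * (2 * T + 1) ^ (m * m + 4 * m + 1) := by
        rw [mul_assoc, ← pow_add]
        congr 2
        obtain ⟨l, rfl⟩ : ∃ l, m = l + 1 := ⟨m - 1, by omega⟩
        simp only [Nat.add_sub_cancel]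
        ring
      rw [h2] at h1
      have h4 : (D.card : ℝ) ≤ m * ((2 * T + 1 : ℕ) : ℝ) ^ (m * m + 4 * m + 1) := by
        exact_mod_cast h1
      refine h4.trans ?_
      rw [mul_assoc, hpowT]
      refine mul_le_mul_of_nonneg_left ?_ (Nat.cast_nonneg _)
      calc ((2 * T + 1 : ℕ) : ℝ) ^ (m * m + 4 * m + 1) ≤ (3 * (T : ℝ)) ^ (m * m + 4 * m + 1) :=
            pow_le_pow_left₀ (Nat.cast_nonneg _) h3T _
        _ = 3 ^ (m * m + 4 * m + 1) * ((T : ℝ) ^ (m * m + 4 * m) * T) := by
            rw [mul_pow, pow_succ (T : ℝ)]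
        _ ≤ 3 ^ ((m + 2) ^ 2) * ((T : ℝ) ^ (m * m + 4 * m) * (T : ℝ) ^ (2 + δ)) := by
            refine mul_le_mul (pow_le_pow_right₀ (by norm_num) (by nlinarith)) ?_
              (by positivity) (by positivity)
            refine mul_le_mul_of_nonneg_left ?_ (by positivity)
            calc (T : ℝ) = (T : ℝ) ^ (1 : ℝ) := (Real.rpow_one _).symm
              _ ≤ (T : ℝ) ^ (2 + δ) := Real.rpow_le_rpow_of_exponent_le hTr (by linarith)
  have hNle : ∀ p ∈ (Finset.univ.filter fun p : Fin (m + 2) × Fin (m + 2) => p.1 ≠ p.2),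
      ((N p).card : ℝ) ≤ 3 ^ ((m + 2) ^ 2) * (C * (m + 2).factorial) *
        (T : ℝ) ^ (((m + 2 : ℕ) : ℝ) ^ 2 - 2 + δ) := by
    intro p hp
    rw [Finset.mem_filter] at hp
    have h1 := singCount_nd hp.2 δ C hC hquad T hT
    refine h1.trans ?_
    rw [hpowT]
    have h2 : (2 * (T : ℝ) + 1) ^ (m * m + 4 * m) ≤
        3 ^ ((m + 2) ^ 2) * (T : ℝ) ^ (m * m + 4 * m) := by
      calc (2 * (T : ℝ) + 1) ^ (m * m + 4 * m) ≤ (3 * (T : ℝ)) ^ (m * m + 4 * m) :=
            pow_le_pow_left₀ (by positivity) (by linarith) _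
        _ = 3 ^ (m * m + 4 * m) * (T : ℝ) ^ (m * m + 4 * m) := by rw [mul_pow]
        _ ≤ 3 ^ ((m + 2) ^ 2) * (T : ℝ) ^ (m * m + 4 * m) := by
            refine mul_le_mul_of_nonneg_right ?_ (by positivity)
            exact pow_le_pow_right₀ (by norm_num) (by nlinarith)
    calc (2 * (T : ℝ) + 1) ^ (m * m + 4 * m) * (C * (m + 2).factorial * (T : ℝ) ^ (2 + δ)) ≤
        3 ^ ((m + 2) ^ 2) * (T : ℝ) ^ (m * m + 4 * m) *
          (C * (m + 2).factorial * (T : ℝ) ^ (2 + δ)) :=
          mul_le_mul_of_nonneg_right h2 (by positivity)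
      _ = _ := by ring
  have hsum := Finset.sum_le_card_nsmul _ _ _ hNle
  rw [nsmul_eq_mul] at hsum
  have hcp : ((Finset.univ.filter fun p : Fin (m + 2) × Fin (m + 2) => p.1 ≠ p.2).card : ℝ) ≤
      ((m : ℝ) + 2) ^ 2 := by
    have h1 := Finset.card_filter_le (Finset.univ : Finset (Fin (m + 2) × Fin (m + 2)))
      (fun p => p.1 ≠ p.2)
    rw [Finset.card_univ, Fintype.card_prod, Fintype.card_fin] at h1
    have h2 : ((Finset.univ.filter fun p : Fin (m + 2) × Fin (m + 2) => p.1 ≠ p.2).card : ℝ) ≤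
      (((m + 2) * (m + 2) : ℕ) : ℝ) := by exact_mod_cast h1
    refine h2.trans (le_of_eq ?_)
    push_cast
    ring
  have hfin := hsum.trans (mul_le_mul_of_nonneg_right hcp (by positivity))
  calc (S.card : ℝ) ≤ _ := hcard
    _ ≤ (m : ℝ) * 3 ^ ((m + 2) ^ 2) * (T : ℝ) ^ (((m + 2 : ℕ) : ℝ) ^ 2 - 2 + δ) +
        ((m : ℝ) + 2) ^ 2 * (3 ^ ((m + 2) ^ 2) * (C * (m + 2).factorial) *
        (T : ℝ) ^ (((m + 2 : ℕ) : ℝ) ^ 2 - 2 + δ)) := add_le_add hDle hfin
    _ = _ := by ring

end Pool.Agent.Lib.MP_640417_ag.All
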