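import Pool.Agent.Lib.MP_640417_ag.All.Basic

/-!
# Hoeffding's inequality for the coordinates of a random sign vector
-/

set_option autoImplicit false

namespace Pool.Agent.Lib.MP_640417_ag.All

open Module Finset Pool.Agent.Lib.MP_640417_ag.OddGal

variable {G X : Type} [Group G] [Fintype G] [Fintype X] {c : G} {τ : X → G} {κ : ℕ}

open Classical in
/-- the moment generating function of a signed sum with coefficients in `{1, -1, 0}` -/
private theorem Tail_mgf (a : X → ℝ) (A : Finset X) (hA : ∀ x ∈ A, a x = 1 ∨ a x = -1)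
    (hA' : ∀ x ∉ A, a x = 0) (l : ℝ) :
    ∑ ε ∈ signs X, Real.exp (l * ∑ x, (ε x : ℝ) * a x) =
      2 ^ Fintype.card X * Real.cosh l ^ A.card := by
  have h1 : ∀ ε : X → ℤ, Real.exp (l * ∑ x, (ε x : ℝ) * a x) =
      ∏ x, Real.exp (l * ((ε x : ℝ) * a x)) := by
    intro ε
    rw [Finset.mul_sum, Real.exp_sum]
  simp only [h1]
  have h2 : ∑ ε ∈ signs X, ∏ x, Real.exp (l * ((ε x : ℝ) * a x)) =
      ∏ x, ∑ e ∈ ({1, -1} : Finset ℤ), Real.exp (l * ((e : ℝ) * a x)) := by
    rw [Finset.prod_univ_sum]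
    rfl
  rw [h2]
  have h3 : ∀ x, ∑ e ∈ ({1, -1} : Finset ℤ), Real.exp (l * ((e : ℝ) * a x)) =
      2 * (if x ∈ A then Real.cosh l else 1) := by
    intro x
    rw [Finset.sum_pair (by decide)]
    by_cases hx : x ∈ A
    · rw [if_pos hx, Real.cosh_eq]
      rcases hA x hx with h | h
      · rw [h]
        push_cast
        ring_nf
      · rw [h]
        push_cast
        ring_nf
    · rw [if_neg hx, hA' x hx]
      simp
      norm_num
  simp only [h3]
  rw [Finset.prod_mul_distrib, Finset.prod_const, Finset.card_univ, Finset.prod_ite_mem,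
    Finset.univ_inter, Finset.prod_const]

open Classical in
/-- the one-sided bound -/
private theorem Tail_one (a : X → ℝ) (A : Finset X) (hA : ∀ x ∈ A, a x = 1 ∨ a x = -1)
    (hA' : ∀ x ∉ A, a x = 0) (hpos : 0 < A.card) (T : ℝ) (hT : 0 ≤ T) :
    (((signs X).filter (fun ε => T < ∑ x, (ε x : ℝ) * a x)).card : ℝ)
      ≤ 2 ^ Fintype.card X * Real.exp (-(T ^ 2 / (2 * A.card))) := by
  set κ : ℝ := (A.card : ℝ) with hκ
  have hκ0 : 0 < κ := by rw [hκ]; exact_mod_cast hpos
  set l : ℝ := T / κ with hl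
  have hl0 : 0 ≤ l := by positivity
  have hm := Tail_mgf a A hA hA' l
  have h1 : (((signs X).filter (fun ε => T < ∑ x, (ε x : ℝ) * a x)).card : ℝ) * Real.exp (l * T)
      ≤ ∑ ε ∈ signs X, Real.exp (l * ∑ x, (ε x : ℝ) * a x) := by
    rw [← nsmul_eq_mul, ← Finset.sum_const]
    calc ∑ ε ∈ (signs X).filter (fun ε => T < ∑ x, (ε x : ℝ) * a x), Real.exp (l * T)
        ≤ ∑ ε ∈ (signs X).filter (fun ε => T < ∑ x, (ε x : ℝ) * a x),
            Real.exp (l * ∑ x, (ε x : ℝ) * a x) := by
          refine Finset.sum_le_sum fun ε hε => ?_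
          rw [Finset.mem_filter] at hε
          exact Real.exp_le_exp.mpr (mul_le_mul_of_nonneg_left hε.2.le hl0)
      _ ≤ _ := Finset.sum_le_sum_of_subset_of_nonneg (Finset.filter_subset _ _)
          (fun _ _ _ => (Real.exp_pos _).le)
  rw [hm] at h1
  have h2 : Real.cosh l ^ A.card ≤ Real.exp (κ * (l ^ 2 / 2)) := by
    calc Real.cosh l ^ A.card ≤ Real.exp (l ^ 2 / 2) ^ A.card :=
          pow_le_pow_left₀ (Real.cosh_pos l).le (Real.cosh_le_exp_half_sq l) _
      _ = Real.exp (κ * (l ^ 2 / 2)) := by rw [← Real.exp_nat_mul]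
  have h3 : (((signs X).filter (fun ε => T < ∑ x, (ε x : ℝ) * a x)).card : ℝ) * Real.exp (l * T)
      ≤ (2 ^ Fintype.card X * Real.exp (-(T ^ 2 / (2 * κ)))) * Real.exp (l * T) := by
    refine h1.trans ?_
    rw [mul_assoc, ← Real.exp_add]
    refine mul_le_mul_of_nonneg_left (h2.trans (le_of_eq ?_)) (by positivity)
    congr 1
    rw [hl]
    field_simp
    ring
  exact le_of_mul_le_mul_right h3 (Real.exp_pos _)

open Classical in
/-- Hoeffding: `∑_ε exp (l s_h(ε)) = 2^(|X| - κ) (2 cosh l)^κ ≤ 2^|X| exp (κ l² / 2)`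
(`Real.cosh_le_exp_half_sq`), `l = T / κ`, and Markov. -/
theorem tail_bound (hc : Cover c τ κ) (hκ : 0 < κ) (h : G) (T : ℝ) (hT : 0 ≤ T) :
    (((signs X).filter (fun ε => T < |(sh c τ ε h : ℝ)|)).card : ℝ)
      ≤ 2 * 2 ^ Fintype.card X * Real.exp (-(T ^ 2 / (2 * κ))) := by
  set a : X → ℝ := fun x => if τ x = h then 1 else if τ x = c * h then -1 else 0 with ha
  set A : Finset X := Finset.univ.filter (fun x => τ x = h ∨ τ x = c * h) with hA
  have hcard : A.card = κ := by
    rw [← hc.count h, Set.ncard_eq_toFinset_card']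
    congr 1
    ext x
    simp [hA]
  have h1 : ∀ x ∈ A, a x = 1 ∨ a x = -1 := by
    intro x hx
    rw [hA, Finset.mem_filter] at hx
    rw [ha]
    by_cases hx1 : τ x = h
    · left
      simp [hx1]
    · right
      have hx2 : τ x = c * h := hx.2.resolve_left hx1
      simp only [if_neg hx1, if_pos hx2]
  have h2 : ∀ x ∉ A, a x = 0 := by
    intro x hx
    rw [hA, Finset.mem_filter] at hx
    push Not at hx
    have := hx (Finset.mem_univ x)
    simp only [ha, if_neg this.1, if_neg this.2]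
  have hsh : ∀ ε : X → ℤ, (sh c τ ε h : ℝ) = ∑ x, (ε x : ℝ) * a x := by
    intro ε
    rw [sh]
    push_cast
    rfl
  have hA1 := Tail_one a A h1 h2 (by rw [hcard]; exact hκ) T hT
  have hA2 := Tail_one (fun x => -a x) A (fun x hx => by
    rcases h1 x hx with h | h
    · right; simp only [h]
    · left; simp only [h, neg_neg]) (fun x hx => by simp only [h2 x hx, neg_zero])
    (by rw [hcard]; exact hκ) T hT
  rw [hcard] at hA1 hA2
  have hsub : (signs X).filter (fun ε => T < |(sh c τ ε h : ℝ)|) ⊆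
      (signs X).filter (fun ε => T < ∑ x, (ε x : ℝ) * a x) ∪
      (signs X).filter (fun ε => T < ∑ x, (ε x : ℝ) * (fun x => -a x) x) := by
    intro ε hε
    rw [Finset.mem_filter, hsh ε] at hε
    rw [Finset.mem_union, Finset.mem_filter, Finset.mem_filter]
    rcases lt_abs.mp hε.2 with h | h
    · exact Or.inl ⟨hε.1, h⟩
    · refine Or.inr ⟨hε.1, ?_⟩
      have : ∑ x, (ε x : ℝ) * (fun x => -a x) x = -∑ x, (ε x : ℝ) * a x := by
        rw [← Finset.sum_neg_distrib]
        refine Finset.sum_congr rfl fun x _ => ?_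
        ring
      rw [this]
      exact h
  have hle : (((signs X).filter (fun ε => T < |(sh c τ ε h : ℝ)|)).card : ℝ) ≤
      (((signs X).filter (fun ε => T < ∑ x, (ε x : ℝ) * a x)).card : ℝ) +
      (((signs X).filter (fun ε => T < ∑ x, (ε x : ℝ) * (fun x => -a x) x)).card : ℝ) := by
    have := (Finset.card_le_card hsub).trans (Finset.card_union_le _ _)
    exact_mod_cast this
  linarith

end Pool.Agent.Lib.MP_640417_ag.All
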