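import Pool.Agent.Lib.MP_640417_ag.All.FixEq
import Pool.Agent.Lib.MP_640417_ag.All.Tail
import Pool.Agent.Lib.MP_640417_ag.All.SingCount

/-!
# The singular sign vectors for a fixed representation

`G`, `ρ` are fixed, the cover varies. Let `T₀` be a transversal of the pairs `{h, c h}`. Then
`M(ε) := ∑ ε x • ρ (τ x) = ∑_{h ∈ T₀} s_h(ε) • ρ h` (`s_h = sh c τ ε h`, `ρ (c h) = - ρ h`). Choose
`A ⊆ T₀` such that the `ρ h`, `h ∈ A`, form a basis of the rational matrices, `|A| = n²`.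

(1) For a given matrix `M₀`: `#{ε | M(ε) = M₀} ≤ 2^|X| κ^{-n²/2}`. Indeed the signs outside the
blocks of `A` determine `∑_{h ∈ A} s_h(ε) • ρ h = M₀ - (rest)`, hence the `s_h(ε)`, `h ∈ A`: apply
`local_bound` with `r = 1 / √κ` (`choose_le_sqrt`).
(2) Let `T = κ^{1/2 + δ₁}`. By `tail_bound`, all `|s_h| ≤ T` except for
`2 |G| 2^|X| exp (-κ^{2 δ₁} / 2) ≤ C κ^{-1} 2^|X|` sign vectors. For the others the entries of
`M(ε)` are at most `C₁ T`, `C₁ = ∑_h max |ρ(h)_{ij}|` (at least `1`).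
(3) `ncard_singular_le` with `T' = ⌈C₁ T⌉`: at most `C T^{n² - 2 + δ}` singular matrices.
Total: `2^|X| C κ^{(1/2 + δ₁)(n² - 2 + δ) - n²/2}`, and for `δ₁` small the exponent is
`-1 + δ/2 + δ₁ (n² - 2 + δ) ≤ δ - 1`.
-/

set_option autoImplicit false

namespace Pool.Agent.Lib.MP_640417_ag.All

open Module Finset Matrix Pool.Agent.Lib.MP_640417_ag.OddGal

private theorem fixRep_two {G : Type} [Group G] [Fintype G] {c : G} {n : ℕ}
    {ρ : G →* Matrix (Fin n) (Fin n) ℤ} (hρ : Rep c n ρ) {X : Type} [Fintype X] {τ : X → G}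
    {κ : ℕ} (hc : Cover c τ κ) (ε : X → ℤ) :
    (2 : ℤ) • ∑ x, ε x • ρ (τ x) = ∑ h, sh c τ ε h • ρ h := by
  classical
  have h1 : ∀ x : X, ∑ h, (ε x * (if τ x = h then 1 else if τ x = c * h then -1 else 0)) • ρ h
      = (2 : ℤ) • (ε x • ρ (τ x)) := by
    intro x
    have hne : c * τ x ≠ τ x := by
      intro h
      exact hc.ne_one (mul_eq_right.mp h)
    have h2 : ∀ h : G, (ε x * (if τ x = h then 1 else if τ x = c * h then -1 else 0)) • ρ h
        = (if h = τ x then ε x • ρ (τ x) else 0) + (if h = c * τ x then ε x • ρ (τ x) else 0) := by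
      intro h
      by_cases ha : h = τ x
      · subst ha
        rw [if_pos rfl, if_pos rfl, if_neg (fun h => hne h.symm), mul_one, add_zero]
      · by_cases hb : h = c * τ x
        · have hb' : τ x = c * h := by rw [hb, ← mul_assoc, hc.sq, one_mul]
          rw [if_neg (fun h' => ha h'.symm), if_pos hb', if_neg ha, if_pos hb, zero_add, hb,
            map_mul, hρ.neg]
          simp
        · have hb' : ¬ τ x = c * h := by
            intro h'
            apply hb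
            rw [h', ← mul_assoc, hc.sq, one_mul]
          rw [if_neg (fun h' => ha h'.symm), if_neg hb', if_neg ha, if_neg hb]
          simp
    rw [Finset.sum_congr rfl (fun h _ => h2 h), Finset.sum_add_distrib, Finset.sum_ite_eq',
      Finset.sum_ite_eq', if_pos (Finset.mem_univ _), if_pos (Finset.mem_univ _), two_smul]
  rw [Finset.smul_sum, Finset.sum_congr rfl (fun x _ => (h1 x).symm), Finset.sum_comm]
  refine Finset.sum_congr rfl fun h _ => ?_
  rw [← Finset.sum_smul]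
  rfl

private theorem fixRep_exp (δ₁ : ℝ) (hδ₁ : 0 < δ₁) : ∃ C : ℝ, 0 < C ∧ ∀ κ : ℕ, 0 < κ →
    Real.exp (-((κ : ℝ) ^ (2 * δ₁) / 2)) ≤ C * (κ : ℝ) ^ (-1 : ℝ) := by
  obtain ⟨m, hm⟩ := exists_nat_ge (1 / (2 * δ₁))
  refine ⟨2 ^ m * m.factorial, by positivity, ?_⟩
  intro κ hκ
  have hκ1 : (1 : ℝ) ≤ κ := by exact_mod_cast hκ
  have hκ0 : (0 : ℝ) < κ := by linarith
  have hy : (0 : ℝ) ≤ (κ : ℝ) ^ (2 * δ₁) / 2 := by positivity
  have h1 := Real.pow_div_factorial_le_exp _ hy m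
  have h2 : (κ : ℝ) / 2 ^ m ≤ ((κ : ℝ) ^ (2 * δ₁) / 2) ^ m := by
    rw [div_pow]
    apply div_le_div_of_nonneg_right _ (by positivity)
    rw [← Real.rpow_natCast, ← Real.rpow_mul hκ0.le]
    calc (κ : ℝ) = (κ : ℝ) ^ (1 : ℝ) := (Real.rpow_one _).symm
      _ ≤ (κ : ℝ) ^ (2 * δ₁ * m) := by
          apply Real.rpow_le_rpow_of_exponent_le hκ1
          rw [div_le_iff₀ (by positivity)] at hm
          linarith
  rw [Real.exp_neg, Real.rpow_neg_one]
  have hf : (0 : ℝ) < m.factorial := by exact_mod_cast Nat.factorial_pos m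
  have h3 : (κ : ℝ) / 2 ^ m / m.factorial ≤ Real.exp ((κ : ℝ) ^ (2 * δ₁) / 2) :=
    (div_le_div_of_nonneg_right h2 hf.le).trans h1
  have h4 : (0 : ℝ) < (κ : ℝ) / 2 ^ m / m.factorial := by positivity
  calc (Real.exp ((κ : ℝ) ^ (2 * δ₁) / 2))⁻¹ ≤ ((κ : ℝ) / 2 ^ m / m.factorial)⁻¹ :=
        inv_anti₀ h4 h3
    _ = 2 ^ m * m.factorial * (κ : ℝ)⁻¹ := by
        field_simp

theorem fixRep {G : Type} [Group G] [Fintype G] (c : G) {n : ℕ} (hn : 2 ≤ n)
    {ρ : G →* Matrix (Fin n) (Fin n) ℤ} (hρ : Rep c n ρ) (δ : ℝ) (hδ : 0 < δ) :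
    ∃ C : ℝ, 0 < C ∧ ∀ (X : Type) [Fintype X] (τ : X → G) (κ : ℕ), Cover c τ κ → 0 < κ →
      ((singX ρ τ).card : ℝ) ≤ C * (κ : ℝ) ^ (δ - 1) * 2 ^ Fintype.card X := by
  classical
  have hn2 : (2 : ℝ) ≤ n := by exact_mod_cast hn
  set e : ℝ := (n : ℝ) ^ 2 - 2 + δ with he
  have he0 : 0 < e := by
    have : (4 : ℝ) ≤ (n : ℝ) ^ 2 := by nlinarith
    rw [he]; linarith
  set δ₁ : ℝ := δ / (2 * e) with hδ₁
  have hδ₁0 : 0 < δ₁ := by positivity
  obtain ⟨C₂, hC₂, hexp⟩ := fixRep_exp δ₁ hδ₁0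
  obtain ⟨C₃, hC₃, hsing⟩ := ncard_singular_le n hn δ hδ
  set C₁ : ℝ := 1 + ∑ h : G, ∑ i, ∑ j, (|ρ h i j| : ℝ) with hC₁
  have hC₁1 : 1 ≤ C₁ := by
    have : (0 : ℝ) ≤ ∑ h : G, ∑ i, ∑ j, (|ρ h i j| : ℝ) :=
      Finset.sum_nonneg fun h _ => Finset.sum_nonneg fun i _ => Finset.sum_nonneg fun j _ =>
        abs_nonneg _
    rw [hC₁]; linarith
  refine ⟨2 * Fintype.card G * C₂ + C₃ * (C₁ + 1) ^ e, by positivity, ?_⟩
  intro X _ τ κ hc hκ
  have hκ1 : (1 : ℝ) ≤ κ := by exact_mod_cast hκ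
  have hκ0 : (0 : ℝ) < κ := by linarith
  set T : ℝ := (κ : ℝ) ^ (1 / 2 + δ₁) with hT
  have hT1 : 1 ≤ T := Real.one_le_rpow hκ1 (by positivity)
  set T' : ℕ := ⌈C₁ * T⌉₊ with hT'
  have hT'1 : 1 ≤ T' := by
    rw [hT', Nat.one_le_ceil_iff]
    positivity
  have hT'le : (T' : ℝ) ≤ (C₁ + 1) * T := by
    have := (Nat.ceil_lt_add_one (show 0 ≤ C₁ * T by positivity)).le
    rw [← hT'] at this
    nlinarith
  -- the two parts
  set S1 : Finset (X → ℤ) :=
    Finset.univ.biUnion (fun h : G => (signs X).filter (fun ε => T < |(sh c τ ε h : ℝ)|)) with hS1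
  set S2 : Finset (X → ℤ) := (singX ρ τ).filter (fun ε => ∀ h : G, |(sh c τ ε h : ℝ)| ≤ T) with hS2
  have hcover : singX ρ τ ⊆ S1 ∪ S2 := by
    intro ε hε
    rw [Finset.mem_union]
    by_cases h : ∀ h : G, |(sh c τ ε h : ℝ)| ≤ T
    · right
      rw [hS2, Finset.mem_filter]
      exact ⟨hε, h⟩
    · left
      push Not at h
      obtain ⟨h, hh⟩ := h
      rw [hS1, Finset.mem_biUnion]
      refine ⟨h, Finset.mem_univ _, ?_⟩
      rw [Finset.mem_filter]
      exact ⟨(Finset.mem_filter.mp hε).1, hh⟩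
  have hTsq : T ^ 2 / (2 * κ) = (κ : ℝ) ^ (2 * δ₁) / 2 := by
    have h1 : T ^ 2 = (κ : ℝ) ^ (2 * δ₁) * κ := by
      rw [hT, ← Real.rpow_natCast, ← Real.rpow_mul hκ0.le]
      have h2 : (1 / 2 + δ₁) * ((2 : ℕ) : ℝ) = 2 * δ₁ + 1 := by push_cast; ring
      rw [h2, Real.rpow_add hκ0, Real.rpow_one]
    rw [h1]
    field_simp
  have hS1card : (S1.card : ℝ) ≤ 2 * Fintype.card G * C₂ * (κ : ℝ) ^ (δ - 1) *
      2 ^ Fintype.card X := by
    have h1 : (S1.card : ℝ) ≤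
        ∑ h : G, (((signs X).filter (fun ε => T < |(sh c τ ε h : ℝ)|)).card : ℝ) := by
      have := Finset.card_biUnion_le (s := (Finset.univ : Finset G))
        (t := fun h : G => (signs X).filter (fun ε => T < |(sh c τ ε h : ℝ)|))
      rw [← hS1] at this
      have h' : (S1.card : ℝ) ≤ ((∑ h : G,
          ((signs X).filter (fun ε => T < |(sh c τ ε h : ℝ)|)).card : ℕ) : ℝ) :=
        Nat.cast_le.mpr this
      rwa [Nat.cast_sum] at h'
    have h2 : ∀ h ∈ (Finset.univ : Finset G),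
        (((signs X).filter (fun ε => T < |(sh c τ ε h : ℝ)|)).card : ℝ) ≤
          2 * 2 ^ Fintype.card X * (C₂ * (κ : ℝ) ^ (δ - 1)) := by
      intro h _
      refine (tail_bound hc hκ h T (by linarith)).trans ?_
      apply mul_le_mul_of_nonneg_left _ (by positivity)
      rw [hTsq]
      refine (hexp κ hκ).trans ?_
      apply mul_le_mul_of_nonneg_left _ hC₂.le
      exact Real.rpow_le_rpow_of_exponent_le hκ1 (by linarith)
    refine h1.trans ((Finset.sum_le_sum h2).trans ?_)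
    rw [Finset.sum_const, Finset.card_univ, nsmul_eq_mul]
    apply le_of_eq
    ring
  -- second part
  set Sing : Set (Matrix (Fin n) (Fin n) ℤ) := {M | (∀ i j, |M i j| ≤ (T' : ℤ)) ∧ M.det = 0}
    with hSing
  have hfin : Sing.Finite := by
    have h1 : (Set.Icc (fun _ _ => -(T' : ℤ)) (fun _ _ => (T' : ℤ)) :
        Set (Fin n → Fin n → ℤ)).Finite := Set.finite_Icc _ _
    refine Set.Finite.subset h1 ?_
    intro M hM
    exact ⟨fun i j => (abs_le.mp (hM.1 i j)).1, fun i j => (abs_le.mp (hM.1 i j)).2⟩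
  have hmaps : ∀ ε ∈ S2, (∑ x, ε x • ρ (τ x)) ∈ hfin.toFinset := by
    intro ε hε
    rw [hS2, Finset.mem_filter] at hε
    obtain ⟨hε1, hε2⟩ := hε
    have hdet : (∑ x, ε x • ρ (τ x)).det = 0 := (Finset.mem_filter.mp hε1).2
    rw [Set.Finite.mem_toFinset]
    refine ⟨fun i j => ?_, hdet⟩
    have h1 := congrFun (congrFun (fixRep_two hρ hc ε) i) j
    rw [Matrix.smul_apply, Matrix.sum_apply (g := fun h => sh c τ ε h • ρ h)] at h1
    simp only [Matrix.smul_apply, smul_eq_mul] at h1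
    have h2 : (2 : ℝ) * |(((∑ x, ε x • ρ (τ x)) i j : ℤ) : ℝ)| ≤
        ∑ h : G, |(sh c τ ε h : ℝ)| * |(ρ h i j : ℝ)| := by
      have h3 : (2 : ℝ) * |(((∑ x, ε x • ρ (τ x)) i j : ℤ) : ℝ)| =
          |((2 * (∑ x, ε x • ρ (τ x)) i j : ℤ) : ℝ)| := by
        push_cast
        rw [abs_mul, abs_two]
      rw [h3, h1]
      push_cast
      refine (Finset.abs_sum_le_sum_abs _ _).trans ?_
      exact Finset.sum_le_sum fun h _ => (abs_mul _ _).le
    have h4 : ∑ h : G, |(sh c τ ε h : ℝ)| * |(ρ h i j : ℝ)| ≤ T * (C₁ - 1) := by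
      rw [hC₁, add_sub_cancel_left, Finset.mul_sum]
      refine Finset.sum_le_sum fun h _ => ?_
      apply mul_le_mul (hε2 h) _ (abs_nonneg _) (by linarith)
      have h5 : |(ρ h i j : ℝ)| ≤ ∑ j, |(ρ h i j : ℝ)| :=
        Finset.single_le_sum (f := fun j => |(ρ h i j : ℝ)|) (fun _ _ => abs_nonneg _)
          (Finset.mem_univ j)
      refine h5.trans ?_
      exact Finset.single_le_sum (f := fun i => ∑ j, |(ρ h i j : ℝ)|)
        (fun _ _ => Finset.sum_nonneg fun _ _ => abs_nonneg _) (Finset.mem_univ i)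
    have h6 : |(((∑ x, ε x • ρ (τ x)) i j : ℤ) : ℝ)| ≤ (T' : ℝ) := by
      have h7 := Nat.le_ceil (C₁ * T)
      rw [← hT'] at h7
      have h8 := abs_nonneg (((∑ x, ε x • ρ (τ x)) i j : ℤ) : ℝ)
      nlinarith
    exact_mod_cast h6
  have hfiber : ∀ M ∈ hfin.toFinset,
      (((S2.filter (fun ε => ∑ x, ε x • ρ (τ x) = M)).card : ℕ) : ℝ)
        ≤ 2 ^ Fintype.card X * (1 / Real.sqrt κ) ^ (n ^ 2) := by
    intro M _
    refine le_trans ?_ (card_eq_matrix_le c hρ X τ κ hc hκ M)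
    have hsub : ((S2.filter (fun ε => ∑ x, ε x • ρ (τ x) = M) : Finset (X → ℤ)) : Set (X → ℤ)) ⊆
        {ε : X → ℤ | ε ∈ signs X ∧ ∑ x, ε x • ρ (τ x) = M} := by
      intro ε hε
      rw [Finset.mem_coe, Finset.mem_filter] at hε
      refine ⟨?_, hε.2⟩
      exact (Finset.mem_filter.mp (Finset.mem_filter.mp hε.1).1).1
    have hfin2 : ({ε : X → ℤ | ε ∈ signs X ∧ ∑ x, ε x • ρ (τ x) = M}).Finite :=
      (signs X).finite_toSet.subset fun ε hε => hε.1
    have h1 := Set.ncard_le_ncard hsub hfin2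
    rw [Set.ncard_coe_finset] at h1
    exact_mod_cast h1
  have hS2card : (S2.card : ℝ) ≤ C₃ * (C₁ + 1) ^ e * (κ : ℝ) ^ (δ - 1) * 2 ^ Fintype.card X := by
    have h1 : S2.card = ∑ M ∈ hfin.toFinset, (S2.filter (fun ε => ∑ x, ε x • ρ (τ x) = M)).card :=
      Finset.card_eq_sum_card_fiberwise hmaps
    have h2 : (S2.card : ℝ) ≤
        ∑ _M ∈ hfin.toFinset, 2 ^ Fintype.card X * (1 / Real.sqrt κ) ^ (n ^ 2) := by
      rw [h1]
      push_cast
      exact Finset.sum_le_sum hfiber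
    rw [Finset.sum_const, nsmul_eq_mul] at h2
    have h3 : (hfin.toFinset.card : ℝ) ≤ C₃ * (C₁ + 1) ^ e * T ^ e := by
      have h4 := hsing T' hT'1
      rw [← Set.ncard_eq_toFinset_card Sing hfin]
      refine h4.trans ?_
      rw [mul_assoc]
      apply mul_le_mul_of_nonneg_left _ hC₃.le
      rw [← Real.mul_rpow (by positivity) (by positivity)]
      exact Real.rpow_le_rpow (Nat.cast_nonneg _) hT'le he0.le
    have h5 : T ^ e * (1 / Real.sqrt κ) ^ (n ^ 2) = (κ : ℝ) ^ (δ - 1) := by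
      have hsq : (1 / Real.sqrt κ) = (κ : ℝ) ^ (-(1 / 2) : ℝ) := by
        rw [Real.sqrt_eq_rpow, Real.rpow_neg hκ0.le, one_div ((κ : ℝ) ^ (1 / 2 : ℝ))]
      rw [hT, ← Real.rpow_mul hκ0.le, hsq, ← Real.rpow_natCast, ← Real.rpow_mul hκ0.le,
        ← Real.rpow_add hκ0]
      congr 1
      have h6 : δ₁ * e = δ / 2 := by
        rw [hδ₁]
        field_simp
      push_cast
      have h7 : (1 / 2 + δ₁) * e = e / 2 + δ / 2 := by rw [add_mul, h6]; ring
      rw [h7, he]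
      ring
    calc (S2.card : ℝ) ≤ hfin.toFinset.card * (2 ^ Fintype.card X *
          (1 / Real.sqrt κ) ^ (n ^ 2)) := h2
      _ ≤ (C₃ * (C₁ + 1) ^ e * T ^ e) * (2 ^ Fintype.card X * (1 / Real.sqrt κ) ^ (n ^ 2)) :=
          mul_le_mul_of_nonneg_right h3 (by positivity)
      _ = C₃ * (C₁ + 1) ^ e * (T ^ e * (1 / Real.sqrt κ) ^ (n ^ 2)) * 2 ^ Fintype.card X := by ring
      _ = _ := by rw [h5]
  have hfinal : ((singX ρ τ).card : ℝ) ≤ S1.card + S2.card := by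
    have := (Finset.card_le_card hcover).trans (Finset.card_union_le S1 S2)
    exact_mod_cast this
  calc ((singX ρ τ).card : ℝ) ≤ S1.card + S2.card := hfinal
    _ ≤ 2 * Fintype.card G * C₂ * (κ : ℝ) ^ (δ - 1) * 2 ^ Fintype.card X +
        C₃ * (C₁ + 1) ^ e * (κ : ℝ) ^ (δ - 1) * 2 ^ Fintype.card X := add_le_add hS1card hS2card
    _ = _ := by ring

end Pool.Agent.Lib.MP_640417_ag.All
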