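import Pool.Agent.Lib.MP_640417_ag.All.Phase

/-!
# Fourier inversion with two primes
-/

set_option autoImplicit false

namespace Pool.Agent.Lib.MP_640417_ag.All

open Module Finset Matrix Pool.Agent.Lib.MP_640417_ag.OddGal

variable {X : Type} [Fintype X]

open Classical in
/-- The sign vectors which give a relation modulo `p` and a relation modulo `p'`. -/
noncomputable def relTwo (p p' n : ℕ) (w : X → Fin n → ZMod p) (w' : X → Fin n → ZMod p') :
    Finset (X → ℤ) :=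
  (signs X).filter (fun ε => ∑ x, ((ε x : ℤ) : ZMod p) • w x = 0 ∧
    ∑ x, ((ε x : ℤ) : ZMod p') • w' x = 0)

private lemma th_zero_zero (p p' : ℕ) [Fact p.Prime] [Fact p'.Prime] : th p p' 0 0 = 0 := by
  have h := th_add (p := p) (p' := p') 0 0 0 0
  rw [add_zero, add_zero] at h
  exact left_eq_add.mp h

/-- The phase as a homomorphism. -/
private def thHom (p p' : ℕ) [Fact p.Prime] [Fact p'.Prime] :
    ZMod p × ZMod p' →+ ZMod (p * p') where
  toFun z := th p p' z.1 z.2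
  map_zero' := th_zero_zero p p'
  map_add' a b := th_add a.1 b.1 a.2 b.2

/-- The pairing with a pair of vectors. -/
private def pairHom (p p' n : ℕ) (V : Fin n → ZMod p) (V' : Fin n → ZMod p') :
    (Fin n → ZMod p) × (Fin n → ZMod p') →+ ZMod p × ZMod p' where
  toFun z := (V ⬝ᵥ z.1, V' ⬝ᵥ z.2)
  map_zero' := by simp
  map_add' a b := by
    simp only [Prod.fst_add, Prod.snd_add, dotProduct_add, Prod.mk_add_mk]

private lemma dot_eq_zero {p n : ℕ} (V : Fin n → ZMod p) (h : ∀ u, V ⬝ᵥ u = 0) : V = 0 := by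
  classical
  funext i
  have := h (Pi.single i 1)
  rwa [dotProduct_single, mul_one] at this

private lemma sum_char (p p' n : ℕ) [Fact p.Prime] [Fact p'.Prime] [NeZero (p * p')]
    (hpp : p ≠ p') (V : Fin n → ZMod p) (V' : Fin n → ZMod p') [Decidable (V = 0 ∧ V' = 0)] :
    ∑ z : (Fin n → ZMod p) × (Fin n → ZMod p'),
      (ZMod.stdAddChar (th p p' (V ⬝ᵥ z.1) (V' ⬝ᵥ z.2)) : ℂ) =
      if V = 0 ∧ V' = 0 then ((p : ℂ) ^ n * (p' : ℂ) ^ n) else 0 := by
  classical
  let χ : AddChar ((Fin n → ZMod p) × (Fin n → ZMod p')) ℂ :=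
    (ZMod.stdAddChar (N := p * p')).compAddMonoidHom
      ((thHom p p').comp (pairHom p p' n V V'))
  have h1 : ∀ z, χ z = ZMod.stdAddChar (th p p' (V ⬝ᵥ z.1) (V' ⬝ᵥ z.2)) := fun z => rfl
  have h2 := AddChar.sum_eq_ite χ
  simp only [h1] at h2
  rw [h2]
  have hcard : ((Fintype.card ((Fin n → ZMod p) × (Fin n → ZMod p')) : ℕ) : ℂ) =
      (p : ℂ) ^ n * (p' : ℂ) ^ n := by
    rw [Fintype.card_prod, Fintype.card_fun, Fintype.card_fun, ZMod.card, ZMod.card,
      Fintype.card_fin]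
    push_cast
    rfl
  rw [hcard]
  by_cases hv : V = 0 ∧ V' = 0
  · rw [if_pos hv, if_pos]
    rw [AddChar.eq_zero_iff]
    intro z
    rw [h1, hv.1, hv.2, zero_dotProduct, zero_dotProduct, th_zero_zero, AddChar.map_zero_eq_one]
  · rw [if_neg hv, if_neg]
    intro h
    apply hv
    have h4 : ∀ (u : Fin n → ZMod p) (u' : Fin n → ZMod p'),
        V ⬝ᵥ u = 0 ∧ V' ⬝ᵥ u' = 0 := by
      intro u u'
      have h3 : χ (u, u') = 1 := by rw [h]; rfl
      rw [h1] at h3
      apply th_eq_zero hpp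
      apply ZMod.injective_stdAddChar
      rw [h3, AddChar.map_zero_eq_one]
    exact ⟨dot_eq_zero V (fun u => (h4 u 0).1), dot_eq_zero V' (fun u => (h4 0 u).2)⟩

/-- As in `card_relSet_mul_le`: with the additive character `ψ = ZMod.stdAddChar` of
`ZMod (p * p')` the sum over `(u, u')` of `ψ (th (W · u) (W' · u'))` is `p^n p'^n` if `W = 0` and
`W' = 0` and `0` otherwise (`th_add`, `th_eq_zero`; characters of `(Fin n → ZMod p) × (Fin n → ZMod
p')`), and the sum over the signs of `ψ (th (∑ ε w · u) (∑ ε w' · u'))` is a product of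
`ψ(θ_x) + ψ(-θ_x)`, of absolute value `2 cs (p p') θ_x`. -/
theorem card_relTwo_mul_le (p p' n : ℕ) [Fact p.Prime] [Fact p'.Prime] (hpp : p ≠ p')
    (w : X → Fin n → ZMod p) (w' : X → Fin n → ZMod p') :
    ((relTwo p p' n w w').card : ℝ) * ((p : ℝ) ^ n * (p' : ℝ) ^ n) ≤
      2 ^ Fintype.card X * ∑ u : Fin n → ZMod p, ∑ u' : Fin n → ZMod p',
        ∏ x, cs (p * p') (th p p' (w x ⬝ᵥ u) (w' x ⬝ᵥ u')) := by
  classical
  have hp : Fact p.Prime := inferInstance
  have hp' : Fact p'.Prime := inferInstance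
  have hne : NeZero (p * p') := ⟨mul_ne_zero hp.out.ne_zero hp'.out.ne_zero⟩
  have h1 : ((relTwo p p' n w w').card : ℂ) * ((p : ℂ) ^ n * (p' : ℂ) ^ n)
      = ∑ z : (Fin n → ZMod p) × (Fin n → ZMod p'),
        ∏ x, ((ZMod.stdAddChar (th p p' (w x ⬝ᵥ z.1) (w' x ⬝ᵥ z.2)) : ℂ) +
          ZMod.stdAddChar (-(th p p' (w x ⬝ᵥ z.1) (w' x ⬝ᵥ z.2)))) := by
    have h2 : ∀ z : (Fin n → ZMod p) × (Fin n → ZMod p'),
        ∏ x, ((ZMod.stdAddChar (th p p' (w x ⬝ᵥ z.1) (w' x ⬝ᵥ z.2)) : ℂ) +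
          ZMod.stdAddChar (-(th p p' (w x ⬝ᵥ z.1) (w' x ⬝ᵥ z.2))))
        = ∑ ε ∈ signs X, (ZMod.stdAddChar (th p p' ((∑ x, ((ε x : ℤ) : ZMod p) • w x) ⬝ᵥ z.1)
          ((∑ x, ((ε x : ℤ) : ZMod p') • w' x) ⬝ᵥ z.2)) : ℂ) := by
      intro z
      have h3 : ∀ x : X, ((ZMod.stdAddChar (th p p' (w x ⬝ᵥ z.1) (w' x ⬝ᵥ z.2)) : ℂ) +
          ZMod.stdAddChar (-(th p p' (w x ⬝ᵥ z.1) (w' x ⬝ᵥ z.2))))
          = ∑ y ∈ ({1, -1} : Finset ℤ),
            (ZMod.stdAddChar (y • th p p' (w x ⬝ᵥ z.1) (w' x ⬝ᵥ z.2)) : ℂ) := by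
        intro x
        rw [Finset.sum_insert (by norm_num), Finset.sum_singleton, one_zsmul, neg_one_zsmul]
      simp only [h3]
      rw [Finset.prod_univ_sum]
      apply Finset.sum_congr
      · simp only [signs]
      · intro ε _
        rw [← addChar_map_sum]
        congr 1
        have h4 : ∀ x, ε x • th p p' (w x ⬝ᵥ z.1) (w' x ⬝ᵥ z.2) =
            thHom p p' (ε x • (w x ⬝ᵥ z.1, w' x ⬝ᵥ z.2)) := by
          intro x
          rw [map_zsmul]
          rfl
        simp only [h4]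
        rw [← map_sum]
        have h5 : ∑ x, ε x • (w x ⬝ᵥ z.1, w' x ⬝ᵥ z.2) =
            ((∑ x, ((ε x : ℤ) : ZMod p) • w x) ⬝ᵥ z.1,
              (∑ x, ((ε x : ℤ) : ZMod p') • w' x) ⬝ᵥ z.2) := by
          rw [sum_dotProduct, sum_dotProduct]
          refine Prod.ext ?_ ?_
          · rw [Prod.fst_sum]
            refine Finset.sum_congr rfl (fun x _ => ?_)
            rw [smul_dotProduct, smul_eq_mul]
            show ε x • (w x ⬝ᵥ z.1) = _
            rw [zsmul_eq_mul]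
          · rw [Prod.snd_sum]
            refine Finset.sum_congr rfl (fun x _ => ?_)
            rw [smul_dotProduct, smul_eq_mul]
            show ε x • (w' x ⬝ᵥ z.2) = _
            rw [zsmul_eq_mul]
        rw [h5]
        rfl
    simp only [h2]
    rw [Finset.sum_comm]
    simp only [sum_char p p' n hpp]
    rw [← Finset.sum_filter, Finset.sum_const, nsmul_eq_mul]
    rw [relTwo]
  have h2 := congrArg norm h1
  rw [norm_mul, norm_mul, norm_pow, norm_pow, Complex.norm_natCast, Complex.norm_natCast,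
    Complex.norm_natCast] at h2
  rw [h2]
  refine (norm_sum_le _ _).trans ?_
  rw [← Finset.sum_product', Finset.univ_product_univ, Finset.mul_sum]
  apply Finset.sum_le_sum
  intro z _
  rw [norm_prod]
  simp only [norm_add_neg]
  rw [Finset.prod_mul_distrib, Finset.prod_const, Finset.card_univ]

end Pool.Agent.Lib.MP_640417_ag.All
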