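import Pool.Agent.Lib.MP_640417_ag.All.LinearKer

/-!
# Commutative types

Let `e` be an odd type with `zc e = rk e`, so that `comp e = cen e` is a field (`IsType.field`),
and let `N = ker e = {h | h e = e}` (`OddQuad`, normal by `ker_normal`; `OddQuad.exists_field` gives
the field). `G / N` embeds into the multiplicative group of the field, so it is cyclic, of order
`m`, and generates the field, which is the `m`-th cyclotomic field: `zc e = φ(m)`. As `c e = -e`,
`c ∉ N` and `m` is even.
-/

set_option autoImplicit false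

namespace Pool.Agent.Lib.MP_640417_ag.All

open Module Finset Pool.Agent.Lib.MP_640417_ag.OddGal

variable {G X : Type} [Group G] [Fintype G] [Fintype X] {c : G} {τ : X → G} {κ : ℕ}

/-- An even number with totient `2` is `4` or `6`. -/
private theorem LinearCount_even_totient {n : ℕ} (hn : Even n) (h : n.totient = 2) :
    n = 4 ∨ n = 6 := by
  obtain ⟨m, hm⟩ := hn
  have hm2 : n = 2 * m := by omega
  rcases Nat.even_or_odd m with he | ho
  · have h1 := Nat.totient_two_mul_of_even he
    rw [← hm2, h] at h1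
    have h2 : m.totient = 1 := by omega
    rcases Nat.totient_eq_one_iff.mp h2 with h3 | h3
    · rw [h3] at he
      exact absurd he (by decide)
    · left
      omega
  · have h1 := Nat.totient_two_mul_of_odd ho
    rw [← hm2, h] at h1
    have h2 : m ≤ 3 := le_three_of_totient ho (by omega)
    have h3 : m ≠ 1 := by
      intro h4
      rw [h4] at h1
      simp at h1
    rcases ho with ⟨k, hk⟩
    right
    omega

/-- A set of subgroups containing the kernels of all types in `J` has at least `J.card`
elements. -/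
private theorem LinearCount_card_le (c : G) (hsq : c * c = 1) (J : Finset (MonoidAlgebra ℚ G))
    (hJ : ∀ e ∈ J, IsType e ∧ OddE c e ∧ zc e = rk e) (S : Set (Subgroup G))
    (hS : ∀ e ∈ J, ∀ N : Subgroup G, (∃ _ : N.Normal, IsCyclic (G ⧸ N)) → c ∉ N → Even N.index →
      N.index.totient = zc e → N ∈ S) : J.card ≤ S.ncard := by
  classical
  have hex : ∀ e ∈ J, ∃ N : Subgroup G, (∀ h, h ∈ N ↔ MonoidAlgebra.single h (1 : ℚ) * e = e) ∧
      (∃ _ : N.Normal, IsCyclic (G ⧸ N)) ∧ c ∉ N ∧ Even N.index ∧ N.index.totient = zc e :=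
    fun e he => linear_ker e (hJ e he).1 (hJ e he).2.1 hsq (hJ e he).2.2
  choose! f hf using hex
  rw [← Set.ncard_coe_finset]
  refine Set.ncard_le_ncard_of_injOn f (fun e he => ?_) ?_ (Set.toFinite S)
  · have he' : e ∈ J := he
    obtain ⟨_, h2, h3, h4, h5⟩ := hf e he'
    exact hS e he' (f e) h2 h3 h4 h5
  · intro e he e' he' hee
    have h1 : e ∈ J := he
    have h2 : e' ∈ J := he'
    refine eq_of_ker_eq e e' (hJ e h1).1 (hJ e' h2).1 (hJ e h1).2.2 (hJ e' h2).2.2 (fun h => ?_)
    rw [← (hf e h1).1 h, ← (hf e' h2).1 h, hee]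

/-- Count of the types with `zc e = 1`: their kernels are distinct (`eq_of_ker_eq`) subgroups of
index `2` (`φ(m) = 1`, `m` even) not containing `c`. -/
theorem card_linear_one (c : G) (hsq : c * c = 1) (J : Finset (MonoidAlgebra ℚ G))
    (hJ : ∀ e ∈ J, IsType e ∧ OddE c e ∧ zc e = rk e ∧ zc e = 1) : J.card ≤ numA G c := by
  refine LinearCount_card_le c hsq J (fun e he => ⟨(hJ e he).1, (hJ e he).2.1, (hJ e he).2.2.1⟩) _
    (fun e he N _ hcN hev hto => ?_)
  rw [(hJ e he).2.2.2] at hto
  refine ⟨?_, hcN⟩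
  rcases Nat.totient_eq_one_iff.mp hto with h | h
  · rw [h] at hev
    exact absurd hev (by decide)
  · exact h

/-- Count of the types with `zc e = 2`: `φ(m) = 2` and `m` even give `m = 4` or `m = 6`. -/
theorem card_linear_two (c : G) (hsq : c * c = 1) (J : Finset (MonoidAlgebra ℚ G))
    (hJ : ∀ e ∈ J, IsType e ∧ OddE c e ∧ zc e = rk e ∧ zc e = 2) : J.card ≤ numB G c := by
  refine LinearCount_card_le c hsq J (fun e he => ⟨(hJ e he).1, (hJ e he).2.1, (hJ e he).2.2.1⟩) _
    (fun e he N hcyc hcN hev hto => ?_)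
  rw [(hJ e he).2.2.2] at hto
  exact ⟨hcyc, LinearCount_even_totient hev hto, hcN⟩

end Pool.Agent.Lib.MP_640417_ag.All
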