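import Mathlib

/-!
# The numerical bound for the commutative types
-/

set_option autoImplicit false

namespace Pool.Agent.Lib.MP_640417_ag.All

private theorem numLinear_odd (m : ℕ) (hm : Odd m) : m ≤ m.totient ^ 2 := by
  induction m using Nat.recOnPosPrimePosCoprime with
  | prime_pow p k hp hk =>
    have hp3 : 3 ≤ p := by
      have h2 := hp.two_le
      rcases Nat.lt_or_ge 2 p with h | h
      · exact h
      · exfalso
        have : p = 2 := le_antisymm h h2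
        subst this
        have h3 : Even (2 ^ k) := (Nat.even_pow.mpr ⟨even_two, by omega⟩)
        exact (Nat.not_even_iff_odd.mpr hm) h3
    rw [Nat.totient_prime_pow hp hk]
    have h1 : p ≤ (p - 1) ^ 2 := by
      obtain ⟨q, rfl⟩ : ∃ q, p = q + 3 := ⟨p - 3, by omega⟩
      have : q + 3 - 1 = q + 2 := by omega
      rw [this]
      nlinarith
    have h2 : 1 ≤ p ^ (k - 1) := Nat.one_le_pow _ _ (by omega)
    calc p ^ k = p ^ (k - 1) * p := by rw [← pow_succ]; congr 1; omega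
      _ ≤ p ^ (k - 1) * (p - 1) ^ 2 := Nat.mul_le_mul_left _ h1
      _ ≤ (p ^ (k - 1)) ^ 2 * (p - 1) ^ 2 := by
          apply Nat.mul_le_mul_right
          nlinarith
      _ = (p ^ (k - 1) * (p - 1)) ^ 2 := by ring
  | zero => simp at hm
  | one => simp
  | coprime a b ha hb hab iha ihb =>
    rw [Nat.totient_mul hab, mul_pow]
    have h := Nat.odd_mul.mp hm
    exact Nat.mul_le_mul (iha h.1) (ihb h.2)

private theorem numLinear_le (m : ℕ) : m ≤ 2 * m.totient ^ 2 := by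
  rcases Nat.eq_zero_or_pos m with h0 | hpos
  · subst h0; simp
  obtain ⟨k, q, hq, rfl⟩ := Nat.exists_eq_two_pow_mul_odd hpos.ne'
  have hcop : Nat.Coprime (2 ^ k) q := by
    apply Nat.Coprime.pow_left
    exact (Nat.coprime_two_left).mpr hq
  rw [Nat.totient_mul hcop, mul_pow]
  have h1 := numLinear_odd q hq
  have h2 : 2 ^ k ≤ 2 * (Nat.totient (2 ^ k)) ^ 2 := by
    rcases Nat.eq_zero_or_pos k with hk | hk
    · subst hk; simp
    · rw [Nat.totient_prime_pow Nat.prime_two hk]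
      have h3 : 1 ≤ 2 ^ (k - 1) := Nat.one_le_two_pow
      calc 2 ^ k = 2 * 2 ^ (k - 1) := by rw [← pow_succ']; congr 1; omega
        _ ≤ 2 * (2 ^ (k - 1) * (2 - 1)) ^ 2 := by
            apply Nat.mul_le_mul_left
            nlinarith
  calc 2 ^ k * q ≤ (2 * (Nat.totient (2 ^ k)) ^ 2) * q.totient ^ 2 := Nat.mul_le_mul h2 h1
    _ = _ := by ring

/-- The numerical bound for the commutative types with `zc e ≥ 3`. As `φ(m) = z` is even for
`m > 2`, `z ≥ 4`; `m ≤ 2 z²`-like bounds hold (`φ(m)² ≥ m / 2`). If `z ≥ 4 log g` use `x ≤ 2^{-z}`;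
otherwise `m ≤ 32 (log g)²` and, for `m ≤ 2 g`, `x ≤ (m / 2g)^{z/2} ≤ (m / 2g)²`. -/
theorem num_linear (δ : ℝ) (hδ : 0 < δ) : ∃ C : ℝ, 0 < C ∧ ∀ (g m z : ℕ) (x : ℝ), 0 < g →
    m ≤ 2 * g → m.totient = z → 3 ≤ z → x ≤ (Real.sqrt (m / (2 * g))) ^ z → x ≤ (1 / 2) ^ z →
    x ≤ C * (g : ℝ) ^ (δ - 2) := by
  refine ⟨(16 / δ) ^ 4 + 1, by positivity, ?_⟩
  intro g m z x hg hm hz hz3 hx1 hx2
  have hg1 : (1 : ℝ) ≤ g := by exact_mod_cast hg
  have hg0 : (0 : ℝ) < g := by linarith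
  have hm2 : 2 < m := by
    by_contra h
    push Not at h
    interval_cases m
    · simp at hz; omega
    · simp at hz; omega
    · simp at hz; omega
  have hz4 : 4 ≤ z := by
    have := Nat.totient_even hm2
    rw [hz] at this
    rcases this with ⟨r, hr⟩
    omega
  have hgpow : (0 : ℝ) < (g : ℝ) ^ (δ - 2) := Real.rpow_pos_of_pos hg0 _
  rcases le_or_gt ((g : ℝ) ^ 2) (2 ^ z) with h | h
  · have h1 : x ≤ ((g : ℝ) ^ 2)⁻¹ := by
      refine hx2.trans ?_
      rw [one_div, inv_pow]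
      exact inv_anti₀ (by positivity) h
    have h2 : ((g : ℝ) ^ 2)⁻¹ ≤ (g : ℝ) ^ (δ - 2) := by
      rw [← Real.rpow_natCast, ← Real.rpow_neg hg0.le]
      apply Real.rpow_le_rpow_of_exponent_le hg1
      push_cast
      linarith
    have h3 : (0 : ℝ) ≤ (16 / δ) ^ 4 := by positivity
    nlinarith
  · -- z is at most 4 log g
    have hlog : (z : ℝ) ≤ 4 * Real.log g := by
      have h1 := Real.log_lt_log (by positivity) h
      rw [Real.log_pow, Real.log_pow] at h1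
      have h2 := Real.log_two_gt_d9
      have h3 : (0 : ℝ) ≤ z := Nat.cast_nonneg _
      push_cast at h1
      nlinarith
    have hlog2 : Real.log g ≤ (g : ℝ) ^ (δ / 4) / (δ / 4) := Real.log_le_rpow_div hg0.le (by positivity)
    have hzle : (z : ℝ) ≤ 16 / δ * (g : ℝ) ^ (δ / 4) := by
      have h1 : (4 : ℝ) * ((g : ℝ) ^ (δ / 4) / (δ / 4)) = 16 / δ * (g : ℝ) ^ (δ / 4) := by
        field_simp
        ring
      linarith
    have hz4' : (z : ℝ) ^ 4 ≤ (16 / δ) ^ 4 * (g : ℝ) ^ δ := by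
      have h1 := pow_le_pow_left₀ (Nat.cast_nonneg z) hzle 4
      rw [mul_pow] at h1
      have h2 : ((g : ℝ) ^ (δ / 4)) ^ 4 = (g : ℝ) ^ δ := by
        rw [← Real.rpow_natCast, ← Real.rpow_mul hg0.le]
        congr 1
        push_cast
        ring
      rwa [h2] at h1
    have hmz : (m : ℝ) ≤ 2 * (z : ℝ) ^ 2 := by
      have := numLinear_le m
      rw [hz] at this
      exact_mod_cast this
    have hq0 : (0 : ℝ) ≤ m / (2 * g) := by positivity
    have hq1 : (m : ℝ) / (2 * g) ≤ 1 := by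
      rw [div_le_one (by positivity)]
      exact_mod_cast hm
    have hs0 : 0 ≤ Real.sqrt (m / (2 * g)) := Real.sqrt_nonneg _
    have hs1 : Real.sqrt (m / (2 * g)) ≤ 1 := by
      rw [← Real.sqrt_one]
      exact Real.sqrt_le_sqrt hq1
    have h5 : x ≤ ((m : ℝ) / (2 * g)) ^ 2 := by
      refine hx1.trans ?_
      calc (Real.sqrt (m / (2 * g))) ^ z ≤ (Real.sqrt (m / (2 * g))) ^ 4 :=
            pow_le_pow_of_le_one hs0 hs1 hz4
        _ = ((m : ℝ) / (2 * g)) ^ 2 := by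
            have : (4 : ℕ) = 2 * 2 := rfl
            rw [this, pow_mul, Real.sq_sqrt hq0]
    have h6 : ((m : ℝ) / (2 * g)) ^ 2 ≤ (z : ℝ) ^ 4 / (g : ℝ) ^ 2 := by
      have h7 : (m : ℝ) / (2 * g) ≤ (z : ℝ) ^ 2 / g := by
        rw [div_le_div_iff₀ (by positivity) hg0]
        nlinarith
      calc ((m : ℝ) / (2 * g)) ^ 2 ≤ ((z : ℝ) ^ 2 / g) ^ 2 := pow_le_pow_left₀ hq0 h7 2
        _ = _ := by rw [div_pow]; ring
    have h8 : (z : ℝ) ^ 4 / (g : ℝ) ^ 2 ≤ (16 / δ) ^ 4 * (g : ℝ) ^ (δ - 2) := by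
      have h9 : (g : ℝ) ^ (δ - 2) = (g : ℝ) ^ δ / (g : ℝ) ^ 2 := by
        rw [Real.rpow_sub hg0, Real.rpow_two]
      rw [h9, ← mul_div_assoc]
      exact div_le_div_of_nonneg_right hz4' (by positivity)
    nlinarith

end Pool.Agent.Lib.MP_640417_ag.All
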