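import Pool.Agent.Lib.MP_640417_ag.All.LinearBound
import Pool.Agent.Lib.MP_640417_ag.All.LinearCount
import Pool.Agent.Lib.MP_640417_ag.All.NumLinear
import Pool.Agent.Lib.MP_640417_ag.All.Basic

/-!
# The part of the commutative types

Those with `zc e = 1` contribute at most `numA / √g` (`card_linear_one`, `linear_bound` with
`m.totient = 1`, `m` even, so `m = 2`), those with `zc e = 2` at most `numB · 6 / (2 g)`
(`card_linear_two`; `φ(m) = 2`, `m ≤ 6`), each of the others at most `C g^{δ-2}` (`num_linear`), and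
there are at most `|G| ≤ 2 g` of them (`∑ rk e ≤ |G|`, `rk e = zc e ≥ 1` as `e ∈ cen e`).
-/

set_option autoImplicit false

namespace Pool.Agent.Lib.MP_640417_ag.All

open Module Finset Pool.Agent.Lib.MP_640417_ag.OddGal

private theorem linearPart_zc_pos {G : Type} [Group G] [Fintype G] (e : MonoidAlgebra ℚ G)
    (he : IsType e) : 0 < zc e := by
  unfold zc
  rw [Module.finrank_pos_iff_exists_ne_zero]
  exact ⟨⟨e, he.idem, he.central⟩, fun h => he.ne_zero (congrArg Subtype.val h)⟩

private theorem linearPart_totient_one {m : ℕ} (hm : Even m) (h : m.totient = 1) : m = 2 := by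
  rw [Nat.totient_eq_one_iff] at h
  rcases h with h | h
  · subst h
    exact absurd hm (by decide)
  · exact h

private theorem linearPart_totient_two {m : ℕ} (h : m.totient = 2) : m ≤ 6 := by
  have hm0 : m ≠ 0 := by
    rintro rfl
    simp at h
  have hdvd : ∀ {a : ℕ}, a ∣ m → a.totient ∣ 2 := fun ha => h ▸ Nat.totient_dvd_of_dvd ha
  have h12 : m ∣ 12 := by
    rw [← Nat.factorization_prime_le_iff_dvd hm0 (by norm_num)]
    intro p hp
    by_cases hp2 : p = 2
    · subst hp2
      have h12f : (12 : ℕ).factorization 2 = 2 := by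
        have : (12 : ℕ) = 2 ^ 2 * 3 := by norm_num
        rw [this, Nat.factorization_mul (by norm_num) (by norm_num), Nat.Prime.factorization_pow Nat.prime_two,
          Nat.Prime.factorization Nat.prime_three]
        simp
      rw [h12f]
      by_contra hlt
      have h8 : 2 ^ 3 ∣ m :=
        (Nat.prime_two.pow_dvd_iff_le_factorization hm0).mpr (by omega)
      have := hdvd h8
      rw [Nat.totient_prime_pow Nat.prime_two (by norm_num)] at this
      norm_num at this
    by_cases hp3 : p = 3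
    · subst hp3
      have h12f : (12 : ℕ).factorization 3 = 1 := by
        have : (12 : ℕ) = 2 ^ 2 * 3 := by norm_num
        rw [this, Nat.factorization_mul (by norm_num) (by norm_num), Nat.Prime.factorization_pow Nat.prime_two,
          Nat.Prime.factorization Nat.prime_three]
        simp
      rw [h12f]
      by_contra hlt
      have h9 : 3 ^ 2 ∣ m :=
        (Nat.prime_three.pow_dvd_iff_le_factorization hm0).mpr (by omega)
      have := hdvd h9
      rw [Nat.totient_prime_pow Nat.prime_three (by norm_num)] at this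
      norm_num at this
    have hp5 : 5 ≤ p := by
      have h2 := hp.two_le
      have h4 : p ≠ 4 := by
        rintro rfl
        exact absurd hp (by norm_num)
      omega
    have hnd : ¬ p ∣ m := by
      intro hd
      have := Nat.le_of_dvd (by norm_num) (hdvd hd)
      rw [Nat.totient_prime hp] at this
      omega
    rw [Nat.factorization_eq_zero_of_not_dvd hnd]
    exact Nat.zero_le _
  have hle : m ≤ 12 := Nat.le_of_dvd (by norm_num) h12
  interval_cases m <;> first | omega | (exfalso; revert h; decide)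

/-- The part of the commutative types. -/
theorem linear_part (δ : ℝ) (hδ : 0 < δ) : ∃ C : ℝ, 0 < C ∧
    ∀ (G : Type) [Group G] [Fintype G] (c : G) (X : Type) [Fintype X] (τ : X → G) (κ : ℕ)
      (J : Finset (MonoidAlgebra ℚ G)), Cover c τ κ → 0 < Fintype.card X →
      (∀ e ∈ J, IsType e ∧ OddE c e ∧ zc e = rk e) → ∑ e ∈ J, rk e ≤ Fintype.card G →
      (∑ e ∈ J, ((badSetX e τ).card : ℝ)) ≤
        C * (numA G c / Real.sqrt (Fintype.card X) + numB G c / Fintype.card X
          + (Fintype.card X : ℝ) ^ (δ - 1)) * 2 ^ Fintype.card X := by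
  classical
  obtain ⟨C1, hC1, hnum⟩ := num_linear δ hδ
  refine ⟨3 + 2 * C1, by positivity, ?_⟩
  intro G _ _ c X _ τ κ J hc hX hJ hsum
  set g : ℕ := Fintype.card X with hg
  have hgR : (0 : ℝ) < g := by exact_mod_cast hX
  have hsg : 0 < Real.sqrt g := Real.sqrt_pos.mpr hgR
  -- the order of `G`
  have hG : Fintype.card G ≤ 2 * g := by
    have h1 := hc.card_mul
    have h2 : 0 < κ := by
      rcases Nat.eq_zero_or_pos κ with h | h
      · rw [h, zero_mul] at h1
        omega
      · exact h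
    calc Fintype.card G = 1 * Fintype.card G := (one_mul _).symm
      _ ≤ κ * Fintype.card G := Nat.mul_le_mul_right _ h2
      _ = 2 * g := h1
  -- split
  set J1 := J.filter fun e => zc e = 1 with hJ1
  set J2 := J.filter fun e => zc e = 2 with hJ2
  set J3 := J.filter fun e => 3 ≤ zc e with hJ3
  have hsub : J ⊆ J1 ∪ (J2 ∪ J3) := by
    intro e he
    have := linearPart_zc_pos e (hJ e he).1
    rw [hJ1, hJ2, hJ3, Finset.mem_union, Finset.mem_union, Finset.mem_filter, Finset.mem_filter,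
      Finset.mem_filter]
    have h3 : zc e = 1 ∨ zc e = 2 ∨ 3 ≤ zc e := by omega
    rcases h3 with h | h | h
    · exact Or.inl ⟨he, h⟩
    · exact Or.inr (Or.inl ⟨he, h⟩)
    · exact Or.inr (Or.inr ⟨he, h⟩)
  have hsplit : ∑ e ∈ J, ((badSetX e τ).card : ℝ) ≤
      ∑ e ∈ J1, ((badSetX e τ).card : ℝ) +
        (∑ e ∈ J2, ((badSetX e τ).card : ℝ) + ∑ e ∈ J3, ((badSetX e τ).card : ℝ)) := by
    have hnn : ∀ e : MonoidAlgebra ℚ G, (0 : ℝ) ≤ ((badSetX e τ).card : ℝ) :=
      fun e => Nat.cast_nonneg _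
    calc ∑ e ∈ J, ((badSetX e τ).card : ℝ)
        ≤ ∑ e ∈ J1 ∪ (J2 ∪ J3), ((badSetX e τ).card : ℝ) :=
          Finset.sum_le_sum_of_subset_of_nonneg hsub fun e _ _ => hnn e
      _ ≤ ∑ e ∈ J1, ((badSetX e τ).card : ℝ) + ∑ e ∈ J2 ∪ J3, ((badSetX e τ).card : ℝ) := by
          rw [← Finset.sum_union_inter]
          have : 0 ≤ ∑ e ∈ J1 ∩ (J2 ∪ J3), ((badSetX e τ).card : ℝ) :=
            Finset.sum_nonneg fun e _ => hnn e
          linarith
      _ ≤ _ := by
          have h2 := Finset.sum_union_inter (s₁ := J2) (s₂ := J3)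
            (f := fun e => ((badSetX e τ).card : ℝ))
          have : 0 ≤ ∑ e ∈ J2 ∩ J3, ((badSetX e τ).card : ℝ) :=
            Finset.sum_nonneg fun e _ => hnn e
          linarith
  -- first part
  have hone : ∑ e ∈ J1, ((badSetX e τ).card : ℝ) ≤ numA G c / Real.sqrt g * 2 ^ g := by
    have hcard : J1.card ≤ numA G c := by
      refine card_linear_one c hc.sq J1 fun e he => ?_
      rw [hJ1, Finset.mem_filter] at he
      obtain ⟨h1, h2, h3⟩ := hJ e he.1
      exact ⟨h1, h2, h3, he.2⟩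
    have hterm : ∀ e ∈ J1, ((badSetX e τ).card : ℝ) ≤ 2 ^ g / Real.sqrt g := by
      intro e he
      rw [hJ1, Finset.mem_filter] at he
      obtain ⟨h1, h2, h3⟩ := hJ e he.1
      obtain ⟨m, _, hm2, hm3, hb, _⟩ := linear_bound hc hX e h1 h2 h3
      rw [he.2] at hm3 hb
      have hm := linearPart_totient_one hm2 hm3
      subst hm
      rw [pow_one] at hb
      refine hb.trans (le_of_eq ?_)
      have h4 : ((2 : ℕ) : ℝ) / (2 * (g : ℝ)) = (g : ℝ)⁻¹ := by
        push_cast
        field_simp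
      rw [← hg, h4, Real.sqrt_inv]
      rfl
    calc ∑ e ∈ J1, ((badSetX e τ).card : ℝ) ≤ J1.card • (2 ^ g / Real.sqrt g) :=
          Finset.sum_le_card_nsmul _ _ _ hterm
      _ = J1.card * (2 ^ g / Real.sqrt g) := by rw [nsmul_eq_mul]
      _ ≤ numA G c * (2 ^ g / Real.sqrt g) := by
          refine mul_le_mul_of_nonneg_right ?_ (by positivity)
          exact_mod_cast hcard
      _ = _ := by ring
  -- second part
  have htwo : ∑ e ∈ J2, ((badSetX e τ).card : ℝ) ≤ 3 * (numB G c / g * 2 ^ g) := by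
    have hcard : J2.card ≤ numB G c := by
      refine card_linear_two c hc.sq J2 fun e he => ?_
      rw [hJ2, Finset.mem_filter] at he
      obtain ⟨h1, h2, h3⟩ := hJ e he.1
      exact ⟨h1, h2, h3, he.2⟩
    have hterm : ∀ e ∈ J2, ((badSetX e τ).card : ℝ) ≤ 3 * (2 ^ g / g) := by
      intro e he
      rw [hJ2, Finset.mem_filter] at he
      obtain ⟨h1, h2, h3⟩ := hJ e he.1
      obtain ⟨m, _, hm2, hm3, hb, _⟩ := linear_bound hc hX e h1 h2 h3
      rw [he.2] at hm3 hb
      have hm := linearPart_totient_two hm3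
      rw [Real.sq_sqrt (by positivity), ← hg] at hb
      refine hb.trans ?_
      have hmR : (m : ℝ) ≤ 6 := by exact_mod_cast hm
      have h4 : (m : ℝ) / (2 * g) ≤ 3 / g := by
        rw [div_le_div_iff₀ (by positivity) hgR]
        nlinarith
      calc (2 : ℝ) ^ g * (m / (2 * g)) ≤ 2 ^ g * (3 / g) :=
            mul_le_mul_of_nonneg_left h4 (by positivity)
        _ = 3 * (2 ^ g / g) := by ring
    calc ∑ e ∈ J2, ((badSetX e τ).card : ℝ) ≤ J2.card • (3 * (2 ^ g / (g : ℝ))) :=
          Finset.sum_le_card_nsmul _ _ _ hterm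
      _ = J2.card * (3 * (2 ^ g / (g : ℝ))) := by rw [nsmul_eq_mul]
      _ ≤ numB G c * (3 * (2 ^ g / (g : ℝ))) := by
          refine mul_le_mul_of_nonneg_right ?_ (by positivity)
          exact_mod_cast hcard
      _ = _ := by ring
  -- third part
  have hthree : ∑ e ∈ J3, ((badSetX e τ).card : ℝ) ≤ 2 * C1 * ((g : ℝ) ^ (δ - 1) * 2 ^ g) := by
    have hcard : J3.card ≤ 2 * g := by
      refine le_trans ?_ hG
      refine le_trans ?_ hsum
      calc J3.card = ∑ _e ∈ J3, 1 := by rw [Finset.card_eq_sum_ones]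
        _ ≤ ∑ e ∈ J3, rk e := by
            refine Finset.sum_le_sum fun e he => ?_
            rw [hJ3, Finset.mem_filter] at he
            rw [← (hJ e he.1).2.2]
            omega
        _ ≤ ∑ e ∈ J, rk e :=
            Finset.sum_le_sum_of_subset (Finset.filter_subset _ _)
    have hterm : ∀ e ∈ J3, ((badSetX e τ).card : ℝ) ≤ 2 ^ g * (C1 * (g : ℝ) ^ (δ - 2)) := by
      intro e he
      rw [hJ3, Finset.mem_filter] at he
      obtain ⟨h1, h2, h3⟩ := hJ e he.1
      obtain ⟨m, hm1, hm2, hm3, hb, hb'⟩ := linear_bound hc hX e h1 h2 h3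
      have h2g : (0 : ℝ) < 2 ^ g := by positivity
      have h5 := hnum g m (zc e) (((badSetX e τ).card : ℝ) / 2 ^ g) hX hm1 hm3 he.2
        (by
          rw [div_le_iff₀ h2g, mul_comm]
          exact hb)
        (by
          rw [div_le_iff₀ h2g, mul_comm]
          exact hb')
      rw [div_le_iff₀ h2g] at h5
      linarith
    have hpow : (g : ℝ) * (g : ℝ) ^ (δ - 2) = (g : ℝ) ^ (δ - 1) := by
      have : δ - 1 = 1 + (δ - 2) := by ring
      rw [this, Real.rpow_add hgR, Real.rpow_one]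
    calc ∑ e ∈ J3, ((badSetX e τ).card : ℝ) ≤ J3.card • (2 ^ g * (C1 * (g : ℝ) ^ (δ - 2))) :=
          Finset.sum_le_card_nsmul _ _ _ hterm
      _ = J3.card * (2 ^ g * (C1 * (g : ℝ) ^ (δ - 2))) := by rw [nsmul_eq_mul]
      _ ≤ (2 * g) * (2 ^ g * (C1 * (g : ℝ) ^ (δ - 2))) := by
          refine mul_le_mul_of_nonneg_right ?_ (by positivity)
          exact_mod_cast hcard
      _ = 2 * C1 * (((g : ℝ) * (g : ℝ) ^ (δ - 2)) * 2 ^ g) := by ring
      _ = _ := by rw [hpow]
  have ha : 0 ≤ (numA G c : ℝ) / Real.sqrt g * 2 ^ g := by positivity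
  have hb : 0 ≤ (numB G c : ℝ) / g * 2 ^ g := by positivity
  have hd : 0 ≤ (g : ℝ) ^ (δ - 1) * 2 ^ g := by positivity
  have hfin : (3 + 2 * C1) * ((numA G c : ℝ) / Real.sqrt g + numB G c / g
      + (g : ℝ) ^ (δ - 1)) * 2 ^ g =
      (3 + 2 * C1) * ((numA G c : ℝ) / Real.sqrt g * 2 ^ g) +
      (3 + 2 * C1) * ((numB G c : ℝ) / g * 2 ^ g) +
      (3 + 2 * C1) * ((g : ℝ) ^ (δ - 1) * 2 ^ g) := by ring
  rw [hfin]
  have e1 : (numA G c : ℝ) / Real.sqrt g * 2 ^ g ≤
      (3 + 2 * C1) * ((numA G c : ℝ) / Real.sqrt g * 2 ^ g) := by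
    have : 0 ≤ (2 + 2 * C1) * ((numA G c : ℝ) / Real.sqrt g * 2 ^ g) := by positivity
    linarith
  have e2 : 3 * ((numB G c : ℝ) / g * 2 ^ g) ≤
      (3 + 2 * C1) * ((numB G c : ℝ) / g * 2 ^ g) := by
    have : 0 ≤ (2 * C1) * ((numB G c : ℝ) / g * 2 ^ g) := by positivity
    linarith
  have e3 : 2 * C1 * ((g : ℝ) ^ (δ - 1) * 2 ^ g) ≤
      (3 + 2 * C1) * ((g : ℝ) ^ (δ - 1) * 2 ^ g) := by
    have : 0 ≤ 3 * ((g : ℝ) ^ (δ - 1) * 2 ^ g) := by positivity
    linarith
  linarith

end Pool.Agent.Lib.MP_640417_ag.All
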