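import Pool.Agent.Lib.MP_640417_ag.All.TypesSum

/-!
# The odd types
-/

set_option autoImplicit false

namespace Pool.Agent.Lib.MP_640417_ag.All

open Module Finset Pool.Agent.Lib.MP_640417_ag.OddGal

variable {G : Type} [Group G] [Fintype G]

theorem typesZ_central (c : G) (hcen : ∀ h, c * h = h * c) (x : MonoidAlgebra ℚ G) :
    MonoidAlgebra.single c (1 : ℚ) * x = x * MonoidAlgebra.single c (1 : ℚ) := by
  classical
  refine MonoidAlgebra.induction_on (motive := fun x => MonoidAlgebra.single c (1 : ℚ) * x =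
    x * MonoidAlgebra.single c (1 : ℚ)) x ?_ ?_ ?_
  · intro g
    simp only [MonoidAlgebra.of_apply, MonoidAlgebra.single_mul_single, hcen g]
  · intro a b ha hb
    rw [mul_add, add_mul, ha, hb]
  · intro r a ha
    rw [mul_smul_comm, smul_mul_assoc, ha]

theorem typesZ_sq (c : G) (hsq : c * c = 1) :
    MonoidAlgebra.single c (1 : ℚ) * MonoidAlgebra.single c (1 : ℚ) = 1 := by
  rw [MonoidAlgebra.single_mul_single, hsq, mul_one, MonoidAlgebra.one_def]

/-- the central involution acts as `1` or `-1` on a type -/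
theorem typesZ_sign (c : G) (hcen : ∀ h, c * h = h * c) (hsq : c * c = 1)
    (e : MonoidAlgebra ℚ G) (he : IsType e) :
    MonoidAlgebra.single c (1 : ℚ) * e = e ∨ OddE c e := by
  set C := MonoidAlgebra.single c (1 : ℚ) with hC
  have hCc : ∀ x, C * x = x * C := typesZ_central c hcen
  have hCC : C * C = 1 := typesZ_sq c hsq
  by_cases h : (C - 1) * e = 0
  · left
    rw [sub_mul, one_mul, sub_eq_zero] at h
    exact h
  · right
    obtain ⟨u', hu', hu⟩ := he.field (C - 1) (fun x => by
      rw [sub_mul, mul_sub, one_mul, mul_one, hCc]) h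
    have h1 : (C + 1) * e = 0 := by
      rw [← hu]
      have h2 : (C + 1) * ((C - 1) * u' * e) = (C * C - 1) * (u' * e) := by
        noncomm_ring
      rw [h2, hCC, sub_self, zero_mul]
    rw [add_mul, one_mul] at h1
    exact eq_neg_of_add_eq_zero_left h1

/-- The finite family of odd types. `J` is the set of the odd elements of the family `J₀` of
`exists_types`. For `e ∈ J₀` one has `c e = e` or `c e = -e` (`(c - 1)(c + 1) e = 0` in the field
`cen e`, as in `IsType.field`). If `y ≠ 0`, `c y = - y`, `y a = 0`, then `toQ y = ∑ e (toQ y)`, some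
`e (toQ y) ≠ 0`; if `c e = e` then `e (toQ y) = e c (toQ y) = - e (toQ y)`, impossible; so `e` is
odd, and a suitable integral multiple of `e (toQ y)` shows `BadAtX e τ ε` (compare
`badAt_of_bad`). The last bound: `sum_zc`, `card_ab_le` and `zc_le_rk`. -/
theorem exists_odd_types (c : G) (hcen : ∀ h, c * h = h * c) (hsq : c * c = 1) :
    ∃ J : Finset (MonoidAlgebra ℚ G), (∀ e ∈ J, IsType e ∧ OddE c e) ∧
      (∀ (X : Type) [Fintype X] (τ : X → G) (ε : X → ℤ), BadX c τ ε →
        ∃ e ∈ J, BadAtX e τ ε) ∧
      ∑ e ∈ J, rk e ≤ Fintype.card G ∧ ∑ e ∈ J with zc e < rk e, zc e ≤ numS G := by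
  classical
  obtain ⟨J₀, hJ, horth, hsum, hrk⟩ := exists_types G
  refine ⟨J₀.filter (fun e => OddE c e), ?_, ?_, ?_, ?_⟩
  · intro e he
    rw [Finset.mem_filter] at he
    exact ⟨hJ e he.1, he.2⟩
  · intro X _ τ ε hbad
    obtain ⟨y, hy, hcy, hye⟩ := hbad
    have h1 : ∃ e ∈ J₀, e * toQ y ≠ 0 := by
      by_contra hcon
      push Not at hcon
      apply hy
      apply toQ_injective
      rw [map_zero, ← one_mul (toQ y), ← hsum, Finset.sum_mul]
      exact Finset.sum_eq_zero hcon
    obtain ⟨e, he, hey⟩ := h1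
    have hodd : OddE c e := by
      rcases typesZ_sign c hcen hsq e (hJ e he) with h | h
      · exfalso
        apply hey
        have hC : toQ (MonoidAlgebra.single c (1 : ℤ)) = MonoidAlgebra.single c (1 : ℚ) := by
          simp [toQ]
        have h2 : e * toQ y = - (e * toQ y) := by
          calc e * toQ y = (MonoidAlgebra.single c (1 : ℚ) * e) * toQ y := by rw [h]
            _ = (e * MonoidAlgebra.single c (1 : ℚ)) * toQ y := by rw [typesZ_central c hcen]
            _ = e * toQ (MonoidAlgebra.single c (1 : ℤ) * y) := by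
                rw [map_mul, hC, mul_assoc]
            _ = - (e * toQ y) := by rw [hcy, map_neg, mul_neg]
        have h3 : (2 : ℚ) • (e * toQ y) = 0 := by
          rw [two_smul]
          nth_rewrite 1 [h2]
          exact neg_add_cancel _
        rcases smul_eq_zero.1 h3 with h4 | h4
        · norm_num at h4
        · exact h4
      · exact h
    obtain ⟨m, hm, y', hy'⟩ := exists_denominator (e * toQ y)
    have hm' : (m : ℚ) ≠ 0 := by exact_mod_cast hm.ne'
    refine ⟨e, Finset.mem_filter.2 ⟨he, hodd⟩, y', ?_, ?_, ?_⟩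
    · rintro rfl
      rw [map_zero] at hy'
      rcases smul_eq_zero.1 hy'.symm with h | h
      · exact hm' h
      · exact hey h
    · rw [hy', mul_smul_comm, ← mul_assoc, (hJ e he).idem]
    · apply toQ_injective
      rw [map_mul, hy', smul_mul_assoc, mul_assoc, ← map_mul, hye]
      simp
  · rw [← hrk]
    exact Finset.sum_le_sum_of_subset (Finset.filter_subset _ _)
  · have h1 := sum_zc J₀ hJ horth hsum
    have h2 := card_ab_le J₀ hJ horth hsum
    have h3 : ∑ e ∈ J₀, zc e = ∑ e ∈ J₀ with zc e = rk e, zc e +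
        ∑ e ∈ J₀ with ¬ zc e = rk e, zc e :=
      (Finset.sum_filter_add_sum_filter_not J₀ (fun e => zc e = rk e) _).symm
    have h4 : ∑ e ∈ J₀.filter (fun e => OddE c e) with zc e < rk e, zc e ≤
        ∑ e ∈ J₀ with ¬ zc e = rk e, zc e := by
      apply Finset.sum_le_sum_of_subset
      intro e he
      rw [Finset.mem_filter, Finset.mem_filter] at he
      rw [Finset.mem_filter]
      exact ⟨he.1.1, he.2.ne⟩
    unfold numS
    omega

end Pool.Agent.Lib.MP_640417_ag.All
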