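import Pool.Agent.Lib.MP_640417_ag.All.TypeBound
import Pool.Agent.Lib.MP_640417_ag.All.LinearPart
import Pool.Agent.Lib.MP_640417_ag.All.TypesZ
import Pool.Agent.Lib.MP_640417_ag.OddGroup

/-!
# The group theorem

Let `g = |X|`, `d = |G| ≤ 2 g`, `s = numS G`. We may assume `g^{δ-1} (s d³)^{1/4} ≤ 1` (otherwise
the bound is trivial, `C ≥ 1`). Take `J` from `exists_odd_types`.
* Commutative types (`zc e = rk e`; always `zc e ≤ rk e`): those with `zc e = 1` contribute at most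
  `numA / √g` (`card_linear_one`, `linear_bound` with `m.totient = 1`, `m` even, so `m = 2`), those
  with `zc e = 2` at most `numB · 6 / (2 g)` (`card_linear_two`; `φ(m) = 2`, `m ≤ 6`), each of the
  others at most `C g^{δ-2}` (`num_linear`), and there are at most `d ≤ 2 g` of them
  (`∑ rk e ≤ d`, `rk e ≥ 1`).
* Noncommutative types: `∑ zc e ≤ s`, so for each of them `zc e * rk e ≤ s d ≤ (s d³)^{1/2}`
  (`s ≤ d`) `≤ g^{2 - 2δ}` and `type_bound` applies. By Hölder, with `k ≤ s` the number of these types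
  (`zc e ≥ 1`), `∑ (rk e)^{3/4} ≤ k^{1/4} (∑ rk e)^{3/4} ≤ (s d³)^{1/4}`.
(`zc e ≥ 1` because `e ∈ cen e`, `e ≠ 0`; `s ≤ d` since there are at most `|G|` conjugacy classes.)
-/

set_option autoImplicit false

namespace Pool.Agent.Lib.MP_640417_ag.All

open Module Finset Pool.Agent.Lib.MP_640417_ag.OddGal

/-- Hölder for the exponent `3/4`. -/
theorem sum_rpow_le {ι : Type} (J : Finset ι) (r : ι → ℝ) (hr : ∀ i ∈ J, 0 ≤ r i) :
    ∑ i ∈ J, r i ^ (3 / 4 : ℝ) ≤ (J.card : ℝ) ^ (1 / 4 : ℝ) * (∑ i ∈ J, r i) ^ (3 / 4 : ℝ) := by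
  have hpq : (4 : ℝ).HolderConjugate (4 / 3) := by
    rw [Real.holderConjugate_iff]
    norm_num
  have h := Real.inner_le_Lp_mul_Lq_of_nonneg J hpq (f := fun _ => (1 : ℝ))
    (g := fun i => r i ^ (3 / 4 : ℝ)) (fun _ _ => zero_le_one)
    (fun i hi => Real.rpow_nonneg (hr i hi) _)
  have e1 : ∑ i ∈ J, (r i ^ (3 / 4 : ℝ)) ^ (4 / 3 : ℝ) = ∑ i ∈ J, r i := by
    refine Finset.sum_congr rfl fun i hi => ?_
    rw [← Real.rpow_mul (hr i hi)]
    norm_num
  simp only [one_mul, Real.one_rpow, Finset.sum_const, nsmul_eq_mul, mul_one] at h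
  rw [e1] at h
  have e2 : (1 : ℝ) / (4 / 3) = 3 / 4 := by norm_num
  rwa [e2] at h

private theorem zc_pos {G : Type} [Group G] [Fintype G] {e : MonoidAlgebra ℚ G} (he : IsType e) :
    1 ≤ zc e := by
  have hmem : e ∈ cen e := ⟨he.idem, he.central⟩
  have hnt : Nontrivial (cen e) := ⟨⟨e, hmem⟩, 0, fun h => he.ne_zero (congrArg Subtype.val h)⟩
  have : FiniteDimensional ℚ (MonoidAlgebra ℚ G) := inferInstance
  exact Module.finrank_pos

private theorem numS_le (G : Type) [Group G] [Fintype G] : numS G ≤ Fintype.card G := by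
  unfold numS
  have h : Nat.card (ConjClasses G) ≤ Nat.card G :=
    Nat.card_le_card_of_surjective ConjClasses.mk ConjClasses.mk_surjective
  rw [Nat.card_eq_fintype_card (α := G)] at h
  omega

theorem groupMain (δ : ℝ) (hδ : 0 < δ) (hδ1 : δ < 1 / 2) : ∃ C : ℝ, 0 < C ∧
    ∀ (G : Type) [Group G] [Fintype G] (c : G) (X : Type) [Fintype X] (τ : X → G) (κ : ℕ),
      Cover c τ κ → 0 < Fintype.card X →
      ({ε : X → ℤ | ε ∈ signs X ∧ BadX c τ ε}.ncard : ℝ) ≤
        C * (numA G c / Real.sqrt (Fintype.card X) + numB G c / Fintype.card X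
          + (Fintype.card X : ℝ) ^ (δ - 1) *
            (1 + ((numS G : ℝ) * (Fintype.card G : ℝ) ^ 3) ^ (1 / 4 : ℝ)))
          * 2 ^ Fintype.card X := by
  classical
  obtain ⟨C₁, hC₁, h₁⟩ := type_bound δ hδ hδ1
  obtain ⟨C₂, hC₂, h₂⟩ := linear_part δ hδ
  refine ⟨C₁ + C₂ + 1, by positivity, ?_⟩
  intro G _ _ c X _ τ κ hc hX
  obtain ⟨g, hg⟩ : ∃ g : ℝ, g = (Fintype.card X : ℝ) := ⟨_, rfl⟩
  obtain ⟨s, hs⟩ : ∃ s : ℝ, s = (numS G : ℝ) := ⟨_, rfl⟩
  obtain ⟨d, hd⟩ : ∃ d : ℝ, d = (Fintype.card G : ℝ) := ⟨_, rfl⟩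
  obtain ⟨T, hT⟩ : ∃ T : ℝ, T = (2 : ℝ) ^ Fintype.card X := ⟨_, rfl⟩
  obtain ⟨AB, hAB⟩ : ∃ AB : ℝ, AB = numA G c / Real.sqrt (Fintype.card X) +
    numB G c / Fintype.card X := ⟨_, rfl⟩
  have hg1 : 1 ≤ g := by rw [hg]; exact_mod_cast hX
  have hg0 : 0 < g := by linarith
  have hs0 : 0 ≤ s := by rw [hs]; exact Nat.cast_nonneg _
  have hd0 : 0 ≤ d := by rw [hd]; exact Nat.cast_nonneg _
  have hsd : s ≤ d := by rw [hs, hd]; exact_mod_cast numS_le G
  have hT0 : 0 < T := by rw [hT]; positivity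
  have hAB0 : 0 ≤ AB := by rw [hAB]; positivity
  obtain ⟨S4, hS4⟩ : ∃ S4 : ℝ, S4 = (s * d ^ 3) ^ (1 / 4 : ℝ) := ⟨_, rfl⟩
  have hS40 : 0 ≤ S4 := by rw [hS4]; positivity
  obtain ⟨w, hw⟩ : ∃ w : ℝ, w = g ^ (δ - 1) := ⟨_, rfl⟩
  have hw0 : 0 < w := by rw [hw]; positivity
  rw [← hg, ← hs, ← hd, ← hT, ← hS4, ← hw]
  rw [← hg] at hAB
  rw [← hAB]
  -- all sign vectors
  have hall : ({ε : X → ℤ | ε ∈ signs X ∧ BadX c τ ε}.ncard : ℝ) ≤ T := by
    have h1 : {ε : X → ℤ | ε ∈ signs X ∧ BadX c τ ε}.ncard ≤ (signs X).card := by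
      rw [← Set.ncard_coe_finset]
      exact Set.ncard_le_ncard (fun ε hε => hε.1) (Finset.finite_toSet _)
    rw [card_signs] at h1
    rw [hT]
    exact_mod_cast h1
  by_cases hW : 1 < w * S4
  · have h1 : T ≤ w * S4 * T := by nlinarith
    have h2 : 0 ≤ (C₁ + C₂) * (AB + w * (1 + S4)) * T := by positivity
    have h3 : 0 ≤ (AB + w) * T := by positivity
    nlinarith
  push Not at hW
  obtain ⟨J, hJ, hJbad, hJrk, hJzc⟩ := exists_odd_types c hc.central hc.sq
  -- union bound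
  have hunion : ({ε : X → ℤ | ε ∈ signs X ∧ BadX c τ ε}.ncard : ℝ) ≤
      ∑ e ∈ J, ((badSetX e τ).card : ℝ) := by
    have h1 : {ε : X → ℤ | ε ∈ signs X ∧ BadX c τ ε} ⊆
        ((J.biUnion fun e => badSetX e τ : Finset (X → ℤ)) : Set (X → ℤ)) := by
      rintro ε ⟨hε, hb⟩
      obtain ⟨e, he, hbe⟩ := hJbad X τ ε hb
      rw [Finset.mem_coe, Finset.mem_biUnion]
      refine ⟨e, he, ?_⟩
      unfold badSetX
      rw [Finset.mem_filter]
      exact ⟨hε, hbe⟩
    have h2 := Set.ncard_le_ncard h1 (Finset.finite_toSet _)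
    rw [Set.ncard_coe_finset] at h2
    have h3 := h2.trans Finset.card_biUnion_le
    exact_mod_cast h3
  rw [← Finset.sum_filter_add_sum_filter_not J (fun e => zc e < rk e)] at hunion
  -- the commutative types
  have hJ1 := h₂ G c X τ κ (J.filter fun e => ¬ zc e < rk e) hc hX
    (fun e he => by
      rw [Finset.mem_filter] at he
      exact ⟨(hJ e he.1).1, (hJ e he.1).2, le_antisymm (zc_le_rk e) (not_lt.1 he.2)⟩)
    ((Finset.sum_le_sum_of_subset (Finset.filter_subset _ _)).trans hJrk)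
  rw [← hg, ← hT, ← hAB, ← hw] at hJ1
  -- the noncommutative types
  have hsd2 : s * d ≤ g ^ (2 - 2 * δ) := by
    have h1 : S4 ≤ g ^ (1 - δ) := by
      have h2 : w * g ^ (1 - δ) = 1 := by
        rw [hw, ← Real.rpow_add hg0]
        have : δ - 1 + (1 - δ) = 0 := by ring
        rw [this, Real.rpow_zero]
      by_contra hcon
      push Not at hcon
      nlinarith
    have h2 : S4 ^ 2 ≤ g ^ (2 - 2 * δ) := by
      have h3 : g ^ (2 - 2 * δ) = (g ^ (1 - δ)) ^ 2 := by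
        rw [← Real.rpow_natCast (g ^ (1 - δ)) 2, ← Real.rpow_mul hg0.le]
        congr 1
        push_cast
        ring
      rw [h3]
      exact pow_le_pow_left₀ hS40 h1 2
    refine le_trans ?_ h2
    have h3 : S4 ^ 2 = Real.sqrt (s * d ^ 3) := by
      rw [hS4, Real.sqrt_eq_rpow, ← Real.rpow_natCast ((s * d ^ 3) ^ (1 / 4 : ℝ)) 2,
        ← Real.rpow_mul (by positivity)]
      congr 1
      norm_num
    rw [h3]
    refine Real.le_sqrt_of_sq_le ?_
    have h4 : s * (s * d ^ 2) ≤ d * (s * d ^ 2) := mul_le_mul_of_nonneg_right hsd (by positivity)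
    nlinarith
  have hJ2 : ∑ e ∈ J with zc e < rk e, ((badSetX e τ).card : ℝ) ≤ C₁ * w * S4 * T := by
    have h3 : ∀ e ∈ J.filter (fun e => zc e < rk e), ((badSetX e τ).card : ℝ) ≤
        C₁ * w * T * (rk e : ℝ) ^ (3 / 4 : ℝ) := by
      intro e he
      have hz : zc e ≤ numS G :=
        (Finset.single_le_sum (f := fun e => zc e) (fun _ _ => Nat.zero_le _) he).trans hJzc
      rw [Finset.mem_filter] at he
      have hr : rk e ≤ Fintype.card G :=
        (Finset.single_le_sum (f := fun e => rk e) (fun _ _ => Nat.zero_le _) he.1).trans hJrk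
      have h4 : (zc e : ℝ) * rk e ≤ s * d := by
        rw [hs, hd]
        exact mul_le_mul (by exact_mod_cast hz) (by exact_mod_cast hr) (Nat.cast_nonneg _)
          (Nat.cast_nonneg _)
      have h5 := h₁ G c X τ κ e hc hX (hJ e he.1).1 (hJ e he.1).2 he.2
        (by rw [← hg]; exact h4.trans hsd2)
      rw [← hg, ← hT, ← hw] at h5
      linarith
    refine (Finset.sum_le_sum h3).trans ?_
    rw [← Finset.mul_sum]
    have h4 := sum_rpow_le (J.filter (fun e => zc e < rk e)) (fun e => (rk e : ℝ))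
      (fun _ _ => Nat.cast_nonneg _)
    have hk : ((J.filter (fun e => zc e < rk e)).card : ℝ) ≤ s := by
      rw [hs]
      have h5 : (J.filter (fun e => zc e < rk e)).card ≤ ∑ e ∈ J with zc e < rk e, zc e := by
        rw [Finset.card_eq_sum_ones]
        refine Finset.sum_le_sum fun e he => ?_
        exact zc_pos (hJ e (Finset.mem_filter.1 he).1).1
      exact_mod_cast h5.trans hJzc
    have hr : ∑ e ∈ J with zc e < rk e, (rk e : ℝ) ≤ d := by
      rw [hd]
      exact_mod_cast (Finset.sum_le_sum_of_subset (Finset.filter_subset _ _)).trans hJrk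
    have hr0 : 0 ≤ ∑ e ∈ J with zc e < rk e, (rk e : ℝ) :=
      Finset.sum_nonneg fun _ _ => Nat.cast_nonneg _
    have h5 : ∑ e ∈ J with zc e < rk e, (rk e : ℝ) ^ (3 / 4 : ℝ) ≤ S4 := by
      refine h4.trans ?_
      have e1 : S4 = s ^ (1 / 4 : ℝ) * d ^ (3 / 4 : ℝ) := by
        rw [hS4, Real.mul_rpow hs0 (by positivity), ← Real.rpow_natCast d 3,
          ← Real.rpow_mul hd0]
        congr 2
        norm_num
      rw [e1]
      exact mul_le_mul (Real.rpow_le_rpow (Nat.cast_nonneg _) hk (by norm_num))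
        (Real.rpow_le_rpow hr0 hr (by norm_num)) (Real.rpow_nonneg hr0 _)
        (Real.rpow_nonneg hs0 _)
    calc C₁ * w * T * ∑ e ∈ J with zc e < rk e, (rk e : ℝ) ^ (3 / 4 : ℝ)
        ≤ C₁ * w * T * S4 := mul_le_mul_of_nonneg_left h5 (by positivity)
      _ = C₁ * w * S4 * T := by ring
  have h6 : ({ε : X → ℤ | ε ∈ signs X ∧ BadX c τ ε}.ncard : ℝ) ≤
      C₁ * w * S4 * T + C₂ * (AB + w) * T := hunion.trans (add_le_add hJ2 hJ1)
  have h7 : 0 ≤ C₁ * (AB + w) * T := by positivity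
  have h8 : 0 ≤ C₂ * (w * S4) * T := by positivity
  have h9 : 0 ≤ (AB + w * (1 + S4)) * T := by positivity
  nlinarith

end Pool.Agent.Lib.MP_640417_ag.All
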