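import Pool.Agent.Lib.MP_640417_ag.Far.Main

/-!
# Imprimitive sign functions
-/

set_option autoImplicit false

namespace Pool.Agent.Lib.MP_640417_ag.All

open Module Finset MulAction Pool.Agent.Lib.MP_640417_ag.Far

section one

variable {S G : Type} [Fintype S] [Group G] [MulAction G S]

/-- The sign functions which do not separate the translates of `s₀` and `t₀`. -/
def imA (z : G) (s₀ t₀ : S) : Set (S → ℤ) :=
  {e | IsSgn z e ∧ ∀ γ : G, e (γ • s₀) = e (γ • t₀)}

lemma imA_smul (z : G) (hz : ∀ γ : G, γ * z = z * γ) (s₀ t₀ : S) (e : S → ℤ)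
    (he : e ∈ imA z s₀ t₀) (γ : G) : (fun s => e (γ • s)) ∈ imA z s₀ t₀ := by
  obtain ⟨⟨h1, h2⟩, h3⟩ := he
  refine ⟨⟨fun s => h1 _, fun s => ?_⟩, fun δ => ?_⟩
  · show e (γ • z • s) = - e (γ • s)
    rw [smul_smul, hz, mul_smul, h2]
  · show e (γ • δ • s₀) = e (γ • δ • t₀)
    rw [smul_smul, smul_smul, h3]

/-- Points whose values differ by a constant sign on `imA`. -/
def imSetoid (z : G) (s₀ t₀ : S) : Setoid S where
  r s s' := ∃ σ : ℤ, (σ = 1 ∨ σ = -1) ∧ ∀ e ∈ imA z s₀ t₀, e s' = σ * e s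
  iseqv := by
    refine ⟨fun s => ⟨1, Or.inl rfl, fun e _ => by ring⟩, ?_, ?_⟩
    · rintro s s' ⟨σ, hσ, h⟩
      refine ⟨σ, hσ, fun e he => ?_⟩
      rw [h e he]
      rcases hσ with rfl | rfl <;> ring
    · rintro s s' s'' ⟨σ, hσ, h⟩ ⟨σ', hσ', h'⟩
      refine ⟨σ' * σ, ?_, fun e he => by rw [h' e he, h e he]; ring⟩
      rcases hσ with rfl | rfl <;> rcases hσ' with rfl | rfl <;> simp

lemma ncard_imA_le [Finite G] [IsPretransitive G S] (z : G) (hz : ∀ γ : G, γ * z = z * γ)
    (hzz : ∀ s : S, z • z • s = s) (hne : ∀ s : S, z • s ≠ s) (g : ℕ)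
    (hg : Fintype.card S = 2 * g) (s₀ t₀ : S) (hst : s₀ ≠ t₀) :
    (imA z s₀ t₀).ncard ≤ 2 ^ (g / 2) := by
  classical
  rcases (imA z s₀ t₀).eq_empty_or_nonempty with h0 | ⟨e₀, he₀⟩
  · rw [h0, Set.ncard_empty]
    exact Nat.zero_le _
  let r := imSetoid z s₀ t₀
  -- classes have at least four elements
  have hcls : ∀ q : Quotient r, 4 ≤ (Finset.univ.filter (fun s : S => (Quotient.mk r s) = q)).card := by
    intro q
    obtain ⟨s, rfl⟩ := Quotient.exists_rep q
    obtain ⟨γ, rfl⟩ := exists_smul_eq G s₀ s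
    have hsub : ({γ • s₀, z • γ • s₀, γ • t₀, z • γ • t₀} : Finset S) ⊆
        Finset.univ.filter (fun s : S => (Quotient.mk r s) = Quotient.mk r (γ • s₀)) := by
      intro x hx
      simp only [Finset.mem_insert, Finset.mem_singleton] at hx
      simp only [Finset.mem_filter, Finset.mem_univ, true_and]
      apply Quotient.sound
      show ∃ σ : ℤ, (σ = 1 ∨ σ = -1) ∧ ∀ e ∈ imA z s₀ t₀, e (γ • s₀) = σ * e x
      rcases hx with rfl | rfl | rfl | rfl
      · exact ⟨1, Or.inl rfl, fun e _ => by ring⟩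
      · exact ⟨-1, Or.inr rfl, fun e he => by rw [he.1.2]; ring⟩
      · exact ⟨1, Or.inl rfl, fun e he => by rw [he.2 γ]; ring⟩
      · exact ⟨-1, Or.inr rfl, fun e he => by rw [he.1.2, he.2 γ]; ring⟩
    have hcard : ({γ • s₀, z • γ • s₀, γ • t₀, z • γ • t₀} : Finset S).card = 4 := by
      have hpm : ∀ s : S, e₀ s ≠ - e₀ s := by
        intro s
        rcases he₀.1.1 s with h | h <;> rw [h] <;> norm_num
      have a1 : γ • s₀ ≠ z • γ • s₀ := (hne _).symm
      have a2 : γ • s₀ ≠ γ • t₀ := fun h => hst (MulAction.injective γ h)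
      have a3 : γ • s₀ ≠ z • γ • t₀ := by
        intro h
        have h1 := congrArg e₀ h
        rw [he₀.1.2, he₀.2 γ] at h1
        exact hpm _ h1
      have a4 : z • γ • s₀ ≠ γ • t₀ := by
        intro h
        have h1 := congrArg e₀ h
        rw [he₀.1.2, he₀.2 γ] at h1
        exact hpm _ h1.symm
      have a5 : z • γ • s₀ ≠ z • γ • t₀ := fun h => a2 (MulAction.injective z h)
      have a6 : γ • t₀ ≠ z • γ • t₀ := (hne _).symm
      rw [Finset.card_insert_of_notMem, Finset.card_insert_of_notMem,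
        Finset.card_insert_of_notMem, Finset.card_singleton]
      · simpa using a6
      · simp only [Finset.mem_insert, Finset.mem_singleton, not_or]
        exact ⟨a4, a5⟩
      · simp only [Finset.mem_insert, Finset.mem_singleton, not_or]
        exact ⟨a1, a2, a3⟩
    rw [← hcard]
    exact Finset.card_le_card hsub
  have hq : 4 * Fintype.card (Quotient r) ≤ 2 * g := by
    rw [← hg, ← Finset.card_univ (α := S),
      Finset.card_eq_sum_card_fiberwise (f := fun s : S => Quotient.mk r s)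
        (t := (Finset.univ : Finset (Quotient r))) (fun _ _ => Finset.mem_univ _)]
    calc 4 * Fintype.card (Quotient r) = ∑ _q : Quotient r, 4 := by
          rw [Finset.sum_const, Finset.card_univ, smul_eq_mul, mul_comm]
      _ ≤ _ := Finset.sum_le_sum fun q _ => hcls q
  -- the functions are determined by the values at representatives
  have hle : (imA z s₀ t₀).ncard ≤ Nat.card (Quotient r → Bool) := by
    rw [← Set.ncard_univ]
    apply Set.ncard_le_ncard_of_injOn (fun e => fun q : Quotient r => decide (e q.out = 1))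
      (fun _ _ => Set.mem_univ _)
    intro e he e' he' h
    funext s
    have hrep : r (Quotient.mk r s).out s := Quotient.mk_out s
    obtain ⟨σ, hσ, hσe⟩ := hrep
    rw [hσe e he, hσe e' he']
    congr 1
    have h1 := congrFun h (Quotient.mk r s)
    simp only [decide_eq_decide] at h1
    rcases he.1.1 (Quotient.mk r s).out with h2 | h2
    · rw [h2, h1.mp h2]
    · rcases he'.1.1 (Quotient.mk r s).out with h3 | h3
      · rw [h1.mpr h3, h3]
      · rw [h2, h3]
  refine hle.trans ?_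
  rw [Nat.card_eq_fintype_card, Fintype.card_fun, Fintype.card_bool]
  exact Nat.pow_le_pow_right (by norm_num) (by omega)

end one

theorem ncard_imprimitive_le (S G : Type) [Fintype S] [Group G] [Finite G] [MulAction G S]
    [IsPretransitive G S] (z : G) (hz : ∀ γ : G, γ * z = z * γ) (hzz : ∀ s : S, z • z • s = s)
    (hne : ∀ s : S, z • s ≠ s) (g : ℕ) (hg : Fintype.card S = 2 * g) :
    {e : S → ℤ | IsSgn z e ∧ ∃ s t : S, s ≠ t ∧ ∀ γ : G, e (γ • s) = e (γ • t)}.ncard
      ≤ 2 * g * 2 ^ (g / 2) := by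
  classical
  rcases isEmpty_or_nonempty S with hS | ⟨⟨s₀⟩⟩
  · have h0 : {e : S → ℤ | IsSgn z e ∧ ∃ s t : S, s ≠ t ∧ ∀ γ : G, e (γ • s) = e (γ • t)} = ∅ := by
      ext e
      simp only [Set.mem_ofPred_eq, Set.mem_empty_iff_false, iff_false]
      rintro ⟨_, s, _⟩
      exact hS.elim s
    rw [h0, Set.ncard_empty]
    exact Nat.zero_le _
  have hsub : {e : S → ℤ | IsSgn z e ∧ ∃ s t : S, s ≠ t ∧ ∀ γ : G, e (γ • s) = e (γ • t)} ⊆
      ⋃ t ∈ (Finset.univ.filter (fun t : S => s₀ ≠ t)), imA z s₀ t := by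
    rintro e ⟨he, s, t, hst, h⟩
    obtain ⟨δ, rfl⟩ := exists_smul_eq G s₀ s
    rw [Set.mem_iUnion₂]
    refine ⟨δ⁻¹ • t, ?_, he, fun γ => ?_⟩
    · simp only [Finset.mem_filter, Finset.mem_univ, true_and]
      intro h1
      apply hst
      rw [h1, smul_inv_smul]
    · have h1 := h (γ * δ⁻¹)
      rw [mul_smul, inv_smul_smul] at h1
      rw [h1, mul_smul]
  have hfin : ∀ t : S, (imA z s₀ t).Finite := fun t => finite_isSgn z _
  have hfin2 : (⋃ t ∈ (Finset.univ.filter (fun t : S => s₀ ≠ t)), imA z s₀ t).Finite :=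
    Set.Finite.biUnion (Finset.finite_toSet _) fun t _ => hfin t
  calc _ ≤ (⋃ t ∈ (Finset.univ.filter (fun t : S => s₀ ≠ t)), imA z s₀ t).ncard :=
        Set.ncard_le_ncard hsub hfin2
    _ ≤ ∑ t ∈ (Finset.univ.filter (fun t : S => s₀ ≠ t)), (imA z s₀ t).ncard :=
        Finset.set_ncard_biUnion_le _ _
    _ ≤ ∑ _t ∈ (Finset.univ.filter (fun t : S => s₀ ≠ t)), 2 ^ (g / 2) := by
        apply Finset.sum_le_sum
        intro t ht
        exact ncard_imA_le z hz hzz hne g hg s₀ t (by simpa using ht)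
    _ ≤ 2 * g * 2 ^ (g / 2) := by
        rw [Finset.sum_const, smul_eq_mul]
        apply Nat.mul_le_mul_right
        rw [← hg, ← Finset.card_univ]
        exact Finset.card_filter_le _ _

end Pool.Agent.Lib.MP_640417_ag.All
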