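import Pool.Agent.Lib.MP_640417_ag.Far.Main
import Pool.Agent.Lib.MP_640417_ag.Far.Red
import Pool.Agent.Lib.MP_640417_ag.OddAlgA
import Pool.Agent.Lib.MP_640417_ag.All.GroupMain

/-!
# The irreducible spaces fixed by the stabilizer

Let `N` be the normal closure of the stabilizer of `s₀`, `Q = G ⧸ N`. As the stabilizer is in `N`
there is a map `θ : S → Q`, `θ (γ s₀) = γ N`, and `θ (γ s) = γ θ(s)`. If there is `U'` as below then
`z • s₀` is not in the orbit `N s₀` (`notMem_orbit_of_le_invF`), so `z̄ ≠ 1` in `Q`; `z² ` acts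
trivially so `z̄² = 1`. Let `X` be a transversal of the pairs `{s, z s}` (`exists_transversal`,
`|X| = g`), `τ x = θ(x)⁻¹` for `x ∈ X`. This is a cover: `x ↦ ` the element of `{x, z x}` with
`θ = h⁻¹` is a bijection from `{x | τ x = h ∨ τ x = z̄ h}` to `{s | θ s = h⁻¹}`, whose size `κ` does
not depend on `h`. Let `e` be a sign function, `f ≠ 0` in `U'`, `v` an integral multiple of `f`;
`U' ≤ invF ℚ N` (compare `types_of`), so `v s = y (θ s)`, `y : Q → ℤ`, `y (z̄ q) = - y q`. The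
translates of `v` are orthogonal to `e`: `0 = ∑_s e s y (k θ(s)) = 2 ∑_{x ∈ X} e x y (k θ(x))` for all
`k ∈ Q`. This is twice the coefficient at `k` of `Y * eltX τ (e|X)`, `Y = ∑ y q • q`. So
`e|X` is `BadX z̄ τ`. The restriction to `X` is injective on sign functions. Apply `groupMain`.
-/

set_option autoImplicit false

namespace Pool.Agent.Lib.MP_640417_ag.All

open Module Finset MulAction Pool.Agent.Lib.MP_640417_ag.Far

section JPart

variable {S G : Type} [Fintype S] [Group G] [Finite G] [MulAction G S] [IsPretransitive G S]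

omit [Fintype S] [Finite G] in
/-- The map to the quotient by a normal subgroup containing the stabilizer. -/
private lemma JPart_exists_theta (s₀ : S) (N : Subgroup G) [N.Normal]
    (hN : stabilizer G s₀ ≤ N) :
    ∃ θ : S → G ⧸ N, (∀ γ : G, θ (γ • s₀) = (γ : G ⧸ N)) ∧
      ∀ (γ : G) (s : S), θ (γ • s) = (γ : G ⧸ N) * θ s := by
  have hex : ∀ s : S, ∃ γ : G, γ • s₀ = s := fun s => exists_smul_eq G s₀ s
  choose c hc using hex
  have h1 : ∀ γ : G, ((c (γ • s₀) : G) : G ⧸ N) = (γ : G ⧸ N) := by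
    intro γ
    rw [QuotientGroup.eq]
    apply hN
    rw [mem_stabilizer_iff, mul_smul, inv_smul_eq_iff]
    exact (hc _).symm
  refine ⟨fun s => (c s : G ⧸ N), h1, ?_⟩
  intro γ s
  have h2 : γ • s = (γ * c s) • s₀ := by rw [mul_smul, hc]
  change ((c (γ • s) : G) : G ⧸ N) = _
  rw [h2, h1, QuotientGroup.mk_mul]

omit [Finite G] [IsPretransitive G S] in
/-- A sum over all points of an even function is twice the sum over a transversal. -/
private lemma JPart_sum_even (z : G) (hzz : ∀ s : S, z • z • s = s) (X : Finset S)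
    (hX : ∀ s, s ∈ X ↔ z • s ∉ X) (F : S → ℤ) (hF : ∀ s, F (z • s) = F s) :
    ∑ s, F s = 2 * ∑ x : {x // x ∈ X}, F x := by
  classical
  rw [← Finset.sum_filter_add_sum_filter_not Finset.univ (fun s => s ∈ X) F]
  have h1 : ∑ s ∈ Finset.univ.filter (fun s => s ∉ X), F s =
      ∑ s ∈ Finset.univ.filter (fun s => s ∈ X), F s := by
    refine Finset.sum_bij' (fun s _ => z • s) (fun s _ => z • s) ?_ ?_ ?_ ?_ ?_
    · intro s hs
      rw [Finset.mem_filter] at hs ⊢
      refine ⟨Finset.mem_univ _, ?_⟩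
      rw [hX, hzz]
      exact hs.2
    · intro s hs
      rw [Finset.mem_filter] at hs ⊢
      exact ⟨Finset.mem_univ _, (hX s).mp hs.2⟩
    · intro s _
      exact hzz s
    · intro s _
      exact hzz s
    · intro s _
      exact (hF s).symm
  have h2 : Finset.univ.filter (fun s => s ∈ X) = X := by
    ext s
    simp
  rw [h1, h2, Finset.sum_coe_sort X F]
  ring

omit [Fintype S] [Finite G] [IsPretransitive G S] in
/-- The cover given by a transversal. -/
private lemma JPart_cover (s₀ : S) (z : G) (hz : ∀ γ : G, γ * z = z * γ)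
    (hzz : ∀ s : S, z • z • s = s) (N : Subgroup G) [N.Normal]
    (hN : stabilizer G s₀ ≤ N) (hzN : z ∉ N) (X : Finset S) (hX : ∀ s, s ∈ X ↔ z • s ∉ X)
    (θ : S → G ⧸ N) (hθ : ∀ (γ : G) (s : S), θ (γ • s) = (γ : G ⧸ N) * θ s) :
    Cover (z : G ⧸ N) (fun x : {x // x ∈ X} => (θ x)⁻¹) ({s : S | θ s = 1}.ncard) := by
  classical
  have hcen : ∀ h : G ⧸ N, (z : G ⧸ N) * h = h * (z : G ⧸ N) := by
    intro h
    obtain ⟨γ, rfl⟩ := QuotientGroup.mk_surjective h
    change ((z * γ : G) : G ⧸ N) = ((γ * z : G) : G ⧸ N)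
    rw [hz]
  have hsq : (z : G ⧸ N) * (z : G ⧸ N) = 1 := by
    change ((z * z : G) : G ⧸ N) = 1
    rw [QuotientGroup.eq_one_iff]
    apply hN
    rw [mem_stabilizer_iff, mul_smul, hzz]
  have hne : (z : G ⧸ N) ≠ 1 := by
    rw [Ne, QuotientGroup.eq_one_iff]
    exact hzN
  have hinv : (z : G ⧸ N)⁻¹ = (z : G ⧸ N) := inv_eq_of_mul_eq_one_left hsq
  refine ⟨hcen, hsq, hne, ?_⟩
  intro h
  obtain ⟨γ, hγ⟩ := QuotientGroup.mk_surjective h
  have e1 : {s : S | θ s = 1}.ncard = {s : S | θ s = h⁻¹}.ncard := by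
    apply Set.ncard_congr (fun s _ => γ⁻¹ • s)
    · intro s hs
      change θ (γ⁻¹ • s) = h⁻¹
      rw [hθ, show θ s = 1 from hs, mul_one, ← hγ]
      rfl
    · intro a b _ _ hab
      exact smul_left_cancel _ hab
    · intro s hs
      refine ⟨γ • s, ?_, inv_smul_smul _ _⟩
      change θ (γ • s) = 1
      rw [hθ, show θ s = h⁻¹ from hs]
      rw [show ((γ : G) : G ⧸ N) = h from hγ, mul_inv_cancel]
  rw [e1]
  have hmem : ∀ x : S, ((θ x)⁻¹ = h ∨ (θ x)⁻¹ = (z : G ⧸ N) * h) ↔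
      (θ x = h⁻¹ ∨ θ (z • x) = h⁻¹) := by
    intro x
    apply or_congr
    · rw [inv_eq_iff_eq_inv]
    · rw [inv_eq_iff_eq_inv, mul_inv_rev, hinv, hθ, ← hcen]
      constructor
      · intro h1
        rw [h1, ← mul_assoc, hsq, one_mul]
      · intro h1
        rw [← h1, ← mul_assoc, hsq, one_mul]
  have hexcl : ∀ x : S, θ x = h⁻¹ → θ (z • x) ≠ h⁻¹ := by
    intro x h1 h2
    rw [hθ, h1] at h2
    exact hne (mul_eq_right.mp h2)
  apply Set.ncard_congr (fun (x : {x // x ∈ X}) _ => if θ x = h⁻¹ then (x : S) else z • (x : S))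
  · intro x hx
    have h1 := (hmem x).mp hx
    change θ (if θ x = h⁻¹ then (x : S) else z • (x : S)) = h⁻¹
    by_cases h2 : θ x = h⁻¹
    · rw [if_pos h2]
      exact h2
    · rw [if_neg h2]
      exact h1.resolve_left h2
  · intro a b ha hb hab
    by_cases h1 : θ a = h⁻¹ <;> by_cases h2 : θ b = h⁻¹
    · rw [if_pos h1, if_pos h2] at hab
      exact Subtype.ext hab
    · rw [if_pos h1, if_neg h2] at hab
      exfalso
      have h3 := (hX b).mp b.2
      rw [← hab] at h3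
      exact h3 a.2
    · rw [if_neg h1, if_pos h2] at hab
      exfalso
      have h3 := (hX a).mp a.2
      rw [hab] at h3
      exact h3 b.2
    · rw [if_neg h1, if_neg h2] at hab
      exact Subtype.ext (smul_left_cancel _ hab)
  · intro s hs
    have hs' : θ s = h⁻¹ := hs
    by_cases h1 : s ∈ X
    · refine ⟨⟨s, h1⟩, (hmem s).mpr (Or.inl hs'), ?_⟩
      exact if_pos hs'
    · have h2 : z • s ∈ X := by
        by_contra h3
        exact h1 ((hX s).mpr h3)
      refine ⟨⟨z • s, h2⟩, (hmem (z • s)).mpr (Or.inr ?_), ?_⟩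
      · rw [hzz]
        exact hs'
      · change (if θ (z • s) = h⁻¹ then z • s else z • z • s) = s
        rw [if_neg (hexcl s hs'), hzz]

omit [Finite G] in
/-- A sign function orthogonal to an odd space of functions fixed by `N` gives a bad vector. -/
private lemma JPart_bad (s₀ : S) (z : G) (hz : ∀ γ : G, γ * z = z * γ)
    (hzz : ∀ s : S, z • z • s = s) (N : Subgroup G) [N.Normal]
    (hN : stabilizer G s₀ ≤ N) (X : Finset S) (hX : ∀ s, s ∈ X ↔ z • s ∉ X)
    (θ : S → G ⧸ N) (hθ₀ : ∀ γ : G, θ (γ • s₀) = (γ : G ⧸ N))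
    (hθ : ∀ (γ : G) (s : S), θ (γ • s) = (γ : G ⧸ N) * θ s) [Fintype (G ⧸ N)]
    (e : S → ℤ) (he : IsSgn z e) (U' : Submodule ℚ (S → ℚ)) (hU0 : U' ≠ ⊥)
    (hU : IsStab G U') (hodd : IsOddSp z U') (hinv : U' ≤ invF ℚ N) (hperp : Perp e U') :
    BadX (z : G ⧸ N) (fun x : {x // x ∈ X} => (θ x)⁻¹) (fun x => e x) := by
  classical
  obtain ⟨f, hf, hf0⟩ := Submodule.exists_mem_ne_zero_of_ne_bot hU0
  obtain ⟨M, v, hM, hv, hvf⟩ := exists_latt_mul U' f hf
  rw [mem_latt] at hv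
  have hv0 : v ≠ 0 := by
    intro h1
    apply hf0
    funext s
    have h2 := hvf s
    rw [h1] at h2
    simp only [Pi.zero_apply, Int.cast_zero] at h2
    rcases mul_eq_zero.mp h2.symm with h3 | h3
    · exfalso
      exact hM (by exact_mod_cast h3)
    · exact h3
  have hvN : ∀ b ∈ N, ∀ s, v (b • s) = v s := by
    intro b hb s
    have h1 := hinv hv b hb s
    have h2 : ((v (b • s) : ℤ) : ℚ) = ((v s : ℤ) : ℚ) := h1
    exact_mod_cast h2
  have hvodd : ∀ s, v (z • s) = - v s := by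
    intro s
    have h1 := hodd _ hv s
    have h2 : ((v (z • s) : ℤ) : ℚ) = - ((v s : ℤ) : ℚ) := h1
    exact_mod_cast h2
  have hvperp : ∀ γ : G, ∑ s, e s * v (γ • s) = 0 := by
    intro γ
    have h1 := hperp _ (hU _ hv γ)
    have h2 : ((∑ s, e s * v (γ • s) : ℤ) : ℚ) = 0 := by
      push_cast
      rw [← h1]
      apply Finset.sum_congr rfl
      intro s _
      ring
    exact_mod_cast h2
  let y : G ⧸ N → ℤ := fun q => v (q.out • s₀)
  have hy : ∀ s, v s = y (θ s) := by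
    intro s
    obtain ⟨γ, rfl⟩ := exists_smul_eq G s₀ s
    change v (γ • s₀) = v ((θ (γ • s₀)).out • s₀)
    rw [hθ₀]
    have h1 : (((γ : G ⧸ N).out : G) : G ⧸ N) = (γ : G ⧸ N) := QuotientGroup.out_eq' _
    have h2 : γ * ((γ : G ⧸ N).out)⁻¹ ∈ N := by
      rw [← QuotientGroup.eq_one_iff, QuotientGroup.mk_mul, QuotientGroup.mk_inv, h1,
        mul_inv_cancel]
    have h3 := hvN _ h2 ((γ : G ⧸ N).out • s₀)
    rw [smul_smul, inv_mul_cancel_right] at h3
    exact h3
  have hθsurj : ∀ q : G ⧸ N, ∃ s, θ s = q := by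
    intro q
    obtain ⟨γ, rfl⟩ := QuotientGroup.mk_surjective q
    exact ⟨γ • s₀, hθ₀ γ⟩
  have hyodd : ∀ q, y ((z : G ⧸ N) * q) = - y q := by
    intro q
    obtain ⟨s, rfl⟩ := hθsurj q
    rw [← hθ, ← hy, ← hy, hvodd]
  have hsq : (z : G ⧸ N) * (z : G ⧸ N) = 1 := by
    change ((z * z : G) : G ⧸ N) = 1
    rw [QuotientGroup.eq_one_iff]
    apply hN
    rw [mem_stabilizer_iff, mul_smul, hzz]
  have hinvz : (z : G ⧸ N)⁻¹ = (z : G ⧸ N) := inv_eq_of_mul_eq_one_left hsq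
  refine ⟨OddGal.elt y, ?_, ?_, ?_⟩
  · intro h0
    apply hv0
    funext s
    rw [hy]
    have h1 := congrArg (fun a : MonoidAlgebra ℤ (G ⧸ N) => a.coeff (θ s)) h0
    simpa using h1
  · ext q
    rw [OddGal.csm, one_mul, OddGal.coeff_elt, hinvz, hyodd]
    simp
  · ext k
    have h1 : (OddGal.elt y * eltX (fun x : {x // x ∈ X} => (θ x)⁻¹) (fun x => e x)).coeff k
        = ∑ x : {x // x ∈ X}, y (k * θ x) * e x := by
      rw [eltX, Finset.mul_sum]
      have h2 : (∑ x : {x // x ∈ X}, OddGal.elt y *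
            MonoidAlgebra.single ((θ x)⁻¹) (e x)).coeff k
          = ∑ x : {x // x ∈ X}, (OddGal.elt y *
            MonoidAlgebra.single ((θ x)⁻¹) (e x)).coeff k := by
        simp
      rw [h2]
      apply Finset.sum_congr rfl
      intro x _
      rw [OddGal.cms, OddGal.coeff_elt, inv_inv]
    rw [h1]
    obtain ⟨γ, rfl⟩ := QuotientGroup.mk_surjective k
    have h3 := hvperp γ
    have h4 : ∀ s, e (z • s) * v (γ • z • s) = e s * v (γ • s) := by
      intro s
      rw [he.2, smul_smul, hz, mul_smul, hvodd]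
      ring
    rw [JPart_sum_even z hzz X hX (fun s => e s * v (γ • s)) h4] at h3
    have h5 : ∑ x : {x // x ∈ X}, e x * v (γ • (x : S)) = 0 := by
      rcases mul_eq_zero.mp h3 with h6 | h6
      · norm_num at h6
      · exact h6
    have h7 : ∑ x : {x // x ∈ X}, y ((γ : G ⧸ N) * θ x) * e x
        = ∑ x : {x // x ∈ X}, e x * v (γ • (x : S)) := by
      apply Finset.sum_congr rfl
      intro x _
      rw [hy, hθ, mul_comm]
    change ∑ x : {x // x ∈ X}, y ((γ : G ⧸ N) * θ x) * e x = _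
    rw [h7, h5]
    simp

end JPart

theorem jPart (δ : ℝ) (hδ : 0 < δ) (hδ1 : δ < 1 / 2) : ∃ C : ℝ, 0 < C ∧
    ∀ (S G : Type) [Fintype S] [Group G] [Finite G] [MulAction G S] [IsPretransitive G S]
      (s₀ : S) (z : G) (_ : ∀ γ : G, γ * z = z * γ) (_ : ∀ s : S, z • z • s = s)
      (_ : ∀ s : S, z • s ≠ s) (g : ℕ) (_ : Fintype.card S = 2 * g) (N : Subgroup G)
      [N.Normal] (_ : N = Subgroup.normalClosure (stabilizer G s₀ : Set G)),
      ({e : S → ℤ | IsSgn z e ∧ ∃ U' : Submodule ℚ (S → ℚ), IsIrr G U' ∧ IsOddSp z U' ∧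
        U' ≤ invF ℚ (stabilizer G s₀) ∧ Perp e U'}.ncard : ℝ)
      ≤ C * (numA (G ⧸ N) z / Real.sqrt g + numB (G ⧸ N) z / g + (g : ℝ) ^ (δ - 1) *
            (1 + ((numS (G ⧸ N) : ℝ) * (Nat.card (G ⧸ N) : ℝ) ^ 3) ^ (1 / 4 : ℝ))) * 2 ^ g := by
  classical
  obtain ⟨C, hC, hmain⟩ := groupMain δ hδ hδ1
  refine ⟨C, hC, ?_⟩
  intro S G _ _ _ _ _ s₀ z hz hzz hzne g hcard N hNn hNdef
  have hN : stabilizer G s₀ ≤ N := by
    rw [hNdef]
    exact Subgroup.subset_normalClosure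
  have hg0 : 0 < g := by
    have h1 : 0 < Fintype.card S := Fintype.card_pos_iff.mpr ⟨s₀⟩
    omega
  set A : Set (S → ℤ) := {e : S → ℤ | IsSgn z e ∧ ∃ U' : Submodule ℚ (S → ℚ), IsIrr G U' ∧
    IsOddSp z U' ∧ U' ≤ invF ℚ (stabilizer G s₀) ∧ Perp e U'} with hA
  rcases A.eq_empty_or_nonempty with hAe | ⟨e₀, he₀, U₀, hU₀, hU₀odd, hU₀inv, hU₀perp⟩
  · rw [hAe, Set.ncard_empty]
    have h0 : (0 : ℝ) ≤ (numS (G ⧸ N) : ℝ) * (Nat.card (G ⧸ N) : ℝ) ^ 3 := by positivity
    have h1 : (0 : ℝ) ≤ ((numS (G ⧸ N) : ℝ) * (Nat.card (G ⧸ N) : ℝ) ^ 3) ^ (1 / 4 : ℝ) :=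
      Real.rpow_nonneg h0 _
    have h2 : (0 : ℝ) ≤ (g : ℝ) ^ (δ - 1) := Real.rpow_nonneg (by positivity) _
    push_cast
    positivity
  have hzN : z ∉ N := by
    intro h1
    apply notMem_orbit_of_le_invF s₀ z U₀ hU₀.1 hU₀.2.1 hU₀odd hU₀inv
    rw [← hNdef]
    exact ⟨⟨z, h1⟩, rfl⟩
  obtain ⟨X, hX⟩ := exists_transversal (fun s : S => z • s) hzz hzne
  have hXcard : X.card = g := by
    have h1 := two_mul_card_transversal (fun s : S => z • s) hzz X hX
    omega
  obtain ⟨θ, hθ₀, hθ⟩ := JPart_exists_theta s₀ N hN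
  have hcov := JPart_cover s₀ z hz hzz N hN hzN X hX θ hθ
  let _ : Fintype (G ⧸ N) := Fintype.ofFinite _
  have hXc : Fintype.card {x // x ∈ X} = g := by
    rw [Fintype.card_coe, hXcard]
  have h1 := hmain (G ⧸ N) (z : G ⧸ N) {x // x ∈ X} (fun x => (θ x)⁻¹) _ hcov
    (by rw [hXc]; exact hg0)
  rw [hXc, ← Nat.card_eq_fintype_card] at h1
  refine le_trans ?_ h1
  have h2 : A.ncard ≤ {ε : {x // x ∈ X} → ℤ | ε ∈ OddGal.signs {x // x ∈ X} ∧
      BadX (z : G ⧸ N) (fun x : {x // x ∈ X} => (θ x)⁻¹) ε}.ncard := by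
    apply Set.ncard_le_ncard_of_injOn (fun (e : S → ℤ) (x : {x // x ∈ X}) => e x)
    · rintro e ⟨he, U', hU', hodd, hinv, hperp⟩
      refine ⟨?_, ?_⟩
      · simp only [OddGal.signs, Fintype.mem_piFinset, Finset.mem_insert, Finset.mem_singleton]
        intro x
        exact he.1 x
      · apply JPart_bad s₀ z hz hzz N hN X hX θ hθ₀ hθ e he U' hU'.1 hU'.2.1 hodd ?_ hperp
        intro f hf b hb s
        have := kerSub_normal U' hU'.2.1
        have h3 : Subgroup.normalClosure (stabilizer G s₀ : Set G) ≤ kerSub G U' := by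
          apply Subgroup.normalClosure_le_normal
          intro c hc f' hf' t
          exact hinv hf' c hc t
        rw [hNdef] at hb
        exact h3 hb f hf s
    · rintro e ⟨he, -⟩ e' ⟨he', -⟩ hee
      funext s
      by_cases hs : s ∈ X
      · exact congrFun hee ⟨s, hs⟩
      · have h4 : z • s ∈ X := by
          by_contra h5
          exact hs ((hX s).mpr h5)
        have h5 : e (z • s) = e' (z • s) := congrFun hee ⟨z • s, h4⟩
        rw [he.2, he'.2] at h5
        linarith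
  exact_mod_cast h2

end Pool.Agent.Lib.MP_640417_ag.All
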