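import Pool.Agent.Lib.MP_640417_ag.All.Duals

/-!
# Lemma C on a cover

Copy of `OddLemmaCD.lemmaC` (and of the lemmas `red_elt`, `card_mul_le_of_singular`,
`sum_card_relSet_le` of `OddBlockC`) with the cover. New: `eltX τ ε` in place of `elt ε`
(`lemmaA` holds for an arbitrary element `a` of the integral group ring, so `exists_row_of_badAt`
carries over), and the oddness of the row vectors in the blocks of `e`:
`w (single c 1) i = -1` for `i ∈ blocksOf w e`. (With `toQ c' = k • e`, `p ∤ k`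
(`exists_denominator_coprime`), one has `c' * single c 1 = - c'`, so `w (red c') i * (w (single c 1)
i + 1) = 0`, and `w (red c') i` is a nonzero scalar (`mem_blocksOf_iff`, `exists_scalar`).)
-/

set_option autoImplicit false

namespace Pool.Agent.Lib.MP_640417_ag.All

open Module Finset Matrix Pool.Agent.Lib.MP_640417_ag.OddGal

set_option linter.unusedSectionVars false

variable {G X : Type} [Group G] [Fintype G] [Fintype X] {c : G} {τ : X → G} {κ : ℕ}

/-- The involution acts as `-1` in the blocks of an odd type. -/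
theorem w_single_c {p : ℕ} [Fact p.Prime] {ι : Type} [Fintype ι] [DecidableEq ι]
    {D : ι → Type} [∀ i, Field (D i)] [∀ i, Algebra (ZMod p) (D i)] {n : ι → ℕ}
    (hp : ¬ p ∣ Fintype.card G)
    (w : MonoidAlgebra (ZMod p) G ≃ₐ[ZMod p] ((i : ι) → Matrix (Fin (n i)) (Fin (n i)) (D i)))
    (e : MonoidAlgebra ℚ G) (he : IsType e) (ho : OddE c e) (i : ι) (hi : i ∈ blocksOf w e) :
    w (MonoidAlgebra.single c 1) i = -1 := by
  classical
  obtain ⟨k, hk, c', hc'⟩ := exists_denominator_coprime p (by rwa [Nat.card_eq_fintype_card]) e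
    he.central he.idem
  have hwc := w_red_of_mem w he.central he.idem hk hc' i hi
  have h1 : MonoidAlgebra.single c (1 : ℤ) * c' = -c' := by
    apply toQ_injective
    have hs : toQ (MonoidAlgebra.single c (1 : ℤ)) = MonoidAlgebra.single c (1 : ℚ) := by
      simp [toQ]
    have ho' : MonoidAlgebra.single c (1 : ℚ) * e = -e := ho
    rw [map_mul, map_neg, hc', hs, mul_smul_comm, ho', smul_neg]
  have hs : red p (MonoidAlgebra.single c (1 : ℤ)) = MonoidAlgebra.single c (1 : ZMod p) := by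
    simp [red]
  have h2 := congrArg (fun y => w (red p y) i) h1
  simp only [map_mul, map_neg, Pi.mul_apply, Pi.neg_apply, hs, hwc] at h2
  have hk' : (k : D i) ≠ 0 := by
    intro h0
    have h3 : ((k : ZMod p)) ≠ 0 := by
      rw [Ne, ZMod.natCast_eq_zero_iff]
      exact hk
    apply h3
    apply (algebraMap (ZMod p) (D i)).injective
    rw [map_natCast, map_zero, h0]
  rw [Matrix.scalar_apply] at h2
  ext a b
  have h3 := congrArg (fun M : Matrix (Fin (n i)) (Fin (n i)) (D i) => M a b) h2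
  simp only [Matrix.mul_diagonal, Matrix.neg_apply] at h3
  rw [Matrix.neg_apply]
  apply mul_right_cancel₀ hk'
  rw [h3, Matrix.diagonal_apply, Matrix.one_apply]
  split_ifs <;> simp

omit [Fintype G] in
/-- The image of a sign vector. -/
lemma lemmaC_red_eltX (p : ℕ) [Fact p.Prime] (τ : X → G) (ε : X → ℤ) :
    red p (eltX τ ε) = ∑ x, ((ε x : ℤ) : ZMod p) • MonoidAlgebra.single (τ x) (1 : ZMod p) := by
  classical
  rw [eltX, map_sum]
  apply Finset.sum_congr rfl
  intro x _
  simp [red]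

/-- At a bad sign vector all blocks are singular. -/
lemma lemmaC_exists_row {p : ℕ} [Fact p.Prime] {ι : Type} [Fintype ι] [DecidableEq ι]
    {D : ι → Type} [∀ i, Field (D i)] [∀ i, Fintype (D i)] [∀ i, Algebra (ZMod p) (D i)]
    {n : ι → ℕ} (hp : ¬ p ∣ Fintype.card G) (hn : ∀ i, 0 < n i)
    (w : MonoidAlgebra (ZMod p) G ≃ₐ[ZMod p] ((i : ι) → Matrix (Fin (n i)) (Fin (n i)) (D i)))
    (e : MonoidAlgebra ℚ G) (he : IsType e) (ε : X → ℤ) (h : BadAtX e τ ε) (i : ι)
    (hi : i ∈ blocksOf w e) :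
    ∃ v : Fin (n i) → D i, v ≠ 0 ∧ v ᵥ* w (red p (eltX τ ε)) i = 0 := by
  obtain ⟨x, _, hx2, hx3⟩ := lemmaA hp hn w e he (eltX τ ε) h i hi
  have h1 : w (red p x) i * w (red p (eltX τ ε)) i = 0 := by
    rw [← Pi.mul_apply, ← map_mul, ← map_mul, hx2, map_zero, map_zero, Pi.zero_apply]
  obtain ⟨j, hj⟩ : ∃ j, w (red p x) i j ≠ 0 := by
    by_contra h0
    push Not at h0
    exact hx3 (Matrix.ext (fun a b => congrFun (h0 a) b))
  refine ⟨w (red p x) i j, hj, ?_⟩
  have h2 := congrFun h1 j
  rw [Matrix.mul_apply_eq_vecMul] at h2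
  exact h2

omit [Fintype G] in
lemma lemmaC_badSetX_subset (e : MonoidAlgebra ℚ G) (τ : X → G) : badSetX e τ ⊆ signs X := by
  classical
  exact Finset.filter_subset _ _

omit [Fintype G] in
lemma lemmaC_badAtX_of_mem (e : MonoidAlgebra ℚ G) (τ : X → G) (ε : X → ℤ)
    (h : ε ∈ badSetX e τ) : BadAtX e τ ε := by
  classical
  simp only [badSetX, Finset.mem_filter] at h
  exact h.2

lemma lemmaC_mem_relSet {p : ℕ} [Fact p.Prime] {S : Type} [AddCommGroup S] [Module (ZMod p) S]
    (w : X → S) (ε : X → ℤ) :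
    ε ∈ relSet p w ↔ ε ∈ signs X ∧ ∑ x, ((ε x : ℤ) : ZMod p) • w x = 0 := by
  classical
  simp only [relSet, Finset.mem_filter]

section blocks

variable {p : ℕ} [Fact p.Prime] {ι : Type} [Fintype ι] [DecidableEq ι] {D : ι → Type}
  [∀ i, Field (D i)] [∀ i, Fintype (D i)] [∀ i, Algebra (ZMod p) (D i)] {n : ι → ℕ}

/-- Double counting of pairs (sign vector, row vector). -/
theorem lemmaC_card_mul_le
    (w : MonoidAlgebra (ZMod p) G ≃ₐ[ZMod p] ((i : ι) → Matrix (Fin (n i)) (Fin (n i)) (D i)))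
    (I : Finset ι) (Bd : Finset (X → ℤ)) (hBd : Bd ⊆ signs X)
    (hsing : ∀ ε ∈ Bd, ∀ i ∈ I, ∃ v : Fin (n i) → D i, v ≠ 0 ∧ v ᵥ* w (red p (eltX τ ε)) i = 0)
    (C : ℝ) (hsum : ∑ u ∈ fullRows D n I,
      ((relSet p (fun x => act w I u (MonoidAlgebra.single (τ x) 1))).card : ℝ) ≤ C) :
    (Bd.card : ℝ) * (p - 1) ^ (∑ i ∈ I, finrank (ZMod p) (D i)) ≤ C := by
  classical
  refine le_trans ?_ hsum
  have hp : 1 ≤ p := (Fact.out : p.Prime).pos
  have hcast : ((p : ℝ) - 1) = ((p - 1 : ℕ) : ℝ) := by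
    rw [Nat.cast_sub hp]
    simp
  rw [hcast]
  have h1 : Bd.card * (p - 1) ^ (∑ i ∈ I, finrank (ZMod p) (D i))
      ≤ ∑ u ∈ fullRows D n I,
        (relSet p (fun x => act w I u (MonoidAlgebra.single (τ x) 1))).card := by
    calc Bd.card * (p - 1) ^ (∑ i ∈ I, finrank (ZMod p) (D i))
        = ∑ ε ∈ Bd, (p - 1) ^ (∑ i ∈ I, finrank (ZMod p) (D i)) := by
          rw [Finset.sum_const, smul_eq_mul]
      _ ≤ ∑ ε ∈ Bd, ((fullRows D n I).filter (fun u =>
            ε ∈ relSet p (fun x => act w I u (MonoidAlgebra.single (τ x) 1)))).card := by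
          apply Finset.sum_le_sum
          intro ε hε
          refine (pow_le_card_killed (p := p) I (fun i => w (red p (eltX τ ε)) i)
            (fun i => hsing ε hε i i.2)).trans ?_
          apply Finset.card_le_card
          intro u hu
          rw [Finset.mem_filter] at hu
          rw [Finset.mem_filter, mem_fullRows]
          refine ⟨hu.2.1, ?_⟩
          rw [lemmaC_mem_relSet]
          refine ⟨hBd hε, ?_⟩
          have h2 : act w I u (red p (eltX τ ε)) = 0 := by
            funext i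
            exact hu.2.2 i
          rw [lemmaC_red_eltX, map_sum] at h2
          rw [← h2]
          apply Finset.sum_congr rfl
          intro h _
          rw [map_smul]
      _ = ∑ u ∈ fullRows D n I, (Bd.filter (fun ε =>
            ε ∈ relSet p (fun x => act w I u (MonoidAlgebra.single (τ x) 1)))).card := by
          simp only [Finset.card_filter]
          rw [Finset.sum_comm]
      _ ≤ _ := by
          apply Finset.sum_le_sum
          intro u _
          apply Finset.card_le_card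
          intro ε hε
          rw [Finset.mem_filter] at hε
          exact hε.2
  exact_mod_cast h1

/-- Oddness of the row vectors. -/
lemma lemmaC_act_odd
    (w : MonoidAlgebra (ZMod p) G ≃ₐ[ZMod p] ((i : ι) → Matrix (Fin (n i)) (Fin (n i)) (D i)))
    (I : Finset ι) (hI : ∀ i ∈ I, w (MonoidAlgebra.single c 1) i = -1) (u : Rows D n I) (h : G) :
    act w I u (MonoidAlgebra.single (c * h) 1) = -act w I u (MonoidAlgebra.single h 1) := by
  funext i
  rw [Pi.neg_apply, act_apply, act_apply]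
  have h1 : (MonoidAlgebra.single (c * h) (1 : ZMod p)) =
      MonoidAlgebra.single c 1 * MonoidAlgebra.single h 1 := by
    rw [MonoidAlgebra.single_mul_single, one_mul]
  rw [h1, map_mul, Pi.mul_apply, hI i i.2, neg_one_mul, Matrix.vecMul_neg]

/-- The Fourier bound summed over row vectors. -/
theorem lemmaC_sum_card_relSet_le (hc : Cover c τ κ) (hp2 : p ≠ 2)
    (w : MonoidAlgebra (ZMod p) G ≃ₐ[ZMod p] ((i : ι) → Matrix (Fin (n i)) (Fin (n i)) (D i)))
    (I : Finset ι) (hI : ∀ i ∈ I, w (MonoidAlgebra.single c 1) i = -1)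
    (d : ℕ) (hd : ∑ i ∈ I, n i * finrank (ZMod p) (D i) ≤ d)
    (hnum : 4 * d * Real.exp (-(2 * ((Fintype.card X / d : ℕ) : ℝ) / p ^ 2)) ≤ 1) :
    ∑ u ∈ fullRows D n I,
      ((relSet p (fun x => act w I u (MonoidAlgebra.single (τ x) 1))).card : ℝ)
      ≤ 3 * 2 ^ Fintype.card X := by
  classical
  have hfr : finrank (ZMod p) (Rows D n I) ≤ d := by
    refine le_trans (le_of_eq ?_) hd
    rw [Module.finrank_pi_fintype,
      ← Finset.sum_coe_sort I (fun i => n i * finrank (ZMod p) (D i))]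
    apply Finset.sum_congr rfl
    intro i _
    rw [Module.finrank_pi_fintype]
    simp
  have hS : (0 : ℝ) < Fintype.card (Rows D n I) := by exact_mod_cast Fintype.card_pos
  have h1 : ∀ u ∈ fullRows D n I,
      ((relSet p (fun x => act w I u (MonoidAlgebra.single (τ x) 1))).card : ℝ)
        ≤ 3 * 2 ^ Fintype.card X / Fintype.card (Rows D n I) := by
    intro u hu
    rw [mem_fullRows] at hu
    rw [le_div_iff₀ hS]
    exact card_relSetX_le hc hp2 (fun h => act w I u (MonoidAlgebra.single h 1)) (trans w I)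
      (fun k h => trans_act w I u k h)
      (span_act_single w I u (act_surjective w I u hu)) (fun h => lemmaC_act_odd w I hI u h)
      d hfr hnum
  refine (Finset.sum_le_sum h1).trans ?_
  rw [Finset.sum_const, nsmul_eq_mul, ← mul_div_assoc, div_le_iff₀ hS, mul_comm]
  apply mul_le_mul_of_nonneg_left _ (by positivity)
  exact_mod_cast Finset.card_le_univ _

end blocks

/-- Lemma C. -/
theorem lemmaCX (hc : Cover c τ κ) (p : ℕ) [Fact p.Prime] (hp2 : p ≠ 2)
    (hp : ¬ p ∣ Fintype.card G) (e : MonoidAlgebra ℚ G) (he : IsType e) (ho : OddE c e) (d : ℕ)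
    (hd2 : zc e * rk e ≤ d ^ 2)
    (hnum : 4 * d * Real.exp (-(2 * ((Fintype.card X / d : ℕ) : ℝ) / p ^ 2)) ≤ 1) :
    ((badSetX e τ).card : ℝ) * (p - 1) ^ zc e ≤ 3 * 2 ^ Fintype.card X := by
  classical
  obtain ⟨k, D, n, iF, iT, iA, hn, ⟨w⟩⟩ := exists_blocks G p hp
  rw [← sum_finrank_eq hp hn w e he]
  apply lemmaC_card_mul_le (τ := τ) w (blocksOf w e) (badSetX e τ) (lemmaC_badSetX_subset e τ)
  · intro ε hε i hi
    exact lemmaC_exists_row hp hn w e he ε (lemmaC_badAtX_of_mem e τ ε hε) i hi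
  · apply lemmaC_sum_card_relSet_le hc hp2 w (blocksOf w e)
      (fun i hi => w_single_c hp w e he ho i hi) d _ hnum
    have h1 := Finset.sum_sq_le_sum_mul_sum_of_sq_le_mul (blocksOf w e)
      (r := fun i => n i * finrank (ZMod p) (D i)) (f := fun i => finrank (ZMod p) (D i))
      (g := fun i => n i ^ 2 * finrank (ZMod p) (D i)) (fun _ _ => Nat.zero_le _)
      (fun _ _ => Nat.zero_le _) (fun i _ => le_of_eq (by ring))
    have h2 := sum_sq_le hp hn w e he
    rw [sum_finrank_eq hp hn w e he] at h1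
    have h3 : (∑ i ∈ blocksOf w e, n i * finrank (ZMod p) (D i)) ^ 2 ≤ d ^ 2 :=
      h1.trans ((Nat.mul_le_mul_left _ h2).trans hd2)
    exact (Nat.pow_le_pow_iff_left two_ne_zero).mp h3

end Pool.Agent.Lib.MP_640417_ag.All
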