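import Pool.Agent.Lib.MP_640417_ag.OddQuad
import Pool.Agent.Lib.MP_640417_ag.All.Defs

/-!
# Commutative types

Let `e` be an odd type with `zc e = rk e`, so that `comp e = cen e` is a field (`IsType.field`),
and let `N = ker e = {h | h e = e}` (`OddQuad`, normal by `ker_normal`; `OddQuad.exists_field` gives
the field). `G / N` embeds into the multiplicative group of the field, so it is cyclic, of order
`m`, and generates the field, which is the `m`-th cyclotomic field: `zc e = φ(m)`. As `c e = -e`,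
`c ∉ N` and `m` is even.
-/

set_option autoImplicit false

namespace Pool.Agent.Lib.MP_640417_ag.All

open Module Finset Pool.Agent.Lib.MP_640417_ag.OddGal

variable {G X : Type} [Group G] [Fintype G] [Fintype X] {c : G} {τ : X → G} {κ : ℕ}

/-- The field of a commutative type, as a quotient of the group algebra. -/
theorem linear_hom (e : MonoidAlgebra ℚ G) (he : IsType e) (hl : zc e = rk e) :
    ∃ (K : Type) (_ : Field K) (_ : Algebra ℚ K) (F : MonoidAlgebra ℚ G →ₐ[ℚ] K),
      Function.Surjective F ∧ (∀ x, F x = 0 ↔ x * e = 0) ∧ FiniteDimensional ℚ K ∧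
      finrank ℚ K = zc e := by
  classical
  have hce : cen e = comp e := Submodule.eq_of_le_of_finrank_eq (fun x hx => hx.1) hl
  have hcen : ∀ x : MonoidAlgebra ℚ G, ∀ y, x * e * y = y * (x * e) := by
    intro x
    have h1 : (x * e : MonoidAlgebra ℚ G) ∈ cen e := by
      rw [hce]
      change e * (x * e) = x * e
      rw [he.central, mul_assoc, he.idem]
    exact h1.2
  have hZ : ∀ x : MonoidAlgebra ℚ G, x * e ∈ Subalgebra.center ℚ (MonoidAlgebra ℚ G) :=
    fun x => Subalgebra.mem_center_iff.2 fun b => (hcen x b).symm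
  obtain ⟨K, hK, hKA, f, hf, hf0⟩ := exists_field he
  have hfeq : ∀ a b : Subalgebra.center ℚ (MonoidAlgebra ℚ G), f a = f b ↔
      (a.1 - b.1) * e = 0 := by
    intro a b
    rw [← sub_eq_zero, ← map_sub, hf0]
    rfl
  let F : MonoidAlgebra ℚ G →ₐ[ℚ] K :=
    { toFun := fun x => f ⟨x * e, hZ x⟩
      map_one' := by
        rw [← map_one f, hfeq]
        change (1 * e - 1) * e = 0
        rw [sub_mul, one_mul, he.idem, sub_self]
      map_mul' := by
        intro x y
        rw [← map_mul f, hfeq]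
        change (x * y * e - x * e * (y * e)) * e = 0
        have h1 : x * e * (y * e) = x * y * e := by
          rw [mul_assoc, ← mul_assoc e, he.central y, mul_assoc, he.idem, ← mul_assoc]
        rw [h1, sub_self, zero_mul]
      map_zero' := by
        rw [hf0]
        change 0 * e * e = 0
        rw [zero_mul, zero_mul]
      map_add' := by
        intro x y
        rw [← map_add f, hfeq]
        change ((x + y) * e - (x * e + y * e)) * e = 0
        rw [add_mul, sub_self, zero_mul]
      commutes' := by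
        intro r
        rw [← f.commutes r, hfeq]
        change (algebraMap ℚ (MonoidAlgebra ℚ G) r * e - algebraMap ℚ (MonoidAlgebra ℚ G) r) * e = 0
        rw [sub_mul, mul_assoc, he.idem, sub_self] }
  have hFdef : ∀ x, F x = f ⟨x * e, hZ x⟩ := fun x => rfl
  have hsurj : Function.Surjective F := by
    intro y
    obtain ⟨b, rfl⟩ := hf y
    refine ⟨b.1, ?_⟩
    rw [hFdef, hfeq]
    change (b.1 * e - b.1) * e = 0
    rw [sub_mul, mul_assoc, he.idem, sub_self]
  have hF0 : ∀ x, F x = 0 ↔ x * e = 0 := by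
    intro x
    rw [hFdef, hf0]
    change x * e * e = 0 ↔ _
    rw [mul_assoc, he.idem]
  let L : comp e →ₗ[ℚ] K := F.toLinearMap.comp (comp e).subtype
  have hL : ∀ x : comp e, L x = F x.1 := fun x => rfl
  have hbij : Function.Bijective L := by
    constructor
    · rw [injective_iff_map_eq_zero]
      intro x hx
      rw [hL, hF0] at hx
      apply Subtype.ext
      have h1 : e * x.1 = x.1 := x.2
      rw [← h1, he.central, hx]
      rfl
    · intro y
      obtain ⟨x, rfl⟩ := hsurj y
      refine ⟨⟨e * x, ?_⟩, ?_⟩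
      · change e * (e * x) = e * x
        rw [← mul_assoc, he.idem]
      · rw [hL]
        change F (e * x) = F x
        rw [← sub_eq_zero, ← map_sub, hF0, sub_mul, he.central x, mul_assoc, he.idem, sub_self]
  have hfin := (LinearEquiv.ofBijective L hbij).finrank_eq
  refine ⟨K, hK, hKA, F, hsurj, hF0, ?_, ?_⟩
  · exact Module.Finite.of_surjective L hbij.2
  · rw [← hfin, hl]
    rfl

/-- The character of a commutative type. -/
theorem linear_char (e : MonoidAlgebra ℚ G) (he : IsType e) (hl : zc e = rk e) :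
    ∃ (K : Type) (_ : Field K) (_ : Algebra ℚ K) (F : MonoidAlgebra ℚ G →ₐ[ℚ] K) (ρ : G →* Kˣ),
      Function.Surjective F ∧ (∀ x, F x = 0 ↔ x * e = 0) ∧ FiniteDimensional ℚ K ∧
      finrank ℚ K = zc e ∧ (∀ h, F (MonoidAlgebra.single h 1) = (ρ h : K)) ∧
      ∀ h, h ∈ ρ.ker ↔ MonoidAlgebra.single h (1 : ℚ) * e = e := by
  obtain ⟨K, hK, hKA, F, hF, hF0, hfd, hfin⟩ := linear_hom e he hl
  let ρ₀ : G →* K := (F : MonoidAlgebra ℚ G →* K).comp (MonoidAlgebra.of ℚ G)
  have h0 : ∀ h, ((ρ₀.toHomUnits h : Kˣ) : K) = F (MonoidAlgebra.single h 1) := fun h => rfl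
  refine ⟨K, hK, hKA, F, ρ₀.toHomUnits, hF, hF0, hfd, hfin, fun h => (h0 h).symm, ?_⟩
  intro h
  rw [MonoidHom.mem_ker, ← Units.val_inj, h0, Units.val_one, ← map_one F, ← sub_eq_zero,
    ← map_sub, hF0, sub_mul, one_mul, sub_eq_zero]

/-- A generator of the image, as a primitive root of unity. -/
theorem exists_gen {K : Type} [Field K] (ρ : G →* Kˣ) :
    ∃ g : G, (∀ h : G, ∃ k : ℕ, ρ h = ρ g ^ k) ∧ orderOf (ρ g) = ρ.ker.index := by
  have : Finite ρ.range := (Set.finite_range ρ).to_subtype
  obtain ⟨g, hg⟩ := IsCyclic.exists_generator (α := ρ.range)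
  obtain ⟨g₀, hg₀⟩ := g.2
  refine ⟨g₀, ?_, ?_⟩
  · intro h
    have h1 := hg ⟨ρ h, ⟨h, rfl⟩⟩
    rw [← mem_powers_iff_mem_zpowers] at h1
    obtain ⟨k, hk⟩ := h1
    refine ⟨k, ?_⟩
    have h2 := congrArg Subtype.val hk
    rw [hg₀]
    exact h2.symm
  · rw [Subgroup.index_ker, hg₀, Subgroup.orderOf_coe]
    exact orderOf_eq_card_of_forall_mem_zpowers hg

/-- The minimal polynomial of a generator. -/
theorem minpoly_gen {K : Type} [Field K] [Algebra ℚ K] (ρ : G →* Kˣ) (g : G)
    (hg : orderOf (ρ g) = ρ.ker.index) :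
    minpoly ℚ ((ρ g : Kˣ) : K) = Polynomial.cyclotomic ρ.ker.index ℚ := by
  have : CharZero K := algebraRat.charZero K
  have hpos : 0 < ρ.ker.index := Nat.pos_of_ne_zero Subgroup.index_ne_zero_of_finite
  have hprim : IsPrimitiveRoot ((ρ g : Kˣ) : K) ρ.ker.index := by
    rw [← hg, ← orderOf_units]
    exact IsPrimitiveRoot.orderOf _
  have : NeZero ((ρ.ker.index : ℕ) : ℚ) := ⟨by exact_mod_cast hpos.ne'⟩
  exact (hprim.minpoly_eq_cyclotomic_of_irreducible (K := ℚ)
    (Polynomial.cyclotomic.irreducible_rat hpos)).symm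

/-- The kernel of a commutative odd type: `ker e` is normal with cyclic quotient. -/
theorem linear_ker (e : MonoidAlgebra ℚ G) (he : IsType e) (ho : OddE c e) (hsq : c * c = 1)
    (hl : zc e = rk e) :
    ∃ N : Subgroup G, (∀ h, h ∈ N ↔ MonoidAlgebra.single h (1 : ℚ) * e = e) ∧
      (∃ _ : N.Normal, IsCyclic (G ⧸ N)) ∧ c ∉ N ∧ Even N.index ∧ N.index.totient = zc e := by
  obtain ⟨K, hK, hKA, F, ρ, hF, hF0, hfd, hfin, hρ, hker⟩ := linear_char e he hl
  have : Finite ρ.range := (Set.finite_range ρ).to_subtype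
  have hc : c ∉ ρ.ker := by
    intro hc
    rw [hker] at hc
    have h1 : MonoidAlgebra.single c (1 : ℚ) * e = -e := ho
    rw [hc] at h1
    apply he.ne_zero
    have h2 : (2 : ℚ) • e = 0 := by
      rw [two_smul]
      nth_rewrite 2 [h1]
      rw [add_neg_cancel]
    rcases smul_eq_zero.1 h2 with h3 | h3
    · norm_num at h3
    · exact h3
  refine ⟨ρ.ker, hker, ⟨inferInstance, ?_⟩, hc, ?_, ?_⟩
  · exact isCyclic_of_surjective (QuotientGroup.quotientKerEquivRange ρ).symm.toMonoidHom
      (QuotientGroup.quotientKerEquivRange ρ).symm.surjective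
  · rw [Subgroup.index_ker, even_iff_two_dvd]
    have h1 : orderOf (⟨ρ c, ⟨c, rfl⟩⟩ : ρ.range) = 2 := by
      apply orderOf_eq_prime
      · apply Subtype.ext
        change ρ c ^ 2 = 1
        rw [sq, ← map_mul, hsq, map_one]
      · intro h1
        apply hc
        rw [MonoidHom.mem_ker]
        exact congrArg Subtype.val h1
    rw [← h1]
    exact orderOf_dvd_natCard _
  · obtain ⟨g, hg, hgo⟩ := exists_gen ρ
    have hmin := minpoly_gen ρ g hgo
    have htop : IntermediateField.adjoin ℚ {((ρ g : Kˣ) : K)} = ⊤ := by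
      rw [eq_top_iff]
      intro y _
      obtain ⟨x, rfl⟩ := hF y
      induction x using MonoidAlgebra.induction_linear with
      | zero =>
        rw [map_zero]
        exact zero_mem _
      | add f g hf hg =>
        rw [map_add]
        exact add_mem (hf (IntermediateField.mem_top)) (hg (IntermediateField.mem_top))
      | single h r =>
        have h4 : (MonoidAlgebra.single h r : MonoidAlgebra ℚ G) =
            r • MonoidAlgebra.single h 1 := by
          rw [MonoidAlgebra.smul_single, smul_eq_mul, mul_one]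
        rw [h4, map_smul, hρ]
        obtain ⟨k, hk⟩ := hg h
        rw [hk, Units.val_pow_eq_pow_val]
        apply IntermediateField.smul_mem
        apply pow_mem
        exact IntermediateField.mem_adjoin_simple_self ℚ _
    have hint : IsIntegral ℚ ((ρ g : Kˣ) : K) := Algebra.IsIntegral.isIntegral _
    have h1 := IntermediateField.adjoin.finrank hint
    rw [htop, hmin, Polynomial.natDegree_cyclotomic, IntermediateField.finrank_top', hfin] at h1
    exact h1.symm

/-- Two commutative types with the same kernel are equal: all elements of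
`f ℚ[G] ≅ ℚ[G / N]`, `f` the mean over `N`, `G / N` cyclic of order `m`, on which a generator
acts faithfully are in the component of the `m`-th cyclotomic polynomial. (If `e e' = 0` for two
such types then `φ(m) + φ(m) ≤` the dimension of the part of `ℚ[x]/(x^m - 1)` killed by `Φ_m`.) -/
theorem eq_of_ker_eq (e e' : MonoidAlgebra ℚ G) (he : IsType e) (he' : IsType e')
    (hl : zc e = rk e) (hl' : zc e' = rk e')
    (hk : ∀ h, MonoidAlgebra.single h (1 : ℚ) * e = e ↔ MonoidAlgebra.single h (1 : ℚ) * e' = e') :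
    e = e' := by
  obtain ⟨K, hK, hKA, F, ρ, hF, hF0, hfd, hfin, hρ, hker⟩ := linear_char e he hl
  obtain ⟨K', hK', hKA', F', ρ', hF', hF0', hfd', hfin', hρ', hker'⟩ := linear_char e' he' hl'
  have hkk : ρ.ker = ρ'.ker := by
    ext h
    rw [hker, hker', hk]
  obtain ⟨g, hg, hgo⟩ := exists_gen ρ
  have hg' : ∀ h : G, ∀ k : ℕ, ρ h = ρ g ^ k → ρ' h = ρ' g ^ k := by
    intro h k hk
    have h1 : (g ^ k)⁻¹ * h ∈ ρ.ker := by
      rw [MonoidHom.mem_ker, map_mul, map_inv, map_pow, hk, inv_mul_cancel]
    rw [hkk, MonoidHom.mem_ker, map_mul, map_inv, map_pow, inv_mul_eq_one] at h1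
    exact h1.symm
  have hgo' : orderOf (ρ' g) = ρ'.ker.index := by
    rw [← hkk, ← hgo, orderOf_eq_orderOf_iff]
    intro n
    rw [← map_pow, ← map_pow, ← MonoidHom.mem_ker, ← MonoidHom.mem_ker, hkk]
  have hmin := minpoly_gen ρ g hgo
  have hmin' := minpoly_gen ρ' g hgo'
  have hpol : ∀ x : MonoidAlgebra ℚ G, ∃ P : Polynomial ℚ,
      F x = Polynomial.aeval ((ρ g : Kˣ) : K) P ∧ F' x = Polynomial.aeval ((ρ' g : K'ˣ) : K') P := by
    intro x
    induction x using MonoidAlgebra.induction_linear with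
    | zero => exact ⟨0, by simp, by simp⟩
    | add a b ha hb =>
      obtain ⟨P, h1, h2⟩ := ha
      obtain ⟨Q, h3, h4⟩ := hb
      exact ⟨P + Q, by rw [map_add, map_add, h1, h3], by rw [map_add, map_add, h2, h4]⟩
    | single h r =>
      obtain ⟨k, hk⟩ := hg h
      have hk' := hg' h k hk
      have h4 : (MonoidAlgebra.single h r : MonoidAlgebra ℚ G) =
          r • MonoidAlgebra.single h 1 := by
        rw [MonoidAlgebra.smul_single, smul_eq_mul, mul_one]
      refine ⟨r • Polynomial.X ^ k, ?_, ?_⟩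
      · rw [h4, map_smul, hρ, hk, Units.val_pow_eq_pow_val, map_smul, map_pow, Polynomial.aeval_X]
      · rw [h4, map_smul, hρ', hk', Units.val_pow_eq_pow_val, map_smul, map_pow,
          Polynomial.aeval_X]
  have hzero : ∀ x : MonoidAlgebra ℚ G, x * e = 0 ↔ x * e' = 0 := by
    intro x
    obtain ⟨P, h1, h2⟩ := hpol x
    rw [← hF0, ← hF0', h1, h2, ← minpoly.dvd_iff, ← minpoly.dvd_iff, hmin, hmin', hkk]
  have h1 : (1 - e) * e' = 0 := by
    rw [← hzero, sub_mul, one_mul, he.idem, sub_self]
  have h2 : (1 - e') * e = 0 := by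
    rw [hzero, sub_mul, one_mul, he'.idem, sub_self]
  rw [sub_mul, one_mul, sub_eq_zero] at h1 h2
  rw [h2, ← he.central, ← h1]

end Pool.Agent.Lib.MP_640417_ag.All
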