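import Pool.Agent.Lib.MP_640417_ag.All.Local
import Pool.Agent.Lib.MP_640417_ag.All.LinearKer

/-!
# Commutative types

Let `e` be an odd type with `zc e = rk e`, so that `comp e = cen e` is a field (`IsType.field`),
and let `N = ker e = {h | h e = e}` (`OddQuad`, normal by `ker_normal`; `OddQuad.exists_field` gives
the field). `G / N` embeds into the multiplicative group of the field, so it is cyclic, of order
`m`, and generates the field, which is the `m`-th cyclotomic field: `zc e = φ(m)`. As `c e = -e`,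
`c ∉ N` and `m` is even.
-/

set_option autoImplicit false

namespace Pool.Agent.Lib.MP_640417_ag.All

open Module Finset Pool.Agent.Lib.MP_640417_ag.OddGal

variable {G X : Type} [Group G] [Fintype G] [Fintype X] {c : G} {τ : X → G} {κ : ℕ}

private theorem LinearBound_comm (e : MonoidAlgebra ℚ G) (hl : zc e = rk e)
    (x : MonoidAlgebra ℚ G) (hx : e * x = x) (y : MonoidAlgebra ℚ G) : x * y = y * x := by
  have hle : cen e ≤ comp e := fun a ha => ha.1
  have heq : cen e = comp e := Submodule.eq_of_le_of_finrank_eq hle hl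
  have hx' : x ∈ cen e := by
    rw [heq]
    exact hx
  exact hx'.2 y

/-- A bad sign vector kills the type. -/
private theorem LinearBound_kill (e : MonoidAlgebra ℚ G) (he : IsType e) (hl : zc e = rk e)
    (ε : X → ℤ) (hb : BadAtX e τ ε) :
    ∑ x, (ε x : ℚ) • (MonoidAlgebra.single (τ x) (1 : ℚ) * e) = 0 := by
  obtain ⟨y, hy0, hye, hy⟩ := hb
  have hyQ : toQ y ≠ 0 := fun h => hy0 (toQ_injective (by rw [h, map_zero]))
  have hcen := LinearBound_comm e hl (toQ y) hye
  have h1 : toQ y * e ≠ 0 := by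
    rw [hcen e, hye]
    exact hyQ
  obtain ⟨c', hc', hcc⟩ := he.field (toQ y) hcen h1
  have h2 : toQ y * toQ (eltX τ ε) = 0 := by
    rw [← map_mul, hy, map_zero]
  have h3 : toQ (eltX τ ε) * e = 0 := by
    rw [← he.central, ← hcc, hcen c', mul_assoc, mul_assoc, ← mul_assoc (toQ y) e, hcen e,
      mul_assoc e, h2, mul_zero, mul_zero]
  have h4 : toQ (eltX τ ε) = ∑ x, (ε x : ℚ) • MonoidAlgebra.single (τ x) (1 : ℚ) := by
    rw [eltX, map_sum]
    refine Finset.sum_congr rfl fun x _ => ?_
    rw [toQ, MonoidAlgebra.mapRingHom_single, MonoidAlgebra.smul_single, smul_eq_mul, mul_one]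
    rfl
  rw [h4, Finset.sum_mul] at h3
  rw [← h3]
  refine Finset.sum_congr rfl fun x _ => ?_
  rw [smul_mul_assoc]

omit [Fintype G] in
/-- The span of the elements `h e`. -/
private theorem LinearBound_span (e : MonoidAlgebra ℚ G) (he : IsType e) {Q : Type}
    (v : Q → MonoidAlgebra ℚ G) (hv : ∀ h : G, ∃ q, v q = MonoidAlgebra.single h (1 : ℚ) * e)
    (hv' : ∀ q, ∃ h : G, v q = MonoidAlgebra.single h (1 : ℚ) * e) :
    Submodule.span ℚ (Set.range v) = comp e := by
  apply le_antisymm
  · rw [Submodule.span_le]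
    rintro _ ⟨q, rfl⟩
    obtain ⟨h, hh⟩ := hv' q
    rw [hh]
    change e * (MonoidAlgebra.single h (1 : ℚ) * e) = _
    rw [← mul_assoc, he.central, mul_assoc, he.idem]
  · have key : ∀ z : MonoidAlgebra ℚ G, z * e ∈ Submodule.span ℚ (Set.range v) := by
      intro z
      induction z using MonoidAlgebra.induction_linear with
      | zero => simp
      | add f g hf hg =>
        rw [add_mul]
        exact Submodule.add_mem _ hf hg
      | single x r =>
        obtain ⟨q, hq⟩ := hv x
        have h1 : MonoidAlgebra.single x r * e = r • v q := by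
          rw [hq, ← smul_mul_assoc, MonoidAlgebra.smul_single, smul_eq_mul, mul_one]
        rw [h1]
        exact Submodule.smul_mem _ _ (Submodule.subset_span ⟨q, rfl⟩)
    intro z hz
    have h1 : e * z = z := hz
    have h2 := key z
    rwa [← he.central, h1] at h2

/-- A basis of the span of an odd family which spans: no pair `q, c q`. -/
private theorem LinearBound_basis {V Q : Type} [AddCommGroup V] [Module ℚ V] [Fintype Q] [Group Q]
    {d : Q} (v : Q → V) (hd : d ≠ 1) (hv : ∀ q, v (d * q) = - v q) :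
    ∃ A : Finset Q, A.card = finrank ℚ (Submodule.span ℚ (Set.range v)) ∧
      (∀ h ∈ A, ∀ h' ∈ A, h' ≠ d * h) ∧
      (∀ t t' : Q → ℚ, ∑ q ∈ A, t q • v q = ∑ q ∈ A, t' q • v q → ∀ q ∈ A, t q = t' q) := by
  classical
  obtain ⟨I, a, ha, hspan, hli⟩ := exists_linearIndependent' ℚ v
  have : Finite I := Finite.of_injective a ha
  have : Fintype I := Fintype.ofFinite I
  have hind : ∀ t t' : Q → ℚ, ∑ q ∈ Finset.univ.map ⟨a, ha⟩, t q • v q
      = ∑ q ∈ Finset.univ.map ⟨a, ha⟩, t' q • v q →
      ∀ q ∈ Finset.univ.map ⟨a, ha⟩, t q = t' q := by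
    intro t t' h q hq
    rw [Finset.sum_map, Finset.sum_map, ← sub_eq_zero, ← Finset.sum_sub_distrib] at h
    simp only [Function.Embedding.coeFn_mk, ← sub_smul] at h
    rw [Finset.mem_map] at hq
    obtain ⟨i, -, hi⟩ := hq
    have := Fintype.linearIndependent_iff.1 hli (fun i => t (a i) - t' (a i)) h i
    have h2 : t (a i) = t' (a i) := sub_eq_zero.1 this
    simp only [Function.Embedding.coeFn_mk] at hi
    rw [← hi]
    exact h2
  refine ⟨Finset.univ.map ⟨a, ha⟩, ?_, ?_, hind⟩
  · rw [Finset.card_map, Finset.card_univ, ← finrank_span_eq_card hli, hspan]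
  · intro h hh h' hh' heq
    have hne : h ≠ h' := by
      intro h2
      rw [← h2] at heq
      exact hd (by simpa using heq.symm)
    have h3 := hind (fun q => if q = h then 1 else if q = h' then 1 else 0) (fun _ => 0) (by
      rw [Finset.sum_eq_add_of_mem h h' hh hh' hne]
      · simp only [if_true, if_neg hne.symm, one_smul, zero_smul, Finset.sum_const_zero]
        rw [heq, hv]
        simp
      · intro q _ hq
        rw [if_neg hq.1, if_neg hq.2, zero_smul]) h hh
    simp at h3

/-- The sum over `A` of the coordinates. -/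
private theorem LinearBound_coord {V Q : Type} [AddCommGroup V] [Module ℚ V] [Fintype Q] [Group Q]
    {d : Q} (σ : X → Q) (v : Q → V) (hv : ∀ q, v (d * q) = - v q) (A : Finset Q)
    (hA : ∀ h ∈ A, ∀ h' ∈ A, h' ≠ d * h) (ε : X → ℤ)
    [∀ x, Decidable (∀ h ∈ A, σ x ≠ h ∧ σ x ≠ d * h)] :
    ∑ x, (ε x : ℚ) • v (σ x)
      = ∑ x, (ε x : ℚ) • (if ∀ h ∈ A, σ x ≠ h ∧ σ x ≠ d * h then v (σ x) else 0)
        + ∑ q ∈ A, ((sh d σ ε q : ℤ) : ℚ) • v q := by
  classical
  have h1 : ∀ q, ((sh d σ ε q : ℤ) : ℚ) • v q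
      = ∑ x, (ε x : ℚ) • ((if σ x = q then (1 : ℚ) else if σ x = d * q then -1 else 0) • v q) := by
    intro q
    rw [sh, Int.cast_sum, Finset.sum_smul]
    refine Finset.sum_congr rfl fun x _ => ?_
    rw [smul_smul]
    congr 1
    push_cast
    rfl
  simp_rw [h1]
  rw [Finset.sum_comm, ← Finset.sum_add_distrib]
  refine Finset.sum_congr rfl fun x _ => ?_
  rw [← Finset.smul_sum, ← smul_add]
  congr 1
  by_cases hfree : ∀ h ∈ A, σ x ≠ h ∧ σ x ≠ d * h
  · rw [if_pos hfree, Finset.sum_eq_zero, add_zero]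
    intro q hq
    rw [if_neg (hfree q hq).1, if_neg (hfree q hq).2, zero_smul]
  · rw [if_neg hfree, zero_add]
    push Not at hfree
    obtain ⟨q0, hq0, h2⟩ := hfree
    by_cases h3 : σ x = q0
    · rw [Finset.sum_eq_single_of_mem q0 hq0, if_pos h3, one_smul, h3]
      intro q hq hne
      have h4 : σ x ≠ q := by
        rw [h3]
        exact hne.symm
      have h5 : σ x ≠ d * q := by
        rw [h3]
        exact hA q hq q0 hq0
      rw [if_neg h4, if_neg h5, zero_smul]
    · have h4 := h2 h3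
      rw [Finset.sum_eq_single_of_mem q0 hq0, if_neg h3, if_pos h4, h4, hv, neg_smul, one_smul]
      intro q hq hne
      have h5 : σ x ≠ q := by
        rw [h4]
        intro h6
        exact hA q0 hq0 q hq h6.symm
      have h6 : σ x ≠ d * q := by
        rw [h4]
        intro h7
        exact hne (mul_left_cancel h7).symm
      rw [if_neg h5, if_neg h6, zero_smul]

/-- The number of bad sign vectors at a commutative type. `BadAtX e τ ε` gives `e a = 0` in
`comp e` (a field), `a = eltX τ ε`. Pass to `G ⧸ N` with the cover of multiplicity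
`κ' = κ |N| = 2 |X| / m` (`Cover.quotient`, `Cover.card_mul`): there is `A ⊆ G ⧸ N` such that the
`e h`, `h ∈ A`, form a basis of `comp e`, `|A| = zc e`; `A` contains no pair `h, c h`, and
given the signs outside the blocks of `A` the coordinates on `A` are determined by `e a = 0`. Then
as in `local_bound` with `r = 1 / √κ'` resp. `r = 1/2` (`choose_le_sqrt`, `choose_le_half`). -/
theorem linear_bound (hc : Cover c τ κ) (hX : 0 < Fintype.card X) (e : MonoidAlgebra ℚ G)
    (he : IsType e) (ho : OddE c e) (hl : zc e = rk e) :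
    ∃ m : ℕ, m ≤ 2 * Fintype.card X ∧ Even m ∧ m.totient = zc e ∧
      ((badSetX e τ).card : ℝ) ≤
        2 ^ Fintype.card X * (Real.sqrt (m / (2 * Fintype.card X))) ^ zc e ∧
      ((badSetX e τ).card : ℝ) ≤ 2 ^ Fintype.card X * (1 / 2) ^ zc e := by
  classical
  obtain ⟨N, hN, ⟨hNn, -⟩, hcN, heven, htot⟩ := linear_ker e he ho hc.sq hl
  have : Fintype (G ⧸ N) := Fintype.ofFinite _
  have hc' : Cover (c : G ⧸ N) (fun x => (τ x : G ⧸ N)) (κ * Nat.card N) := hc.quotient N hcN
  have hcard : κ * Nat.card N * N.index = 2 * Fintype.card X := by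
    rw [← hc'.card_mul, Subgroup.index, Nat.card_eq_fintype_card (α := G ⧸ N)]
  set κ' := κ * Nat.card N with hκ'
  have hpos : 0 < κ' * N.index := by
    rw [hcard]
    omega
  have hκpos : 0 < κ' := Nat.pos_of_mul_pos_right hpos
  have hmpos : 0 < N.index := Nat.pos_of_mul_pos_left hpos
  -- the family
  obtain ⟨v, hv⟩ : ∃ v : G ⧸ N → MonoidAlgebra ℚ G,
      ∀ g : G, v (g : G ⧸ N) = MonoidAlgebra.single g (1 : ℚ) * e := by
    refine ⟨fun q => MonoidAlgebra.single q.out (1 : ℚ) * e, fun g => ?_⟩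
    have h1 : ((g : G ⧸ N).out)⁻¹ * g ∈ N := by
      rw [← QuotientGroup.eq]
      exact QuotientGroup.out_eq' _
    have h2 := (hN _).1 h1
    have h3 : MonoidAlgebra.single g (1 : ℚ) = MonoidAlgebra.single (g : G ⧸ N).out (1 : ℚ) *
        MonoidAlgebra.single (((g : G ⧸ N).out)⁻¹ * g) (1 : ℚ) := by
      rw [MonoidAlgebra.single_mul_single, mul_one, mul_inv_cancel_left]
    rw [h3, mul_assoc, h2]
  have hvc : ∀ q, v ((c : G ⧸ N) * q) = - v q := by
    intro q
    induction q using QuotientGroup.induction_on with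
    | H z =>
      rw [← QuotientGroup.mk_mul, hv, hv, hc.central z]
      have h3 : MonoidAlgebra.single (z * c) (1 : ℚ) = MonoidAlgebra.single z (1 : ℚ) *
          MonoidAlgebra.single c (1 : ℚ) := by
        rw [MonoidAlgebra.single_mul_single, mul_one]
      rw [h3, mul_assoc, ho, mul_neg]
  have hspan : Submodule.span ℚ (Set.range v) = comp e :=
    LinearBound_span e he v (fun h => ⟨(h : G ⧸ N), hv h⟩) (fun q => by
      induction q using QuotientGroup.induction_on with
      | H z => exact ⟨z, hv z⟩)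
  obtain ⟨A, hAcard, hA, hAind⟩ := LinearBound_basis v hc'.ne_one hvc
  rw [hspan] at hAcard
  have hAz : A.card = zc e := by rw [hAcard, hl]; rfl
  -- the prescribed coordinates
  set R : (X → ℤ) → MonoidAlgebra ℚ G := fun ε => ∑ x, (ε x : ℚ) •
    (if ∀ h ∈ A, (τ x : G ⧸ N) ≠ h ∧ (τ x : G ⧸ N) ≠ (c : G ⧸ N) * h
      then v (τ x : G ⧸ N) else 0) with hR
  set F : MonoidAlgebra ℚ G → G ⧸ N → ℤ := fun r =>
    if h : ∃ t : G ⧸ N → ℤ, ∑ q ∈ A, (t q : ℚ) • v q = - r then h.choose else 0 with hF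
  have hs : ∀ ε ε' : X → ℤ, (∀ x, (∀ h ∈ A, (τ x : G ⧸ N) ≠ h ∧
      (τ x : G ⧸ N) ≠ (c : G ⧸ N) * h) → ε x = ε' x) → F (R ε) = F (R ε') := by
    intro ε ε' h
    congr 1
    refine Finset.sum_congr rfl fun x _ => ?_
    split_ifs with h1
    · rw [h x h1]
    · simp
  have hbad : ∀ ε ∈ badSetX e τ, ∀ h ∈ A,
      sh (c : G ⧸ N) (fun x => (τ x : G ⧸ N)) ε h = F (R ε) h := by
    intro ε hε h hh
    rw [badSetX, Finset.mem_filter] at hε
    have h1 := LinearBound_kill e he hl ε hε.2
    simp only [← hv] at h1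
    rw [LinearBound_coord (fun x => (τ x : G ⧸ N)) v hvc A hA ε] at h1
    have h2 : ∑ q ∈ A, ((sh (c : G ⧸ N) (fun x => (τ x : G ⧸ N)) ε q : ℤ) : ℚ) • v q
        = - R ε := by
      rw [eq_neg_iff_add_eq_zero, add_comm]
      exact h1
    have hex : ∃ t : G ⧸ N → ℤ, ∑ q ∈ A, (t q : ℚ) • v q = - R ε :=
      ⟨_, h2⟩
    have h3 : F (R ε) = hex.choose := by
      rw [hF]
      simp only [dif_pos hex]
    have h4 := hAind _ _ (h2.trans hex.choose_spec.symm) h hh
    rw [h3]
    exact_mod_cast h4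
  have hcount : ∀ r : ℝ, 0 ≤ r → (∀ j, (κ'.choose j : ℝ) ≤ 2 ^ κ' * r) →
      ((badSetX e τ).card : ℝ) ≤ 2 ^ Fintype.card X * r ^ zc e := by
    intro r hr hr'
    have h1 := local_bound hc' r hr hr' A hA (fun ε => F (R ε)) hs
    rw [hAz] at h1
    refine le_trans ?_ h1
    rw [Nat.cast_le]
    apply Finset.card_le_card
    intro ε hε
    have h2 := hbad ε hε
    rw [badSetX, Finset.mem_filter] at hε
    simp only [Finset.mem_filter]
    exact ⟨hε.1, h2⟩
  refine ⟨N.index, ?_, heven, htot, ?_, ?_⟩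
  · rw [← hcard]
    exact Nat.le_mul_of_pos_left _ hκpos
  · have h1 := hcount (1 / Real.sqrt κ') (by positivity) (fun j => choose_le_sqrt κ' j hκpos)
    have h2 : Real.sqrt ((N.index : ℝ) / (2 * (Fintype.card X : ℝ))) = 1 / Real.sqrt κ' := by
      have h3 : (2 * (Fintype.card X : ℝ)) = (κ' : ℝ) * N.index := by
        exact_mod_cast hcard.symm
      have h4 : (N.index : ℝ) ≠ 0 := by exact_mod_cast hmpos.ne'
      have h5 : (κ' : ℝ) ≠ 0 := by exact_mod_cast hκpos.ne'
      rw [h3, show (N.index : ℝ) / ((κ' : ℝ) * N.index) = 1 / κ' by field_simp,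
        Real.sqrt_div zero_le_one, Real.sqrt_one]
    rw [h2]
    exact h1
  · exact hcount (1 / 2) (by norm_num) (fun j => choose_le_half κ' j hκpos)

end Pool.Agent.Lib.MP_640417_ag.All
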