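import Pool.Agent.Lib.MP_640417_ag.All.Basic
import Pool.Agent.Lib.MP_640417_ag.CountPoly

/-!
# The coordinates of a random sign vector on a cover

For `h ∈ A` (`A` without two elements of the form `h, c h`) the coordinates `sh c τ ε h` depend on
disjoint blocks of `κ` signs each (`x` belongs to the block of `h` if `τ x = h` or `τ x = c h`;
these conditions exclude each other as `c ≠ 1`).
-/

set_option autoImplicit false
set_option linter.unusedSectionVars false

namespace Pool.Agent.Lib.MP_640417_ag.All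

open Module Finset Pool.Agent.Lib.MP_640417_ag.OddGal

/-- `C(k, j) ≤ 2^k / √k` and `C(k, j) ≤ 2^(k-1)` for `k ≥ 1`. -/
theorem choose_le_sqrt (k j : ℕ) (hk : 0 < k) : (k.choose j : ℝ) ≤ 2 ^ k * (1 / Real.sqrt k) := by
  have h1 : (k.choose j : ℝ) ≤ (k.choose (k / 2) : ℝ) := by
    exact_mod_cast Nat.choose_le_middle j k
  have h2 := Pool.Agent.Lib.MP_640417_ag.atom_sq_le k
  have h3 := Pool.Agent.Lib.MP_640417_ag.atom_nonneg k
  have hk' : (0 : ℝ) < k := by exact_mod_cast hk
  have h4 : Pool.Agent.Lib.MP_640417_ag.atom k ≤ 1 / Real.sqrt k := by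
    rw [le_div_iff₀ (Real.sqrt_pos.2 hk')]
    have h5 : (Pool.Agent.Lib.MP_640417_ag.atom k * Real.sqrt k) ^ 2 ≤ 1 ^ 2 := by
      rw [mul_pow, Real.sq_sqrt hk'.le]
      nlinarith [sq_nonneg (Pool.Agent.Lib.MP_640417_ag.atom k)]
    exact (pow_le_pow_iff_left₀ (mul_nonneg h3 (Real.sqrt_nonneg _)) zero_le_one two_ne_zero).1 h5
  have h6 : (k.choose (k / 2) : ℝ) = 2 ^ k * Pool.Agent.Lib.MP_640417_ag.atom k := by
    unfold Pool.Agent.Lib.MP_640417_ag.atom
    field_simp
  calc (k.choose j : ℝ) ≤ 2 ^ k * Pool.Agent.Lib.MP_640417_ag.atom k := by rw [← h6]; exact h1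
    _ ≤ 2 ^ k * (1 / Real.sqrt k) := mul_le_mul_of_nonneg_left h4 (by positivity)

theorem choose_le_half (k j : ℕ) (hk : 0 < k) : (k.choose j : ℝ) ≤ 2 ^ k * (1 / 2) := by
  obtain ⟨m, rfl⟩ : ∃ m, k = m + 1 := ⟨k - 1, by omega⟩
  have h1 : (m + 1).choose j ≤ 2 ^ m := by
    cases j with
    | zero =>
      rw [Nat.choose_zero_right]
      exact Nat.one_le_two_pow
    | succ j =>
      rw [Nat.choose_succ_succ, ← Nat.sum_range_choose]
      by_cases hj : j + 1 < m + 1
      · have hsub : ({j, j + 1} : Finset ℕ) ⊆ Finset.range (m + 1) := by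
          intro x hx
          simp only [Finset.mem_insert, Finset.mem_singleton] at hx
          rw [Finset.mem_range]
          omega
        have h2 := Finset.sum_le_sum_of_subset (f := fun i => m.choose i) hsub
        rw [Finset.sum_pair (by omega)] at h2
        exact h2
      · have h3 : m.choose (j + 1) = 0 := Nat.choose_eq_zero_of_lt (by omega)
        rw [h3, add_zero]
        by_cases hj' : j < m + 1
        · exact Finset.single_le_sum (f := fun i => m.choose i) (fun _ _ => Nat.zero_le _)
            (Finset.mem_range.2 hj')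
        · rw [Nat.choose_eq_zero_of_lt (by omega)]
          exact Nat.zero_le _
  have h2 : ((m + 1).choose j : ℝ) ≤ 2 ^ m := by exact_mod_cast h1
  rw [pow_succ]
  linarith

variable {G X : Type} [Group G] [Fintype G] [Fintype X] {c : G} {τ : X → G} {κ : ℕ}

namespace Local

theorem mem_signs' (ε : X → ℤ) : ε ∈ signs X ↔ ∀ x, ε x = 1 ∨ ε x = -1 := by
  classical
  unfold signs
  rw [Fintype.mem_piFinset]
  simp

theorem card_signs' : (signs X).card = 2 ^ Fintype.card X := by
  classical
  unfold signs
  rw [Fintype.card_piFinset]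
  simp

open Classical in
/-- the block of `h` -/
noncomputable def blk (c : G) (τ : X → G) (h : G) : Finset X :=
  Finset.univ.filter fun x => τ x = h ∨ τ x = c * h

theorem mem_blk (h : G) (x : X) : x ∈ blk c τ h ↔ (τ x = h ∨ τ x = c * h) := by
  classical
  unfold blk
  simp

theorem card_blk (hc : Cover c τ κ) (h : G) : (blk c τ h).card = κ := by
  classical
  rw [← hc.count h, Set.ncard_eq_toFinset_card']
  congr 1
  ext x
  rw [mem_blk]
  simp

open Classical in
/-- the sign of `x` in the coordinate of `h` -/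
noncomputable def usg (c : G) (τ : X → G) (h : G) (x : X) : ℤ :=
  if τ x = h then 1 else if τ x = c * h then -1 else 0

theorem sh_eq (ε : X → ℤ) (h : G) : sh c τ ε h = ∑ x ∈ blk c τ h, ε x * usg c τ h x := by
  classical
  unfold sh
  rw [← Finset.sum_subset (Finset.subset_univ (blk c τ h))]
  · rfl
  · intro x _ hx
    rw [mem_blk] at hx
    push Not at hx
    rw [if_neg hx.1, if_neg hx.2, mul_zero]

theorem usg_blk (h : G) (x : X) (hx : x ∈ blk c τ h) : usg c τ h x = 1 ∨ usg c τ h x = -1 := by
  classical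
  unfold usg
  rw [mem_blk] at hx
  by_cases h1 : τ x = h
  · left; rw [if_pos h1]
  · right
    have h2 : τ x = c * h := by tauto
    rw [if_neg h1, if_pos h2]

open Classical in
/-- the positive part of a block -/
noncomputable def pos (c : G) (τ : X → G) (h : G) (ε : X → ℤ) : Finset X :=
  (blk c τ h).filter fun x => ε x = usg c τ h x

theorem sh_pos (hc : Cover c τ κ) (h : G) (ε : X → ℤ) (hε : ε ∈ signs X) :
    sh c τ ε h = 2 * ((pos c τ h ε).card : ℤ) - κ := by
  classical
  rw [sh_eq]
  have h1 : ∀ x ∈ blk c τ h, ε x * usg c τ h x = 2 * (if ε x = usg c τ h x then 1 else 0) - 1 := by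
    intro x hx
    have h2 := (mem_signs' ε).1 hε x
    have h3 := usg_blk h x hx
    rcases h2 with h2 | h2 <;> rcases h3 with h3 | h3 <;> simp [h2, h3]
  rw [Finset.sum_congr rfl h1, Finset.sum_sub_distrib, ← Finset.mul_sum, Finset.sum_const,
    card_blk hc]
  unfold pos
  rw [Finset.card_filter]
  push_cast
  simp

theorem blk_disj (hc : Cover c τ κ) (h h' : G) (h1 : h ≠ h') (h2 : h' ≠ c * h) (x : X)
    (hx : x ∈ blk c τ h) : x ∉ blk c τ h' := by
  rw [mem_blk] at hx ⊢
  intro hx'
  have h3 : h ≠ c * h' := by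
    intro h4
    apply h2
    rw [h4, ← mul_assoc, hc.sq, one_mul]
  rcases hx with a | a <;> rcases hx' with b | b
  · exact h1 (a.symm.trans b)
  · exact h3 (a.symm.trans b)
  · exact h2 (b.symm.trans a)
  · exact h1 (mul_left_cancel (a.symm.trans b))

open Classical in
/-- the cube of the sign vectors which agree with `ε₀` outside a block -/
noncomputable def cube (c : G) (τ : X → G) (h : G) (ε₀ : X → ℤ) : Finset (X → ℤ) :=
  Fintype.piFinset fun x => if x ∈ blk c τ h then ({1, -1} : Finset ℤ) else {ε₀ x}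

theorem mem_cube (h : G) (ε₀ ε : X → ℤ) : ε ∈ cube c τ h ε₀ ↔
    (∀ x ∈ blk c τ h, ε x = 1 ∨ ε x = -1) ∧ ∀ x, x ∉ blk c τ h → ε x = ε₀ x := by
  classical
  unfold cube
  rw [Fintype.mem_piFinset]
  constructor
  · intro hh
    refine ⟨fun x hx => ?_, fun x hx => ?_⟩
    · have := hh x
      rw [if_pos hx] at this
      simpa using this
    · have := hh x
      rw [if_neg hx] at this
      simpa using this
  · rintro ⟨h1, h2⟩ x
    by_cases hx : x ∈ blk c τ h
    · rw [if_pos hx]
      simpa using h1 x hx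
    · rw [if_neg hx]
      simpa using h2 x hx

theorem card_cube (hc : Cover c τ κ) (h : G) (ε₀ : X → ℤ) : (cube c τ h ε₀).card = 2 ^ κ := by
  classical
  unfold cube
  rw [Fintype.card_piFinset]
  have h1 : ∀ x, (if x ∈ blk c τ h then ({1, -1} : Finset ℤ) else {ε₀ x}).card =
      if x ∈ blk c τ h then 2 else 1 := by
    intro x
    by_cases hx : x ∈ blk c τ h
    · rw [if_pos hx, if_pos hx]; rfl
    · rw [if_neg hx, if_neg hx]; simp
  rw [Finset.prod_congr rfl fun x _ => h1 x, Finset.prod_ite]
  simp only [Finset.prod_const, one_pow, mul_one]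
  congr 1
  rw [← card_blk hc h]
  congr 1
  ext x
  simp

open Classical in
/-- in a cube few sign vectors have a given coordinate -/
theorem cube_bound (hc : Cover c τ κ) (r : ℝ) (hr : 0 ≤ r)
    (hκ : ∀ j, (κ.choose j : ℝ) ≤ 2 ^ κ * r) (h : G) (ε₀ : X → ℤ) (hε₀ : ε₀ ∈ signs X) (σ : ℤ) :
    (((cube c τ h ε₀).filter fun ε => sh c τ ε h = σ).card : ℝ) ≤ 2 ^ κ * r := by
  have hsig : ∀ ε ∈ cube c τ h ε₀, ε ∈ signs X := by
    intro ε hε
    rw [mem_cube] at hε
    rw [mem_signs']
    intro x
    by_cases hx : x ∈ blk c τ h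
    · exact hε.1 x hx
    · rw [hε.2 x hx]
      exact (mem_signs' ε₀).1 hε₀ x
  rcases ((cube c τ h ε₀).filter fun ε => sh c τ ε h = σ).eq_empty_or_nonempty with he | ⟨ε₁, hε₁⟩
  · rw [he, Finset.card_empty]
    push_cast
    positivity
  · rw [Finset.mem_filter] at hε₁
    set j := (pos c τ h ε₁).card with hj
    refine le_trans ?_ (hκ j)
    have hmap : ∀ ε ∈ (cube c τ h ε₀).filter (fun ε => sh c τ ε h = σ),
        pos c τ h ε ∈ Finset.powersetCard j (blk c τ h) := by
      intro ε hε
      rw [Finset.mem_filter] at hε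
      rw [Finset.mem_powersetCard]
      refine ⟨Finset.filter_subset _ _, ?_⟩
      have e1 := sh_pos hc h ε (hsig ε hε.1)
      have e2 := sh_pos hc h ε₁ (hsig ε₁ hε₁.1)
      rw [hε.2] at e1
      rw [hε₁.2] at e2
      have e3 : ((pos c τ h ε).card : ℤ) = ((pos c τ h ε₁).card : ℤ) := by linarith
      exact_mod_cast e3
    have hinj : Set.InjOn (pos c τ h)
        ((cube c τ h ε₀).filter (fun ε => sh c τ ε h = σ) : Finset (X → ℤ)) := by
      intro ε hε ε' hε' heq
      rw [Finset.mem_coe, Finset.mem_filter] at hε hε'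
      have m1 := (mem_cube h ε₀ ε).1 hε.1
      have m2 := (mem_cube h ε₀ ε').1 hε'.1
      funext x
      by_cases hx : x ∈ blk c τ h
      · have hu := usg_blk h x hx
        have e1 : ε x = usg c τ h x ↔ ε' x = usg c τ h x := by
          have h2 : x ∈ pos c τ h ε ↔ x ∈ pos c τ h ε' := by rw [heq]
          unfold pos at h2
          rw [Finset.mem_filter, Finset.mem_filter] at h2
          tauto
        have a1 := m1.1 x hx
        have a2 := m2.1 x hx
        rcases hu with hu | hu <;> rcases a1 with a1 | a1 <;> rcases a2 with a2 | a2 <;>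
          rw [hu, a1, a2] at e1 <;> rw [a1, a2] <;> simp at e1
      · rw [m1.2 x hx, m2.2 x hx]
    have hcard := Finset.card_le_card_of_injOn (pos c τ h) hmap hinj
    rw [Finset.card_powersetCard, card_blk hc] at hcard
    exact_mod_cast hcard

end Local

open Local

open Classical in
/-- The number of sign vectors with prescribed coordinates on `A`, for every `r` which bounds the
relative size of all binomial coefficients `C(κ, j)`. The prescribed values `s ε` may depend on
the signs outside the blocks of `A`. Given these signs, there are at most `r 2^κ` choices in the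
block of each `h ∈ A` (the number of signs of a block with given sum is a binomial coefficient
or `0`). -/
theorem local_bound (hc : Cover c τ κ) (r : ℝ) (hr : 0 ≤ r)
    (hκ : ∀ j, (κ.choose j : ℝ) ≤ 2 ^ κ * r) (A : Finset G)
    (hA : ∀ h ∈ A, ∀ h' ∈ A, h' ≠ c * h) (s : (X → ℤ) → G → ℤ)
    (hs : ∀ ε ε' : X → ℤ, (∀ x, (∀ h ∈ A, τ x ≠ h ∧ τ x ≠ c * h) → ε x = ε' x) → s ε = s ε') :
    (((signs X).filter (fun ε => ∀ h ∈ A, sh c τ ε h = s ε h)).card : ℝ)
      ≤ 2 ^ Fintype.card X * r ^ A.card := by
  induction A using Finset.induction_on with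
  | empty =>
    rw [Finset.card_empty, pow_zero, mul_one]
    have h1 := Finset.card_filter_le (signs X) (fun ε => ∀ h ∈ (∅ : Finset G), sh c τ ε h = s ε h)
    rw [card_signs'] at h1
    exact_mod_cast h1
  | insert h A' hh ih =>
    have hs' : ∀ ε ε' : X → ℤ, (∀ x, (∀ h ∈ A', τ x ≠ h ∧ τ x ≠ c * h) → ε x = ε' x) →
        s ε = s ε' := by
      intro ε ε' hag
      apply hs
      intro x hx
      exact hag x fun h' hh' => hx h' (Finset.mem_insert_of_mem hh')
    have ih' := ih (fun a ha b hb => hA a (Finset.mem_insert_of_mem ha) b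
      (Finset.mem_insert_of_mem hb)) hs'
    rw [Finset.card_insert_of_notMem hh, pow_succ]
    set S' := (signs X).filter (fun ε => ∀ h ∈ A', sh c τ ε h = s ε h) with hS'
    set S := (signs X).filter (fun ε => ∀ h' ∈ insert h A', sh c τ ε h' = s ε h') with hS
    suffices hSS : (S.card : ℝ) ≤ r * S'.card by
      calc (S.card : ℝ) ≤ r * S'.card := hSS
        _ ≤ r * (2 ^ Fintype.card X * r ^ A'.card) := mul_le_mul_of_nonneg_left ih' hr
        _ = _ := by ring
    -- the key of a sign vector
    set key : (X → ℤ) → (X → ℤ) := fun ε x => if x ∈ blk c τ h then 0 else ε x with hkey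
    have hkey_eq : ∀ ε ε' : X → ℤ, key ε = key ε' ↔ ∀ x, x ∉ blk c τ h → ε x = ε' x := by
      intro ε ε'
      constructor
      · intro he x hx
        have := congrFun he x
        rw [hkey] at this
        simp only [if_neg hx] at this
        exact this
      · intro hag
        funext x
        rw [hkey]
        by_cases hx : x ∈ blk c τ h
        · simp only [if_pos hx]
        · simp only [if_neg hx]
          exact hag x hx
    have hSsub : S ⊆ S' := by
      intro ε hε
      rw [hS, Finset.mem_filter] at hε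
      rw [hS', Finset.mem_filter]
      exact ⟨hε.1, fun a ha => hε.2 a (Finset.mem_insert_of_mem ha)⟩
    have hm1 : ∀ ε ∈ S, key ε ∈ S'.image key := fun ε hε =>
      Finset.mem_image_of_mem key (hSsub hε)
    have hm2 : ∀ ε ∈ S', key ε ∈ S'.image key := fun ε hε =>
      Finset.mem_image_of_mem key hε
    rw [Finset.card_eq_sum_card_fiberwise hm1, Finset.card_eq_sum_card_fiberwise hm2]
    push_cast
    rw [Finset.mul_sum]
    refine Finset.sum_le_sum fun ρ hρ => ?_
    obtain ⟨ε₀, hε₀, rfl⟩ := Finset.mem_image.1 hρ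
    have hε₀' := hε₀
    rw [hS', Finset.mem_filter] at hε₀'
    -- independence of the block of `h`
    have hsc : ∀ ε, key ε = key ε₀ → s ε = s ε₀ := by
      intro ε he
      apply hs
      intro x hx
      apply (hkey_eq ε ε₀).1 he
      rw [mem_blk]
      have := hx h (Finset.mem_insert_self h A')
      tauto
    have hshc : ∀ ε, key ε = key ε₀ → ∀ a ∈ A', sh c τ ε a = sh c τ ε₀ a := by
      intro ε he a ha
      rw [sh_eq, sh_eq]
      refine Finset.sum_congr rfl fun x hx => ?_
      rw [(hkey_eq ε ε₀).1 he x]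
      refine blk_disj hc a h (fun e => hh (e ▸ ha)) ?_ x hx
      exact hA a (Finset.mem_insert_of_mem ha) h (Finset.mem_insert_self h A')
    have hfib : S'.filter (fun ε => key ε = key ε₀) = cube c τ h ε₀ := by
      ext ε
      rw [Finset.mem_filter, mem_cube]
      constructor
      · rintro ⟨h1, h2⟩
        rw [hS', Finset.mem_filter] at h1
        exact ⟨fun x _ => (mem_signs' ε).1 h1.1 x, (hkey_eq ε ε₀).1 h2⟩
      · rintro ⟨h1, h2⟩
        have h3 : key ε = key ε₀ := (hkey_eq ε ε₀).2 h2
        refine ⟨?_, h3⟩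
        rw [hS', Finset.mem_filter]
        refine ⟨?_, ?_⟩
        · rw [mem_signs']
          intro x
          by_cases hx : x ∈ blk c τ h
          · exact h1 x hx
          · rw [h2 x hx]
            exact (mem_signs' ε₀).1 hε₀'.1 x
        · intro a ha
          rw [hshc ε h3 a ha, hsc ε h3]
          exact hε₀'.2 a ha
    rw [hfib, card_cube hc]
    have hfib2 : S.filter (fun ε => key ε = key ε₀) ⊆
        (cube c τ h ε₀).filter fun ε => sh c τ ε h = s ε₀ h := by
      intro ε hε
      rw [Finset.mem_filter] at hε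
      rw [Finset.mem_filter, ← hfib, Finset.mem_filter]
      refine ⟨⟨hSsub hε.1, hε.2⟩, ?_⟩
      have h4 := hε.1
      rw [hS, Finset.mem_filter] at h4
      rw [h4.2 h (Finset.mem_insert_self h A'), hsc ε hε.2]
    have h5 := cube_bound hc r hr hκ h ε₀ hε₀'.1 (s ε₀ h)
    calc ((S.filter (fun ε => key ε = key ε₀)).card : ℝ) ≤
        (((cube c τ h ε₀).filter fun ε => sh c τ ε h = s ε₀ h).card : ℝ) := by
          exact_mod_cast Finset.card_le_card hfib2
      _ ≤ 2 ^ κ * r := h5
      _ = r * ((2 ^ κ : ℕ) : ℝ) := by push_cast; ring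

end Pool.Agent.Lib.MP_640417_ag.All
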