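import Pool.Agent.Lib.MP_640417_ag.OddLowerA
import Pool.Agent.Lib.MP_640417_ag.OddDefs

/-!
# The second moment

`X` has an even number `g` of elements; `A_i` is the set of sign vectors `ε` with
`∑ ε x χ_i x = 0`. `#A_i = C(g, g/2) ≥ 2^g / √(2g)` (the map `ε ↦ ε χ_i`; central binomial
coefficient). For `i ≠ j` let `Y = {x | χ_i x = χ_j x}`, `|Y| = g/2`; `ε ∈ A_i ∩ A_j` iff the sums of
`ε χ_i` over `Y` and over its complement both vanish: `#(A_i ∩ A_j) ≤ C(g/2, j)² ≤ 2^g · 2 / g`
(`0` if `g/2` is odd; `C(k, j)² k ≤ 4^k`). Cauchy-Schwarz for the number of `i` with `ε ∈ A_i`: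
`(∑ #A_i)² ≤ #(⋃ A_i) · ∑_{i,j} #(A_i ∩ A_j)`, so with `π = #A_i / 2^g`, `a = |ι|`,
`#(⋃ A_i) / 2^g ≥ a² π² / (a π + a² · 2/g) ≥ a / (√(2g) + 4 a) ≥ (1/6) min (1, a / √g)`.
-/

set_option autoImplicit false

namespace Pool.Agent.Lib.MP_640417_ag.All

open Module Finset Pool.Agent.Lib.MP_640417_ag.OddGal

private theorem moment_mem {X : Type} [Fintype X] {ε : X → ℤ} :
    ε ∈ signs X ↔ ∀ x, ε x = 1 ∨ ε x = -1 := by
  simp [signs]

/-- the set of the points where `ε` and `χ` agree -/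
private def momentP {X : Type} [Fintype X] (χ ε : X → ℤ) : Finset X :=
  univ.filter fun x => ε x * χ x = 1

private theorem moment_P_inj {X : Type} [Fintype X] {χ : X → ℤ}
    (hχ : ∀ x, χ x = 1 ∨ χ x = -1) {ε ε' : X → ℤ} (h1 : ε ∈ signs X) (h2 : ε' ∈ signs X)
    (h : ∀ x, x ∈ momentP χ ε ↔ x ∈ momentP χ ε') : ε = ε' := by
  funext x
  have h3 := h x
  simp only [momentP, mem_filter, mem_univ, true_and] at h3
  rcases hχ x with h4 | h4 <;> rcases moment_mem.1 h1 x with h5 | h5 <;>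
    rcases moment_mem.1 h2 x with h6 | h6 <;> rw [h4, h5, h6] at h3 <;> simp_all

/-- the sum over a set of points -/
private theorem moment_sum {X : Type} [Fintype X] [DecidableEq X] {χ ε : X → ℤ}
    (hχ : ∀ x, χ x = 1 ∨ χ x = -1) (hε : ε ∈ signs X) (Y : Finset X) :
    ∑ x ∈ Y, ε x * χ x = 2 * ((Y ∩ momentP χ ε).card : ℤ) - (Y.card : ℤ) := by
  have h1 : ∀ x ∈ Y, ε x * χ x = 2 * (if x ∈ momentP χ ε then 1 else 0) - 1 := by
    intro x _
    simp only [momentP, mem_filter, mem_univ, true_and]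
    rcases hχ x with h4 | h4 <;> rcases moment_mem.1 hε x with h5 | h5 <;> rw [h4, h5] <;> norm_num
  rw [sum_congr rfl h1, sum_sub_distrib, ← mul_sum, sum_ite_mem, sum_const, sum_const]
  simp

private theorem moment_single {X : Type} [Fintype X] [DecidableEq X] {g : ℕ}
    (hg : Fintype.card X = g) (he : Even g) {χ : X → ℤ} (hχ : ∀ x, χ x = 1 ∨ χ x = -1) :
    ((signs X).filter fun ε => ∑ x, ε x * χ x = 0).card = g.choose (g / 2) := by
  obtain ⟨n, hn⟩ := he
  have h1 : (powersetCard (g / 2) (univ : Finset X)).card = g.choose (g / 2) := by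
    rw [card_powersetCard, card_univ, hg]
  rw [← h1]
  apply card_nbij' (i := momentP χ) (j := fun P x => if x ∈ P then χ x else -χ x)
  · intro ε hε
    rw [mem_coe, mem_filter] at hε
    rw [mem_coe, mem_powersetCard]
    refine ⟨subset_univ _, ?_⟩
    have h2 := moment_sum hχ hε.1 univ
    rw [hε.2, univ_inter, card_univ, hg] at h2
    omega
  · intro P hP
    rw [mem_coe, mem_powersetCard] at hP
    have h2 : (fun x => if x ∈ P then χ x else -χ x) ∈ signs X := by
      rw [moment_mem]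
      intro x
      by_cases hx : x ∈ P
      · simpa [hx] using hχ x
      · rcases hχ x with h | h <;> simp [hx, h]
    rw [mem_coe, mem_filter]
    refine ⟨h2, ?_⟩
    rw [moment_sum hχ h2 univ, univ_inter, card_univ, hg]
    have h3 : momentP χ (fun x => if x ∈ P then χ x else -χ x) = P := by
      ext x
      simp only [momentP, mem_filter, mem_univ, true_and]
      by_cases hx : x ∈ P
      · rcases hχ x with h | h <;> simp [hx, h]
      · rcases hχ x with h | h <;> simp [hx, h]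
    rw [h3, hP.2]
    omega
  · intro ε hε
    rw [mem_coe, mem_filter] at hε
    funext x
    simp only [momentP, mem_filter, mem_univ, true_and]
    rcases hχ x with h4 | h4 <;> rcases moment_mem.1 hε.1 x with h5 | h5 <;> rw [h4, h5] <;> simp
  · intro P _
    ext x
    simp only [momentP, mem_filter, mem_univ, true_and]
    by_cases hx : x ∈ P
    · rcases hχ x with h | h <;> simp [hx, h]
    · rcases hχ x with h | h <;> simp [hx, h]

private theorem moment_pair {X : Type} [Fintype X] [DecidableEq X] {g : ℕ}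
    (hg : Fintype.card X = g) {χ χ' : X → ℤ} (hχ : ∀ x, χ x = 1 ∨ χ x = -1)
    (hχ' : ∀ x, χ' x = 1 ∨ χ' x = -1) (hY : 2 * (univ.filter fun x => χ x = χ' x).card = g) :
    ((signs X).filter fun ε => ∑ x, ε x * χ x = 0 ∧ ∑ x, ε x * χ' x = 0).card ≤
      (g / 2).choose (g / 2 / 2) ^ 2 := by
  set Y : Finset X := univ.filter fun x => χ x = χ' x with hYdef
  have hYc : Y.card = g / 2 := by omega
  have hYc' : (Yᶜ).card = g / 2 := by
    rw [card_compl, hg]
    omega
  have h1 : ((powersetCard (g / 2 / 2) Y) ×ˢ (powersetCard (g / 2 / 2) Yᶜ)).card =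
      (g / 2).choose (g / 2 / 2) ^ 2 := by
    rw [card_product, card_powersetCard, card_powersetCard, hYc, hYc', sq]
  rw [← h1]
  apply card_le_card_of_injOn (fun ε => (Y ∩ momentP χ ε, Yᶜ ∩ momentP χ ε))
  · intro ε hε
    rw [mem_coe, mem_filter] at hε
    obtain ⟨h2, h3, h4⟩ := hε
    rw [← sum_add_sum_compl Y] at h3 h4
    have h5 : ∑ x ∈ Y, ε x * χ' x = ∑ x ∈ Y, ε x * χ x := by
      apply sum_congr rfl
      intro x hx
      rw [hYdef, mem_filter] at hx
      rw [hx.2]
    have h6 : ∑ x ∈ Yᶜ, ε x * χ' x = - ∑ x ∈ Yᶜ, ε x * χ x := by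
      rw [← sum_neg_distrib]
      apply sum_congr rfl
      intro x hx
      rw [mem_compl, hYdef, mem_filter] at hx
      have h7 : χ x ≠ χ' x := fun h => hx ⟨mem_univ _, h⟩
      rcases hχ x with h8 | h8 <;> rcases hχ' x with h9 | h9 <;> rw [h8, h9] <;> simp_all
    rw [h5, h6] at h4
    rw [moment_sum hχ h2 Y, moment_sum hχ h2 Yᶜ, hYc, hYc'] at h3 h4
    rw [mem_coe, mem_product, mem_powersetCard, mem_powersetCard]
    refine ⟨⟨inter_subset_left, ?_⟩, ⟨inter_subset_left, ?_⟩⟩
    · show (Y ∩ momentP χ ε).card = _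
      omega
    · show (Yᶜ ∩ momentP χ ε).card = _
      omega
  · intro ε hε ε' hε' h
    rw [mem_coe, mem_filter] at hε hε'
    apply moment_P_inj hχ hε.1 hε'.1
    intro x
    simp only [Prod.mk.injEq] at h
    by_cases hx : x ∈ Y
    · have h2 : x ∈ Y ∩ momentP χ ε ↔ x ∈ Y ∩ momentP χ ε' := by rw [h.1]
      simpa [hx] using h2
    · have h2 : x ∈ Yᶜ ∩ momentP χ ε ↔ x ∈ Yᶜ ∩ momentP χ ε' := by rw [h.2]
      simpa [hx] using h2

private theorem moment_choose_sq_le {k : ℕ} : k.choose (k / 2) ^ 2 * k ≤ 4 ^ k := by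
  rcases Nat.even_or_odd k with h | h
  · obtain ⟨n, rfl⟩ := h
    have h1 := centralBinom_sq_le n
    rw [Nat.centralBinom_eq_two_mul_choose] at h1
    rw [show (n + n) / 2 = n by omega, show n + n = 2 * n by ring]
    have h2 : (4 : ℕ) ^ (2 * n) = 16 ^ n := by
      rw [pow_mul]
      norm_num
    rw [h2]
    exact le_trans (Nat.mul_le_mul_left _ (by omega)) h1
  · exact choose_sq_le h

private theorem moment_central_ge {n : ℕ} (hn : 1 ≤ n) :
    16 ^ n ≤ n.centralBinom ^ 2 * (4 * n) := by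
  induction n, hn using Nat.le_induction with
  | base => simp [Nat.centralBinom]
  | succ n hn ih =>
    have h1 := Nat.succ_mul_centralBinom_succ n
    set A := n.centralBinom with hA
    set B := (n + 1).centralBinom with hB
    have h2 : (n * (n + 1) ^ 2) * 16 ^ (n + 1) ≤ (n * (n + 1) ^ 2) * (B ^ 2 * (4 * (n + 1))) := by
      calc (n * (n + 1) ^ 2) * 16 ^ (n + 1) = 16 ^ n * (16 * n * (n + 1) ^ 2) := by ring
        _ ≤ (A ^ 2 * (4 * n)) * (16 * n * (n + 1) ^ 2) := Nat.mul_le_mul_right _ ih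
        _ = (A ^ 2 * (16 * n * (n + 1))) * (4 * n * (n + 1)) := by ring
        _ ≤ (A ^ 2 * (4 * (2 * n + 1) ^ 2)) * (4 * n * (n + 1)) := by
            apply Nat.mul_le_mul_right
            apply Nat.mul_le_mul_left
            nlinarith
        _ = (2 * (2 * n + 1) * A) ^ 2 * (4 * n * (n + 1)) := by ring
        _ = ((n + 1) * B) ^ 2 * (4 * n * (n + 1)) := by rw [h1]
        _ = (n * (n + 1) ^ 2) * (B ^ 2 * (4 * (n + 1))) := by ring
    exact Nat.le_of_mul_le_mul_left h2 (by positivity)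

theorem moment (X : Type) [Fintype X] (g : ℕ) (hg : Fintype.card X = g) (hg0 : 0 < g)
    (he : Even g) (ι : Type) [Fintype ι] (χ : ι → X → ℤ) (hχ : ∀ i x, χ i x = 1 ∨ χ i x = -1)
    (hij : ∀ i j, i ≠ j → 2 * {x | χ i x = χ j x}.ncard = g) :
    (1 / 6 : ℝ) * min 1 (Fintype.card ι / Real.sqrt g) * 2 ^ g ≤
      ({ε : X → ℤ | ε ∈ signs X ∧ ∃ i, ∑ x, ε x * χ i x = 0}.ncard : ℝ) := by
  classical
  set U : Finset (X → ℤ) := (signs X).filter fun ε => ∃ i, ∑ x, ε x * χ i x = 0 with hU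
  have hU' : {ε : X → ℤ | ε ∈ signs X ∧ ∃ i, ∑ x, ε x * χ i x = 0} = (U : Set (X → ℤ)) := by
    ext ε
    simp [hU]
  rw [hU', Set.ncard_coe_finset]
  set N : (X → ℤ) → ℝ := fun ε => ∑ i, if ∑ x, ε x * χ i x = 0 then 1 else 0 with hN
  set c : ℕ := g.choose (g / 2) with hc
  set a : ℕ := Fintype.card ι with ha
  set b : ℕ := (g / 2).choose (g / 2 / 2) ^ 2 with hb
  -- the first moment
  have hsum1 : ∑ ε ∈ U, N ε = a * c := by
    have h1 : ∑ ε ∈ U, N ε = ∑ ε ∈ signs X, N ε := by
      rw [hU]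
      apply sum_filter_of_ne
      intro ε _ hne
      by_contra hcon
      push Not at hcon
      apply hne
      rw [hN]
      exact sum_eq_zero fun i _ => if_neg (hcon i)
    rw [h1, hN, sum_comm]
    have h2 : ∀ i ∈ (univ : Finset ι), ∑ ε ∈ signs X, (if ∑ x, ε x * χ i x = 0 then (1 : ℝ) else 0) = c := by
      intro i _
      rw [sum_boole, moment_single hg he (hχ i)]
    rw [sum_congr rfl h2, sum_const, card_univ, nsmul_eq_mul]
  -- the second moment
  have hsum2 : ∑ ε ∈ U, N ε ^ 2 ≤ a * c + a ^ 2 * b := by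
    have h1 : ∑ ε ∈ U, N ε ^ 2 ≤ ∑ ε ∈ signs X, N ε ^ 2 := by
      rw [hU]
      exact sum_le_sum_of_subset_of_nonneg (filter_subset _ _) fun _ _ _ => sq_nonneg _
    refine h1.trans ?_
    have h2 : ∀ ε, N ε ^ 2 = ∑ i, ∑ j, if ∑ x, ε x * χ i x = 0 ∧ ∑ x, ε x * χ j x = 0 then 1 else 0 := by
      intro ε
      rw [hN, sq, sum_mul_sum]
      apply sum_congr rfl
      intro i _
      apply sum_congr rfl
      intro j _
      by_cases h3 : ∑ x, ε x * χ i x = 0 <;> by_cases h4 : ∑ x, ε x * χ j x = 0 <;> simp [h3, h4]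
    have h3 : ∑ ε ∈ signs X, N ε ^ 2 = ∑ i, ∑ j,
        (((signs X).filter fun ε => ∑ x, ε x * χ i x = 0 ∧ ∑ x, ε x * χ j x = 0).card : ℝ) := by
      rw [sum_congr rfl fun ε _ => h2 ε, sum_comm]
      apply sum_congr rfl
      intro i _
      rw [sum_comm]
      apply sum_congr rfl
      intro j _
      rw [sum_boole]
    rw [h3]
    have h4 : ∀ i ∈ (univ : Finset ι), ∑ j,
        (((signs X).filter fun ε => ∑ x, ε x * χ i x = 0 ∧ ∑ x, ε x * χ j x = 0).card : ℝ) ≤
        c + a * b := by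
      intro i _
      have h5 : ∀ j ∈ (univ : Finset ι),
          (((signs X).filter fun ε => ∑ x, ε x * χ i x = 0 ∧ ∑ x, ε x * χ j x = 0).card : ℝ) ≤
          (if j = i then (c : ℝ) else 0) + b := by
        intro j _
        by_cases hj : j = i
        · subst hj
          rw [if_pos rfl]
          simp only [and_self]
          rw [moment_single hg he (hχ j)]
          have : (0 : ℝ) ≤ b := Nat.cast_nonneg _
          linarith
        · rw [if_neg hj, zero_add, Nat.cast_le]
          apply moment_pair hg (hχ i) (hχ j)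
          have h6 := hij i j (fun h => hj h.symm)
          rw [← h6]
          congr 1
          rw [← Set.ncard_coe_finset]
          congr 1
          ext x
          simp
      refine (sum_le_sum h5).trans (le_of_eq ?_)
      rw [sum_add_distrib, sum_ite_eq', if_pos (mem_univ _), sum_const, card_univ, nsmul_eq_mul]
    refine (sum_le_sum h4).trans (le_of_eq ?_)
    rw [sum_const, card_univ, nsmul_eq_mul, ← ha]
    ring
  have hCS : ((a : ℝ) * c) ^ 2 ≤ U.card * (a * c + a ^ 2 * b) := by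
    have h1 := sq_sum_le_card_mul_sum_sq (s := U) (f := N)
    rw [hsum1] at h1
    exact h1.trans (mul_le_mul_of_nonneg_left hsum2 (Nat.cast_nonneg _))
  -- the numerical part
  obtain ⟨n, hn⟩ := he
  have hn1 : 1 ≤ n := by omega
  set T : ℝ := 2 ^ g with hT
  have hT0 : 0 < T := by positivity
  set r : ℝ := Real.sqrt g with hr
  have hgR : (0 : ℝ) < g := by exact_mod_cast hg0
  have hr0 : 0 < r := Real.sqrt_pos.mpr hgR
  have hr2 : r ^ 2 = g := Real.sq_sqrt hgR.le
  have hcge : T ^ 2 ≤ (c : ℝ) ^ 2 * (2 * g) := by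
    have h1 := moment_central_ge hn1
    rw [Nat.centralBinom_eq_two_mul_choose] at h1
    have h2 : c = (2 * n).choose n := by rw [hc, hn, show (n + n) / 2 = n by omega, two_mul]
    rw [← h2] at h1
    have h3 : ((16 ^ n : ℕ) : ℝ) ≤ ((c ^ 2 * (4 * n) : ℕ) : ℝ) := by exact_mod_cast h1
    push_cast at h3
    have h4 : T ^ 2 = 16 ^ n := by
      rw [hT, hn, ← pow_mul, show (16 : ℝ) = 2 ^ 4 by norm_num, ← pow_mul]
      congr 1
      ring
    have h5 : (g : ℝ) = 2 * n := by rw [hn]; push_cast; ring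
    rw [h4, h5]
    calc (16 : ℝ) ^ n ≤ (c : ℝ) ^ 2 * (4 * n) := h3
      _ = _ := by ring
  have hble : (b : ℝ) * g ≤ 2 * T := by
    have h1 := moment_choose_sq_le (k := g / 2)
    have h2 : ((b * (g / 2) : ℕ) : ℝ) ≤ ((4 ^ (g / 2) : ℕ) : ℝ) := by exact_mod_cast h1
    have h3 : g / 2 = n := by omega
    rw [h3] at h2
    push_cast at h2
    have h4 : T = 4 ^ n := by
      rw [hT, hn, show (4 : ℝ) = 2 ^ 2 by norm_num, ← pow_mul]
      congr 1
      ring
    have h5 : (g : ℝ) = 2 * n := by rw [hn]; push_cast; ring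
    rw [h4, h5]
    linarith
  rcases Nat.eq_zero_or_pos a with ha0 | ha0
  · rw [ha0]
    simp
  have haR : (0 : ℝ) < a := by exact_mod_cast ha0
  have haR1 : (1 : ℝ) ≤ a := by exact_mod_cast ha0
  set u : ℝ := (U.card : ℝ) with hu
  have hu0 : 0 ≤ u := Nat.cast_nonneg _
  have hb0 : (0 : ℝ) ≤ b := Nat.cast_nonneg _
  have hc0 : (0 : ℝ) < c := by
    have : (0 : ℝ) < (c : ℝ) ^ 2 * (2 * g) := lt_of_lt_of_le (by positivity) hcge
    rcases (Nat.cast_nonneg c : (0 : ℝ) ≤ c).lt_or_eq with h | h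
    · exact h
    · rw [← h] at this
      simp at this
  -- a c² ≤ u (c + a b)
  have h1 : (a : ℝ) * c ^ 2 ≤ u * (c + a * b) := by
    have h2 : (a : ℝ) * (a * c ^ 2) ≤ a * (u * (c + a * b)) := by
      calc (a : ℝ) * (a * c ^ 2) = (a * c) ^ 2 := by ring
        _ ≤ u * (a * c + a ^ 2 * b) := hCS
        _ = _ := by ring
    exact le_of_mul_le_mul_left h2 haR
  -- s = √(2g)
  set s : ℝ := Real.sqrt (2 * g) with hs
  have hs2 : s ^ 2 = 2 * g := Real.sq_sqrt (by positivity)
  have hs0 : 0 < s := Real.sqrt_pos.mpr (by positivity)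
  have hcs : T ≤ c * s := by
    apply le_of_sq_le_sq _ (by positivity)
    rw [mul_pow, hs2]
    exact hcge
  have hsr : s ≤ 3 / 2 * r := by
    apply le_of_sq_le_sq _ (by positivity)
    rw [mul_pow, hs2, hr2]
    nlinarith
  have h3 : (a : ℝ) * T ≤ u * (s + 4 * a) := by
    -- c² (s + 4 a) ≥ T (c + a b)
    have h4 : T * (c + a * b) ≤ c ^ 2 * (s + 4 * a) := by
      have h5 : T * c ≤ c ^ 2 * s := by nlinarith
      have h6 : T * b ≤ c ^ 2 * 4 := by
        have h7 : T * b * g ≤ c ^ 2 * 4 * g := by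
          calc T * b * g = T * (b * g) := by ring
            _ ≤ T * (2 * T) := mul_le_mul_of_nonneg_left hble hT0.le
            _ = 2 * T ^ 2 := by ring
            _ ≤ 2 * (c ^ 2 * (2 * g)) := by linarith
            _ = _ := by ring
        exact le_of_mul_le_mul_right h7 hgR
      nlinarith
    have h5 : 0 < (c : ℝ) + a * b := by positivity
    have h6 : (a : ℝ) * T * (c + a * b) ≤ u * (s + 4 * a) * (c + a * b) := by
      calc (a : ℝ) * T * (c + a * b) = a * (T * (c + a * b)) := by ring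
        _ ≤ a * (c ^ 2 * (s + 4 * a)) := mul_le_mul_of_nonneg_left h4 haR.le
        _ = (a * c ^ 2) * (s + 4 * a) := by ring
        _ ≤ (u * (c + a * b)) * (s + 4 * a) := mul_le_mul_of_nonneg_right h1 (by positivity)
        _ = _ := by ring
    exact le_of_mul_le_mul_right h6 h5
  have h7 : (1 / 6 : ℝ) * min 1 (a / r) * (s + 4 * a) ≤ a := by
    rcases le_total (a : ℝ) r with h8 | h8
    · have h9 : min 1 ((a : ℝ) / r) ≤ a / r := min_le_right _ _
      have h10 : (1 / 6 : ℝ) * min 1 (a / r) * (s + 4 * a) ≤ (1 / 6 : ℝ) * (a / r) * (6 * r) := by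
        apply mul_le_mul _ _ (by positivity) (by positivity)
        · linarith
        · linarith
      refine h10.trans (le_of_eq ?_)
      field_simp
    · have h9 : min 1 ((a : ℝ) / r) ≤ 1 := min_le_left _ _
      have h9' : 0 ≤ min 1 ((a : ℝ) / r) := le_min (by norm_num) (by positivity)
      have h10 : (1 / 6 : ℝ) * min 1 (a / r) * (s + 4 * a) ≤ (1 / 6 : ℝ) * 1 * (6 * a) := by
        apply mul_le_mul _ _ (by positivity) (by positivity)
        · linarith
        · linarith
      linarith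
  have h11 : (1 / 6 : ℝ) * min 1 (a / r) * T * (s + 4 * a) ≤ u * (s + 4 * a) := by
    calc (1 / 6 : ℝ) * min 1 (a / r) * T * (s + 4 * a)
        = ((1 / 6 : ℝ) * min 1 (a / r) * (s + 4 * a)) * T := by ring
      _ ≤ a * T := mul_le_mul_of_nonneg_right h7 hT0.le
      _ ≤ _ := h3
  exact le_of_mul_le_mul_right h11 (by positivity)

end Pool.Agent.Lib.MP_640417_ag.All
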