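import Pool.Agent.Lib.MP_640417_ag.OddCMLower
import Pool.Agent.Lib.MP_640417_ag.All.Moment
import Pool.Agent.Lib.MP_640417_ag.All.Imprim
import Pool.Agent.Lib.MP_640417_ag.All.FieldCount

/-!
# The lower bound for CM fields

Fix `φ₀ : Emb E`. For an imaginary quadratic subfield `K` let `χ_K φ = 1` if `φ|K = φ₀|K` and `-1`
otherwise (then `φ|K = (conjEmb φ₀)|K`, as `K` has two embeddings and `φ₀`, `conjEmb φ₀` differ on
`K`: an `x ∈ K` with `conj x ≠ x`). So `χ_K (conjEmb φ) = - χ_K φ` and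
`χ_K (galEmb τ φ) = ± χ_K φ` with a sign depending only on `τ`. Hence if
`∑ φ, χ_K φ * sgnZ Φ φ = 0` then `χ_K ∈ relLattice Φ` (and `χ_K ≠ 0`).
For distinct `K`, `K'` the product `χ_K χ_K'` takes the value `1` on exactly half of `Emb E`: there
is `τ` (`exists_galEmb_eq`, `exists_preimage_of_fixed`, or: `K` and `K'` are linearly disjoint) with
`χ_K (galEmb τ φ) = χ_K φ`, `χ_K' (galEmb τ φ) = - χ_K' φ` for all `φ`; if no such `τ` existed then
every `τ` which is trivial on `φ₀ K` would be trivial on `φ₀ K'`, so `K' ⊆ K`.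
-/

set_option autoImplicit false

namespace Pool.Agent.Lib.MP_640417_ag.All

open Module Finset NumberField MulAction Pool.Agent.Lib.MP_640417_ag.Far
  Pool.Agent.Lib.MP_640417_ag.OddGal

variable {E : Type} [Field E] [NumberField E] [IsCMField E]

open Classical in
/-- The character of an imaginary quadratic subfield. -/
noncomputable def chiK (φ₀ : Emb E) (K : IntermediateField ℚ E) (φ : Emb E) : ℤ :=
  if ∀ x ∈ K, φ x = φ₀ x then 1 else -1

private theorem LowerCM_eq_one {φ₀ : Emb E} {K : IntermediateField ℚ E} {φ : Emb E} :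
    chiK φ₀ K φ = 1 ↔ ∀ x ∈ K, φ x = φ₀ x := by
  classical
  unfold chiK
  split_ifs with h
  · exact ⟨fun _ => h, fun _ => rfl⟩
  · constructor
    · intro h1
      norm_num at h1
    · intro h1
      exact absurd h1 h

omit [IsCMField E] in
private theorem LowerCM_cases (φ₀ : Emb E) (K : IntermediateField ℚ E) (φ : Emb E) :
    chiK φ₀ K φ = 1 ∨ chiK φ₀ K φ = -1 := by
  classical
  unfold chiK
  split_ifs <;> simp

omit [IsCMField E] in
/-- three embeddings of a quadratic field are not distinct -/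
private theorem LowerCM_three (K : IntermediateField ℚ E) (hK : finrank ℚ K = 2)
    (φ ψ θ : Emb E) (h1 : ¬ ∀ x ∈ K, φ x = ψ x) (h2 : ¬ ∀ x ∈ K, φ x = θ x) :
    ∀ x ∈ K, ψ x = θ x := by
  classical
  by_contra h3
  have hr : ∀ a b : Emb E, (a.comp (algebraMap K E) = b.comp (algebraMap K E)) →
      ∀ x ∈ K, a x = b x := by
    intro a b hab x hx
    exact congrArg (fun f : K →+* AlgebraicClosure ℚ => f ⟨x, hx⟩) hab
  let s : Finset (Emb K) := {φ.comp (algebraMap K E), ψ.comp (algebraMap K E),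
    θ.comp (algebraMap K E)}
  have hs : s.card = 3 := by
    apply Finset.card_eq_three.2
    exact ⟨_, _, _, fun h => h1 (hr _ _ h), fun h => h2 (hr _ _ h), fun h => h3 (hr _ _ h), rfl⟩
  have hle := Finset.card_le_univ s
  rw [hs, card_emb K, hK] at hle
  omega

private theorem LowerCM_conj_ne (K : IntermediateField ℚ E)
    (hK' : ∃ x ∈ K, IsCMField.complexConj E x ≠ x) (φ : Emb E) :
    ¬ ∀ x ∈ K, conjEmb φ x = φ x := by
  intro h
  obtain ⟨x, hx, hne⟩ := hK'
  exact hne (φ.injective (h x hx))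

theorem chiK_conj (φ₀ : Emb E) (K : IntermediateField ℚ E) (hK : finrank ℚ K = 2)
    (hK' : ∃ x ∈ K, IsCMField.complexConj E x ≠ x) (φ : Emb E) :
    chiK φ₀ K (conjEmb φ) = - chiK φ₀ K φ := by
  rcases LowerCM_cases φ₀ K φ with h | h
  · rw [h]
    rcases LowerCM_cases φ₀ K (conjEmb φ) with h' | h'
    · exfalso
      apply LowerCM_conj_ne K hK' φ
      intro x hx
      rw [LowerCM_eq_one.1 h' x hx, LowerCM_eq_one.1 h x hx]
    · exact h'
  · rw [h, neg_neg, LowerCM_eq_one]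
    refine LowerCM_three K hK φ _ _ (fun h1 => LowerCM_conj_ne K hK' φ fun x hx => (h1 x hx).symm)
      (fun h1 => ?_)
    rw [LowerCM_eq_one.2 h1] at h
    norm_num at h

private theorem LowerCM_gal (φ₀ : Emb E) (K : IntermediateField ℚ E) (hK : finrank ℚ K = 2)
    (hK' : ∃ x ∈ K, IsCMField.complexConj E x ≠ x) (τ : AbsGal) (φ : Emb E) :
    chiK φ₀ K (galEmb τ φ) = chiK φ₀ K (galEmb τ φ₀) * chiK φ₀ K φ := by
  have key : ∀ ψ : Emb E, chiK φ₀ K ψ = 1 → chiK φ₀ K (galEmb τ ψ) = chiK φ₀ K (galEmb τ φ₀) := by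
    intro ψ hψ
    have h1 : ∀ x ∈ K, galEmb τ ψ x = galEmb τ φ₀ x := by
      intro x hx
      rw [galEmb_apply, galEmb_apply, LowerCM_eq_one.1 hψ x hx]
    classical
    unfold chiK
    have h2 : (∀ x ∈ K, galEmb τ ψ x = φ₀ x) ↔ (∀ x ∈ K, galEmb τ φ₀ x = φ₀ x) :=
      ⟨fun h x hx => by rw [← h1 x hx, h x hx], fun h x hx => by rw [h1 x hx, h x hx]⟩
    simp only [h2]
  rcases LowerCM_cases φ₀ K φ with h | h
  · rw [h, mul_one, key φ h]
  · have h1 : chiK φ₀ K (conjEmb φ) = 1 := by rw [chiK_conj φ₀ K hK hK', h, neg_neg]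
    have h2 := key _ h1
    rw [galEmb_conjEmb, chiK_conj φ₀ K hK hK'] at h2
    rw [h, ← h2]
    ring

theorem chiK_mem_relLattice (φ₀ : Emb E) (K : IntermediateField ℚ E) (hK : finrank ℚ K = 2)
    (hK' : ∃ x ∈ K, IsCMField.complexConj E x ≠ x) (Φ : Set (Emb E)) (hΦ : IsCMType Φ)
    (h : ∑ φ, chiK φ₀ K φ * sgnZ Φ φ = 0) : chiK φ₀ K ∈ relLattice Φ := by
  rw [mem_relLattice]
  refine ⟨fun φ => chiK_conj φ₀ K hK hK' φ, fun τ => ?_⟩
  let e : Emb E ≃ Emb E :=
    { toFun := galEmb τ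
      invFun := galEmb τ⁻¹
      left_inv := fun φ => by
        apply RingHom.ext
        intro x
        change τ.symm (τ (φ x)) = φ x
        simp
      right_inv := fun φ => by
        apply RingHom.ext
        intro x
        change τ (τ.symm (φ x)) = φ x
        simp }
  have h1 : ∑ φ, chiK φ₀ K φ * sgnZ Φ (galEmb τ φ) =
      chiK φ₀ K (galEmb τ φ₀) * ∑ φ, chiK φ₀ K φ * sgnZ Φ φ := by
    rw [← Equiv.sum_comp e (fun φ => chiK φ₀ K φ * sgnZ Φ φ), Finset.mul_sum]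
    refine Finset.sum_congr rfl fun φ _ => ?_
    change _ = _ * (chiK φ₀ K (galEmb τ φ) * sgnZ Φ (galEmb τ φ))
    rw [LowerCM_gal φ₀ K hK hK' τ φ]
    rcases LowerCM_cases φ₀ K (galEmb τ φ₀) with h2 | h2 <;> rw [h2] <;> ring
  rw [h1, h, mul_zero]

private theorem LowerCM_exists (φ₀ : Emb E) (K K' : IntermediateField ℚ E) (hK : finrank ℚ K = 2)
    (hK' : finrank ℚ K' = 2) (hne : K ≠ K') :
    ∃ τ : AbsGal, chiK φ₀ K (galEmb τ φ₀) = 1 ∧ chiK φ₀ K' (galEmb τ φ₀) = -1 := by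
  by_contra hcon
  push Not at hcon
  have h1 : ∀ τ : AbsGal, (∀ x ∈ K, τ (φ₀ x) = φ₀ x) → ∀ x ∈ K', τ (φ₀ x) = φ₀ x := by
    intro τ hτ
    have h2 : chiK φ₀ K (galEmb τ φ₀) = 1 := LowerCM_eq_one.2 hτ
    rcases LowerCM_cases φ₀ K' (galEmb τ φ₀) with h3 | h3
    · exact LowerCM_eq_one.1 h3
    · exact absurd h3 (hcon τ h2)
  have h4 : K' ≤ K := by
    intro x hx
    obtain ⟨y, hy⟩ := exists_preimage_of_fixed (isAlgebraic_rat_of_alg _)
      (φ₀.comp (algebraMap K E)) (φ₀ x) (fun τ hτ => h1 τ (fun z hz => hτ ⟨z, hz⟩) x hx)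
    have h5 : (y : E) = x := φ₀.injective hy
    rw [← h5]
    exact y.2
  exact hne (IntermediateField.eq_of_le_of_finrank_eq h4 (by rw [hK, hK'])).symm

theorem chiK_half (φ₀ : Emb E) (K K' : IntermediateField ℚ E) (hK : finrank ℚ K = 2)
    (h1 : ∃ x ∈ K, IsCMField.complexConj E x ≠ x) (hK' : finrank ℚ K' = 2)
    (h2 : ∃ x ∈ K', IsCMField.complexConj E x ≠ x) (hne : K ≠ K') :
    2 * {φ : Emb E | chiK φ₀ K φ = chiK φ₀ K' φ}.ncard = finrank ℚ E := by
  classical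
  obtain ⟨τ, hτ, hτ'⟩ := LowerCM_exists φ₀ K K' hK hK' hne
  set S := {φ : Emb E | chiK φ₀ K φ = chiK φ₀ K' φ} with hS
  have hinj : Function.Injective (galEmb τ : Emb E → Emb E) := by
    intro φ ψ h
    apply RingHom.ext
    intro x
    exact τ.injective (congrArg (fun f : Emb E => f x) h)
  have hbij : Function.Bijective (galEmb τ : Emb E → Emb E) :=
    Finite.injective_iff_bijective.1 hinj
  have h3 : (galEmb τ : Emb E → Emb E) '' S = Sᶜ := by
    ext ψ
    obtain ⟨φ, rfl⟩ := hbij.2 ψ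
    rw [hinj.mem_set_image, Set.mem_compl_iff]
    simp only [hS, Set.mem_ofPred_eq]
    rw [LowerCM_gal φ₀ K hK h1, LowerCM_gal φ₀ K' hK' h2, hτ, hτ']
    rcases LowerCM_cases φ₀ K φ with h4 | h4 <;> rcases LowerCM_cases φ₀ K' φ with h5 | h5 <;>
      rw [h4, h5] <;> norm_num
  have h4 : Sᶜ.ncard = S.ncard := by
    rw [← h3, Set.ncard_image_of_injective _ hinj]
  have h5 := Set.ncard_add_ncard_compl S
  rw [h4, Nat.card_eq_fintype_card, card_emb] at h5
  omega

end Pool.Agent.Lib.MP_640417_ag.All
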