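import Pool.Agent.Lib.MP_640417_ag.All.Defs

/-!
# Finite groups of integral matrices
-/

set_option autoImplicit false

namespace Pool.Agent.Lib.MP_640417_ag.All

open Module Finset Matrix

private theorem mink_geom {n : ℕ} (X B : Matrix (Fin n) (Fin n) ℤ) (k : ℕ) (hk : 1 ≤ k)
    (hX : X = 1 + (3 ^ k : ℤ) • B) (m : ℕ) :
    ∃ C, ∑ i ∈ Finset.range m, X ^ i = (m : ℤ) • (1 : Matrix (Fin n) (Fin n) ℤ) + (3 : ℤ) • C := by
  obtain ⟨j, rfl⟩ : ∃ j, k = j + 1 := ⟨k - 1, by omega⟩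
  have hpow : ∀ i : ℕ, ∃ C, X ^ i = 1 + (3 : ℤ) • C := by
    intro i
    induction i with
    | zero => exact ⟨0, by simp⟩
    | succ i ih =>
      obtain ⟨C, hC⟩ := ih
      refine ⟨C + (3 ^ j : ℤ) • B + (3 * 3 ^ j : ℤ) • (C * B), ?_⟩
      rw [pow_succ, hC, hX]
      simp only [add_mul, mul_add, one_mul, mul_one, smul_mul_smul_comm, smul_add, smul_smul]
      rw [pow_succ]
      rw [show (3 : ℤ) * (3 ^ j * 3) = 3 * (3 * 3 ^ j) by ring,
        show (3 : ℤ) ^ j * 3 = 3 * 3 ^ j by ring]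
      abel
  induction m with
  | zero => exact ⟨0, by simp⟩
  | succ m ih =>
    obtain ⟨C, hC⟩ := ih
    obtain ⟨D, hD⟩ := hpow m
    refine ⟨C + D, ?_⟩
    rw [Finset.sum_range_succ, hC, hD]
    push_cast
    rw [add_smul, one_smul, smul_add]
    abel

private theorem mink_three {n : ℕ} (B : Matrix (Fin n) (Fin n) ℤ) (a : ℤ) (ha : ¬ (3 : ℤ) ∣ a)
    (C : Matrix (Fin n) (Fin n) ℤ) (h : a • B = (3 : ℤ) • C) : ∃ D, B = (3 : ℤ) • D := by
  have hc : IsCoprime (3 : ℤ) a := by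
    rw [Int.prime_three.coprime_iff_not_dvd]
    exact ha
  obtain ⟨u, v, huv⟩ := hc
  refine ⟨u • B + v • C, ?_⟩
  calc B = (u * 3 + v * a) • B := by rw [huv, one_smul]
    _ = (3 : ℤ) • (u • B) + v • (a • B) := by
      rw [add_smul, mul_smul, mul_smul, smul_comm u]
    _ = (3 : ℤ) • (u • B + v • C) := by rw [h, smul_add, smul_comm v]

private theorem mink_step {n : ℕ} (m : ℕ) : 0 < m → ∀ (X B : Matrix (Fin n) (Fin n) ℤ) (k : ℕ),
    1 ≤ k → X = 1 + (3 ^ k : ℤ) • B → X ^ m = 1 → ∃ D, B = (3 : ℤ) • D := by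
  induction m using Nat.strong_induction_on with
  | _ m ih =>
    intro hm X B k hk hX hXm
    by_cases h3 : 3 ∣ m
    · obtain ⟨m', rfl⟩ := h3
      have hm' : 0 < m' := by omega
      obtain ⟨j, rfl⟩ : ∃ j, k = j + 1 := ⟨k - 1, by omega⟩
      have hY : X ^ 3 = 1 + (3 ^ (j + 1 + 1) : ℤ) •
          (B + (3 : ℤ) • ((3 ^ j : ℤ) • (B * B) + (3 ^ (2 * j) : ℤ) • (B * B * B))) := by
        have e : X ^ 3 = 1 + (3 * 3 ^ (j + 1) : ℤ) • B
            + (3 * (3 ^ (j + 1) * 3 ^ (j + 1)) : ℤ) • (B * B)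
            + (3 ^ (j + 1) * 3 ^ (j + 1) * 3 ^ (j + 1) : ℤ) • (B * B * B) := by
          rw [hX, pow_succ, pow_two]
          simp only [add_mul, mul_add, one_mul, mul_one, smul_mul_smul_comm]
          rw [mul_smul (3 : ℤ) (3 ^ (j + 1)) B, mul_smul (3 : ℤ) (3 ^ (j + 1) * 3 ^ (j + 1)) (B * B)]
          generalize (3 ^ (j + 1) : ℤ) • B = P
          generalize ((3 ^ (j + 1) * 3 ^ (j + 1) : ℤ)) • (B * B) = Q
          rw [show (3 : ℤ) • P = P + P + P by
              rw [show (3 : ℤ) = 1 + 1 + 1 by norm_num, add_smul, add_smul, one_smul],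
            show (3 : ℤ) • Q = Q + Q + Q by
              rw [show (3 : ℤ) = 1 + 1 + 1 by norm_num, add_smul, add_smul, one_smul]]
          abel
        rw [e]
        simp only [smul_add, smul_smul]
        rw [show (3 * 3 ^ (j + 1) : ℤ) = 3 ^ (j + 1 + 1) by ring,
          show (3 * (3 ^ (j + 1) * 3 ^ (j + 1)) : ℤ) = 3 ^ (j + 1 + 1) * (3 * 3 ^ j) by ring,
          show (3 ^ (j + 1) * 3 ^ (j + 1) * 3 ^ (j + 1) : ℤ) = 3 ^ (j + 1 + 1) * (3 * 3 ^ (2 * j)) by
            ring]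
        abel
      rw [pow_mul] at hXm
      obtain ⟨D, hD⟩ := ih m' (by omega) hm' _ _ (j + 1 + 1) (by omega) hY hXm
      exact ⟨D - ((3 ^ j : ℤ) • (B * B) + (3 ^ (2 * j) : ℤ) • (B * B * B)), by
        rw [smul_sub, ← hD]; abel⟩
    · obtain ⟨C, hC⟩ := mink_geom X B k hk hX m
      have h0 : (X - 1) * ∑ i ∈ Finset.range m, X ^ i = 0 := by
        rw [mul_geom_sum, hXm, sub_self]
      rw [hC, hX, add_sub_cancel_left, smul_mul_assoc, smul_eq_zero] at h0
      have h1 : B * ((m : ℤ) • (1 : Matrix (Fin n) (Fin n) ℤ) + (3 : ℤ) • C) = 0 := by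
        rcases h0 with h0 | h0
        · exact absurd h0 (by positivity)
        · exact h0
      rw [mul_add, mul_smul_comm, mul_smul_comm, mul_one] at h1
      refine mink_three B (m : ℤ) (fun h => h3 (by exact_mod_cast h)) (-(B * C)) ?_
      rw [smul_neg]
      exact eq_neg_of_add_eq_zero_left h1

/-- Minkowski: an integral matrix of finite order which is congruent to `1` modulo `3` is `1`.
It suffices to treat prime order `q`. If `M = 1 + 3^k B ≠ 1` with `k ≥ 1` and `B` not divisible by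
`3`, then `1 = M^q = 1 + q 3^k B + C(q,2) 3^{2k} B² + …`: for `q ≠ 3` all further terms are
divisible by `3^{k+1}` and `q B` is not divisible by `3`; for `q = 3`,
`M³ = 1 + 3^{k+1} B + 3^{2k+1} B² + 3^{3k} B³`, and `2k+1, 3k ≥ k+2`. -/
theorem eq_one_of_mod_three {n : ℕ} (M : Matrix (Fin n) (Fin n) ℤ) (m : ℕ) (hm : 0 < m)
    (hM : M ^ m = 1) (h3 : redM 3 M = 1) : M = 1 := by
  have key : ∀ k : ℕ, ∃ B, M = 1 + (3 ^ (k + 1) : ℤ) • B := by
    intro k
    induction k with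
    | zero =>
      have : ∀ i j, (3 : ℤ) ∣ (M - 1) i j := by
        intro i j
        have h := congrFun (congrFun h3 i) j
        rw [redM, Matrix.map_apply] at h
        have h' : (((M - 1) i j : ℤ) : ZMod 3) = 0 := by
          rw [Matrix.sub_apply, Int.cast_sub, h]
          by_cases hij : i = j
          · subst hij; simp
          · simp [Matrix.one_apply_ne hij]
        exact_mod_cast (ZMod.intCast_zmod_eq_zero_iff_dvd _ 3).1 h'
      choose B hB using this
      refine ⟨Matrix.of B, ?_⟩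
      ext i j
      have := hB i j
      rw [Matrix.sub_apply] at this
      simp only [zero_add, pow_one, Matrix.add_apply, Matrix.smul_apply, Matrix.of_apply,
        smul_eq_mul]
      linarith
    | succ k ih =>
      obtain ⟨B, hB⟩ := ih
      obtain ⟨D, hD⟩ := mink_step m hm M B (k + 1) (by omega) hB hM
      refine ⟨D, ?_⟩
      rw [hB, hD, smul_smul, ← pow_succ]
  ext i j
  by_contra hne
  have hd : ∀ k : ℕ, (3 ^ (k + 1) : ℤ) ∣ (M i j - (1 : Matrix (Fin n) (Fin n) ℤ) i j) := by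
    intro k
    obtain ⟨B, hB⟩ := key k
    refine ⟨B i j, ?_⟩
    have := congrFun (congrFun hB i) j
    rw [Matrix.add_apply, Matrix.smul_apply, smul_eq_mul] at this
    rw [this]; ring
  set x := M i j - (1 : Matrix (Fin n) (Fin n) ℤ) i j with hx
  have hx0 : x ≠ 0 := sub_ne_zero.2 hne
  have h1 := Int.le_of_dvd (abs_pos.2 hx0) ((dvd_abs _ _).2 (hd x.natAbs))
  have h2 : (x.natAbs : ℤ) < 3 ^ (x.natAbs + 1) := by
    have : x.natAbs + 1 < 3 ^ (x.natAbs + 1) := Nat.lt_pow_self (by norm_num)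
    exact_mod_cast (by omega : x.natAbs < 3 ^ (x.natAbs + 1))
  rw [Int.natCast_natAbs] at h2
  linarith

variable {G : Type} [Group G] [Fintype G]

theorem ncard_range_le {n : ℕ} (ρ : G →* Matrix (Fin n) (Fin n) ℤ) :
    (Set.range ρ).ncard ≤ 3 ^ (n ^ 2) := by
  have hmul : ∀ A B : Matrix (Fin n) (Fin n) ℤ, redM 3 (A * B) = redM 3 A * redM 3 B := by
    intro A B
    exact (Matrix.map_mul (f := Int.castRingHom (ZMod 3)))
  have hinj : Set.InjOn (redM 3) (Set.range ρ) := by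
    rintro _ ⟨g, rfl⟩ _ ⟨h, rfl⟩ hgh
    have h1 : redM 3 (ρ (g⁻¹ * h)) = 1 := by
      rw [map_mul, hmul, ← hgh, ← hmul, ← map_mul, inv_mul_cancel, map_one, redM]
      exact Matrix.map_one _ Int.cast_zero Int.cast_one
    have h2 : ρ (g⁻¹ * h) = 1 :=
      eq_one_of_mod_three _ (Fintype.card G) Fintype.card_pos
        (by rw [← map_pow, pow_card_eq_one, map_one]) h1
    calc ρ g = ρ g * ρ (g⁻¹ * h) := by rw [h2, mul_one]
      _ = ρ h := by rw [← map_mul, mul_inv_cancel_left]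
  rw [← hinj.ncard_image]
  calc ((redM 3) '' Set.range ρ).ncard ≤ (Set.univ : Set (Matrix (Fin n) (Fin n) (ZMod 3))).ncard :=
        Set.ncard_le_ncard (Set.subset_univ _) Set.finite_univ
    _ = 3 ^ (n ^ 2) := by
        rw [Set.ncard_univ, Matrix, Nat.card_fun, Nat.card_fun, Nat.card_zmod, Nat.card_fin,
          ← pow_mul, sq]

end Pool.Agent.Lib.MP_640417_ag.All
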