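import Pool.Agent.Lib.MP_640417_ag.All.LemmaC

/-!
# Types with centre `ℚ` which are not split

Let `zc e = 1`. Take blocks `w` of `𝔽_p[G]` (`exists_blocks`). By `sum_finrank_eq` (and `0 <
finrank (D i)`) `blocksOf w e` consists of one block `i₀`, with `finrank (D i₀) = 1`, and
`n² ≤ rk e` for `n = n i₀` (`sum_sq_le`). Let `ε` be bad, `a = eltX τ ε`. The space
`I = {x | e x = x, x a = 0}` is a nonzero left ideal in `comp e`, so `(finrank I)² > rk e ≥ n²`,
that is `finrank I ≥ n + 1`. The lattice `N = relMod e a` has rank `finrank I`; it is saturated,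
so its reduction has dimension `≥ n + 1` over `𝔽_p` (tools: `linearIndependent_of_red`,
`finrank_le_of_lift` of `OddAlgC`). All blocks of `red x`, `x ∈ N`, other than `i₀` vanish, so the
matrices `w (red x) i₀` form a space of dimension `≥ n + 1` over `𝔽_p = D i₀`; their rows lie in
`K = {v | v ᵥ* A = 0}`, `A = w (red a) i₀`. Hence `n * dim K ≥ n + 1`, `dim K ≥ 2`, and at least
`p² - 1` nonzero rows are killed by `A`. Now count pairs (sign vector, killed row vector) as in
`card_mul_le_of_singular` and use the bound for the sum of `relSet` over the nonzero rows `u` of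
the block `i₀` (each `≤ 3 * 2^|X| / (number of rows)` by `card_relSetX_le`).
-/

set_option autoImplicit false

namespace Pool.Agent.Lib.MP_640417_ag.All

open Module Finset Matrix Pool.Agent.Lib.MP_640417_ag.OddGal

set_option linter.unusedSectionVars false

variable {G X : Type} [Group G] [Fintype G] [Fintype X] {c : G} {τ : X → G} {κ : ℕ}

/-- The saturated lattice of a rational subspace, reduced modulo `p`. -/
private theorem Nonsplit_lift (p : ℕ) [Fact p.Prime] (W : Submodule ℚ (MonoidAlgebra ℚ G)) :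
    ∃ x : Fin (finrank ℚ W) → MonoidAlgebra ℤ G, (∀ j, toQ (x j) ∈ W) ∧
      LinearIndependent (ZMod p) (fun j => red p (x j)) := by
  classical
  have hpp : p.Prime := Fact.out
  let N : Submodule ℤ (MonoidAlgebra ℤ G) :=
    { carrier := {y | toQ y ∈ W}
      zero_mem' := by
        change toQ 0 ∈ W
        rw [map_zero]; exact W.zero_mem
      add_mem' := by
        intro a b ha hb
        change toQ (a + b) ∈ W
        rw [map_add]; exact W.add_mem ha hb
      smul_mem' := by
        intro n a ha
        change toQ (n • a) ∈ W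
        rw [toQ_smul]; exact W.smul_mem _ ha }
  have hfin : Module.Finite ℤ N := inferInstance
  have hfree : Module.Free ℤ N := inferInstance
  let b := Module.finBasis ℤ N
  have hspan : W ≤ Submodule.span ℚ (Set.range (fun j => toQ (b j : MonoidAlgebra ℤ G))) := by
    intro z hz
    obtain ⟨m, hm, y, hy⟩ := exists_denominator z
    have hm' : (m : ℚ) ≠ 0 := by exact_mod_cast hm.ne'
    have hyN : y ∈ N := by
      change toQ y ∈ W
      rw [hy]; exact W.smul_mem _ hz
    have h1 : z = (m : ℚ)⁻¹ • toQ y := by rw [hy, smul_smul, inv_mul_cancel₀ hm', one_smul]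
    rw [h1]
    apply Submodule.smul_mem
    have h3 : y = ∑ j, (b.repr ⟨y, hyN⟩ j) • (b j : MonoidAlgebra ℤ G) := by
      have h2 := congrArg N.subtype (b.sum_repr ⟨y, hyN⟩)
      rw [map_sum] at h2
      simp only [map_smul, Submodule.subtype_apply] at h2
      exact h2.symm
    rw [h3, map_sum]
    refine Submodule.sum_mem _ fun j _ => ?_
    rw [toQ_smul]
    exact Submodule.smul_mem _ _ (Submodule.subset_span ⟨j, rfl⟩)
  have hle : finrank ℚ W ≤ finrank ℤ N := by
    calc finrank ℚ W ≤ finrank ℚ (Submodule.span ℚ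
          (Set.range (fun j => toQ (b j : MonoidAlgebra ℤ G)))) := Submodule.finrank_mono hspan
      _ ≤ Fintype.card (Fin (finrank ℤ N)) := finrank_range_le_card _
      _ = _ := Fintype.card_fin _
  have hli : LinearIndependent (ZMod p) (fun j => red p (b j : MonoidAlgebra ℤ G)) := by
    rw [Fintype.linearIndependent_iff]
    intro g hg j
    have h1 : red p (∑ j, ((g j).val : ℤ) • (b j : MonoidAlgebra ℤ G)) = 0 := by
      rw [map_sum, ← hg]
      refine Finset.sum_congr rfl fun j _ => ?_
      rw [red_smul]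
      simp
    obtain ⟨y, hy⟩ := exists_smul_of_red_eq_zero h1
    have hp0 : (p : ℚ) ≠ 0 := by exact_mod_cast hpp.ne_zero
    have hsN : ∑ j, ((g j).val : ℤ) • (b j : MonoidAlgebra ℤ G) ∈ N :=
      Submodule.sum_mem _ fun j _ => Submodule.smul_mem _ _ (b j).2
    have hyN : y ∈ N := by
      change toQ y ∈ W
      rw [hy] at hsN
      have h2 : toQ ((p : ℤ) • y) ∈ W := hsN
      rw [toQ_smul] at h2
      have h3 := W.smul_mem (((p : ℤ) : ℚ)⁻¹) h2
      rw [smul_smul, inv_mul_cancel₀ (by exact_mod_cast hpp.ne_zero), one_smul] at h3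
      exact h3
    have h4 : ∑ j, ((g j).val : ℤ) • b j = (p : ℤ) • (⟨y, hyN⟩ : N) := by
      apply Subtype.ext
      rw [Submodule.coe_smul, ← hy]
      simp
    have h5 := congrArg (fun z => b.repr z j) h4
    simp only [map_sum, map_smul, Basis.repr_self, Finsupp.coe_finsetSum, Finset.sum_apply,
      Finsupp.smul_apply, smul_eq_mul] at h5
    rw [Finset.sum_eq_single j] at h5
    · rw [Finsupp.single_eq_same, mul_one] at h5
      have h6 : ((((g j).val : ℕ) : ℤ) : ZMod p) = 0 := by
        rw [h5]
        push_cast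
        simp
      simpa using h6
    · intro i _ hij
      rw [Finsupp.single_eq_of_ne (Ne.symm hij), mul_zero]
    · intro h
      exact absurd (Finset.mem_univ j) h
  exact ⟨fun j => (b (Fin.castLE hle j)).1, fun j => (b _).2,
    hli.comp _ (Fin.castLE_injective hle)⟩

section killed

variable {p : ℕ} [Fact p.Prime] {ι : Type} [Fintype ι] [DecidableEq ι]
    {D : ι → Type} [∀ i, Field (D i)] [∀ i, Fintype (D i)] [∀ i, Algebra (ZMod p) (D i)]
    {n : ι → ℕ}

/-- The number of killed rows. -/
private theorem Nonsplit_killed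
    (w : MonoidAlgebra (ZMod p) G ≃ₐ[ZMod p] ((i : ι) → Matrix (Fin (n i)) (Fin (n i)) (D i)))
    (e : MonoidAlgebra ℚ G) (he : IsType e) (hs : ¬ Split e) (i₀ : ι)
    (hI : blocksOf w e = {i₀}) (hn2 : n i₀ ^ 2 ≤ rk e) (a : MonoidAlgebra ℤ G)
    (h : ∃ y : MonoidAlgebra ℤ G, y ≠ 0 ∧ e * toQ y = toQ y ∧ y * a = 0)
    [DecidablePred (fun v : Fin (n i₀) → D i₀ => v ≠ 0 ∧ v ᵥ* w (red p a) i₀ = 0)] :
    p ^ 2 - 1 ≤ ((Finset.univ : Finset (Fin (n i₀) → D i₀)).filter
      (fun v => v ≠ 0 ∧ v ᵥ* w (red p a) i₀ = 0)).card := by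
  classical
  have hpp : p.Prime := Fact.out
  have : ∀ i, Module.Finite (ZMod p) (D i) := fun i => Module.Finite.of_finite
  let W : Submodule ℚ (MonoidAlgebra ℚ G) :=
    { carrier := {x | e * x = x ∧ x * toQ a = 0}
      zero_mem' := by simp
      add_mem' := by
        rintro x y ⟨hx, hx'⟩ ⟨hy, hy'⟩
        exact ⟨by rw [mul_add, hx, hy], by rw [add_mul, hx', hy', add_zero]⟩
      smul_mem' := by
        rintro r x ⟨hx, hx'⟩
        exact ⟨by rw [mul_smul_comm, hx], by rw [smul_mul_assoc, hx', smul_zero]⟩ }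
  have hW : rk e < finrank ℚ W ^ 2 := by
    by_contra hle
    apply hs
    obtain ⟨y, hy0, hye, hya⟩ := h
    refine ⟨W, ?_, fun x hx => hx.1, ?_, not_lt.1 hle⟩
    · intro hbot
      have hyW : toQ y ∈ W := ⟨hye, by rw [← map_mul, hya, map_zero]⟩
      rw [hbot, Submodule.mem_bot] at hyW
      exact hy0 (toQ_injective (by rw [hyW, map_zero]))
    · rintro b x ⟨hx, hx'⟩
      exact ⟨by rw [← mul_assoc, he.central, mul_assoc, hx], by rw [mul_assoc, hx', mul_zero]⟩
  have hn1 : n i₀ + 1 ≤ finrank ℚ W := by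
    by_contra hlt
    have h1 : finrank ℚ W ≤ n i₀ := by omega
    have h2 : finrank ℚ W ^ 2 ≤ n i₀ ^ 2 := Nat.pow_le_pow_left h1 2
    omega
  obtain ⟨x, hxW, hli⟩ := Nonsplit_lift p W
  have hother : ∀ j i, i ≠ i₀ → w (red p (x j)) i = 0 := by
    intro j i hi
    by_contra hne
    have h1 : i ∈ blocksOf w e := (mem_blocksOf w e i).2 ⟨x j, (hxW j).1, hne⟩
    rw [hI, Finset.mem_singleton] at h1
    exact hi h1
  have hkill : ∀ j, w (red p (x j)) i₀ * w (red p a) i₀ = 0 := by
    intro j
    have h1 : x j * a = 0 := by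
      apply toQ_injective
      rw [map_mul, map_zero]
      exact (hxW j).2
    rw [← Pi.mul_apply, ← map_mul, ← map_mul, h1, map_zero, map_zero, Pi.zero_apply]
  let K : Submodule (ZMod p) (Fin (n i₀) → D i₀) :=
    { carrier := {v | v ᵥ* w (red p a) i₀ = 0}
      zero_mem' := by simp
      add_mem' := by
        intro u v hu hv
        change (u + v) ᵥ* _ = 0
        rw [Matrix.add_vecMul, show u ᵥ* w (red p a) i₀ = 0 from hu,
          show v ᵥ* w (red p a) i₀ = 0 from hv, add_zero]
      smul_mem' := by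
        intro r v hv
        change (r • v) ᵥ* _ = 0
        rw [Matrix.smul_vecMul, show v ᵥ* w (red p a) i₀ = 0 from hv, smul_zero] }
  have hrow : ∀ j r, w (red p (x j)) i₀ r ∈ K := by
    intro j r
    change w (red p (x j)) i₀ r ᵥ* w (red p a) i₀ = 0
    rw [← Matrix.mul_apply_eq_vecMul, hkill j]
    rfl
  let y : Fin (finrank ℚ W) → (Fin (n i₀) → K) := fun j r => ⟨w (red p (x j)) i₀ r, hrow j r⟩
  have hly : LinearIndependent (ZMod p) y := by
    rw [Fintype.linearIndependent_iff] at hli ⊢
    intro g hg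
    apply hli g
    apply w.injective
    rw [map_sum, map_zero]
    funext i
    rw [Finset.sum_apply, Pi.zero_apply]
    by_cases hi : i = i₀
    · subst hi
      ext r s
      have h1 := congrFun hg r
      rw [Finset.sum_apply, Pi.zero_apply] at h1
      have h2 := congrArg (fun z : K => (z : Fin (n i) → D i) s) h1
      simp only [Pi.smul_apply, Submodule.coe_sum, Submodule.coe_smul, Finset.sum_apply,
        ZeroMemClass.coe_zero, Pi.zero_apply, y] at h2
      rw [Matrix.sum_apply, Matrix.zero_apply]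
      rw [← h2]
      refine Finset.sum_congr rfl fun j _ => ?_
      rw [map_smul, Pi.smul_apply, Matrix.smul_apply]
    · apply Finset.sum_eq_zero
      intro j _
      rw [map_smul, Pi.smul_apply, hother j i hi, smul_zero]
  have hcard := hly.fintype_card_le_finrank
  rw [Fintype.card_fin, Module.finrank_pi_fintype, Finset.sum_const, Finset.card_univ,
    Fintype.card_fin, smul_eq_mul] at hcard
  have hK2 : 2 ≤ finrank (ZMod p) K := by
    by_contra hlt
    have h1 : finrank (ZMod p) K ≤ 1 := by omega
    have h2 : n i₀ * finrank (ZMod p) K ≤ n i₀ * 1 := Nat.mul_le_mul_left _ h1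
    omega
  have hKcard : p ^ 2 ≤ Nat.card K := by
    rw [Module.natCard_eq_pow_finrank (K := ZMod p) (V := K), Nat.card_zmod]
    exact Nat.pow_le_pow_right hpp.pos hK2
  have hKf : Nat.card K = ((Finset.univ : Finset (Fin (n i₀) → D i₀)).filter
      (fun v => v ᵥ* w (red p a) i₀ = 0)).card := by
    rw [← Set.ncard_coe_finset, ← Nat.card_coe_set_eq]
    apply Nat.card_congr
    refine Equiv.subtypeEquivRight fun v => ?_
    rw [Finset.mem_coe, Finset.mem_filter]
    exact ⟨fun hv => ⟨Finset.mem_univ _, hv⟩, fun hv => hv.2⟩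
  have hers : (Finset.univ : Finset (Fin (n i₀) → D i₀)).filter
      (fun v => v ≠ 0 ∧ v ᵥ* w (red p a) i₀ = 0)
      = ((Finset.univ : Finset (Fin (n i₀) → D i₀)).filter
      (fun v => v ᵥ* w (red p a) i₀ = 0)).erase 0 := by
    ext v
    simp only [Finset.mem_filter, Finset.mem_univ, true_and, Finset.mem_erase]
  rw [hers, Finset.card_erase_of_mem (by simp), ← hKf]
  exact Nat.sub_le_sub_right hKcard 1

/-- Double counting of pairs (sign vector, row vector), one block. -/
private theorem Nonsplit_count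
    (w : MonoidAlgebra (ZMod p) G ≃ₐ[ZMod p] ((i : ι) → Matrix (Fin (n i)) (Fin (n i)) (D i)))
    (i₀ : ι) (Bd : Finset (X → ℤ)) (hBd : Bd ⊆ signs X)
    (hsing : ∀ ε ∈ Bd, p ^ 2 - 1 ≤ {v : Fin (n i₀) → D i₀ |
      v ≠ 0 ∧ v ᵥ* w (red p (eltX τ ε)) i₀ = 0}.ncard)
    (C : ℝ) (hsum : ∑ u ∈ fullRows D n {i₀},
      ((relSet p (fun x => act w {i₀} u (MonoidAlgebra.single (τ x) 1))).card : ℝ) ≤ C) :
    (Bd.card : ℝ) * ((p : ℝ) ^ 2 - 1) ≤ C := by
  classical
  refine le_trans ?_ hsum
  have hp : 1 ≤ p ^ 2 := Nat.one_le_pow _ _ (Fact.out : p.Prime).pos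
  have hcast : ((p : ℝ) ^ 2 - 1) = ((p ^ 2 - 1 : ℕ) : ℝ) := by
    rw [Nat.cast_sub hp]
    simp
  rw [hcast]
  have h1 : Bd.card * (p ^ 2 - 1) ≤ ∑ u ∈ fullRows D n {i₀},
      (relSet p (fun x => act w {i₀} u (MonoidAlgebra.single (τ x) 1))).card := by
    calc Bd.card * (p ^ 2 - 1)
        = ∑ ε ∈ Bd, (p ^ 2 - 1) := by
          rw [Finset.sum_const, smul_eq_mul]
      _ ≤ ∑ ε ∈ Bd, ((fullRows D n {i₀}).filter (fun u =>
            ε ∈ relSet p (fun x => act w {i₀} u (MonoidAlgebra.single (τ x) 1)))).card := by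
          apply Finset.sum_le_sum
          intro ε hε
          refine (hsing ε hε).trans ?_
          have h2 : {v : Fin (n i₀) → D i₀ |
              v ≠ 0 ∧ v ᵥ* w (red p (eltX τ ε)) i₀ = 0}.ncard
              = (Fintype.piFinset (fun i : ({i₀} : Finset ι) =>
                (Finset.univ : Finset (Fin (n i) → D i)).filter
                (fun v => v ≠ 0 ∧ v ᵥ* w (red p (eltX τ ε)) i = 0))).card := by
            rw [Fintype.card_piFinset, Finset.prod_coe_sort {i₀} (fun i =>
                ((Finset.univ : Finset (Fin (n i) → D i)).filter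
                (fun v => v ≠ 0 ∧ v ᵥ* w (red p (eltX τ ε)) i = 0)).card),
                Finset.prod_singleton, ← Set.ncard_coe_finset]
            congr 1
            ext v
            simp
          rw [h2]
          apply Finset.card_le_card
          intro u hu
          rw [Fintype.mem_piFinset] at hu
          have hu1 : ∀ i, u i ≠ 0 := fun i => (Finset.mem_filter.1 (hu i)).2.1
          have hu2 : ∀ i, u i ᵥ* w (red p (eltX τ ε)) i = 0 :=
            fun i => (Finset.mem_filter.1 (hu i)).2.2
          rw [Finset.mem_filter, mem_fullRows]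
          refine ⟨hu1, ?_⟩
          simp only [relSet, Finset.mem_filter]
          refine ⟨hBd hε, ?_⟩
          have h3 : act w {i₀} u (red p (eltX τ ε)) = 0 := by
            funext i
            exact hu2 i
          have h4 : red p (eltX τ ε) =
              ∑ x, ((ε x : ℤ) : ZMod p) • MonoidAlgebra.single (τ x) (1 : ZMod p) := by
            rw [eltX, map_sum]
            refine Finset.sum_congr rfl fun x _ => ?_
            rw [red, MonoidAlgebra.mapRingHom_single]
            simp
          rw [h4, map_sum] at h3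
          rw [← h3]
          apply Finset.sum_congr rfl
          intro h _
          rw [map_smul]
      _ = ∑ u ∈ fullRows D n {i₀}, (Bd.filter (fun ε =>
            ε ∈ relSet p (fun x => act w {i₀} u (MonoidAlgebra.single (τ x) 1)))).card := by
          simp only [Finset.card_filter]
          rw [Finset.sum_comm]
      _ ≤ _ := by
          apply Finset.sum_le_sum
          intro u _
          apply Finset.card_le_card
          intro ε hε
          rw [Finset.mem_filter] at hε
          exact hε.2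
  exact_mod_cast h1

end killed

theorem nonsplit_bound (hc : Cover c τ κ) (p : ℕ) [Fact p.Prime] (hp2 : p ≠ 2)
    (hp : ¬ p ∣ Fintype.card G) (e : MonoidAlgebra ℚ G) (he : IsType e) (ho : OddE c e)
    (hz : zc e = 1) (hs : ¬ Split e) (d : ℕ) (hd2 : rk e ≤ d ^ 2)
    (hnum : 4 * d * Real.exp (-(2 * ((Fintype.card X / d : ℕ) : ℝ) / p ^ 2)) ≤ 1) :
    ((badSetX e τ).card : ℝ) * ((p : ℝ) ^ 2 - 1) ≤ 3 * 2 ^ Fintype.card X := by
  classical
  obtain ⟨k, D, n, iF, iT, iA, hn, ⟨w⟩⟩ := exists_blocks G p hp
  have : ∀ i, Module.Finite (ZMod p) (D i) := fun i => Module.Finite.of_finite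
  have hsum := sum_finrank_eq hp hn w e he
  rw [hz] at hsum
  have hfr : ∀ i, 0 < finrank (ZMod p) (D i) := fun i => finrank_pos
  obtain ⟨i₀, hI⟩ : ∃ i₀, blocksOf w e = {i₀} := by
    rw [← Finset.card_eq_one]
    have h1 : (blocksOf w e).card ≤ ∑ i ∈ blocksOf w e, finrank (ZMod p) (D i) := by
      rw [Finset.card_eq_sum_ones]
      exact Finset.sum_le_sum fun i _ => hfr i
    have h2 : (blocksOf w e).card ≠ 0 := by
      intro h
      rw [Finset.card_eq_zero] at h
      rw [h, Finset.sum_empty] at hsum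
      omega
    omega
  have hD1 : finrank (ZMod p) (D i₀) = 1 := by
    rw [hI, Finset.sum_singleton] at hsum
    exact hsum
  have hn2 : n i₀ ^ 2 ≤ rk e := by
    have h1 := sum_sq_le hp hn w e he
    rw [hI, Finset.sum_singleton, hD1, mul_one] at h1
    exact h1
  have hnd : n i₀ ≤ d := (Nat.pow_le_pow_iff_left two_ne_zero).mp (hn2.trans hd2)
  apply Nonsplit_count (τ := τ) w i₀ (badSetX e τ) (Finset.filter_subset _ _)
  · intro ε hε
    rw [badSetX, Finset.mem_filter] at hε
    have h1 := Nonsplit_killed w e he hs i₀ hI hn2 (eltX τ ε) hε.2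
    refine h1.trans (le_of_eq ?_)
    rw [← Set.ncard_coe_finset]
    congr 1
    ext v
    simp
  · have hfrR : finrank (ZMod p) (Rows D n {i₀}) ≤ d := by
      refine le_trans (le_of_eq ?_) hnd
      rw [Module.finrank_pi_fintype,
        Finset.sum_coe_sort {i₀} (fun i => finrank (ZMod p) (Fin (n i) → D i)),
        Finset.sum_singleton, Module.finrank_pi_fintype]
      simp [hD1]
    have hS : (0 : ℝ) < Fintype.card (Rows D n {i₀}) := by exact_mod_cast Fintype.card_pos
    have h1 : ∀ u ∈ fullRows D n {i₀},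
        ((relSet p (fun x => act w {i₀} u (MonoidAlgebra.single (τ x) 1))).card : ℝ)
          ≤ 3 * 2 ^ Fintype.card X / Fintype.card (Rows D n {i₀}) := by
      intro u hu
      rw [mem_fullRows] at hu
      rw [le_div_iff₀ hS]
      refine card_relSetX_le hc hp2 (fun h => act w {i₀} u (MonoidAlgebra.single h 1))
        (trans w {i₀}) (fun k h => trans_act w {i₀} u k h)
        (span_act_single w {i₀} u (act_surjective w {i₀} u hu)) ?_ d hfrR hnum
      intro h
      funext i
      have hi : (i : Fin k) ∈ blocksOf w e := by rw [hI]; exact i.2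
      have h2 := w_single_c hp w e he ho i hi
      rw [act_apply]
      change _ = - (u i ᵥ* w (MonoidAlgebra.single h 1) i)
      have h3 : (MonoidAlgebra.single (c * h) (1 : ZMod p) : MonoidAlgebra (ZMod p) G)
          = MonoidAlgebra.single c 1 * MonoidAlgebra.single h 1 := by
        rw [MonoidAlgebra.single_mul_single, one_mul]
      rw [h3, map_mul, Pi.mul_apply, h2, neg_one_mul, Matrix.vecMul_neg]
    refine (Finset.sum_le_sum h1).trans ?_
    rw [Finset.sum_const, nsmul_eq_mul, ← mul_div_assoc, div_le_iff₀ hS, mul_comm]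
    apply mul_le_mul_of_nonneg_left _ (by positivity)
    exact_mod_cast Finset.card_le_univ _

end Pool.Agent.Lib.MP_640417_ag.All
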