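import Pool.Agent.Lib.MP_640417_ag.Far.Prime

/-!
# Numerical bounds for one type: two primes
-/

set_option autoImplicit false

namespace Pool.Agent.Lib.MP_640417_ag.All

open Pool.Agent.Lib.MP_640417_ag.Far

/-- The Gaussian sum: for `Y ≥ 0` the terms with `|y| ≤ Y` contribute at most `2 Y + 1` and the
others at most `exp (-2 t Y² / q²)` each. -/
theorem gauss_sum_le (p : ℕ) [NeZero p] (t q Y : ℝ) (ht : 0 ≤ t) (hq : 0 < q) (hY : 0 ≤ Y) :
    ∑ y : ZMod p, Real.exp (-(2 * t * (y.valMinAbs : ℝ) ^ 2 / q ^ 2))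
      ≤ 2 * Y + 1 + p * Real.exp (-(2 * t * Y ^ 2 / q ^ 2)) := by
  classical
  have hsplit := Finset.sum_filter_add_sum_filter_not (Finset.univ : Finset (ZMod p))
    (fun y => |(y.valMinAbs : ℝ)| ≤ Y)
    (fun y => Real.exp (-(2 * t * (y.valMinAbs : ℝ) ^ 2 / q ^ 2)))
  rw [← hsplit]
  apply add_le_add
  · have h1 : ∑ y ∈ Finset.univ.filter (fun y : ZMod p => |(y.valMinAbs : ℝ)| ≤ Y),
        Real.exp (-(2 * t * (y.valMinAbs : ℝ) ^ 2 / q ^ 2)) ≤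
        ∑ _y ∈ Finset.univ.filter (fun y : ZMod p => |(y.valMinAbs : ℝ)| ≤ Y), (1 : ℝ) := by
      apply Finset.sum_le_sum
      intro y _
      rw [Real.exp_le_one_iff]
      have : 0 ≤ 2 * t * (y.valMinAbs : ℝ) ^ 2 / q ^ 2 := by positivity
      linarith
    refine h1.trans ?_
    rw [Finset.sum_const, nsmul_eq_mul, mul_one]
    have h2 : (Finset.univ.filter (fun y : ZMod p => |(y.valMinAbs : ℝ)| ≤ Y)).card ≤
        (Finset.Icc (-⌊Y⌋) ⌊Y⌋).card := by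
      apply Finset.card_le_card_of_injOn (fun y => y.valMinAbs)
      · intro y hy
        have hy' : |(y.valMinAbs : ℝ)| ≤ Y := by simpa using hy
        rw [abs_le] at hy'
        simp only [Finset.coe_Icc, Set.mem_Icc]
        constructor
        · have : -(y.valMinAbs) ≤ ⌊Y⌋ := by
            apply Int.le_floor.2
            push_cast
            linarith [hy'.1]
          omega
        · exact Int.le_floor.2 hy'.2
      · intro y _ z _ hyz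
        exact ZMod.injective_valMinAbs hyz
    have h3 : ((Finset.Icc (-⌊Y⌋) ⌊Y⌋).card : ℝ) ≤ 2 * Y + 1 := by
      rw [Int.card_Icc]
      have h4 : 0 ≤ ⌊Y⌋ := Int.floor_nonneg.2 hY
      have h5 : ((⌊Y⌋ + 1 - -⌊Y⌋).toNat : ℤ) = 2 * ⌊Y⌋ + 1 := by
        rw [Int.toNat_of_nonneg (by omega)]
        ring
      have h6 : (((⌊Y⌋ + 1 - -⌊Y⌋).toNat : ℤ) : ℝ) = 2 * (⌊Y⌋ : ℝ) + 1 := by
        rw [h5]
        push_cast
        ring
      have h7 : (((⌊Y⌋ + 1 - -⌊Y⌋).toNat : ℕ) : ℝ) = 2 * (⌊Y⌋ : ℝ) + 1 := by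
        rw [← h6]
        norm_cast
      rw [h7]
      have := Int.floor_le Y
      linarith
    calc ((Finset.univ.filter (fun y : ZMod p => |(y.valMinAbs : ℝ)| ≤ Y)).card : ℝ)
        ≤ ((Finset.Icc (-⌊Y⌋) ⌊Y⌋).card : ℝ) := by exact_mod_cast h2
      _ ≤ 2 * Y + 1 := h3
  · have h1 : ∑ y ∈ Finset.univ.filter (fun y : ZMod p => ¬ |(y.valMinAbs : ℝ)| ≤ Y),
        Real.exp (-(2 * t * (y.valMinAbs : ℝ) ^ 2 / q ^ 2)) ≤
        ∑ _y ∈ Finset.univ.filter (fun y : ZMod p => ¬ |(y.valMinAbs : ℝ)| ≤ Y),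
          Real.exp (-(2 * t * Y ^ 2 / q ^ 2)) := by
      apply Finset.sum_le_sum
      intro y hy
      have hy' : Y < |(y.valMinAbs : ℝ)| := by simpa using hy
      apply Real.exp_le_exp.2
      apply neg_le_neg
      have : Y ^ 2 ≤ (y.valMinAbs : ℝ) ^ 2 := by
        rw [← sq_abs (y.valMinAbs : ℝ)]
        gcongr
      gcongr
    refine h1.trans ?_
    rw [Finset.sum_const, nsmul_eq_mul]
    apply mul_le_mul_of_nonneg_right _ (Real.exp_pos _).le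
    have : (Finset.univ.filter (fun y : ZMod p => ¬ |(y.valMinAbs : ℝ)| ≤ Y)).card ≤ p := by
      refine (Finset.card_filter_le _ _).trans ?_
      rw [Finset.card_univ, ZMod.card]
    exact_mod_cast this

/-- The asymptotic facts which are used. -/
private lemma numB_large (δ : ℝ) (hδ : 0 < δ) (P₀ : ℝ) :
    ∃ g₀ : ℕ, 1 ≤ g₀ ∧ ∀ g : ℕ, g₀ ≤ g →
      16 * Real.log (4 * g) ≤ (g : ℝ) ^ (δ / 32) ∧ 16 ≤ (g : ℝ) ^ (δ / 32) ∧
      P₀ ≤ (g : ℝ) ^ (δ / 32) := by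
  have h1 : ∀ᶠ x : ℝ in Filter.atTop, ‖Real.log x‖ ≤ (1 / 32) * ‖x ^ (δ / 32)‖ :=
    (isLittleO_log_rpow_atTop (r := δ / 32) (by positivity)).def (by norm_num)
  have h2 : ∀ᶠ x : ℝ in Filter.atTop, 16 ≤ x ^ (δ / 32) :=
    (tendsto_rpow_atTop (y := δ / 32) (by positivity)).eventually_ge_atTop 16
  have h2' : ∀ᶠ x : ℝ in Filter.atTop, 32 * Real.log 4 ≤ x ^ (δ / 32) :=
    (tendsto_rpow_atTop (y := δ / 32) (by positivity)).eventually_ge_atTop _
  have h3 : ∀ᶠ x : ℝ in Filter.atTop, P₀ ≤ x ^ (δ / 32) :=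
    (tendsto_rpow_atTop (y := δ / 32) (by positivity)).eventually_ge_atTop P₀
  have h4 : ∀ᶠ x : ℝ in Filter.atTop, 16 * Real.log (4 * x) ≤ x ^ (δ / 32) ∧
      16 ≤ x ^ (δ / 32) ∧ P₀ ≤ x ^ (δ / 32) := by
    filter_upwards [h1, h2, h2', h3, Filter.eventually_gt_atTop 0] with x hx1 hx2 hx2' hx3 hx4
    refine ⟨?_, hx2, hx3⟩
    rw [Real.log_mul (by norm_num) hx4.ne']
    have := le_trans (le_abs_self _) hx1
    rw [Real.norm_of_nonneg (by positivity)] at this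
    linarith
  obtain ⟨g₀, hg₀⟩ := Filter.eventually_atTop.1
    ((tendsto_natCast_atTop_atTop (R := ℝ)).eventually h4)
  exact ⟨max g₀ 1, le_max_right _ _, fun g hg => hg₀ g (le_trans (le_max_left _ _) hg)⟩

/-- The quotient `g / n`. -/
private lemma numB_div {g n : ℕ} (hn : 0 < n) (h : 2 * (n : ℝ) ≤ g) :
    (g : ℝ) / (2 * n) ≤ ((g / n : ℕ) : ℝ) := by
  have hn0 : (0 : ℝ) < n := by exact_mod_cast hn
  have h1 : g < n * (g / n + 1) := Nat.lt_mul_div_succ g hn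
  have h2 : (g : ℝ) < n * (((g / n : ℕ) : ℝ) + 1) := by exact_mod_cast h1
  have h3 : (g : ℝ) / n < ((g / n : ℕ) : ℝ) + 1 := by
    rw [div_lt_iff₀ hn0]
    linarith
  have h4 : (1 : ℝ) ≤ (g : ℝ) / (2 * n) := by
    rw [one_le_div (by positivity)]
    exact h
  have h5 : (g : ℝ) / n = 2 * ((g : ℝ) / (2 * n)) := by
    field_simp
  linarith

/-- The exponential condition. -/
private lemma numB_exp {n : ℕ} {t P p v : ℝ} (hn : 0 < n) (hp : 0 < p) (hpP : p ≤ P)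
    (h1 : v * P ^ 2 ≤ 2 * t) (hv : 0 ≤ v) (h2 : Real.log (4 * n) ≤ v) :
    4 * n * Real.exp (-(2 * t / p ^ 2)) ≤ 1 := by
  have hn0 : (0 : ℝ) < n := by exact_mod_cast hn
  have h3 : v ≤ 2 * t / p ^ 2 := by
    rw [le_div_iff₀ (by positivity)]
    have : v * p ^ 2 ≤ v * P ^ 2 := by gcongr
    linarith
  have h4 : Real.exp (-(2 * t / p ^ 2)) ≤ Real.exp (-Real.log (4 * n)) :=
    Real.exp_le_exp.2 (by linarith)
  rw [Real.exp_neg (Real.log (4 * (n : ℝ))), Real.exp_log (by positivity)] at h4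
  calc 4 * n * Real.exp (-(2 * t / p ^ 2)) ≤ 4 * n * (4 * (n : ℝ))⁻¹ := by gcongr
    _ = 1 := by
      field_simp

private lemma numB_pred {p : ℕ} {P : ℝ} (hp : p.Prime) (hp2 : p ≠ 2) (hp8 : P / 8 < p) :
    P / 16 ≤ (p : ℝ) - 1 := by
  have h2 := hp.two_le
  have : 3 ≤ p := by omega
  have hp3 : (3 : ℝ) ≤ p := by exact_mod_cast this
  linarith

/-- Small degree: two primes. -/
private lemma numB_A {P₀ : ℝ} (hP : ∀ P : ℝ, P₀ ≤ P → ∀ N : ℕ, 0 < N → 4 * Real.log N ≤ P →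
    ∃ p : ℕ, p.Prime ∧ P / 8 < p ∧ (p : ℝ) ≤ P ∧ ¬ p ∣ N ∧ p ≠ 2)
    {g n N : ℕ} {x s u a : ℝ} (hn : 0 < n) (hN : 0 < N) (hNg : N ≤ 2 * g) (hx : 0 ≤ x)
    (hs : 0 < s) (hs2 : s ^ 2 = g) (ha : 1 ≤ a) (ha2 : a ^ 2 = n)
    (hu : 16 ≤ u) (huP : P₀ ≤ u) (hus : u ^ 32 ≤ s) (hlog : 16 * Real.log (4 * g) ≤ u)
    (hc : n * u ^ 16 ≤ s) (hun : s ≤ u ^ n)
    (hB : ∀ p p' : ℕ, p.Prime → p'.Prime → p ≠ p' → p ≠ 2 → p' ≠ 2 → ¬ p ∣ N → ¬ p' ∣ N →
        ∀ t : ℕ, n * t ≤ g → 4 * n * Real.exp (-(2 * (t : ℝ) / p ^ 2)) ≤ 1 →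
        4 * n * Real.exp (-(2 * (t : ℝ) / p' ^ 2)) ≤ 1 →
        4 * (n : ℝ) ^ 2 * (p' : ℝ) ^ 2 * Real.log ((p : ℝ) * p') < g →
        (p' : ℝ) * ((2 * (p * p' * u ^ 2 / Real.sqrt t) + 1 +
          p * Real.exp (-(2 * u ^ 4))) / p') ^ n ≤ 1 →
        x * (((p : ℝ) - 1) * ((p' : ℝ) - 1)) ≤ 9) :
    x ≤ 2304 * (u ^ 12 / s ^ 2) * a ^ 3 := by
  have hu0 : 0 < u := by linarith
  have hu1 : 1 ≤ u := by linarith
  have ha0 : 0 < a := by linarith
  have hn1 : (1 : ℝ) ≤ n := by exact_mod_cast hn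
  have hn0 : (0 : ℝ) < n := by linarith
  have hg0 : (0 : ℝ) < g := by rw [← hs2]; positivity
  have hpow : ∀ k l : ℕ, k ≤ l → u ^ k ≤ u ^ l := fun k l h => pow_le_pow_right₀ hu1 h
  have hu_le : ∀ k : ℕ, 1 ≤ k → u ≤ u ^ k := fun k h => by
    simpa using hpow 1 k h
  have hs1 : 1 ≤ s := by
    have := hpow 0 32 (by norm_num)
    rw [pow_zero] at this
    linarith
  have hs4 : 16 ≤ s := by
    have := hu_le 32 (by norm_num)
    linarith
  have hns : (n : ℝ) ≤ s := by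
    have : (n : ℝ) * 1 ≤ n * u ^ 16 := by
      gcongr
      have := hpow 0 16 (by norm_num)
      rwa [pow_zero] at this
    linarith
  -- logarithms
  have hlog4 : Real.log 4 ≤ Real.log (4 * g) := by
    apply Real.log_le_log (by norm_num)
    rw [← hs2]
    nlinarith
  have hlogg : Real.log g ≤ Real.log (4 * g) := Real.log_le_log hg0 (by linarith)
  have hlog4' : 0 ≤ Real.log 4 := Real.log_nonneg (by norm_num)
  -- the two sizes
  set P' : ℝ := s / (u ^ 8 * n) with hP'def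
  set P : ℝ := s / (a * u ^ 4) with hPdef
  have hP'0 : 0 < P' := by positivity
  have hP0 : 0 < P := by positivity
  have hP'u : u ^ 8 ≤ P' := by
    rw [hP'def, le_div_iff₀ (by positivity)]
    calc u ^ 8 * (u ^ 8 * n) = n * u ^ 16 := by ring
      _ ≤ s := hc
  have hP's : P' ≤ s := by
    rw [hP'def]
    apply div_le_self hs.le
    have := hpow 0 8 (by norm_num)
    rw [pow_zero] at this
    nlinarith
  have han : a ≤ n := by rw [← ha2]; nlinarith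
  have hPu : u ^ 4 ≤ P := by
    rw [hPdef, le_div_iff₀ (by positivity)]
    calc u ^ 4 * (a * u ^ 4) = a * u ^ 8 := by ring
      _ ≤ n * u ^ 16 := mul_le_mul han (hpow 8 16 (by norm_num)) (by positivity) hn0.le
      _ ≤ s := hc
  have hPs : P ≤ s := by
    rw [hPdef]
    apply div_le_self hs.le
    have := hpow 0 4 (by norm_num)
    rw [pow_zero] at this
    nlinarith
  -- the prime p'
  have hN0 : (0 : ℝ) < N := by exact_mod_cast hN
  have hNg' : (N : ℝ) ≤ 2 * g := by exact_mod_cast hNg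
  have hlogN : Real.log N ≤ Real.log (4 * g) := Real.log_le_log hN0 (by linarith)
  obtain ⟨p', hp', hp'8, hp'P, hp'N, hp'2⟩ := hP P' (by linarith [hu_le 8 (by norm_num)]) N hN
    (by linarith [hu_le 8 (by norm_num)])
  have hp'3 : (3 : ℝ) ≤ p' := by
    have h2 := hp'.two_le
    have : 3 ≤ p' := by omega
    exact_mod_cast this
  have hp's : (p' : ℝ) ≤ s := hp'P.trans hP's
  have hlogp' : Real.log p' ≤ Real.log (4 * g) := by
    apply Real.log_le_log (by linarith)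
    rw [← hs2]
    nlinarith
  obtain ⟨p, hp, hp8, hpP, hpN, hp2⟩ := hP P (by linarith [hu_le 4 (by norm_num)]) (N * p')
    (Nat.mul_pos hN hp'.pos) (by
      rw [Nat.cast_mul, Real.log_mul hN0.ne' (by linarith)]
      linarith [hu_le 4 (by norm_num)])
  have hp3 : (3 : ℝ) ≤ p := by
    have h2 := hp.two_le
    have : 3 ≤ p := by omega
    exact_mod_cast this
  have hps : (p : ℝ) ≤ s := hpP.trans hPs
  have hpN1 : ¬ p ∣ N := fun h => hpN (Dvd.dvd.mul_right h _)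
  have hpp' : p ≠ p' := fun h => hpN (h ▸ Dvd.intro_left _ rfl)
  -- the number t
  have h2n : 2 * (n : ℝ) ≤ g := by
    rw [← hs2]
    nlinarith
  have ht := numB_div hn h2n
  set t : ℕ := g / n with htdef
  have hnt : n * t ≤ g := Nat.mul_div_le g n
  have hlog4n : Real.log (4 * n) ≤ Real.log (4 * g) := by
    apply Real.log_le_log (by positivity)
    linarith
  have ht2 : s ^ 2 / a ^ 2 ≤ 2 * (t : ℝ) := by
    rw [hs2, ha2]
    have : (g : ℝ) / n = 2 * ((g : ℝ) / (2 * n)) := by field_simp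
    rw [this]
    linarith
  have c1 : 4 * n * Real.exp (-(2 * (t : ℝ) / p ^ 2)) ≤ 1 := by
    apply numB_exp (v := u ^ 8) hn (by linarith) hpP _ (by positivity)
    · linarith [hu_le 8 (by norm_num)]
    · have : u ^ 8 * P ^ 2 = s ^ 2 / a ^ 2 := by
        rw [hPdef]
        field_simp
      rw [this]
      exact ht2
  have c2 : 4 * n * Real.exp (-(2 * (t : ℝ) / p' ^ 2)) ≤ 1 := by
    apply numB_exp (v := u ^ 16) hn (by linarith) hp'P _ (by positivity)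
    · linarith [hu_le 16 (by norm_num)]
    · have e1 : u ^ 16 * P' ^ 2 = s ^ 2 / n ^ 2 := by
        rw [hP'def]
        field_simp
      rw [e1]
      refine le_trans ?_ ht2
      rw [ha2]
      gcongr
      nlinarith
  have c3 : 4 * (n : ℝ) ^ 2 * (p' : ℝ) ^ 2 * Real.log ((p : ℝ) * p') < g := by
    have e1 : (n : ℝ) * p' * u ^ 8 ≤ s := by
      have : (p' : ℝ) * (u ^ 8 * n) ≤ s := by
        rw [← le_div_iff₀ (by positivity)]
        exact hp'P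
      linarith
    have e2 : (n : ℝ) ^ 2 * (p' : ℝ) ^ 2 * u ^ 16 ≤ g := by
      rw [← hs2]
      calc (n : ℝ) ^ 2 * (p' : ℝ) ^ 2 * u ^ 16 = ((n : ℝ) * p' * u ^ 8) ^ 2 := by ring
        _ ≤ s ^ 2 := by gcongr
    have e3 : Real.log ((p : ℝ) * p') ≤ Real.log (4 * g) := by
      apply Real.log_le_log (by positivity)
      calc (p : ℝ) * p' ≤ s * s := by gcongr
        _ = g := by rw [← hs2]; ring
        _ ≤ 4 * g := by linarith
    have e4 : 4 * Real.log ((p : ℝ) * p') < u ^ 16 := by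
      have := hu_le 16 (by norm_num)
      have e5 : 4 * Real.log (4 * (g : ℝ)) ≤ u / 4 := by linarith
      linarith
    have e5 : (0 : ℝ) < (n : ℝ) ^ 2 * (p' : ℝ) ^ 2 := by positivity
    calc 4 * (n : ℝ) ^ 2 * (p' : ℝ) ^ 2 * Real.log ((p : ℝ) * p')
        = (n : ℝ) ^ 2 * (p' : ℝ) ^ 2 * (4 * Real.log ((p : ℝ) * p')) := by ring
      _ < (n : ℝ) ^ 2 * (p' : ℝ) ^ 2 * u ^ 16 := by
        apply mul_lt_mul_of_pos_left e4 e5
      _ ≤ g := e2
  have c4 : (p' : ℝ) * ((2 * (p * p' * u ^ 2 / Real.sqrt t) + 1 +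
          p * Real.exp (-(2 * u ^ 4))) / p') ^ n ≤ 1 := by
    have ht0 : (0 : ℝ) < t := by
      have : 0 < s ^ 2 / a ^ 2 := by positivity
      linarith
    have hst : s / (2 * a) ≤ Real.sqrt t := by
      apply Real.le_sqrt_of_sq_le
      rw [div_pow]
      have : s ^ 2 / (2 * a) ^ 2 = (s ^ 2 / a ^ 2) / 4 := by
        field_simp
        ring
      rw [this]
      linarith
    have hst0 : 0 < Real.sqrt t := Real.sqrt_pos.2 ht0
    have e1 : (p : ℝ) / Real.sqrt t ≤ 2 / u ^ 4 := by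
      rw [div_le_iff₀ hst0]
      calc (p : ℝ) ≤ P := hpP
        _ = 2 / u ^ 4 * (s / (2 * a)) := by
          rw [hPdef]
          field_simp
        _ ≤ 2 / u ^ 4 * Real.sqrt t := by gcongr
    have e2 : (p : ℝ) * Real.exp (-(2 * u ^ 4)) ≤ 1 := by
      have e3 : Real.exp (-(2 * u ^ 4)) ≤ Real.exp (- Real.log g) := by
        apply Real.exp_le_exp.2
        have := hu_le 4 (by norm_num)
        linarith
      rw [Real.exp_neg (Real.log g), Real.exp_log hg0] at e3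
      calc (p : ℝ) * Real.exp (-(2 * u ^ 4)) ≤ s * (g : ℝ)⁻¹ := by gcongr
        _ = s⁻¹ := by
          rw [← hs2]
          field_simp
        _ ≤ 1 := inv_le_one_of_one_le₀ hs1
    have hp'0 : (0 : ℝ) < p' := by linarith
    have e4 : (2 * (p * p' * u ^ 2 / Real.sqrt t) + 1 + p * Real.exp (-(2 * u ^ 4))) / p'
        ≤ 1 / u := by
      have e5 : (2 * (p * p' * u ^ 2 / Real.sqrt t) + 1 + p * Real.exp (-(2 * u ^ 4))) / p' =
          2 * u ^ 2 * (p / Real.sqrt t) + (1 + p * Real.exp (-(2 * u ^ 4))) / p' := by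
        field_simp
        ring
      rw [e5]
      have e6 : 2 * u ^ 2 * (p / Real.sqrt t) ≤ 4 / u ^ 2 := by
        calc 2 * u ^ 2 * (p / Real.sqrt t) ≤ 2 * u ^ 2 * (2 / u ^ 4) := by gcongr
          _ = 4 / u ^ 2 := by
            field_simp
            ring
      have e7 : (1 + p * Real.exp (-(2 * u ^ 4))) / p' ≤ 16 / u ^ 8 := by
        have e8 : u ^ 8 / 8 ≤ (p' : ℝ) := by linarith
        calc (1 + p * Real.exp (-(2 * u ^ 4))) / p' ≤ 2 / p' := by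
              gcongr
              linarith
          _ ≤ 2 / (u ^ 8 / 8) := by gcongr
          _ = 16 / u ^ 8 := by
            field_simp
            norm_num
      have e9 : 4 / u ^ 2 ≤ (1 / u) / 2 := by
        rw [div_le_iff₀ (by positivity)]
        have : 1 / u / 2 * u ^ 2 = u / 2 := by field_simp
        rw [this]
        linarith
      have e10 : 16 / u ^ 8 ≤ (1 / u) / 2 := by
        rw [div_le_iff₀ (by positivity)]
        have : 1 / u / 2 * u ^ 8 = u ^ 7 / 2 := by field_simp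
        rw [this]
        have h7 : u ^ 2 ≤ u ^ 7 := hpow 2 7 (by norm_num)
        nlinarith
      linarith
    have e11 : 0 ≤ (2 * (p * p' * u ^ 2 / Real.sqrt t) + 1 + p * Real.exp (-(2 * u ^ 4))) / p' := by
      positivity
    calc (p' : ℝ) * ((2 * (p * p' * u ^ 2 / Real.sqrt t) + 1 +
          p * Real.exp (-(2 * u ^ 4))) / p') ^ n ≤ s * (1 / u) ^ n := by gcongr
      _ = s / u ^ n := by
        rw [div_pow, one_pow]
        ring
      _ ≤ 1 := by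
        rw [div_le_one (by positivity)]
        exact hun
  have hfin := hB p p' hp hp' hpp' hp2 hp'2 hpN1 hp'N t hnt c1 c2 c3 c4
  have h1 := numB_pred hp hp2 hp8
  have h2 := numB_pred hp' hp'2 hp'8
  have h3 : x * ((P / 16) * (P' / 16)) ≤ 9 := by
    refine le_trans ?_ hfin
    gcongr
    linarith
  have h4 : (P / 16) * (P' / 16) = s ^ 2 / (256 * (a ^ 3 * u ^ 12)) := by
    rw [hPdef, hP'def, ← ha2]
    field_simp
    norm_num
  rw [h4] at h3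
  have h5 : x = x * (s ^ 2 / (256 * (a ^ 3 * u ^ 12))) * (256 * (u ^ 12 / s ^ 2) * a ^ 3) := by
    field_simp
  rw [h5]
  calc x * (s ^ 2 / (256 * (a ^ 3 * u ^ 12))) * (256 * (u ^ 12 / s ^ 2) * a ^ 3)
      ≤ 9 * (256 * (u ^ 12 / s ^ 2) * a ^ 3) := by gcongr
    _ = 2304 * (u ^ 12 / s ^ 2) * a ^ 3 := by ring

/-- Large degree: one prime. -/
private lemma numB_B {P₀ : ℝ} (hP : ∀ P : ℝ, P₀ ≤ P → ∀ N : ℕ, 0 < N → 4 * Real.log N ≤ P →
    ∃ p : ℕ, p.Prime ∧ P / 8 < p ∧ (p : ℝ) ≤ P ∧ ¬ p ∣ N ∧ p ≠ 2)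
    {g n N : ℕ} {x s u a : ℝ} (hn : 0 < n) (hng : n ^ 2 ≤ 2 * g) (hN : 0 < N) (hNg : N ≤ 2 * g)
    (hx : 0 ≤ x)
    (hs : 0 < s) (hs2 : s ^ 2 = g) (ha : 1 ≤ a) (ha2 : a ^ 2 = n)
    (hu : 16 ≤ u) (huP : P₀ ≤ u) (hus : u ^ 32 ≤ s) (hlog : 16 * Real.log (4 * g) ≤ u)
    (hc : s < n * u ^ 16)
    (hA : ∀ p : ℕ, p.Prime → p ≠ 2 → ¬ p ∣ N → ∀ d : ℕ, n ^ 2 ≤ d ^ 2 →
        4 * d * Real.exp (-(2 * ((g / d : ℕ) : ℝ) / p ^ 2)) ≤ 1 →
        x * ((p : ℝ) - 1) ≤ 3) :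
    x ≤ 48 * (u ^ 20 / s ^ 2) * a ^ 3 := by
  have hu0 : 0 < u := by linarith
  have hu1 : 1 ≤ u := by linarith
  have ha0 : 0 < a := by linarith
  have hn1 : (1 : ℝ) ≤ n := by exact_mod_cast hn
  have hn0 : (0 : ℝ) < n := by linarith
  have hg0 : (0 : ℝ) < g := by rw [← hs2]; positivity
  have hpow : ∀ k l : ℕ, k ≤ l → u ^ k ≤ u ^ l := fun k l h => pow_le_pow_right₀ hu1 h
  have hu_le : ∀ k : ℕ, 1 ≤ k → u ≤ u ^ k := fun k h => by
    simpa using hpow 1 k h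
  have hs4 : 16 ≤ s := by
    have := hu_le 32 (by norm_num)
    linarith
  have hn2 : (n : ℝ) ^ 2 ≤ 2 * s ^ 2 := by
    rw [hs2]
    exact_mod_cast hng
  have hns : (n : ℝ) ≤ 2 * s := by
    apply le_of_sq_le_sq _ (by positivity)
    nlinarith
  set P : ℝ := s / (a * u ^ 4) with hPdef
  have hP0 : 0 < P := by positivity
  have hPu : u ^ 8 ≤ P := by
    rw [hPdef, le_div_iff₀ (by positivity)]
    have e1 : (u ^ 8 * (a * u ^ 4)) ^ 2 ≤ s ^ 2 := by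
      calc (u ^ 8 * (a * u ^ 4)) ^ 2 = a ^ 2 * u ^ 24 := by ring
        _ ≤ (2 * s) * u ^ 24 := by
          rw [ha2]
          gcongr
        _ ≤ s * u ^ 32 := by
          have h8 : (2 : ℝ) ≤ u ^ 8 := by
            have := hu_le 8 (by norm_num)
            linarith
          calc (2 * s) * u ^ 24 = s * u ^ 24 * 2 := by ring
            _ ≤ s * u ^ 24 * u ^ 8 := by gcongr
            _ = s * u ^ 32 := by ring
        _ ≤ s * s := by gcongr
        _ = s ^ 2 := by ring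
    exact le_of_sq_le_sq e1 hs.le
  have hN0 : (0 : ℝ) < N := by exact_mod_cast hN
  have hNg' : (N : ℝ) ≤ 2 * g := by exact_mod_cast hNg
  have hlogN : Real.log N ≤ Real.log (4 * g) := Real.log_le_log hN0 (by linarith)
  have hlog4 : 0 ≤ Real.log (4 * (g : ℝ)) := by
    apply Real.log_nonneg
    rw [← hs2]
    nlinarith
  obtain ⟨p, hp, hp8, hpP, hpN, hp2⟩ := hP P (by linarith [hu_le 8 (by norm_num)]) N hN
    (by linarith [hu_le 8 (by norm_num)])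
  have hp3 : (3 : ℝ) ≤ p := by
    have h2 := hp.two_le
    have : 3 ≤ p := by omega
    exact_mod_cast this
  have h2n : 2 * (n : ℝ) ≤ g := by
    rw [← hs2]
    nlinarith
  have ht := numB_div hn h2n
  have hlog4n : Real.log (4 * n) ≤ Real.log (4 * g) := by
    apply Real.log_le_log (by positivity)
    linarith
  have ht2 : s ^ 2 / a ^ 2 ≤ 2 * ((g / n : ℕ) : ℝ) := by
    rw [hs2, ha2]
    have : (g : ℝ) / n = 2 * ((g : ℝ) / (2 * n)) := by field_simp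
    rw [this]
    linarith
  have c1 : 4 * n * Real.exp (-(2 * ((g / n : ℕ) : ℝ) / p ^ 2)) ≤ 1 := by
    apply numB_exp (v := u ^ 8) hn (by linarith) hpP _ (by positivity)
    · linarith [hu_le 8 (by norm_num)]
    · have : u ^ 8 * P ^ 2 = s ^ 2 / a ^ 2 := by
        rw [hPdef]
        field_simp
      rw [this]
      exact ht2
  have hfin := hA p hp hp2 hpN n le_rfl c1
  have h1 := numB_pred hp hp2 hp8
  have h3 : x * (P / 16) ≤ 3 := by
    refine le_trans ?_ hfin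
    gcongr
  have h5 : x = x * (P / 16) * (16 * (a * u ^ 4) / s) := by
    rw [hPdef]
    field_simp
  rw [h5]
  calc x * (P / 16) * (16 * (a * u ^ 4) / s) ≤ 3 * (16 * (a * u ^ 4) / s) := by gcongr
    _ = 48 * (u ^ 4 * s / s ^ 2) * a := by
      field_simp
      norm_num
    _ ≤ 48 * (u ^ 4 * (n * u ^ 16) / s ^ 2) * a := by gcongr
    _ = 48 * (u ^ 20 / s ^ 2) * a ^ 3 := by
      rw [← ha2]
      ring

/-- Split types of degree `n ≥ n₀`. For small `g` use `x ≤ 1`.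

Case `n ≤ g^{1/2 - δ/2}`. Let `t = ⌊g / n⌋ ≥ g / 2n`, `P' = g^{1/2 - δ/4} / n ≥ g^{δ/4}` and
`P = √(g / n) g^{-δ/8}`. Choose a prime `p' ∈ (P'/8, P']`, `p' ∤ N`, and a prime `p ∈ (P/8, P]`,
`p ∤ N p'` (`primeSel` for `N p'`). Then `t / p² ≥ g^{δ/4} / 2`, `t / p'² ≥ g^{δ/4} / 2`, so the first
two conditions hold for large `g`; `4 n² p'² log (p p') ≤ 4 g^{1 - δ/2} log (g²) < g`. By
`gauss_sum_le` with `q = p p'`, `Y = q g^{δ/16} / √t`: the sum `S` is at most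
`2 Y + 1 + p exp (-2 g^{δ/8})`, so `S / p' ≤ 2 p g^{δ/16} / √t + 2 / p' + … ≤ g^{-δ/32}` for large `g`
(`p / √t ≤ √2 g^{-δ/8}`), and `p' (S / p')^n ≤ √g g^{-n δ / 32} ≤ 1` for `n ≥ n₀ = ⌈16/δ⌉`. So
`x ≤ 9 / ((p-1)(p'-1)) ≤ C / (P P') = C n^{3/2} g^{-1 + 3δ/8}`.

Case `n > g^{1/2 - δ/2}`: use one prime, `d = n`, `P = √(g^{1 - δ/4} / n)` (`n ≤ √(2g)`), and
`x ≤ 3 / (p - 1) ≤ C √n g^{-1/2 + δ/8} ≤ C g^{δ-1} n^{3/2}`. -/
theorem num_two_primes (δ : ℝ) (hδ : 0 < δ) (hδ1 : δ < 1 / 2) : ∃ (n₀ : ℕ) (C : ℝ), 0 < C ∧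
    ∀ (g n N : ℕ) (x : ℝ), 0 < g → n₀ ≤ n → 0 < n → n ^ 2 ≤ 2 * g → 0 < N → N ≤ 2 * g →
      x ≤ 1 →
      (∀ p : ℕ, p.Prime → p ≠ 2 → ¬ p ∣ N → ∀ d : ℕ, n ^ 2 ≤ d ^ 2 →
        4 * d * Real.exp (-(2 * ((g / d : ℕ) : ℝ) / p ^ 2)) ≤ 1 →
        x * ((p : ℝ) - 1) ≤ 3) →
      (∀ p p' : ℕ, p.Prime → p'.Prime → p ≠ p' → p ≠ 2 → p' ≠ 2 → ¬ p ∣ N → ¬ p' ∣ N →
        ∀ t : ℕ, n * t ≤ g → 4 * n * Real.exp (-(2 * (t : ℝ) / p ^ 2)) ≤ 1 →
        4 * n * Real.exp (-(2 * (t : ℝ) / p' ^ 2)) ≤ 1 →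
        4 * (n : ℝ) ^ 2 * (p' : ℝ) ^ 2 * Real.log ((p : ℝ) * p') < g →
        (p' : ℝ) * ((2 * (p * p' * (g : ℝ) ^ (δ / 16) / Real.sqrt t) + 1 +
          p * Real.exp (-(2 * (g : ℝ) ^ (δ / 8)))) / p') ^ n ≤ 1 →
        x * (((p : ℝ) - 1) * ((p' : ℝ) - 1)) ≤ 9) →
      x ≤ C * (g : ℝ) ^ (δ - 1) * (n : ℝ) ^ (3 / 2 : ℝ) := by
  obtain ⟨P₀, hP⟩ := primeSel
  obtain ⟨g₀, hg₀, hL⟩ := numB_large δ hδ P₀
  refine ⟨⌈16 / δ⌉₊, 2304 + g₀, by positivity, ?_⟩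
  intro g n N x hg hn0 hn hng hN hNg hx1 hA hB
  have hg1 : (1 : ℝ) ≤ g := by exact_mod_cast hg
  have hg0 : (0 : ℝ) < g := by linarith
  have hn1 : (1 : ℝ) ≤ n := by exact_mod_cast hn
  have hg₀' : (1 : ℝ) ≤ g₀ := by exact_mod_cast hg₀
  have hn32 : (1 : ℝ) ≤ (n : ℝ) ^ (3 / 2 : ℝ) := Real.one_le_rpow hn1 (by norm_num)
  have hq2 : 0 < (g : ℝ) ^ (δ - 1) := by positivity
  rcases lt_or_ge x 0 with hx0 | hx0
  · have : 0 ≤ (2304 + g₀ : ℝ) * (g : ℝ) ^ (δ - 1) * (n : ℝ) ^ (3 / 2 : ℝ) := by positivity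
    linarith
  by_cases hgs : g < g₀
  · have hgs' : (g : ℝ) ≤ g₀ := by exact_mod_cast hgs.le
    have e1 : 1 ≤ (g : ℝ) * (g : ℝ) ^ (δ - 1) := by
      rw [Real.rpow_sub_one hg0.ne', mul_div_cancel₀ _ hg0.ne']
      exact Real.one_le_rpow hg1 hδ.le
    calc x ≤ 1 := hx1
      _ ≤ (g : ℝ) * (g : ℝ) ^ (δ - 1) := e1
      _ = (g : ℝ) * (g : ℝ) ^ (δ - 1) * 1 := by ring
      _ ≤ (2304 + g₀ : ℝ) * (g : ℝ) ^ (δ - 1) * (n : ℝ) ^ (3 / 2 : ℝ) := by
        gcongr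
        linarith
  push Not at hgs
  obtain ⟨hl1, hl2, hl3⟩ := hL g hgs
  set u : ℝ := (g : ℝ) ^ (δ / 32) with hu
  have hupow : ∀ k : ℕ, u ^ k = (g : ℝ) ^ (k * δ / 32) := by
    intro k
    rw [hu, ← Real.rpow_natCast, ← Real.rpow_mul hg0.le]
    congr 1
    ring
  have hu2 : (g : ℝ) ^ (δ / 16) = u ^ 2 := by
    rw [hupow 2]
    congr 1
    push_cast
    ring
  have hu4 : (g : ℝ) ^ (δ / 8) = u ^ 4 := by
    rw [hupow 4]
    congr 1
    push_cast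
    ring
  have hu32 : (g : ℝ) ^ δ = u ^ 32 := by
    rw [hupow 32]
    congr 1
    push_cast
    ring
  have hs : Real.sqrt g = (g : ℝ) ^ (1 / 2 : ℝ) := Real.sqrt_eq_rpow _
  have hs0 : 0 < Real.sqrt g := Real.sqrt_pos.2 hg0
  have hs2 : Real.sqrt g ^ 2 = g := Real.sq_sqrt hg0.le
  have hus : u ^ 32 ≤ Real.sqrt g := by
    rw [← hu32, hs]
    exact Real.rpow_le_rpow_of_exponent_le hg1 hδ1.le
  have hun : Real.sqrt g ≤ u ^ n := by
    rw [hs, hupow n]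
    apply Real.rpow_le_rpow_of_exponent_le hg1
    have h1 : 16 / δ ≤ n := (Nat.le_ceil _).trans (by exact_mod_cast hn0)
    rw [div_le_iff₀ hδ] at h1
    linarith
  have ha : 1 ≤ Real.sqrt n := by
    rw [Real.one_le_sqrt]
    exact hn1
  have ha2 : Real.sqrt n ^ 2 = n := Real.sq_sqrt (by linarith)
  have ha3 : Real.sqrt n ^ 3 = (n : ℝ) ^ (3 / 2 : ℝ) := by
    rw [Real.sqrt_eq_rpow, ← Real.rpow_natCast, ← Real.rpow_mul (by linarith)]
    norm_num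
  rw [hu2, hu4] at hB
  have hu1 : 1 ≤ u := by linarith
  have hgd : (g : ℝ) ^ (δ - 1) = u ^ 32 / Real.sqrt g ^ 2 := by
    rw [Real.rpow_sub_one hg0.ne', hu32, hs2]
  rw [hgd, ← ha3]
  by_cases hc : (n : ℝ) * u ^ 16 ≤ Real.sqrt g
  · refine (numB_A hP hn hN hNg hx0 hs0 hs2 ha ha2 hl2 hl3 hus hl1 hc hun hB).trans ?_
    have h12 : u ^ 12 ≤ u ^ 32 := pow_le_pow_right₀ hu1 (by norm_num)
    gcongr
    linarith
  · push Not at hc
    refine (numB_B hP hn hng hN hNg hx0 hs0 hs2 ha ha2 hl2 hl3 hus hl1 hc hA).trans ?_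
    have h12 : u ^ 20 ≤ u ^ 32 := pow_le_pow_right₀ hu1 (by norm_num)
    gcongr
    linarith

end Pool.Agent.Lib.MP_640417_ag.All
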