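import Pool.Agent.Lib.MP_640417_ag.Far.Prime

/-!
# Numerical bounds for one type: one prime

`primeSel : StPrime` (`Far/Prime.lean`): for `P` large and `4 log N ≤ P` there is a prime `p ∤ N`,
`p ≠ 2`, with `P / 8 < p ≤ P`.
-/

set_option autoImplicit false

namespace Pool.Agent.Lib.MP_640417_ag.All

open Pool.Agent.Lib.MP_640417_ag.Far

theorem numC_log (b K : ℝ) (hb : 0 < b) (hK : 0 < K) :
    ∀ᶠ t : ℝ in Filter.atTop, K * Real.log (8 * t) ≤ t ^ b := by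
  have h1 := (isLittleO_log_rpow_atTop hb).bound (c := 1 / (2 * K)) (by positivity)
  filter_upwards [h1, Filter.eventually_ge_atTop (8 : ℝ)] with t ht h8
  have ht0 : 0 < t := by linarith
  have hlog : 0 ≤ Real.log t := Real.log_nonneg (by linarith)
  rw [Real.norm_of_nonneg hlog, Real.norm_of_nonneg (by positivity)] at ht
  have h2 : Real.log (8 * t) ≤ 2 * Real.log t := by
    rw [Real.log_mul (by norm_num) ht0.ne']
    have := Real.log_le_log (by norm_num) h8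
    linarith
  calc K * Real.log (8 * t) ≤ K * (2 * Real.log t) := mul_le_mul_of_nonneg_left h2 hK.le
    _ ≤ K * (2 * (1 / (2 * K) * t ^ b)) := by gcongr
    _ = t ^ b := by field_simp

theorem numC_pow (b K : ℝ) (hb : 0 < b) : ∀ᶠ t : ℝ in Filter.atTop, K ≤ t ^ b :=
  (tendsto_rpow_atTop hb).eventually_ge_atTop K

/-- The choice of the prime, `P² = g^{1 - δ/2} / d`. -/
theorem numC_sel (δ a : ℝ) (hδ : 0 < δ) (ha : 0 < a) : ∃ g₀ : ℝ, 1 ≤ g₀ ∧ ∀ (g d N : ℕ),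
    g₀ ≤ (g : ℝ) → 0 < d → 2 * d ≤ g → (g : ℝ) ^ a / 4 ≤ (g : ℝ) ^ (1 - δ / 2) / d → 0 < N →
    N ≤ 2 * g → ∃ p : ℕ, p.Prime ∧ p ≠ 2 ∧ ¬ p ∣ N ∧
      (g : ℝ) ^ (1 - δ / 2) / d ≤ 64 * (p : ℝ) ^ 2 ∧
      4 * d * Real.exp (-(2 * ((g / d : ℕ) : ℝ) / p ^ 2)) ≤ 1 := by
  obtain ⟨P₀, hP₀⟩ := primeSel
  have hev := (numC_log (a / 2) 8 (by positivity) (by norm_num)).and
    ((numC_log (δ / 2) 1 (by positivity) one_pos).and (numC_pow (a / 2) (2 * P₀) (by positivity)))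
  obtain ⟨g₁, hg₁⟩ := Filter.eventually_atTop.mp hev
  refine ⟨max g₁ 1, le_max_right _ _, fun g d N hg hd hdg hlow hN hN2 => ?_⟩
  obtain ⟨e1, e2, e3⟩ := hg₁ g ((le_max_left _ _).trans hg)
  have hg1 : (1 : ℝ) ≤ g := (le_max_right _ _).trans hg
  have hg0 : (0 : ℝ) < g := by linarith
  have hd0 : (0 : ℝ) < d := by exact_mod_cast hd
  have hdg' : 2 * (d : ℝ) ≤ g := by exact_mod_cast hdg
  set Q : ℝ := (g : ℝ) ^ (1 - δ / 2) / d with hQ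
  have hQ0 : 0 < Q := by positivity
  have hP : (g : ℝ) ^ (a / 2) / 2 ≤ Real.sqrt Q := by
    apply Real.le_sqrt_of_sq_le
    have h1 : ((g : ℝ) ^ (a / 2) / 2) ^ 2 = (g : ℝ) ^ a / 4 := by
      rw [div_pow, ← Real.rpow_natCast, ← Real.rpow_mul hg0.le]
      norm_num
    rw [h1]
    exact hlow
  have hlogN : 4 * Real.log N ≤ Real.sqrt Q := by
    have h1 : Real.log N ≤ Real.log (8 * g) := by
      refine Real.log_le_log (by exact_mod_cast hN) ?_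
      have : (N : ℝ) ≤ 2 * g := by exact_mod_cast hN2
      linarith
    linarith
  obtain ⟨p, hp, hp1, hp2, hpN, hp3⟩ := hP₀ (Real.sqrt Q) (by linarith) N hN hlogN
  have hp0 : (0 : ℝ) < p := by exact_mod_cast hp.pos
  refine ⟨p, hp, hp3, hpN, ?_, ?_⟩
  · have h1 : Real.sqrt Q ≤ 8 * p := by linarith
    calc Q = Real.sqrt Q ^ 2 := (Real.sq_sqrt hQ0.le).symm
      _ ≤ (8 * (p : ℝ)) ^ 2 := by gcongr
      _ = 64 * (p : ℝ) ^ 2 := by ring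
  · have h1 : (p : ℝ) ^ 2 ≤ Q := by
      calc (p : ℝ) ^ 2 ≤ Real.sqrt Q ^ 2 := by gcongr
        _ = Q := Real.sq_sqrt hQ0.le
    have h2 : (g : ℝ) / (2 * d) ≤ ((g / d : ℕ) : ℝ) := by
      have h3 : (g : ℝ) / d < ((g / d : ℕ) : ℝ) + 1 := by
        rw [div_lt_iff₀ hd0]
        have := Nat.lt_mul_div_succ g hd
        have h4 : (g : ℝ) < d * (((g / d : ℕ) : ℝ) + 1) := by exact_mod_cast this
        linarith
      have h5 : (1 : ℝ) ≤ (g : ℝ) / (2 * d) := by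
        rw [le_div_iff₀ (by positivity)]
        linarith
      have h6 : (g : ℝ) / d = (g : ℝ) / (2 * d) + (g : ℝ) / (2 * d) := by
        field_simp
        ring
      linarith
    have h3 : (g : ℝ) ^ (δ / 2) ≤ 2 * ((g / d : ℕ) : ℝ) / p ^ 2 := by
      rw [le_div_iff₀ (by positivity)]
      calc (g : ℝ) ^ (δ / 2) * (p : ℝ) ^ 2 ≤ (g : ℝ) ^ (δ / 2) * Q := by gcongr
        _ = 2 * ((g : ℝ) / (2 * d)) := by
          rw [hQ, ← mul_div_assoc, ← Real.rpow_add hg0]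
          have : δ / 2 + (1 - δ / 2) = 1 := by ring
          rw [this, Real.rpow_one]
          field_simp
        _ ≤ 2 * ((g / d : ℕ) : ℝ) := by linarith
    have h4 : Real.exp (-(2 * ((g / d : ℕ) : ℝ) / p ^ 2)) ≤ Real.exp (-Real.log (8 * g)) := by
      apply Real.exp_le_exp.mpr
      linarith
    rw [Real.exp_neg (Real.log (8 * (g : ℝ))), Real.exp_log (by positivity)] at h4
    calc 4 * (d : ℝ) * Real.exp (-(2 * ((g / d : ℕ) : ℝ) / p ^ 2))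
        ≤ 4 * (d : ℝ) * (8 * (g : ℝ))⁻¹ := by gcongr
      _ ≤ 1 := by
        rw [← div_eq_mul_inv, div_le_one (by positivity)]
        linarith

/-- Small values of `g`. -/
theorem numC_small (δ g₀ C : ℝ) (hδ : 0 < δ) (hδ1 : δ < 1) (hg₀ : 1 ≤ g₀) (hC : g₀ ≤ C) (g r : ℕ)
    (x : ℝ) (hg : 0 < g) (hr : 1 ≤ r) (hx : x ≤ 1) (h : (g : ℝ) < g₀) :
    x ≤ C * (g : ℝ) ^ (δ - 1) * (r : ℝ) ^ (3 / 4 : ℝ) := by
  have hg0 : (0 : ℝ) < g := by exact_mod_cast hg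
  have hr1 : (1 : ℝ) ≤ r := by exact_mod_cast hr
  have h1 : g₀ ^ (δ - 1) ≤ (g : ℝ) ^ (δ - 1) :=
    Real.rpow_le_rpow_of_nonpos hg0 h.le (by linarith)
  have h2 : (1 : ℝ) ≤ (r : ℝ) ^ (3 / 4 : ℝ) := Real.one_le_rpow hr1 (by norm_num)
  have h3 : (1 : ℝ) ≤ g₀ * g₀ ^ (δ - 1) := by
    rw [← Real.rpow_one_add' (by linarith) (by linarith)]
    exact Real.one_le_rpow hg₀ (by linarith)
  have h4 : (0 : ℝ) < g₀ ^ (δ - 1) := Real.rpow_pos_of_pos (by linarith) _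
  have hC0 : 0 ≤ C := by linarith
  calc x ≤ 1 := hx
    _ ≤ g₀ * g₀ ^ (δ - 1) := h3
    _ ≤ C * (g : ℝ) ^ (δ - 1) := by gcongr
    _ ≤ C * (g : ℝ) ^ (δ - 1) * (r : ℝ) ^ (3 / 4 : ℝ) :=
      le_mul_of_one_le_right (by positivity) h2

theorem numC_sqrt_le (r : ℕ) (hr : 1 ≤ r) : Real.sqrt r ≤ (r : ℝ) ^ (3 / 4 : ℝ) := by
  have hr1 : (1 : ℝ) ≤ r := by exact_mod_cast hr
  rw [Real.sqrt_eq_rpow]
  exact Real.rpow_le_rpow_of_exponent_le hr1 (by norm_num)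

/-- Types with `z ≥ 2` (`r` = rank, `z r` = square of the degree of the row space).
For small `g` use `x ≤ 1`. Let `d = ⌈√(z r)⌉`, so `z r ≤ d²` and `d ≤ 2 √(z r) ≤ 2 g^{1-δ}`. Put
`P = √(g^{1 - δ/2} / d) ≥ g^{δ/4} / 2`, and `p ∈ (P/8, P]` a prime not dividing `N`. Then
`⌊g/d⌋ / p² ≥ (g / 2d) / P² = g^{δ/2} / 2`, so the numerical condition holds for large `g`. If
`z ≤ g^δ`: `x ≤ 3 / (p-1)² ≤ 12 · 64 / P² = C d g^{δ/2 - 1} ≤ C' √z √r g^{δ/2 - 1} ≤ C' g^{δ-1} √r`. If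
`z > g^δ`: `x ≤ 3 / 2^z ≤ C / g`. (`3 ≤ p`, so `p - 1 ≥ 2`, `p - 1 ≥ p / 2`.) -/
theorem num_z_two (δ : ℝ) (hδ : 0 < δ) (hδ1 : δ < 1) : ∃ C : ℝ, 0 < C ∧
    ∀ (g z r N : ℕ) (x : ℝ), 0 < g → 2 ≤ z → z ≤ r → r ≤ 2 * g → 0 < N → N ≤ 2 * g → x ≤ 1 →
      ((z : ℝ) * r ≤ (g : ℝ) ^ (2 - 2 * δ)) →
      (∀ p : ℕ, p.Prime → p ≠ 2 → ¬ p ∣ N → ∀ d : ℕ, z * r ≤ d ^ 2 →
        4 * d * Real.exp (-(2 * ((g / d : ℕ) : ℝ) / p ^ 2)) ≤ 1 →
        x * ((p : ℝ) - 1) ^ z ≤ 3) →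
      x ≤ C * (g : ℝ) ^ (δ - 1) * (r : ℝ) ^ (3 / 4 : ℝ) := by
  obtain ⟨g₁, hg₁, hsel⟩ := numC_sel δ (δ / 2) hδ (by positivity)
  obtain ⟨g₂, hg₂⟩ := Filter.eventually_atTop.mp
    ((numC_log δ 2 hδ (by norm_num)).and (numC_pow δ 4 hδ))
  set g₀ := max g₁ g₂ with hg₀
  have hg₀1 : 1 ≤ g₀ := hg₁.trans (le_max_left _ _)
  refine ⟨1536 + g₀, by linarith, fun g z r N x hg hz hzr hr hN hN2 hx hzr2 H => ?_⟩
  by_cases hsm : (g : ℝ) < g₀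
  · exact numC_small δ g₀ _ hδ hδ1 hg₀1 (by linarith) g r x hg (by omega) hx hsm
  push Not at hsm
  obtain ⟨e1, e2⟩ := hg₂ g ((le_max_right _ _).trans hsm)
  have hg1 : (1 : ℝ) ≤ g := hg₀1.trans hsm
  have hg0 : (0 : ℝ) < g := by linarith
  have hz2 : (2 : ℝ) ≤ z := by exact_mod_cast hz
  have hr2 : (2 : ℝ) ≤ r := by exact_mod_cast hz.trans hzr
  set A : ℝ := Real.sqrt ((z : ℝ) * r) with hA
  have hA2 : A ^ 2 = (z : ℝ) * r := Real.sq_sqrt (by positivity)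
  have hA1 : 1 ≤ A := by
    rw [hA, Real.one_le_sqrt]
    nlinarith
  set d : ℕ := ⌈A⌉₊ with hd
  have hdA : A ≤ d := Nat.le_ceil A
  have hdA2 : (d : ℝ) ≤ 2 * A := by
    have := Nat.ceil_lt_add_one (show 0 ≤ A by positivity)
    linarith
  have hd0' : (0 : ℝ) < d := by linarith
  have hd0 : 0 < d := by exact_mod_cast hd0'
  have hAg : A ≤ (g : ℝ) ^ (1 - δ) := by
    rw [hA]
    apply Real.sqrt_le_iff.mpr
    refine ⟨by positivity, ?_⟩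
    rw [← Real.rpow_natCast, ← Real.rpow_mul hg0.le]
    convert hzr2 using 2
    push_cast
    ring
  have hprod : (g : ℝ) ^ (1 - δ) * (g : ℝ) ^ δ = g := by
    rw [← Real.rpow_add hg0]
    have : 1 - δ + δ = 1 := by ring
    rw [this, Real.rpow_one]
  have hgp : 0 < (g : ℝ) ^ (1 - δ) := by positivity
  have hdg : 2 * d ≤ g := by
    have : 2 * (d : ℝ) ≤ g := by nlinarith
    exact_mod_cast this
  have hlow : (g : ℝ) ^ (δ / 2) / 4 ≤ (g : ℝ) ^ (1 - δ / 2) / d := by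
    rw [div_le_div_iff₀ (by norm_num) hd0']
    have h1 : (g : ℝ) ^ (1 - δ / 2) = (g : ℝ) ^ (δ / 2) * (g : ℝ) ^ (1 - δ) := by
      rw [← Real.rpow_add hg0]
      congr 1
      ring
    rw [h1]
    have h2 : 0 < (g : ℝ) ^ (δ / 2) := by positivity
    have h3 : (d : ℝ) ≤ 4 * (g : ℝ) ^ (1 - δ) := by linarith
    calc (g : ℝ) ^ (δ / 2) * d ≤ (g : ℝ) ^ (δ / 2) * (4 * (g : ℝ) ^ (1 - δ)) := by gcongr
      _ = (g : ℝ) ^ (δ / 2) * (g : ℝ) ^ (1 - δ) * 4 := by ring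
  obtain ⟨p, hp, hp2, hpN, hpQ, hpe⟩ := hsel g d N ((le_max_left _ _).trans hsm) hd0 hdg hlow hN hN2
  have hx3 := H p hp hp2 hpN d (by
    have h1 : ((z * r : ℕ) : ℝ) ≤ ((d ^ 2 : ℕ) : ℝ) := by
      push_cast
      rw [← hA2]
      gcongr
    exact_mod_cast h1) hpe
  have hp3 : 3 ≤ p := by
    have := hp.two_le
    omega
  have hp3' : (3 : ℝ) ≤ p := by exact_mod_cast hp3
  have hgd : 0 < (g : ℝ) ^ (δ - 1) := by positivity
  have hrr : (0 : ℝ) < (r : ℝ) ^ (3 / 4 : ℝ) := by positivity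
  rcases le_or_gt x 0 with hx0 | hx0
  · exact hx0.trans (by positivity)
  by_cases hzg : (z : ℝ) ≤ (g : ℝ) ^ δ
  · have h1 : ((p : ℝ) - 1) ^ 2 ≤ ((p : ℝ) - 1) ^ z := pow_le_pow_right₀ (by linarith) hz
    have h2 : x * ((p : ℝ) - 1) ^ 2 ≤ 3 := (mul_le_mul_of_nonneg_left h1 hx0.le).trans hx3
    have h3 : (p : ℝ) ^ 2 ≤ 4 * ((p : ℝ) - 1) ^ 2 := by nlinarith
    have h4 : x * (p : ℝ) ^ 2 ≤ 12 := by nlinarith
    have h5 : x * ((g : ℝ) ^ (1 - δ / 2) / d) ≤ 768 := by nlinarith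
    have h6 : x * (g : ℝ) ^ (1 - δ / 2) ≤ 768 * d := by
      rw [← mul_div_assoc, div_le_iff₀ hd0'] at h5
      exact h5
    have h7 : A ≤ (g : ℝ) ^ (δ / 2) * Real.sqrt r := by
      rw [hA, Real.sqrt_mul (by positivity)]
      gcongr
      rw [Real.sqrt_le_iff]
      refine ⟨by positivity, ?_⟩
      rw [← Real.rpow_natCast, ← Real.rpow_mul hg0.le]
      convert hzg using 2
      push_cast
      ring
    have h8 : x * (g : ℝ) ^ (1 - δ / 2) ≤ 1536 * ((g : ℝ) ^ (δ / 2) * Real.sqrt r) := by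
      linarith
    have h9 : (g : ℝ) ^ (1 - δ / 2) * ((g : ℝ) ^ (δ - 1) * (g : ℝ) ^ (-(δ / 2))) = 1 := by
      rw [← Real.rpow_add hg0, ← Real.rpow_add hg0]
      have : 1 - δ / 2 + (δ - 1 + -(δ / 2)) = 0 := by ring
      rw [this, Real.rpow_zero]
    have h10 : (g : ℝ) ^ (δ / 2) * (g : ℝ) ^ (-(δ / 2)) = 1 := by
      rw [← Real.rpow_add hg0, add_neg_cancel, Real.rpow_zero]
    have h11 : 0 < (g : ℝ) ^ (δ - 1) * (g : ℝ) ^ (-(δ / 2)) := by positivity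
    calc x = x * (g : ℝ) ^ (1 - δ / 2) * ((g : ℝ) ^ (δ - 1) * (g : ℝ) ^ (-(δ / 2))) := by
          rw [mul_assoc, h9, mul_one]
      _ ≤ 1536 * ((g : ℝ) ^ (δ / 2) * Real.sqrt r) *
          ((g : ℝ) ^ (δ - 1) * (g : ℝ) ^ (-(δ / 2))) := by gcongr
      _ = 1536 * (g : ℝ) ^ (δ - 1) * Real.sqrt r *
          ((g : ℝ) ^ (δ / 2) * (g : ℝ) ^ (-(δ / 2))) := by ring
      _ = 1536 * (g : ℝ) ^ (δ - 1) * Real.sqrt r := by rw [h10, mul_one]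
      _ ≤ (1536 + g₀) * (g : ℝ) ^ (δ - 1) * (r : ℝ) ^ (3 / 4 : ℝ) := by
        have := numC_sqrt_le r (by omega)
        gcongr
        linarith
  · push Not at hzg
    have h1 : (2 : ℝ) ^ z ≤ ((p : ℝ) - 1) ^ z := pow_le_pow_left₀ (by norm_num) (by linarith) z
    have h2 : x * (2 : ℝ) ^ z ≤ 3 := (mul_le_mul_of_nonneg_left h1 hx0.le).trans hx3
    have h3 : (g : ℝ) ≤ (2 : ℝ) ^ z := by
      rw [← Real.rpow_natCast, Real.rpow_def_of_pos (by norm_num)]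
      calc (g : ℝ) = Real.exp (Real.log g) := (Real.exp_log hg0).symm
        _ ≤ Real.exp (Real.log 2 * z) := by
          apply Real.exp_le_exp.mpr
          have h4 : Real.log g ≤ Real.log (8 * g) := Real.log_le_log hg0 (by linarith)
          have h5 : (0.6931471803 : ℝ) < Real.log 2 := Real.log_two_gt_d9
          have h6 : (1 / 2 : ℝ) * z ≤ Real.log 2 * z := by
            apply mul_le_mul_of_nonneg_right _ (by linarith)
            linarith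
          linarith
    have h4 : x * g ≤ 3 := (mul_le_mul_of_nonneg_left h3 hx0.le).trans h2
    have h5 : (g : ℝ) * (g : ℝ) ^ (δ - 1) = (g : ℝ) ^ δ := by
      rw [← Real.rpow_one_add' hg0.le (by linarith)]
      congr 1
      ring
    have h6 : (1 : ℝ) ≤ (g : ℝ) ^ δ := Real.one_le_rpow hg1 hδ.le
    have h7 : (1 : ℝ) ≤ (r : ℝ) ^ (3 / 4 : ℝ) := Real.one_le_rpow (by linarith) (by norm_num)
    calc x ≤ x * (g : ℝ) ^ δ := le_mul_of_one_le_right hx0.le h6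
      _ = x * g * (g : ℝ) ^ (δ - 1) := by rw [← h5]; ring
      _ ≤ 3 * (g : ℝ) ^ (δ - 1) := by gcongr
      _ ≤ (1536 + g₀) * (g : ℝ) ^ (δ - 1) := by
        gcongr
        linarith
      _ ≤ (1536 + g₀) * (g : ℝ) ^ (δ - 1) * (r : ℝ) ^ (3 / 4 : ℝ) :=
        le_mul_of_one_le_right (by positivity) h7

/-- Types with centre `ℚ` which are not split. Here `d = ⌈√r⌉`, `d² ≥ r`, `d ≤ 2 √r ≤ 3 √g`,
`P = √(g^{1 - δ/2} / d)`, and `x ≤ 3 / (p² - 1) ≤ C / P²`. -/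
theorem num_nonsplit (δ : ℝ) (hδ : 0 < δ) (hδ1 : δ < 1) : ∃ C : ℝ, 0 < C ∧
    ∀ (g r N : ℕ) (x : ℝ), 0 < g → 1 ≤ r → r ≤ 2 * g → 0 < N → N ≤ 2 * g → x ≤ 1 →
      (∀ p : ℕ, p.Prime → p ≠ 2 → ¬ p ∣ N → ∀ d : ℕ, r ≤ d ^ 2 →
        4 * d * Real.exp (-(2 * ((g / d : ℕ) : ℝ) / p ^ 2)) ≤ 1 →
        x * ((p : ℝ) ^ 2 - 1) ≤ 3) →
      x ≤ C * (g : ℝ) ^ (δ - 1) * (r : ℝ) ^ (3 / 4 : ℝ) := by
  obtain ⟨g₁, hg₁, hsel⟩ := numC_sel δ ((1 - δ) / 2) hδ (by linarith)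
  set g₀ := max g₁ 36 with hg₀
  have hg₀1 : 1 ≤ g₀ := hg₁.trans (le_max_left _ _)
  refine ⟨1536 + g₀, by linarith, fun g r N x hg hr1' hr hN hN2 hx H => ?_⟩
  by_cases hsm : (g : ℝ) < g₀
  · exact numC_small δ g₀ _ hδ hδ1 hg₀1 (by linarith) g r x hg (by omega) hx hsm
  push Not at hsm
  have hg36 : (36 : ℝ) ≤ g := (le_max_right _ _).trans hsm
  have hg1 : (1 : ℝ) ≤ g := hg₀1.trans hsm
  have hg0 : (0 : ℝ) < g := by linarith
  have hr1 : (1 : ℝ) ≤ r := by exact_mod_cast hr1'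
  set A : ℝ := Real.sqrt r with hA
  have hA2 : A ^ 2 = r := Real.sq_sqrt (by positivity)
  have hA1 : 1 ≤ A := by
    rw [hA, Real.one_le_sqrt]
    exact hr1
  set d : ℕ := ⌈A⌉₊ with hd
  have hdA : A ≤ d := Nat.le_ceil A
  have hdA2 : (d : ℝ) ≤ 2 * A := by
    have := Nat.ceil_lt_add_one (show 0 ≤ A by positivity)
    linarith
  have hd0' : (0 : ℝ) < d := by linarith
  have hd0 : 0 < d := by exact_mod_cast hd0'
  have hsg : Real.sqrt g ^ 2 = g := Real.sq_sqrt hg0.le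
  have hsg6 : 6 ≤ Real.sqrt g := by
    apply Real.le_sqrt_of_sq_le
    linarith
  have hAg : 2 * A ≤ 3 * Real.sqrt g := by
    have hr' : (r : ℝ) ≤ 2 * g := by exact_mod_cast hr
    nlinarith [Real.sqrt_nonneg (g : ℝ)]
  have hdg3 : (d : ℝ) ≤ 3 * Real.sqrt g := hdA2.trans hAg
  have hdg : 2 * d ≤ g := by
    have : 2 * (d : ℝ) ≤ g := by nlinarith
    exact_mod_cast this
  have hlow : (g : ℝ) ^ ((1 - δ) / 2) / 4 ≤ (g : ℝ) ^ (1 - δ / 2) / d := by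
    rw [div_le_div_iff₀ (by norm_num) hd0']
    have h1 : (g : ℝ) ^ (1 - δ / 2) = (g : ℝ) ^ ((1 - δ) / 2) * Real.sqrt g := by
      rw [Real.sqrt_eq_rpow, ← Real.rpow_add hg0]
      congr 1
      ring
    rw [h1]
    have h2 : 0 < (g : ℝ) ^ ((1 - δ) / 2) := by positivity
    have h3 : (d : ℝ) ≤ 4 * Real.sqrt g := by linarith [Real.sqrt_nonneg (g : ℝ)]
    calc (g : ℝ) ^ ((1 - δ) / 2) * d ≤ (g : ℝ) ^ ((1 - δ) / 2) * (4 * Real.sqrt g) := by gcongr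
      _ = (g : ℝ) ^ ((1 - δ) / 2) * Real.sqrt g * 4 := by ring
  obtain ⟨p, hp, hp2, hpN, hpQ, hpe⟩ := hsel g d N ((le_max_left _ _).trans hsm) hd0 hdg hlow hN hN2
  have hx3 := H p hp hp2 hpN d (by
    have h1 : ((r : ℕ) : ℝ) ≤ ((d ^ 2 : ℕ) : ℝ) := by
      push_cast
      rw [← hA2]
      gcongr
    exact_mod_cast h1) hpe
  have hp3 : 3 ≤ p := by
    have := hp.two_le
    omega
  have hp3' : (3 : ℝ) ≤ p := by exact_mod_cast hp3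
  have hgd : 0 < (g : ℝ) ^ (δ - 1) := by positivity
  have hrr : (0 : ℝ) < (r : ℝ) ^ (3 / 4 : ℝ) := by positivity
  rcases le_or_gt x 0 with hx0 | hx0
  · exact hx0.trans (by positivity)
  have h4 : x * (p : ℝ) ^ 2 ≤ 6 := by nlinarith
  have h5 : x * ((g : ℝ) ^ (1 - δ / 2) / d) ≤ 384 := by nlinarith
  have h6 : x * (g : ℝ) ^ (1 - δ / 2) ≤ 384 * d := by
    rw [← mul_div_assoc, div_le_iff₀ hd0'] at h5
    exact h5
  have h9 : (g : ℝ) ^ (1 - δ / 2) * ((g : ℝ) ^ (δ - 1) * (g : ℝ) ^ (-(δ / 2))) = 1 := by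
    rw [← Real.rpow_add hg0, ← Real.rpow_add hg0]
    have : 1 - δ / 2 + (δ - 1 + -(δ / 2)) = 0 := by ring
    rw [this, Real.rpow_zero]
  have h10 : (g : ℝ) ^ (-(δ / 2)) ≤ 1 := Real.rpow_le_one_of_one_le_of_nonpos hg1 (by linarith)
  have h11 : 0 < (g : ℝ) ^ (δ - 1) * (g : ℝ) ^ (-(δ / 2)) := by positivity
  have h12 : A ≤ (r : ℝ) ^ (3 / 4 : ℝ) := numC_sqrt_le r (by omega)
  calc x = x * (g : ℝ) ^ (1 - δ / 2) * ((g : ℝ) ^ (δ - 1) * (g : ℝ) ^ (-(δ / 2))) := by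
        rw [mul_assoc, h9, mul_one]
    _ ≤ 384 * (2 * A) * ((g : ℝ) ^ (δ - 1) * (g : ℝ) ^ (-(δ / 2))) :=
      mul_le_mul_of_nonneg_right (by linarith) h11.le
    _ = 768 * (g : ℝ) ^ (δ - 1) * A * (g : ℝ) ^ (-(δ / 2)) := by ring
    _ ≤ 768 * (g : ℝ) ^ (δ - 1) * A * 1 :=
      mul_le_mul_of_nonneg_left h10 (by positivity)
    _ = 768 * (g : ℝ) ^ (δ - 1) * A := mul_one _
    _ ≤ (1536 + g₀) * (g : ℝ) ^ (δ - 1) * (r : ℝ) ^ (3 / 4 : ℝ) := by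
      gcongr
      linarith

end Pool.Agent.Lib.MP_640417_ag.All
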