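import Pool.Agent.Lib.MP_640417_ag.All.Defs

/-!
# Phases with two primes

`a / p + b / p' = (p' a + p b) / (p p')`.
-/

set_option autoImplicit false

namespace Pool.Agent.Lib.MP_640417_ag.All

open Module Finset Matrix Pool.Agent.Lib.MP_640417_ag.OddGal

/-- The phase `p' a + p b` modulo `p p'`. -/
def th (p p' : ℕ) (a : ZMod p) (b : ZMod p') : ZMod (p * p') :=
  ((p' * a.val + p * b.val : ℕ) : ZMod (p * p'))

/-- The representative of least absolute value of twice the phase. -/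
def bb (p p' : ℕ) (a : ZMod p) (b : ZMod p') : ℤ := (2 * th p p' a b).valMinAbs

variable {p p' : ℕ} [hp : Fact p.Prime] [hp' : Fact p'.Prime]

omit hp hp' in
private theorem mul_mod_left (x : ℕ) :
    ((p' * (x % p) : ℕ) : ZMod (p * p')) = ((p' * x : ℕ) : ZMod (p * p')) := by
  conv_rhs => rw [← Nat.mod_add_div x p]
  have h : ((p : ZMod (p * p')) * (p' : ZMod (p * p'))) = 0 := by
    have := ZMod.natCast_self (p * p')
    rwa [Nat.cast_mul] at this
  push_cast
  linear_combination -((x / p : ℕ) : ZMod (p * p')) * h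

omit hp hp' in
private theorem mul_mod_right (x : ℕ) :
    ((p * (x % p') : ℕ) : ZMod (p * p')) = ((p * x : ℕ) : ZMod (p * p')) := by
  conv_rhs => rw [← Nat.mod_add_div x p']
  have h : ((p : ZMod (p * p')) * (p' : ZMod (p * p'))) = 0 := by
    have := ZMod.natCast_self (p * p')
    rwa [Nat.cast_mul] at this
  push_cast
  linear_combination -((x / p' : ℕ) : ZMod (p * p')) * h

theorem th_add (a₁ a₂ : ZMod p) (b₁ b₂ : ZMod p') :
    th p p' (a₁ + a₂) (b₁ + b₂) = th p p' a₁ b₁ + th p p' a₂ b₂ := by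
  unfold th
  rw [ZMod.val_add, ZMod.val_add, Nat.cast_add, mul_mod_left, mul_mod_right]
  push_cast
  ring

private theorem th_zero : th p p' (0 : ZMod p) (0 : ZMod p') = 0 := by
  unfold th
  simp

theorem th_neg (a : ZMod p) (b : ZMod p') : th p p' (-a) (-b) = - th p p' a b := by
  have h := th_add (p := p) (p' := p') a (-a) b (-b)
  rw [add_neg_cancel, add_neg_cancel, th_zero] at h
  exact eq_neg_of_add_eq_zero_right h.symm

theorem th_eq_zero (hpp : p ≠ p') (a : ZMod p) (b : ZMod p') (h : th p p' a b = 0) :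
    a = 0 ∧ b = 0 := by
  have hcop : Nat.Coprime p p' := (Nat.coprime_primes hp.out hp'.out).2 hpp
  unfold th at h
  rw [ZMod.natCast_eq_zero_iff] at h
  constructor
  · have h1 : p ∣ p' * a.val + p * b.val := (Dvd.intro _ rfl).trans h
    have h2 : p ∣ p' * a.val := (Nat.dvd_add_left (Dvd.intro _ rfl)).1 h1
    have h3 : p ∣ a.val := hcop.dvd_of_dvd_mul_left h2
    have h4 : a.val = 0 := Nat.eq_zero_of_dvd_of_lt h3 (ZMod.val_lt a)
    exact (ZMod.val_eq_zero a).1 h4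
  · have h1 : p' ∣ p' * a.val + p * b.val := (Dvd.intro_left _ rfl).trans h
    have h2 : p' ∣ p * b.val := (Nat.dvd_add_right (Dvd.intro _ rfl)).1 h1
    have h3 : p' ∣ b.val := hcop.symm.dvd_of_dvd_mul_left h2
    have h4 : b.val = 0 := Nat.eq_zero_of_dvd_of_lt h3 (ZMod.val_lt b)
    exact (ZMod.val_eq_zero b).1 h4

theorem cs_th_left (a : ZMod p) : cs (p * p') (th p p' a 0) = cs p a := by
  have hp0 : (p : ℝ) ≠ 0 := by exact_mod_cast hp.out.ne_zero
  have hp0' : (p' : ℝ) ≠ 0 := by exact_mod_cast hp'.out.ne_zero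
  have hlt : p' * a.val < p * p' := by
    rw [mul_comm p p']
    exact Nat.mul_lt_mul_of_pos_left (ZMod.val_lt a) hp'.out.pos
  have hval : (th p p' a 0).val = p' * a.val := by
    unfold th
    rw [ZMod.val_zero, mul_zero, add_zero, ZMod.val_natCast, Nat.mod_eq_of_lt hlt]
  unfold cs
  rw [hval]
  congr 2
  push_cast
  field_simp

theorem cs_th_right (b : ZMod p') : cs (p * p') (th p p' 0 b) = cs p' b := by
  have hp0 : (p : ℝ) ≠ 0 := by exact_mod_cast hp.out.ne_zero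
  have hp0' : (p' : ℝ) ≠ 0 := by exact_mod_cast hp'.out.ne_zero
  have hlt : p * b.val < p * p' := Nat.mul_lt_mul_of_pos_left (ZMod.val_lt b) hp.out.pos
  have hval : (th p p' 0 b).val = p * b.val := by
    unfold th
    rw [ZMod.val_zero, mul_zero, zero_add, ZMod.val_natCast, Nat.mod_eq_of_lt hlt]
  unfold cs
  rw [hval]
  congr 2
  push_cast
  field_simp

/-- From `cs_le_exp`. -/
theorem cs_th_le (a : ZMod p) (b : ZMod p') :
    cs (p * p') (th p p' a b) ≤ Real.exp (-(2 * (bb p p' a b : ℝ) ^ 2 / ((p : ℝ) * p') ^ 2)) := by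
  have : NeZero (p * p') := ⟨mul_ne_zero hp.out.ne_zero hp'.out.ne_zero⟩
  have h := cs_le_exp (p * p') (th p p' a b)
  rw [Nat.cast_mul] at h
  exact h

private theorem bb_cast_left (a : ZMod p) (b : ZMod p') :
    ((bb p p' a b : ℤ) : ZMod p) = 2 * (p' : ZMod p) * a := by
  have h1 : ((bb p p' a b : ℤ) : ZMod (p * p')) = 2 * th p p' a b := ZMod.coe_valMinAbs _
  have h2 := congrArg (ZMod.castHom (Dvd.intro p' rfl : p ∣ p * p') (ZMod p)) h1
  rw [map_intCast] at h2
  rw [h2]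
  unfold th
  rw [map_mul, map_natCast]
  push_cast
  rw [ZMod.natCast_zmod_val, CharP.cast_eq_zero (ZMod p) p, zero_mul, add_zero, map_ofNat]
  ring

omit hp in
private theorem bb_cast_right (a : ZMod p) (b : ZMod p') :
    ((bb p p' a b : ℤ) : ZMod p') = 2 * (p : ZMod p') * b := by
  have h1 : ((bb p p' a b : ℤ) : ZMod (p * p')) = 2 * th p p' a b := ZMod.coe_valMinAbs _
  have h2 := congrArg (ZMod.castHom (Dvd.intro_left p rfl : p' ∣ p * p') (ZMod p')) h1
  rw [map_intCast] at h2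
  rw [h2]
  unfold th
  rw [map_mul, map_natCast]
  push_cast
  rw [ZMod.natCast_zmod_val, CharP.cast_eq_zero (ZMod p') p', zero_mul, zero_add, map_ofNat]
  ring

/-- `bb p p' a b ≡ 2 p' a` modulo `p` and `valMinAbs` is minimal in its class. -/
theorem sq_le_bb (a : ZMod p) (b : ZMod p') :
    (((2 * (p' : ZMod p) * a).valMinAbs : ℤ) : ℝ) ^ 2 ≤ (bb p p' a b : ℝ) ^ 2 := by
  have h1 : (((2 * (p' : ZMod p) * a).valMinAbs : ℤ) : ZMod p) = ((bb p p' a b : ℤ) : ZMod p) := by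
    rw [ZMod.coe_valMinAbs, bb_cast_left]
  have h2 := ZMod.natAbs_min_of_le_div_two p _ _ h1 (ZMod.natAbs_valMinAbs_le _)
  have h3 : |(2 * (p' : ZMod p) * a).valMinAbs| ≤ |bb p p' a b| := by
    rw [Int.abs_eq_natAbs, Int.abs_eq_natAbs]
    exact_mod_cast h2
  have h4 : (2 * (p' : ZMod p) * a).valMinAbs ^ 2 ≤ bb p p' a b ^ 2 := sq_le_sq.2 h3
  exact_mod_cast h4

/-- `bb p p' a b - bb p p' a b'` is divisible by `p`, and nonzero modulo `p'`; so its absolute value
is at least `p`, and `x² + y² ≥ (x - y)² / 2`. -/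
theorem bb_far (hpp : p ≠ p') (hp2' : p' ≠ 2) (a : ZMod p) (b b' : ZMod p') (hb : b ≠ b') :
    (p : ℝ) ^ 2 / 2 ≤ (bb p p' a b : ℝ) ^ 2 + (bb p p' a b' : ℝ) ^ 2 := by
  obtain ⟨D, hD⟩ : ∃ D : ℤ, D = bb p p' a b - bb p p' a b' := ⟨_, rfl⟩
  have h1 : (p : ℤ) ∣ D := by
    rw [← ZMod.intCast_zmod_eq_zero_iff_dvd, hD, Int.cast_sub, bb_cast_left, bb_cast_left, sub_self]
  have h2 : D ≠ 0 := by
    intro h0
    have h3 : ((D : ℤ) : ZMod p') = 2 * (p : ZMod p') * (b - b') := by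
      rw [hD, Int.cast_sub, bb_cast_right, bb_cast_right]
      ring
    rw [h0, Int.cast_zero] at h3
    have h4 : (2 : ZMod p') ≠ 0 := by
      intro h5
      have h6 : ((2 : ℕ) : ZMod p') = 0 := by exact_mod_cast h5
      rw [ZMod.natCast_eq_zero_iff] at h6
      exact hp2' ((Nat.prime_dvd_prime_iff_eq hp'.out Nat.prime_two).1 h6)
    have h5 : (p : ZMod p') ≠ 0 := by
      intro h6
      rw [ZMod.natCast_eq_zero_iff] at h6
      exact hpp ((Nat.prime_dvd_prime_iff_eq hp'.out hp.out).1 h6).symm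
    exact (mul_ne_zero (mul_ne_zero h4 h5) (sub_ne_zero.2 hb)) h3.symm
  have h3 : (p : ℤ) ≤ |D| := by
    have := Int.le_of_dvd (abs_pos.2 h2) ((dvd_abs _ _).2 h1)
    exact this
  have h4 : (p : ℝ) ≤ |(D : ℝ)| := by exact_mod_cast h3
  have h5 : (p : ℝ) ^ 2 ≤ (D : ℝ) ^ 2 := by
    rw [← sq_abs (D : ℝ)]
    exact pow_le_pow_left₀ (Nat.cast_nonneg _) h4 2
  have h6 : (D : ℝ) = (bb p p' a b : ℝ) - bb p p' a b' := by
    rw [hD]
    push_cast
    rfl
  rw [h6] at h5
  nlinarith [sq_nonneg ((bb p p' a b : ℝ) + bb p p' a b')]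

end Pool.Agent.Lib.MP_640417_ag.All
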