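import Pool.Agent.Lib.MP_640417_ag.All.Defs

/-!
# The representation modulo `p` is still absolutely irreducible

Schur orthogonality over `ℚ`: for a rational matrix `A` the matrix `∑_h ρ(h) A ρ(h⁻¹)` commutes
with all `ρ(g)`, hence with all matrices (`Rep.span`), so it is a scalar `s(A)`, and taking traces
`n s(A) = |G| tr A`. With `A = E_{kl}` and the entry `(i, j)`:
`∑_h ρ(h)_{ik} ρ(h⁻¹)_{lj} = (|G| / n) δ_{kl} δ_{ij}`. So `|G| / n` is an integer `m` (take
`k = l`, `i = j`; `n ≥ 1`), and `∑_h ρ(h⁻¹)_{lj} ρ(h) = m E_{jl}` in integral matrices. As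
`p ∤ |G| = n m`, `m` is invertible modulo `p` and all `E_{jl}` lie in the span modulo `p`.
(`n = 0` is trivial.)
-/

set_option autoImplicit false

namespace Pool.Agent.Lib.MP_640417_ag.All

open Module Finset Matrix Pool.Agent.Lib.MP_640417_ag.OddGal

variable {G : Type} [Group G] [Fintype G] {c : G}

/-- Schur orthogonality over the rationals. -/
private theorem spanMod_schur {n : ℕ} {R : G →* Matrix (Fin n) (Fin n) ℚ}
    (hR : Submodule.span ℚ (Set.range fun h : G => R h) = ⊤) (A : Matrix (Fin n) (Fin n) ℚ) :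
    ∃ s : ℚ, Matrix.scalar (Fin n) s = ∑ h, R h * A * R h⁻¹ ∧
      n * s = Fintype.card G * A.trace := by
  have h1 : ∀ g, R g * (∑ h, R h * A * R h⁻¹) = (∑ h, R h * A * R h⁻¹) * R g := by
    intro g
    rw [Finset.mul_sum, Finset.sum_mul]
    have h2 : ∑ h, R h * A * R h⁻¹ * R g = ∑ h, R (g * h) * A * R (g * h)⁻¹ * R g :=
      (Equiv.sum_comp (Equiv.mulLeft g) (fun h => R h * A * R h⁻¹ * R g)).symm
    rw [h2]
    apply Finset.sum_congr rfl
    intro h _
    have h3 : R (g * h)⁻¹ * R g = R h⁻¹ := by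
      rw [← map_mul, _root_.mul_inv_rev, mul_assoc, inv_mul_cancel, mul_one]
    rw [mul_assoc _ (R (g * h)⁻¹), h3, map_mul]
    simp only [mul_assoc]
  have h4 : ∀ B : Matrix (Fin n) (Fin n) ℚ, B * (∑ h, R h * A * R h⁻¹) =
      (∑ h, R h * A * R h⁻¹) * B := by
    intro B
    have hB : B ∈ Submodule.span ℚ (Set.range fun h : G => R h) := by
      rw [hR]
      exact Submodule.mem_top
    induction hB using Submodule.span_induction with
    | mem x hx =>
      obtain ⟨g, rfl⟩ := hx
      exact h1 g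
    | zero => rw [zero_mul, mul_zero]
    | add x y _ _ hx hy => rw [add_mul, mul_add, hx, hy]
    | smul a x _ hx => rw [smul_mul_assoc, mul_smul_comm, hx]
  obtain ⟨s, hs⟩ := Matrix.mem_range_scalar_of_commute_single
    (M := ∑ h, R h * A * R h⁻¹) (fun i j _ => h4 _)
  refine ⟨s, hs, ?_⟩
  have h5 := congrArg Matrix.trace hs
  rw [Matrix.trace_sum] at h5
  have h6 : ∀ h : G, (R h * A * R h⁻¹).trace = A.trace := by
    intro h
    rw [Matrix.trace_mul_comm, ← mul_assoc, ← map_mul, inv_mul_cancel, map_one, one_mul]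
  simp only [h6] at h5
  rw [Finset.sum_const, Finset.card_univ, nsmul_eq_mul, Matrix.scalar_apply,
    Matrix.trace_diagonal, Finset.sum_const, Finset.card_univ, Fintype.card_fin,
    nsmul_eq_mul] at h5
  exact h5

theorem span_mod {n : ℕ} {ρ : G →* Matrix (Fin n) (Fin n) ℤ} (hρ : Rep c n ρ) (p : ℕ)
    [Fact p.Prime] (hp : ¬ p ∣ Fintype.card G) :
    Submodule.span (ZMod p) (Set.range fun h : G => redM p (ρ h)) = ⊤ := by
  classical
  let R : G →* Matrix (Fin n) (Fin n) ℚ :=
    (RingHom.toMonoidHom (Int.castRingHom ℚ).mapMatrix).comp ρ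
  have hRe : ∀ h i j, R h i j = ((ρ h i j : ℤ) : ℚ) := fun h i j => rfl
  have hR : Submodule.span ℚ (Set.range fun h : G => R h) = ⊤ := hρ.span
  -- the integral relation
  have h1 : ∀ i j k l : Fin n, (n : ℤ) * ∑ h, ρ h i k * ρ h⁻¹ l j =
      if k = l ∧ i = j then (Fintype.card G : ℤ) else 0 := by
    intro i j k l
    obtain ⟨s, hs, hs2⟩ := spanMod_schur hR (Matrix.single k l 1)
    have h2 := congrFun (congrFun hs i) j
    rw [Matrix.sum_apply] at h2
    have h3 : ∀ h : G, (R h * Matrix.single k l (1 : ℚ) * R h⁻¹ : Matrix (Fin n) (Fin n) ℚ) i j =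
        ((ρ h i k * ρ h⁻¹ l j : ℤ) : ℚ) := by
      intro h
      rw [mul_assoc, Matrix.mul_apply, Finset.sum_eq_single k]
      · rw [Matrix.single_mul_apply_same, one_mul, hRe, hRe]
        push_cast
        rfl
      · intro b _ hb
        rw [Matrix.single_mul_apply_of_ne _ _ _ _ _ hb, mul_zero]
      · intro h
        exact absurd (Finset.mem_univ _) h
    simp only [h3] at h2
    have h4 : (n : ℚ) * ((∑ h, ρ h i k * ρ h⁻¹ l j : ℤ) : ℚ) =
        ((if k = l ∧ i = j then (Fintype.card G : ℤ) else 0 : ℤ) : ℚ) := by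
      rw [Int.cast_sum, ← h2, Matrix.scalar_apply, Matrix.diagonal_apply]
      by_cases hij : i = j
      · rw [if_pos hij, hs2]
        by_cases hkl : k = l
        · rw [if_pos ⟨hkl, hij⟩, hkl, Matrix.trace_single_eq_same, mul_one]
          push_cast
          rfl
        · rw [if_neg (fun h => hkl h.1), Matrix.trace_single_eq_of_ne _ _ _ hkl, mul_zero]
          rfl
      · rw [if_neg hij, if_neg (fun h => hij h.2), mul_zero]
        rfl
    exact_mod_cast h4
  have hG : ((Fintype.card G : ℕ) : ZMod p) ≠ 0 := by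
    rw [Ne, ZMod.natCast_eq_zero_iff]
    exact hp
  rw [eq_top_iff]
  intro M _
  rw [Matrix.matrix_eq_sum_single M]
  refine Submodule.sum_mem _ fun j _ => Submodule.sum_mem _ fun l _ => ?_
  have h2 : Matrix.single j l (M j l) = M j l • Matrix.single j l 1 := by
    rw [Matrix.smul_single, smul_eq_mul, mul_one]
  rw [h2]
  refine Submodule.smul_mem _ _ ?_
  have h3 : Matrix.single j l (1 : ZMod p) = ((Fintype.card G : ℕ) : ZMod p)⁻¹ •
      ((n : ZMod p) • ∑ h, ((ρ h⁻¹ l j : ℤ) : ZMod p) • redM p (ρ h)) := by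
    ext i k
    rw [Matrix.smul_apply, Matrix.smul_apply, Matrix.sum_apply]
    have h4 : ∀ h : G, (((ρ h⁻¹ l j : ℤ) : ZMod p) • redM p (ρ h)) i k =
        ((ρ h i k * ρ h⁻¹ l j : ℤ) : ZMod p) := by
      intro h
      rw [Matrix.smul_apply, redM, Matrix.map_apply, smul_eq_mul]
      push_cast
      ring
    simp only [h4]
    have h5 := congrArg (Int.cast : ℤ → ZMod p) (h1 i j k l)
    rw [Int.cast_mul, Int.cast_sum, Int.cast_natCast] at h5
    rw [smul_eq_mul, smul_eq_mul, h5, Matrix.single_apply]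
    by_cases h6 : j = i ∧ l = k
    · rw [if_pos h6, if_pos ⟨h6.2.symm, h6.1.symm⟩, Int.cast_natCast, inv_mul_cancel₀ hG]
    · rw [if_neg h6, if_neg (fun h => h6 ⟨h.2.symm, h.1.symm⟩), Int.cast_zero, mul_zero]
  rw [h3]
  exact Submodule.smul_mem _ _ (Submodule.smul_mem _ _ (Submodule.sum_mem _ fun h _ =>
    Submodule.smul_mem _ _ (Submodule.subset_span ⟨h, rfl⟩)))

end Pool.Agent.Lib.MP_640417_ag.All
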