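import Pool.Agent.Lib.MP_640417_ag.All.Duals
import Pool.Agent.Lib.MP_640417_ag.All.SpanMod

/-!
# The sum over the column vectors for one prime
-/

set_option autoImplicit false

namespace Pool.Agent.Lib.MP_640417_ag.All

open Module Finset Matrix Pool.Agent.Lib.MP_640417_ag.OddGal

variable {G X : Type} [Group G] [Fintype G] [Fintype X] {c : G} {τ : X → G} {κ : ℕ}

private lemma rowSum_redM_mul (p : ℕ) {n : ℕ} (A B : Matrix (Fin n) (Fin n) ℤ) :
    redM p (A * B) = redM p A * redM p B := by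
  have h := Matrix.map_mul (L := A) (M := B) (f := Int.castRingHom (ZMod p))
  exact h

private lemma rowSum_redM_one (p n : ℕ) : redM p (1 : Matrix (Fin n) (Fin n) ℤ) = 1 := by
  unfold redM
  exact Matrix.map_one _ Int.cast_zero Int.cast_one

private lemma rowSum_redM_neg (p : ℕ) {n : ℕ} (A : Matrix (Fin n) (Fin n) ℤ) :
    redM p (-A) = - redM p A := by
  ext i j
  simp [redM]

/-- The right multiplication by `ρ(k)` modulo `p`. -/
private noncomputable def rowSumT (p : ℕ) {n : ℕ} (ρ : G →* Matrix (Fin n) (Fin n) ℤ) (k : G) :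
    (Fin n → ZMod p) ≃ₗ[ZMod p] (Fin n → ZMod p) :=
  LinearEquiv.ofLinearMap (Matrix.vecMulLinear (redM p (ρ k))) (Matrix.vecMulLinear (redM p (ρ k⁻¹)))
    (by
      apply LinearMap.ext
      intro s
      simp only [LinearMap.comp_apply, Matrix.vecMulLinear_apply, LinearMap.id_apply,
        Matrix.vecMul_vecMul]
      rw [← rowSum_redM_mul, ← map_mul, inv_mul_cancel, map_one, rowSum_redM_one, Matrix.vecMul_one])
    (by
      apply LinearMap.ext
      intro s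
      simp only [LinearMap.comp_apply, Matrix.vecMulLinear_apply, LinearMap.id_apply,
        Matrix.vecMul_vecMul]
      rw [← rowSum_redM_mul, ← map_mul, mul_inv_cancel, map_one, rowSum_redM_one, Matrix.vecMul_one])

omit [Fintype G] in
private lemma rowSumT_apply (p : ℕ) {n : ℕ} (ρ : G →* Matrix (Fin n) (Fin n) ℤ) (k : G)
    (s : Fin n → ZMod p) : rowSumT p ρ k s = s ᵥ* redM p (ρ k) := rfl

private lemma rowSum_span {n : ℕ} {ρ : G →* Matrix (Fin n) (Fin n) ℤ}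
    (hρ : Rep c n ρ) (p : ℕ) [Fact p.Prime] (hp : ¬ p ∣ Fintype.card G) (v : Fin n → ZMod p)
    (hv : v ≠ 0) :
    Submodule.span (ZMod p) (Set.range fun h : G => v ᵥ* redM p (ρ h)) = ⊤ := by
  classical
  have h1 := span_mod hρ p hp
  let L : Matrix (Fin n) (Fin n) (ZMod p) →ₗ[ZMod p] (Fin n → ZMod p) :=
    { toFun := fun A => v ᵥ* A
      map_add' := fun A B => Matrix.vecMul_add A B v
      map_smul' := fun r A => by
        rw [RingHom.id_apply, Matrix.vecMul_smul] }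
  have h2 : (Set.range fun h : G => v ᵥ* redM p (ρ h))
      = L '' (Set.range fun h : G => redM p (ρ h)) := by
    rw [← Set.range_comp]
    rfl
  rw [h2, ← Submodule.map_span, h1, Submodule.map_top, LinearMap.range_eq_top]
  intro s
  obtain ⟨j, hj⟩ : ∃ j, v j ≠ 0 := by
    by_contra hcon
    push Not at hcon
    exact hv (funext hcon)
  refine ⟨Matrix.of fun i l => if i = j then (v j)⁻¹ * s l else 0, ?_⟩
  funext l
  show (v ᵥ* (Matrix.of fun i l => if i = j then (v j)⁻¹ * s l else 0)) l = s l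
  simp only [Matrix.vecMul, dotProduct, Matrix.of_apply, mul_ite, mul_zero, Finset.sum_ite_eq',
    Finset.mem_univ, if_true]
  field_simp

/-- `sum_prod_leX` for `S = Fin n → ZMod p`, `w h = v ᵥ* ρ(h)`, `T k = (· ᵥ* ρ(k))`; the functionals
on `S` are `s ↦ s ⬝ᵥ u`. As `v ≠ 0` and the `ρ(h)` span all matrices (`span_mod`), the `w h`
span. -/
theorem sum_row_le (hc : Cover c τ κ) {n : ℕ} {ρ : G →* Matrix (Fin n) (Fin n) ℤ}
    (hρ : Rep c n ρ) (p : ℕ) [Fact p.Prime] (hp : ¬ p ∣ Fintype.card G) (v : Fin n → ZMod p)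
    (hv : v ≠ 0) (F : ZMod p → ℝ) (hF0 : ∀ a, 0 ≤ F a) (hF1 : ∀ a, F a ≤ 1)
    (hFe : ∀ a, F (-a) = F a) (t : ℕ) (ht : n * t ≤ Fintype.card X) :
    ∑ u : Fin n → ZMod p, ∏ x, F ((v ᵥ* redM p (ρ (τ x))) ⬝ᵥ u) ≤
      (∑ a : ZMod p, F a ^ t) ^ n := by
  classical
  have : Finite (Dual (ZMod p) (Fin n → ZMod p)) := Module.finite_of_finite (ZMod p)
  have : Fintype (Dual (ZMod p) (Fin n → ZMod p)) := Fintype.ofFinite _
  have hfin : finrank (ZMod p) (Fin n → ZMod p) = n := by simp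
  have hT : ∀ k h : G, rowSumT p ρ k (v ᵥ* redM p (ρ h)) = v ᵥ* redM p (ρ (h * k)) := by
    intro k h
    rw [rowSumT_apply, Matrix.vecMul_vecMul, ← rowSum_redM_mul, ← map_mul]
  have hodd : ∀ h : G, v ᵥ* redM p (ρ (c * h)) = - (v ᵥ* redM p (ρ h)) := by
    intro h
    rw [map_mul, hρ.neg, neg_mul, one_mul, rowSum_redM_neg, Matrix.vecMul_neg]
  have h1 := sum_prod_leX hc (fun h => v ᵥ* redM p (ρ h)) (rowSumT p ρ) hT
    (rowSum_span hρ p hp v hv) hodd F hF0 hF1 hFe t (by rw [hfin]; exact ht)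
  rw [hfin] at h1
  refine le_trans (le_of_eq ?_) h1
  refine Fintype.sum_equiv (dotProductEquiv (ZMod p) (Fin n)).toEquiv _ _ ?_
  intro u
  refine Finset.prod_congr rfl (fun x _ => ?_)
  have h2 : (dotProductEquiv (ZMod p) (Fin n)).toEquiv u (v ᵥ* redM p (ρ (τ x)))
      = u ⬝ᵥ (v ᵥ* redM p (ρ (τ x))) := rfl
  rw [h2, dotProduct_comm]

/-- With `F = cs p`: `sum_cs_pow_pow_le`. -/
theorem sum_row_cs_le (hc : Cover c τ κ) {n : ℕ} {ρ : G →* Matrix (Fin n) (Fin n) ℤ}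
    (hρ : Rep c n ρ) (p : ℕ) [Fact p.Prime] (hp2 : p ≠ 2) (hp : ¬ p ∣ Fintype.card G)
    (v : Fin n → ZMod p) (hv : v ≠ 0) (t : ℕ) (ht : n * t ≤ Fintype.card X)
    (hnum : 4 * n * Real.exp (-(2 * (t : ℝ) / p ^ 2)) ≤ 1) :
    ∑ u : Fin n → ZMod p, ∏ x, cs p ((v ᵥ* redM p (ρ (τ x))) ⬝ᵥ u) ≤ 3 := by
  have hcse : ∀ a : ZMod p, cs p (-a) = cs p a := by
    intro a
    have hp0 : (p : ℝ) ≠ 0 := by exact_mod_cast (Fact.out : p.Prime).ne_zero
    unfold cs
    by_cases ha : a = 0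
    · simp [ha]
    · have : NeZero a := ⟨ha⟩
      rw [ZMod.val_neg_of_ne_zero]
      have hle : a.val ≤ p := (ZMod.val_lt a).le
      rw [Nat.cast_sub hle]
      have : 2 * Real.pi * ((p : ℝ) - (a.val : ℝ)) / p = 2 * Real.pi - 2 * Real.pi * (a.val : ℝ) / p := by
        field_simp
      rw [this, Real.cos_two_pi_sub]
  exact (sum_row_le hc hρ p hp v hv (cs p) (cs_nonneg p) (cs_le_one p) hcse t ht).trans
    (sum_cs_pow_pow_le p hp2 t n hnum)

end Pool.Agent.Lib.MP_640417_ag.All
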