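import Mathlib

/-!
# Integral points of subspaces and dependent rows in a box
-/

set_option autoImplicit false

namespace Pool.Agent.Lib.MP_640417_ag.All

open Module Finset Matrix

private theorem SingCountA_coords (n : ℕ) (V : Submodule ℚ (Fin n → ℚ)) :
    ∃ s : Finset (Fin n), (∀ v ∈ V, (∀ i ∈ s, v i = 0) → v = 0) ∧ s.card ≤ finrank ℚ V := by
  classical
  have hex : ∃ k : ℕ, ∃ s : Finset (Fin n), s.card = k ∧
      ∀ v ∈ V, (∀ i ∈ s, v i = 0) → v = 0 :=
    ⟨_, univ, rfl, fun v _ h => funext fun i => h i (mem_univ i)⟩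
  obtain ⟨s, hsk, hs⟩ := Nat.find_spec hex
  refine ⟨s, hs, ?_⟩
  have hv : ∀ i : s, ∃ v : V, (∀ j ∈ s, j ≠ (i : Fin n) → v.1 j = 0) ∧ v.1 i ≠ 0 := by
    intro i
    by_contra hcon
    push Not at hcon
    have h2 : ∃ s' : Finset (Fin n), s'.card = (s.erase (i : Fin n)).card ∧
        ∀ v ∈ V, (∀ i ∈ s', v i = 0) → v = 0 := by
      refine ⟨s.erase (i : Fin n), rfl, fun v hv h => hs v hv (fun j hj => ?_)⟩
      by_cases hji : j = (i : Fin n)
      · rw [hji]
        exact hcon ⟨v, hv⟩ (fun k hk hne => h k (mem_erase.2 ⟨hne, hk⟩))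
      · exact h j (mem_erase.2 ⟨hji, hj⟩)
    have h3 := Nat.find_min' hex h2
    rw [card_erase_of_mem i.2] at h3
    have h4 : 0 < s.card := card_pos.2 ⟨_, i.2⟩
    omega
  choose v hv1 hv2 using hv
  have hli : LinearIndependent ℚ v := by
    rw [linearIndependent_iff']
    intro t g hg i hi
    have h5 := congrArg (fun w : V => w.1 (i : Fin n)) hg
    simp only [AddSubmonoidClass.coe_finsetSum, SetLike.val_smul, Finset.sum_apply, Pi.smul_apply,
      smul_eq_mul, ZeroMemClass.coe_zero, Pi.zero_apply] at h5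
    rw [Finset.sum_eq_single i] at h5
    · rcases mul_eq_zero.1 h5 with h6 | h6
      · exact h6
      · exact absurd h6 (hv2 i)
    · intro j _ hji
      rw [hv1 j i i.2 (fun h => hji (Subtype.ext h.symm)), mul_zero]
    · intro h; exact absurd hi h
  have h7 := hli.fintype_card_le_finrank
  simpa using h7

private theorem SingCountA_Icc (T : ℕ) : (Finset.Icc (-(T : ℤ)) T).card = 2 * T + 1 := by
  rw [Int.card_Icc]; omega

/-- Integral points of a subspace in a box: `dim V` coordinates determine a point of `V`. -/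
theorem ncard_subspace_le (n : ℕ) (V : Submodule ℚ (Fin n → ℚ)) (T : ℕ) :
    {z : Fin n → ℤ | (∀ i, |z i| ≤ T) ∧ (fun i => (z i : ℚ)) ∈ V}.ncard
      ≤ (2 * T + 1) ^ finrank ℚ V := by
  classical
  obtain ⟨s, hs, hcard⟩ := SingCountA_coords n V
  let P : Finset (s → ℤ) := Fintype.piFinset (fun _ : s => Finset.Icc (-(T : ℤ)) T)
  have hP : P.card = (2 * T + 1) ^ s.card := by
    simp only [P, Fintype.card_piFinset, SingCountA_Icc, Finset.prod_const, Finset.card_univ,
      Fintype.card_coe]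
  have h1 : {z : Fin n → ℤ | (∀ i, |z i| ≤ T) ∧ (fun i => (z i : ℚ)) ∈ V}.ncard
      ≤ (P : Set (s → ℤ)).ncard := by
    apply Set.ncard_le_ncard_of_injOn (fun z (i : s) => z i)
    · intro z hz
      simp only [P, Finset.mem_coe, Fintype.mem_piFinset, Finset.mem_Icc]
      intro i
      exact abs_le.1 (hz.1 i)
    · intro z hz z' hz' h
      have h2 : (fun i => (z i : ℚ)) - (fun i => (z' i : ℚ)) ∈ V := V.sub_mem hz.2 hz'.2
      have h3 := hs _ h2 (by
        intro i hi
        have h4 := congrFun h ⟨i, hi⟩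
        simp only at h4
        simp [h4])
      funext i
      have h5 := congrFun h3 i
      simp only [Pi.sub_apply, Pi.zero_apply, sub_eq_zero] at h5
      exact_mod_cast h5
  rw [Set.ncard_coe_finset, hP] at h1
  exact h1.trans (Nat.pow_le_pow_right (by omega) hcard)

private theorem SingCountA_row (m n : ℕ) (T : ℕ) (i : Fin m) :
    {Q : Fin m → Fin n → ℤ | (∀ i j, |Q i j| ≤ T) ∧
      (fun j => (Q i j : ℚ)) ∈ Submodule.span ℚ
        ((fun k j => (Q k j : ℚ)) '' {k | k ≠ i})}.ncard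
      ≤ (2 * T + 1) ^ ((m - 1) * (n + 1)) := by
  classical
  let B : Finset (Fin m → Fin n → ℤ) :=
    Fintype.piFinset (fun _ => Fintype.piFinset (fun _ => Finset.Icc (-(T : ℤ)) T))
  have hB : ∀ Q : Fin m → Fin n → ℤ, Q ∈ B ↔ ∀ i j, |Q i j| ≤ T := by
    intro Q
    simp only [B, Fintype.mem_piFinset, Finset.mem_Icc, abs_le]
  let S : Finset (Fin m → Fin n → ℤ) := B.filter (fun Q => (fun j => (Q i j : ℚ)) ∈
    Submodule.span ℚ ((fun k j => (Q k j : ℚ)) '' {k | k ≠ i}))
  have hS : {Q : Fin m → Fin n → ℤ | (∀ i j, |Q i j| ≤ T) ∧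
      (fun j => (Q i j : ℚ)) ∈ Submodule.span ℚ
        ((fun k j => (Q k j : ℚ)) '' {k | k ≠ i})} = (S : Set (Fin m → Fin n → ℤ)) := by
    ext Q
    simp only [Set.mem_ofPred_eq, S, Finset.coe_filter, hB]
  rw [hS, Set.ncard_coe_finset]
  let f : (Fin m → Fin n → ℤ) → ({k : Fin m // k ≠ i} → Fin n → ℤ) := fun Q k => Q k
  have himg : (S.image f).card ≤ (2 * T + 1) ^ ((m - 1) * n) := by
    have h1 : S.image f ⊆ Fintype.piFinset
        (fun _ => Fintype.piFinset (fun _ => Finset.Icc (-(T : ℤ)) T)) := by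
      intro g hg
      obtain ⟨Q, hQ, rfl⟩ := Finset.mem_image.1 hg
      have h2 := (hB Q).1 (Finset.mem_filter.1 hQ).1
      simp only [Fintype.mem_piFinset, Finset.mem_Icc, f]
      intro k j
      exact abs_le.1 (h2 k j)
    refine (Finset.card_le_card h1).trans (le_of_eq ?_)
    simp only [Fintype.card_piFinset, SingCountA_Icc, Finset.prod_const, Finset.card_univ,
      Fintype.card_fin]
    rw [← pow_mul]
    congr 1
    have h3 : Fintype.card {k : Fin m // k ≠ i} = m - 1 := by
      rw [Fintype.card_subtype_compl]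
      simp
    rw [h3, mul_comm]
  have hfib : ∀ a ∈ S.image f, (S.filter (fun x => f x = a)).card ≤ (2 * T + 1) ^ (m - 1) := by
    intro a _
    let V : Submodule ℚ (Fin n → ℚ) :=
      Submodule.span ℚ (Set.range (fun (k : {k : Fin m // k ≠ i}) (j : Fin n) => (a k j : ℚ)))
    have hV : finrank ℚ V ≤ m - 1 := by
      have h4 := finrank_range_le_card (R := ℚ)
        (fun (k : {k : Fin m // k ≠ i}) (j : Fin n) => (a k j : ℚ))
      have h3 : Fintype.card {k : Fin m // k ≠ i} = m - 1 := by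
        rw [Fintype.card_subtype_compl]
        simp
      rw [h3] at h4
      exact h4
    have h5 := (ncard_subspace_le n V T).trans (Nat.pow_le_pow_right (by omega) hV)
    refine le_trans ?_ h5
    rw [← Set.ncard_coe_finset]
    have hfin : {z : Fin n → ℤ | (∀ i, |z i| ≤ T) ∧ (fun i => (z i : ℚ)) ∈ V}.Finite := by
      apply Set.Finite.subset
        (Finset.finite_toSet (Fintype.piFinset (fun _ : Fin n => Finset.Icc (-(T : ℤ)) T)))
      intro z hz
      simp only [Finset.mem_coe, Fintype.mem_piFinset, Finset.mem_Icc]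
      intro j
      exact abs_le.1 (hz.1 j)
    apply Set.ncard_le_ncard_of_injOn (fun Q => Q i) _ _ hfin
    · intro Q hQ
      rw [Finset.mem_coe, Finset.mem_filter] at hQ
      obtain ⟨hQS, hQa⟩ := hQ
      obtain ⟨hQB, hQi⟩ := Finset.mem_filter.1 hQS
      refine ⟨fun j => (hB Q).1 hQB i j, ?_⟩
      refine Submodule.span_mono ?_ hQi
      rintro _ ⟨k, hk, rfl⟩
      refine ⟨⟨k, hk⟩, ?_⟩
      funext j
      have h6 := congrFun (congrFun hQa ⟨k, hk⟩) j
      simp only [f] at h6
      simp only [h6]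
    · intro Q hQ Q' hQ' h
      rw [Finset.mem_coe, Finset.mem_filter] at hQ hQ'
      funext k
      by_cases hk : k = i
      · rw [hk]; exact h
      · have h7 : f Q = f Q' := hQ.2.trans hQ'.2.symm
        exact congrFun h7 ⟨k, hk⟩
  have h8 := Finset.card_le_mul_card_image S _ hfib
  refine h8.trans ((Nat.mul_le_mul_left _ himg).trans (le_of_eq ?_))
  rw [← pow_add]
  congr 1
  ring

/-- Integral matrices with linearly dependent rows: some row is in the span of the others, which
has dimension at most `m - 1`: at most `m (2T+1)^{(m-1) n} (2T+1)^{m-1}`. -/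
theorem ncard_dependent_le (m n : ℕ) (T : ℕ) :
    {Q : Fin m → Fin n → ℤ | (∀ i j, |Q i j| ≤ T) ∧
      ¬ LinearIndependent ℚ (fun i j => (Q i j : ℚ))}.ncard
      ≤ m * (2 * T + 1) ^ ((m - 1) * (n + 1)) := by
  classical
  have hfin : ∀ p : (Fin m → Fin n → ℤ) → Prop,
      {Q : Fin m → Fin n → ℤ | (∀ i j, |Q i j| ≤ T) ∧ p Q}.Finite := by
    intro p
    apply Set.Finite.subset (Finset.finite_toSet (Fintype.piFinset
      (fun _ : Fin m => Fintype.piFinset (fun _ : Fin n => Finset.Icc (-(T : ℤ)) T))))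
    intro Q hQ
    simp only [Finset.mem_coe, Fintype.mem_piFinset, Finset.mem_Icc]
    intro i j
    exact abs_le.1 (hQ.1 i j)
  have hsub : {Q : Fin m → Fin n → ℤ | (∀ i j, |Q i j| ≤ T) ∧
      ¬ LinearIndependent ℚ (fun i j => (Q i j : ℚ))} ⊆
      ⋃ i ∈ (Finset.univ : Finset (Fin m)), {Q : Fin m → Fin n → ℤ | (∀ i j, |Q i j| ≤ T) ∧
      (fun j => (Q i j : ℚ)) ∈ Submodule.span ℚ
        ((fun k j => (Q k j : ℚ)) '' {k | k ≠ i})} := by
    rintro Q ⟨hQ, hdep⟩
    rw [linearIndependent_iff_notMem_span] at hdep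
    push Not at hdep
    obtain ⟨i, hi⟩ := hdep
    simp only [Finset.mem_univ, Set.iUnion_true, Set.mem_iUnion]
    refine ⟨i, hQ, ?_⟩
    have h9 : (Set.univ \ {i} : Set (Fin m)) = {k | k ≠ i} := by
      ext k; simp
    rw [h9] at hi
    exact hi
  have hfinU : (⋃ i ∈ (Finset.univ : Finset (Fin m)), {Q : Fin m → Fin n → ℤ |
      (∀ i j, |Q i j| ≤ T) ∧ (fun j => (Q i j : ℚ)) ∈ Submodule.span ℚ
        ((fun k j => (Q k j : ℚ)) '' {k | k ≠ i})}).Finite :=
    Set.Finite.biUnion (Finset.finite_toSet _) (fun i _ => hfin _)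
  refine (Set.ncard_le_ncard hsub hfinU).trans ?_
  have h10 : ∀ s : Finset (Fin m), (⋃ i ∈ s, {Q : Fin m → Fin n → ℤ |
      (∀ i j, |Q i j| ≤ T) ∧ (fun j => (Q i j : ℚ)) ∈ Submodule.span ℚ
        ((fun k j => (Q k j : ℚ)) '' {k | k ≠ i})}).ncard
      ≤ s.card * (2 * T + 1) ^ ((m - 1) * (n + 1)) := by
    intro s
    induction s using Finset.induction_on with
    | empty => simp
    | insert a s ha ih =>
      rw [Finset.set_biUnion_insert, Finset.card_insert_of_notMem ha, Nat.add_mul, one_mul,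
        add_comm]
      exact (Set.ncard_union_le _ _).trans (Nat.add_le_add (SingCountA_row m n T a) ih)
  have h11 := h10 Finset.univ
  rwa [Finset.card_univ, Fintype.card_fin] at h11

end Pool.Agent.Lib.MP_640417_ag.All
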