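import Pool.Agent.Lib.MP_640417_ag.All.Defs

/-!
# Split types come from integral representations

Let `zc e = 1` and let `I ≠ 0` be a left ideal in `comp e` with `(finrank I)² ≤ rk e`; `n = finrank
I`. `G` acts on `I` by left multiplication.

(1) `comp e` acts faithfully on `I`: if `x ∈ comp e`, `x I = 0` then `x = 0`. (If `x.coeff h ≠ 0`
then `z = ∑ g (h⁻¹ x) g⁻¹` is central, `z I = 0`, `e z = z` and the coefficient of `z` at `1` is
`|G| x.coeff h ≠ 0`; by `IsType.field` the element `e` kills `I`.)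
(2) Hence `rk e ≤ n²`, so `n² = rk e` and `comp e → End_ℚ(I)` is bijective.
(3) `L = {x ∈ ℤ[G] | toQ x ∈ I}` is a free `ℤ`-module of rank `n` stable under `G`; in a basis one
gets `ρ : G →* Matrix (Fin n) (Fin n) ℤ`; `ρ c = -1` as `single c 1 * x = single c 1 * e * x = -x`.
The rational span of the `ρ h` is everything by (2) (`ℚ[G] = comp e ⊕ comp (1 - e)` and `1 - e`
acts as `0`).
(4) If `y ≠ 0`, `e y = y`, `y a = 0`, `a = eltX τ ε`, then `ρ(y) ≠ 0` by (1) and
`ρ(y) ρ(a) = 0`, so `det ρ(a) = 0`, and `ρ(a) = ∑ ε x • ρ (τ x)`.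
-/

set_option autoImplicit false

namespace Pool.Agent.Lib.MP_640417_ag.All

open Module Finset Matrix Pool.Agent.Lib.MP_640417_ag.OddGal

variable {G : Type} [Group G] [Fintype G] {c : G}

/-- (1) -/
theorem splitRep_faithful (e : MonoidAlgebra ℚ G) (he : IsType e)
    (I : Submodule ℚ (MonoidAlgebra ℚ G)) (hI0 : I ≠ ⊥) (hIe : I ≤ comp e)
    (hI : ∀ a, ∀ x ∈ I, a * x ∈ I) (x : MonoidAlgebra ℚ G) (hx : e * x = x)
    (hxI : ∀ y ∈ I, x * y = 0) : x = 0 := by
  classical
  by_contra hx0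
  obtain ⟨h, hh⟩ : ∃ h, x.coeff h ≠ 0 := by
    by_contra hcon
    push Not at hcon
    exact hx0 (by ext k; simpa using hcon k)
  set z : MonoidAlgebra ℚ G := ∑ g, MonoidAlgebra.single g (1 : ℚ) *
    (MonoidAlgebra.single h⁻¹ (1 : ℚ) * x) * MonoidAlgebra.single g⁻¹ (1 : ℚ) with hz
  have hcoeff : ∀ y, z.coeff y = ∑ g, x.coeff (h * (g⁻¹ * (y * g))) := by
    intro y
    rw [hz, MonoidAlgebra.coeff_sum, Finsupp.finsetSum_apply]
    refine Finset.sum_congr rfl fun g _ => ?_
    rw [cms, csm, csm]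
    simp
  have hzc : ∀ y, z * y = y * z := by
    refine (cen_iff z).2 fun u y => ?_
    rw [hcoeff, hcoeff]
    refine Fintype.sum_equiv (Equiv.mulLeft u⁻¹) _ _ fun g => ?_
    congr 1
    simp only [Equiv.coe_mulLeft]
    group
  have hz1 : z.coeff 1 = Fintype.card G * x.coeff h := by
    rw [hcoeff]
    simp
  have hz0 : z ≠ 0 := by
    intro h0
    rw [h0] at hz1
    have : (Fintype.card G : ℚ) ≠ 0 := by
      exact_mod_cast Fintype.card_ne_zero
    have h2 := mul_ne_zero this hh
    exact h2 (by simpa using hz1.symm)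
  have hez : e * z = z := by
    rw [hz, Finset.mul_sum]
    refine Finset.sum_congr rfl fun g _ => ?_
    rw [← mul_assoc, ← mul_assoc, he.central (MonoidAlgebra.single g (1 : ℚ)), mul_assoc _ e,
      ← mul_assoc e, he.central (MonoidAlgebra.single h⁻¹ (1 : ℚ)), mul_assoc _ e x, hx]
  obtain ⟨c', hc', hcz⟩ := he.field z hzc (by rw [hzc e, hez]; exact hz0)
  have hzI : ∀ y ∈ I, z * y = 0 := by
    intro y hy
    rw [hz, Finset.sum_mul]
    refine Finset.sum_eq_zero fun g _ => ?_
    rw [mul_assoc, mul_assoc, mul_assoc, hxI _ (hI _ _ hy), mul_zero, mul_zero]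
  apply hI0
  rw [eq_bot_iff]
  intro y hy
  have h1 : e * y = y := hIe hy
  rw [Submodule.mem_bot, ← h1, ← hcz, mul_assoc, mul_assoc]
  exact hzI _ (hI _ _ (hI _ _ hy))

/-- The action of an algebra on a left ideal. -/
noncomputable def splitRepAct {R A : Type} [CommRing R] [Ring A] [Algebra R A]
    (I : Submodule R A) (hI : ∀ a, ∀ x ∈ I, a * x ∈ I) : A →ₐ[R] Module.End R I :=
  AlgHom.ofLinearMap
    { toFun := fun a => (LinearMap.mulLeft R a).restrict (fun x hx => hI a x hx)
      map_add' := fun a b => by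
        ext x
        simp [add_mul]
      map_smul' := fun r a => by
        ext x
        simp }
    (by ext x; simp) (fun a b => by ext x; simp)

theorem splitRepAct_apply {R A : Type} [CommRing R] [Ring A] [Algebra R A]
    (I : Submodule R A) (hI : ∀ a, ∀ x ∈ I, a * x ∈ I) (a : A) (x : I) :
    ((splitRepAct I hI a x : I) : A) = a * x := rfl

/-- The lattice of integral elements in `I`. -/
noncomputable def splitRepLat (I : Submodule ℚ (MonoidAlgebra ℚ G)) :
    Submodule ℤ (MonoidAlgebra ℤ G) :=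
  (I.restrictScalars ℤ).comap (toQ (H := G)).toAddMonoidHom.toIntLinearMap

omit [Fintype G] in
theorem splitRep_mem_lat (I : Submodule ℚ (MonoidAlgebra ℚ G)) (x : MonoidAlgebra ℤ G) :
    x ∈ splitRepLat I ↔ toQ x ∈ I := Iff.rfl

/-- The basis of the group ring. -/
noncomputable def splitRepBasis (G : Type) [Group G] [Fintype G] :
    Basis G ℤ (MonoidAlgebra ℤ G) :=
  Basis.ofEquivFun
    { toFun := fun a h => a.coeff h
      map_add' := fun a b => by funext h; simp
      map_smul' := fun r a => by funext h; rw [MonoidAlgebra.coeff_smul_apply]; simp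
      invFun := fun f => elt f
      left_inv := fun a => by ext h; rfl
      right_inv := fun f => rfl }

/-- A basis of the lattice is a basis of the rational space. -/
theorem splitRep_basis (I : Submodule ℚ (MonoidAlgebra ℚ G)) {n : ℕ}
    (B : Basis (Fin n) ℤ (splitRepLat I)) :
    ∃ b : Basis (Fin n) ℚ I,
      ∀ i, ((b i : I) : MonoidAlgebra ℚ G) = toQ ((B i : splitRepLat I) : MonoidAlgebra ℤ G) := by
  classical
  set v : Fin n → I := fun i =>
    ⟨toQ ((B i : splitRepLat I) : MonoidAlgebra ℤ G), (splitRep_mem_lat I _).1 (B i).2⟩ with hv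
  have hli : LinearIndependent ℚ v := by
    rw [← LinearIndependent.iff_fractionRing ℤ ℚ, Fintype.linearIndependent_iff]
    intro k hk
    have h1 : ∑ i, k i • B i = 0 := by
      apply Subtype.ext
      apply toQ_injective
      have h2 := congrArg (fun y : I => (y : MonoidAlgebra ℚ G)) hk
      simp only [hv, Submodule.coe_sum, Submodule.coe_zero] at h2
      simp only [Submodule.coe_sum, Submodule.coe_smul, Submodule.coe_zero, map_sum, map_zero]
      rw [← h2]
      refine Finset.sum_congr rfl fun i _ => ?_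
      rw [map_zsmul]
      rfl
    exact Fintype.linearIndependent_iff.1 B.linearIndependent k h1
  have hsp : ⊤ ≤ Submodule.span ℚ (Set.range v) := by
    rintro ⟨x, hx⟩ -
    obtain ⟨m, hm, y, hy⟩ := exists_denominator x
    have hm0 : (m : ℚ) ≠ 0 := by exact_mod_cast hm.ne'
    have hyL : y ∈ splitRepLat I := by
      rw [splitRep_mem_lat, hy]
      exact I.smul_mem _ hx
    have h1 : (⟨x, hx⟩ : I) = (m : ℚ)⁻¹ • ∑ i, ((B.repr ⟨y, hyL⟩ i : ℤ) : ℚ) • v i := by
      apply Subtype.ext
      have h2 : (m : ℚ) • x = ∑ i, ((B.repr ⟨y, hyL⟩ i : ℤ) : ℚ) • (v i : MonoidAlgebra ℚ G) := by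
        rw [← hy]
        have h3 := congrArg (fun w : splitRepLat I => toQ (w : MonoidAlgebra ℤ G))
          (B.sum_repr ⟨y, hyL⟩)
        simp only [Submodule.coe_sum, Submodule.coe_smul, map_sum, toQ_smul] at h3
        exact h3.symm
      simp only [Submodule.coe_smul, Submodule.coe_sum]
      rw [← h2, smul_smul, inv_mul_cancel₀ hm0, one_smul]
    rw [h1]
    exact Submodule.smul_mem _ _ (Submodule.sum_mem _ fun i _ =>
      Submodule.smul_mem _ _ (Submodule.subset_span ⟨i, rfl⟩))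
  refine ⟨Basis.mk hli hsp, fun i => ?_⟩
  rw [Basis.mk_apply]

theorem exists_rep (e : MonoidAlgebra ℚ G) (he : IsType e) (ho : OddE c e) (hz : zc e = 1)
    (hs : Split e) : ∃ (n : ℕ) (ρ : G →* Matrix (Fin n) (Fin n) ℤ), 0 < n ∧ n ^ 2 = rk e ∧
      Rep c n ρ ∧ ∀ (X : Type) [Fintype X] (τ : X → G), badSetX e τ ⊆ singX ρ τ := by
  classical
  obtain ⟨I, hI0, hIe, hI, hdim⟩ := hs
  have hL : ∀ a, ∀ x ∈ splitRepLat I, a * x ∈ splitRepLat I := by
    intro a x hx
    rw [splitRep_mem_lat] at hx ⊢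
    rw [map_mul]
    exact hI _ _ hx
  obtain ⟨n, B⟩ := Submodule.basisOfPid (splitRepBasis G) (splitRepLat I)
  obtain ⟨b, hb⟩ := splitRep_basis I B
  have hn : finrank ℚ I = n := by
    rw [finrank_eq_card_basis b, Fintype.card_fin]
  -- the rational representation
  set Ψ : MonoidAlgebra ℚ G →ₐ[ℚ] Matrix (Fin n) (Fin n) ℚ :=
    (LinearMap.toMatrixAlgEquiv b).toAlgHom.comp (splitRepAct I hI) with hΨ
  set Θ : MonoidAlgebra ℤ G →ₐ[ℤ] Matrix (Fin n) (Fin n) ℤ :=
    (LinearMap.toMatrixAlgEquiv B).toAlgHom.comp (splitRepAct (splitRepLat I) hL) with hΘ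
  have hΨΘ : ∀ y : MonoidAlgebra ℤ G, Ψ (toQ y) = (Θ y).map (Int.cast : ℤ → ℚ) := by
    intro y
    ext i j
    have h1 : splitRepAct I hI (toQ y) (b j) = ∑ k, ((Θ y k j : ℤ) : ℚ) • b k := by
      apply Subtype.ext
      have h2 : Θ y = (LinearMap.toMatrixAlgEquiv B) (splitRepAct (splitRepLat I) hL y) := rfl
      have h3 := congrArg (fun w : splitRepLat I => toQ (w : MonoidAlgebra ℤ G))
        (B.sum_repr (splitRepAct (splitRepLat I) hL y (B j)))
      simp only [Submodule.coe_sum, Submodule.coe_smul, map_sum, toQ_smul,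
        splitRepAct_apply, map_mul] at h3
      simp only [splitRepAct_apply, Submodule.coe_sum, Submodule.coe_smul, hb, h2,
        LinearMap.toMatrixAlgEquiv_apply]
      exact h3.symm
    have h4 : Ψ (toQ y) i j = b.repr (splitRepAct I hI (toQ y) (b j)) i := by
      rw [hΨ]
      exact LinearMap.toMatrixAlgEquiv_apply _ _ _ _
    rw [h4, h1, map_sum, Finsupp.finsetSum_apply, Matrix.map_apply]
    simp [Finsupp.single_apply]
  have hinj : ∀ x : MonoidAlgebra ℚ G, e * x = x → Ψ x = 0 → x = 0 := by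
    intro x hx h0
    have h1 : splitRepAct I hI x = 0 := by
      apply (LinearMap.toMatrixAlgEquiv b).injective
      rw [map_zero]
      exact h0
    refine splitRep_faithful e he I hI0 hIe hI x hx fun y hy => ?_
    rw [← splitRepAct_apply I hI x ⟨y, hy⟩, h1]
    rfl
  have hinj' : Function.Injective (Ψ.toLinearMap.comp (comp e).subtype) := by
    rw [← LinearMap.ker_eq_bot, LinearMap.ker_eq_bot']
    intro x hx
    apply Subtype.ext
    exact hinj x x.2 hx
  have hfm : finrank ℚ (Matrix (Fin n) (Fin n) ℚ) = n ^ 2 := by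
    rw [Module.finrank_matrix]
    simp [sq]
  have hrk : rk e ≤ n ^ 2 := by
    rw [← hfm]
    exact LinearMap.finrank_le_finrank_of_injective hinj'
  have hsq : n ^ 2 = rk e := by
    rw [hn] at hdim
    exact le_antisymm hdim hrk
  have hsurj : Function.Surjective Ψ := by
    have : FiniteDimensional ℚ (MonoidAlgebra ℚ G) :=
      Module.Finite.equiv (eltEquiv ℚ G)
    have h1 : Function.Surjective (Ψ.toLinearMap.comp (comp e).subtype) := by
      refine (LinearMap.injective_iff_surjective_of_finrank_eq_finrank ?_).1 hinj'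
      rw [hfm, hsq]
      rfl
    intro M
    obtain ⟨x, hx⟩ := h1 M
    exact ⟨x, hx⟩
  have hn0 : 0 < n := by
    rcases Nat.eq_zero_or_pos n with h0 | h0
    · exfalso
      have : FiniteDimensional ℚ (MonoidAlgebra ℚ G) :=
        Module.Finite.equiv (eltEquiv ℚ G)
      rw [h0] at hn
      exact hI0 (Submodule.finrank_eq_zero.1 hn)
    · exact h0
  have hsingle : ∀ h : G, toQ (MonoidAlgebra.single h (1 : ℤ)) = MonoidAlgebra.single h (1 : ℚ) := by
    intro h
    rw [toQ, MonoidAlgebra.mapRingHom_single]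
    simp
  refine ⟨n, (Θ : MonoidAlgebra ℤ G →* Matrix (Fin n) (Fin n) ℤ).comp (MonoidAlgebra.of ℤ G),
    hn0, hsq, ⟨?_, ?_⟩, ?_⟩
  · -- `ρ c = -1`
    have h1 : splitRepAct (splitRepLat I) hL (MonoidAlgebra.single c 1) = -1 := by
      ext x
      have h2 : e * toQ (x : MonoidAlgebra ℤ G) = toQ (x : MonoidAlgebra ℤ G) :=
        hIe ((splitRep_mem_lat I _).1 x.2)
      have h3 : (MonoidAlgebra.single c (1 : ℤ) : MonoidAlgebra ℤ G) * (x : MonoidAlgebra ℤ G) =
          -(x : MonoidAlgebra ℤ G) := by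
        apply toQ_injective
        rw [map_mul, map_neg, hsingle, ← h2, ← mul_assoc, ho, neg_mul]
      rw [splitRepAct_apply, h3]
      simp
    show Θ (MonoidAlgebra.of ℤ G c) = -1
    rw [MonoidAlgebra.of_apply, hΘ]
    show (LinearMap.toMatrixAlgEquiv B) (splitRepAct (splitRepLat I) hL _) = -1
    rw [h1, map_neg, map_one]
  · -- span
    rw [eq_top_iff]
    intro M _
    obtain ⟨a, rfl⟩ := hsurj M
    have h1 : a = ∑ h, a.coeff h • MonoidAlgebra.single h (1 : ℚ) := by
      ext k
      simp [MonoidAlgebra.coeff_sum]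
    rw [h1, map_sum]
    refine Submodule.sum_mem _ fun h _ => ?_
    rw [map_smul]
    refine Submodule.smul_mem _ _ (Submodule.subset_span ⟨h, ?_⟩)
    show (Θ (MonoidAlgebra.of ℤ G h)).map (Int.cast : ℤ → ℚ) = _
    rw [MonoidAlgebra.of_apply, ← hΨΘ, hsingle]
  · -- singular matrices
    intro X _ τ ε hε
    have hε' : ε ∈ signs X ∧ BadAtX e τ ε := by
      unfold badSetX at hε
      exact Finset.mem_filter.1 hε
    obtain ⟨hεs, y, hy0, hye, hya⟩ := hε'
    unfold singX
    refine Finset.mem_filter.2 ⟨hεs, ?_⟩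
    have h1 : ∑ x, ε x • (((Θ : MonoidAlgebra ℤ G →* Matrix (Fin n) (Fin n) ℤ).comp
        (MonoidAlgebra.of ℤ G)) (τ x)) = Θ (eltX τ ε) := by
      rw [eltX, map_sum]
      refine Finset.sum_congr rfl fun x _ => ?_
      show ε x • Θ (MonoidAlgebra.of ℤ G (τ x)) = _
      rw [← map_smul, MonoidAlgebra.of_apply, MonoidAlgebra.smul_single, smul_eq_mul, mul_one]
    rw [h1]
    by_contra hdet
    have h2 : IsUnit (Ψ (toQ (eltX τ ε))).det := by
      rw [isUnit_iff_ne_zero, hΨΘ]
      intro h3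
      apply hdet
      have h4 : ((Θ (eltX τ ε)).det : ℚ) = ((Θ (eltX τ ε)).map (Int.cast : ℤ → ℚ)).det :=
        Int.cast_det _
      rw [h3] at h4
      exact_mod_cast h4
    have h3 : Ψ (toQ y) * Ψ (toQ (eltX τ ε)) = 0 := by
      rw [← map_mul, ← map_mul, hya, map_zero, map_zero]
    have h4 : Ψ (toQ y) = 0 := by
      calc Ψ (toQ y) = Ψ (toQ y) * (Ψ (toQ (eltX τ ε)) * (Ψ (toQ (eltX τ ε)))⁻¹) := by
            rw [Matrix.mul_nonsing_inv _ h2, mul_one]
        _ = 0 := by rw [← mul_assoc, h3, zero_mul]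
    exact hy0 (toQ_injective (by rw [hinj _ hye h4, map_zero]))

end Pool.Agent.Lib.MP_640417_ag.All
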