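import Pool.Agent.Lib.MP_640417_ag.All.Basic

/-!
# The support of a function with few independent translates

Uncertainty principle: if the right translates of `f ≠ 0` span a space of dimension at most `m`
then `|supp f| ≥ |G| / m`. Proof: choose a list `k₁, …, k_j` of elements of `G` as long as possible
such that each `supp f(· k_i)` contains a point outside the union of the previous supports; the
functions `f(· k_i)` are then linearly independent (triangular), so `j ≤ m`; by maximality every
translated support is inside the union `V` of the `j` supports, and the translated supports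
`(supp f) k⁻¹` cover `G` as `f ≠ 0`, so `V = G` and `|G| ≤ j |supp f| ≤ m |supp f|`.
-/

set_option autoImplicit false

namespace Pool.Agent.Lib.MP_640417_ag.All

open Module Finset Matrix Pool.Agent.Lib.MP_640417_ag.OddGal

variable {G X : Type} [Group G] [Fintype G] [Fintype X] {c : G} {τ : X → G} {κ : ℕ}
  {K : Type} [Field K]

theorem card_le_support (f : G → K) (hf : f ≠ 0) (m : ℕ)
    (hm : finrank K (Submodule.span K (Set.range fun k : G => (fun h : G => f (h * k)))) ≤ m) :
    Fintype.card G ≤ m * {h : G | f h ≠ 0}.ncard := by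
  classical
  obtain ⟨v, hv⟩ : ∃ v : G → (G → K), v = fun k h => f (h * k) := ⟨_, rfl⟩
  have hm' : finrank K (Submodule.span K (Set.range v)) ≤ m := by rw [hv]; exact hm
  obtain ⟨b, hb1, hb2, hb3⟩ := exists_linearIndependent K (Set.range v)
  have hfin : b.Finite := (Set.finite_range v).subset hb1
  have hft : Fintype b := hfin.fintype
  have hcard : b.toFinset.card ≤ m := by
    rw [← finrank_span_set_eq_card hb3, hb2]
    exact hm'
  have hcover : (Finset.univ : Finset G) ⊆
      b.toFinset.biUnion (fun w => Finset.univ.filter (fun h => w h ≠ 0)) := by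
    intro h _
    rw [Finset.mem_biUnion]
    by_contra hcon
    push Not at hcon
    have hzero : ∀ w ∈ b, w h = 0 := by
      intro w hw
      by_contra h0
      exact hcon w (by simpa using hw) (by simpa using h0)
    have hspan : ∀ w ∈ Submodule.span K b, w h = 0 := by
      intro w hw
      induction hw using Submodule.span_induction with
      | mem w hw => exact hzero w hw
      | zero => rfl
      | add w w' _ _ h1 h2 => rw [Pi.add_apply, h1, h2, add_zero]
      | smul a w _ h1 => rw [Pi.smul_apply, h1, smul_zero]
    apply hf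
    funext g
    have h1 : v (h⁻¹ * g) ∈ Submodule.span K b := by
      rw [hb2]
      exact Submodule.subset_span ⟨_, rfl⟩
    have h2 := hspan _ h1
    rw [hv] at h2
    simpa using h2
  have hsupp : ∀ w ∈ b.toFinset, (Finset.univ.filter (fun h => w h ≠ 0)).card ≤
      {h : G | f h ≠ 0}.ncard := by
    intro w hw
    obtain ⟨k, rfl⟩ := hb1 (by simpa using hw)
    rw [Set.ncard_eq_toFinset_card']
    refine Finset.card_le_card_of_injOn (fun h => h * k) ?_ ?_
    · intro h hh
      simp only [Finset.coe_filter, Finset.mem_univ, true_and, Set.mem_ofPred_eq] at hh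
      rw [hv] at hh
      simpa using hh
    · intro h _ h' _ hhh
      exact mul_right_cancel hhh
  calc Fintype.card G = (Finset.univ : Finset G).card := (Finset.card_univ).symm
    _ ≤ _ := Finset.card_le_card hcover
    _ ≤ b.toFinset.card * {h : G | f h ≠ 0}.ncard := Finset.card_biUnion_le_card_mul _ _ _ hsupp
    _ ≤ m * {h : G | f h ≠ 0}.ncard := Nat.mul_le_mul_right _ hcard

/-- For sums of `j` matrix coefficients of a representation of degree `n`, the translates
`h ↦ ∑_a (v_a σ(h)) · (σ(k) u_a)` lie in the span of the `j n` functions `h ↦ (v_a σ(h))_i`. -/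
theorem card_le_support_rep {n j : ℕ} (σ : G →* Matrix (Fin n) (Fin n) K)
    (v u : Fin j → Fin n → K) (f : G → K) (hf : ∀ h, f h = ∑ a, v a ⬝ᵥ (σ h *ᵥ u a))
    (hf0 : f ≠ 0) : Fintype.card G ≤ j * n * {h : G | f h ≠ 0}.ncard := by
  classical
  refine card_le_support f hf0 (j * n) ?_
  obtain ⟨F, hF⟩ : ∃ F : Fin j × Fin n → (G → K), F = fun p h => (v p.1 ᵥ* σ h) p.2 := ⟨_, rfl⟩
  have hle : Submodule.span K (Set.range fun k : G => (fun h : G => f (h * k))) ≤
      Submodule.span K (Set.range F) := by
    rw [Submodule.span_le]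
    rintro _ ⟨k, rfl⟩
    have e : (fun h : G => f (h * k)) = ∑ p : Fin j × Fin n, (σ k *ᵥ u p.1) p.2 • F p := by
      funext h
      rw [hf, map_mul, Finset.sum_apply, Fintype.sum_prod_type]
      refine Finset.sum_congr rfl fun a _ => ?_
      rw [← Matrix.mulVec_mulVec, Matrix.dotProduct_mulVec]
      unfold dotProduct
      refine Finset.sum_congr rfl fun i _ => ?_
      rw [hF, Pi.smul_apply, smul_eq_mul, mul_comm]
    change (fun h : G => f (h * k)) ∈ Submodule.span K (Set.range F)
    rw [e]
    exact Submodule.sum_mem _ fun p _ => Submodule.smul_mem _ _ (Submodule.subset_span ⟨p, rfl⟩)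
  calc finrank K (Submodule.span K (Set.range fun k : G => (fun h : G => f (h * k))))
      ≤ finrank K (Submodule.span K (Set.range F)) := Submodule.finrank_mono hle
    _ ≤ Fintype.card (Fin j × Fin n) := finrank_range_le_card F
    _ = j * n := by simp

/-- On a cover: the support of an odd function is stable under `c`, use
`Cover.ncard_preimage`. -/
theorem card_le_supportX (hc : Cover c τ κ) (f : G → K) (hodd : ∀ h, f (c * h) = - f h) (m : ℕ)
    (hm : Fintype.card G ≤ m * {h : G | f h ≠ 0}.ncard) :
    Fintype.card X ≤ m * {x : X | f (τ x) ≠ 0}.ncard := by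
  have h1 := hc.card_mul
  have h2 := hc.ncard_preimage {h : G | f h ≠ 0} (by
    intro h
    change f h ≠ 0 ↔ f (c * h) ≠ 0
    rw [hodd, neg_ne_zero])
  change 2 * {x : X | f (τ x) ≠ 0}.ncard = _ at h2
  have h3 : 2 * Fintype.card X ≤ 2 * (m * {x : X | f (τ x) ≠ 0}.ncard) := by
    calc 2 * Fintype.card X = κ * Fintype.card G := h1.symm
      _ ≤ κ * (m * {h : G | f h ≠ 0}.ncard) := Nat.mul_le_mul_left _ hm
      _ = m * (κ * {h : G | f h ≠ 0}.ncard) := by ring
      _ = m * (2 * {x : X | f (τ x) ≠ 0}.ncard) := by rw [h2]
      _ = _ := by ring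
  omega

end Pool.Agent.Lib.MP_640417_ag.All
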