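import Pool.Agent.Lib.MP_640417_ag.All.Defs

/-!
# The trace of a finite group of integral matrices
-/

set_option autoImplicit false

namespace Pool.Agent.Lib.MP_640417_ag.All

open Module Finset Matrix

variable {G : Type} [Group G] [Fintype G]

/-- Over `ℂ` the trace is the sum of the `n` roots of the characteristic polynomial
(`Matrix.trace_eq_sum_roots_charpoly`), which are eigenvalues and so roots of unity. -/
theorem abs_trace_le {n : ℕ} (ρ : G →* Matrix (Fin n) (Fin n) ℤ) (h : G) :
    |(ρ h).trace| ≤ n := by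
  classical
  rcases Nat.eq_zero_or_pos n with hn | hn
  · subst hn
    simp [Matrix.trace]
  have : Nonempty (Fin n) := ⟨⟨0, hn⟩⟩
  set M : Matrix (Fin n) (Fin n) ℂ := (ρ h).map (Int.castRingHom ℂ) with hM
  set N := Fintype.card G with hN
  have hN0 : N ≠ 0 := Fintype.card_ne_zero
  have hpow : M ^ N = 1 := by
    have h1 : (Int.castRingHom ℂ).mapMatrix (ρ h) = M := rfl
    rw [← h1, ← map_pow, ← map_pow, hN, pow_card_eq_one, map_one, map_one]
  have hroot : ∀ μ ∈ M.charpoly.roots, ‖μ‖ = 1 := by
    intro μ hμ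
    have h1 : μ ∈ spectrum ℂ M :=
      Matrix.mem_spectrum_iff_isRoot_charpoly.2 (Polynomial.isRoot_of_mem_roots hμ)
    have h2 := spectrum.pow_mem_pow M N h1
    rw [hpow, spectrum.one_eq, Set.mem_singleton_iff] at h2
    exact Complex.norm_eq_one_of_pow_eq_one h2 hN0
  have htr : M.trace = (((ρ h).trace : ℤ) : ℂ) := by
    rw [hM, Matrix.trace, Matrix.trace, Int.cast_sum]
    rfl
  have hsum : ‖M.trace‖ ≤ n := by
    rw [Matrix.trace_eq_sum_roots_charpoly]
    refine (norm_multiset_sum_le _).trans ?_
    have h1 : M.charpoly.roots.map (fun x => ‖x‖) = M.charpoly.roots.map (fun _ => (1 : ℝ)) :=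
      Multiset.map_congr rfl hroot
    rw [h1, Multiset.map_const', Multiset.sum_replicate, nsmul_eq_mul, mul_one]
    have h2 := Polynomial.card_roots' M.charpoly
    rw [Matrix.charpoly_natDegree_eq_dim, Fintype.card_fin] at h2
    exact_mod_cast h2
  rw [htr, Complex.norm_intCast] at hsum
  exact_mod_cast hsum

end Pool.Agent.Lib.MP_640417_ag.All
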