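import Pool.Agent.Lib.MP_640417_ag.All.FourierTwo

/-!
# Many pairs of row vectors are killed by a singular matrix
-/

set_option autoImplicit false

namespace Pool.Agent.Lib.MP_640417_ag.All

open Module Finset Matrix Pool.Agent.Lib.MP_640417_ag.OddGal

variable {G X : Type} [Group G] [Fintype X]

/-- A primitive integral row vector killed by a singular matrix. -/
private theorem twoCount_primitive {n : ℕ} {M : Matrix (Fin n) (Fin n) ℤ} (hM : M.det = 0) :
    ∃ z : Fin n → ℤ, z ᵥ* M = 0 ∧ ∀ p : ℕ, p.Prime → (fun i => ((z i : ℤ) : ZMod p)) ≠ 0 := by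
  obtain ⟨y, hy0, hy⟩ := Matrix.exists_vecMul_eq_zero_iff.mpr hM
  obtain ⟨i0, hi0⟩ : ∃ i, y i ≠ 0 := by
    by_contra hcon
    push Not at hcon
    exact hy0 (funext hcon)
  obtain ⟨z, hz, hz1⟩ := Finset.extract_gcd y (s := Finset.univ) ⟨i0, Finset.mem_univ _⟩
  have hg : Finset.univ.gcd y ≠ 0 := by
    intro h
    rw [Finset.gcd_eq_zero_iff] at h
    exact hi0 (h i0 (Finset.mem_univ _))
  refine ⟨z, ?_, ?_⟩
  · have h1 : y = Finset.univ.gcd y • z := funext fun i => hz i (Finset.mem_univ _)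
    rw [h1, Matrix.smul_vecMul] at hy
    exact (smul_eq_zero.mp hy).resolve_left hg
  · intro p hp h0
    have h1 : (p : ℤ) ∣ Finset.univ.gcd z := by
      apply Finset.dvd_gcd
      intro i _
      rw [← ZMod.intCast_zmod_eq_zero_iff_dvd]
      exact congrFun h0 i
    rw [hz1] at h1
    exact hp.one_lt.ne' (by exact_mod_cast Int.eq_one_of_dvd_one (by positivity) h1)

/-- The reduction of a relation. -/
private theorem twoCount_rel {n : ℕ} (ρ : G →* Matrix (Fin n) (Fin n) ℤ) (τ : X → G) (p : ℕ)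
    {ε : X → ℤ} {z : Fin n → ℤ} (hz : z ᵥ* (∑ x, ε x • ρ (τ x)) = 0) (α : ZMod p) :
    ∑ x, ((ε x : ℤ) : ZMod p) • ((α • fun i => ((z i : ℤ) : ZMod p)) ᵥ* redM p (ρ (τ x))) = 0 := by
  have h1 : ∀ x, ((ε x : ℤ) : ZMod p) • ((α • fun i => ((z i : ℤ) : ZMod p)) ᵥ*
      redM p (ρ (τ x))) = α • fun j => ((ε x * (z ᵥ* ρ (τ x)) j : ℤ) : ZMod p) := by
    intro x
    funext j
    rw [Matrix.smul_vecMul]
    simp only [Pi.smul_apply, smul_eq_mul, Matrix.vecMul, dotProduct, redM, Matrix.map_apply]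
    push_cast
    ring
  simp only [h1]
  rw [← Finset.smul_sum]
  have h2 : (∑ x, fun j => ((ε x * (z ᵥ* ρ (τ x)) j : ℤ) : ZMod p)) = 0 := by
    funext j
    rw [Finset.sum_apply]
    have h3 := congrFun hz j
    rw [Matrix.vecMul_sum, Finset.sum_apply] at h3
    have h4 : ∀ x, (z ᵥ* (ε x • ρ (τ x))) j = ε x * (z ᵥ* ρ (τ x)) j := by
      intro x
      rw [Matrix.vecMul_smul]
      rfl
    simp only [h4] at h3
    rw [← Int.cast_sum, h3, Pi.zero_apply, Pi.zero_apply, Int.cast_zero]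
  rw [h2, smul_zero]

open Classical in
/-- If `M = ∑ ε x • ρ (τ x)` is singular there is a primitive integral row vector `z` with
`z ᵥ* M = 0`; its reductions modulo `p` and `p'` are nonzero, and the `(p-1)(p'-1)` pairs
`(α z, β z)` are killed and distinct. Sum over the singular `ε`. (For `n = 0` there is no singular
`ε`.) -/
theorem card_singX_mul_le {n : ℕ} (ρ : G →* Matrix (Fin n) (Fin n) ℤ) (τ : X → G) (p p' : ℕ)
    [Fact p.Prime] [Fact p'.Prime] (hpp : p ≠ p') :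
    (singX ρ τ).card * ((p - 1) * (p' - 1)) ≤
      ∑ v ∈ (Finset.univ : Finset (Fin n → ZMod p)).filter (fun v => v ≠ 0),
        ∑ v' ∈ (Finset.univ : Finset (Fin n → ZMod p')).filter (fun v' => v' ≠ 0),
          (relTwo p p' n (fun x => v ᵥ* redM p (ρ (τ x)))
            (fun x => v' ᵥ* redM p' (ρ (τ x)))).card := by
  have hz : ∀ ε : X → ℤ, ∃ z : Fin n → ℤ, ε ∈ singX ρ τ → z ᵥ* (∑ x, ε x • ρ (τ x)) = 0 ∧
      ∀ p : ℕ, p.Prime → (fun i => ((z i : ℤ) : ZMod p)) ≠ 0 := by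
    intro ε
    by_cases hε : ε ∈ singX ρ τ
    · obtain ⟨z, h1, h2⟩ := twoCount_primitive (Finset.mem_filter.mp hε).2
      exact ⟨z, fun _ => ⟨h1, h2⟩⟩
    · exact ⟨0, fun h => absurd h hε⟩
  choose z hz using hz
  set V := (Finset.univ : Finset (Fin n → ZMod p)).filter (fun v => v ≠ 0) with hV
  set V' := (Finset.univ : Finset (Fin n → ZMod p')).filter (fun v' => v' ≠ 0) with hV'
  have hL : (singX ρ τ).card * ((p - 1) * (p' - 1)) =
      (singX ρ τ ×ˢ ((Finset.univ : Finset (ZMod p)ˣ) ×ˢ (Finset.univ : Finset (ZMod p')ˣ))).card := by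
    rw [Finset.card_product, Finset.card_product, Finset.card_univ, Finset.card_univ,
      ZMod.card_units, ZMod.card_units]
  have hR : ∑ v ∈ V, ∑ v' ∈ V', (relTwo p p' n (fun x => v ᵥ* redM p (ρ (τ x)))
      (fun x => v' ᵥ* redM p' (ρ (τ x)))).card =
      ((V ×ˢ V').sigma (fun q => relTwo p p' n (fun x => q.1 ᵥ* redM p (ρ (τ x)))
        (fun x => q.2 ᵥ* redM p' (ρ (τ x))))).card := by
    rw [Finset.card_sigma, Finset.sum_product]
  rw [hL, hR]
  refine Finset.card_le_card_of_injOn (fun t => ⟨((t.2.1 : ZMod p) • fun i =>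
    ((z t.1 i : ℤ) : ZMod p), (t.2.2 : ZMod p') • fun i => ((z t.1 i : ℤ) : ZMod p')), t.1⟩) ?_ ?_
  · rintro ⟨ε, α, β⟩ ht
    rw [Finset.mem_coe, Finset.mem_product] at ht
    obtain ⟨h1, h2⟩ := hz ε ht.1
    rw [Finset.mem_coe, Finset.mem_sigma]
    refine ⟨?_, ?_⟩
    · rw [Finset.mem_product]
      refine ⟨Finset.mem_filter.mpr ⟨Finset.mem_univ _, ?_⟩,
        Finset.mem_filter.mpr ⟨Finset.mem_univ _, ?_⟩⟩
      · exact smul_ne_zero α.ne_zero (h2 p Fact.out)
      · exact smul_ne_zero β.ne_zero (h2 p' Fact.out)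
    · exact Finset.mem_filter.mpr ⟨(Finset.mem_filter.mp ht.1).1, twoCount_rel ρ τ p h1 _,
        twoCount_rel ρ τ p' h1 _⟩
  · rintro ⟨ε, α, β⟩ ht ⟨ε', α', β'⟩ ht' heq
    rw [Finset.mem_coe, Finset.mem_product] at ht ht'
    simp only [Sigma.mk.injEq, Prod.mk.injEq] at heq
    obtain ⟨⟨h1, h2⟩, h3⟩ := heq
    have h3' : ε = ε' := eq_of_heq h3
    subst h3'
    obtain ⟨-, h4⟩ := hz ε ht.1
    have e1 : α = α' := by
      apply Units.ext
      have h5 : ((α : ZMod p) - (α' : ZMod p)) • (fun i => ((z ε i : ℤ) : ZMod p)) = 0 := by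
        rw [sub_smul, h1, sub_self]
      exact sub_eq_zero.mp ((smul_eq_zero.mp h5).resolve_right (h4 p Fact.out))
    have e2 : β = β' := by
      apply Units.ext
      have h5 : ((β : ZMod p') - (β' : ZMod p')) • (fun i => ((z ε i : ℤ) : ZMod p')) = 0 := by
        rw [sub_smul, h2, sub_self]
      exact sub_eq_zero.mp ((smul_eq_zero.mp h5).resolve_right (h4 p' Fact.out))
    rw [e1, e2]

end Pool.Agent.Lib.MP_640417_ag.All
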