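import Pool.Agent.Lib.MP_640417_ag.All.Phase
import Pool.Agent.Lib.MP_640417_ag.All.Support
import Pool.Agent.Lib.MP_640417_ag.All.SpanMod

/-!
# Uniqueness of the continuation to the second prime

For `v, u` modulo `p` and `v', u'` modulo `p'` let `SS` be the sum over `x ∈ X` of the squares of
`bb p p' (v ρ(τ x) u) (v' ρ(τ x) u')`.
-/

set_option autoImplicit false

namespace Pool.Agent.Lib.MP_640417_ag.All

open Module Finset Matrix Pool.Agent.Lib.MP_640417_ag.OddGal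

variable {G X : Type} [Group G] [Fintype G] [Fintype X] {c : G} {τ : X → G} {κ : ℕ}

/-- The sum of the squares of the phases. -/
noncomputable def SS {n : ℕ} (ρ : G →* Matrix (Fin n) (Fin n) ℤ) (τ : X → G) (p p' : ℕ)
    (v u : Fin n → ZMod p) (v' u' : Fin n → ZMod p') : ℝ :=
  ∑ x, (bb p p' ((v ᵥ* redM p (ρ (τ x))) ⬝ᵥ u) ((v' ᵥ* redM p' (ρ (τ x))) ⬝ᵥ u') : ℝ) ^ 2

/-- Equal tensors. -/
theorem exists_smul_of_tensor {K : Type} [Field K] {n : ℕ} (v u v' u' : Fin n → K)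
    (hv : v ≠ 0) (hu : u ≠ 0) (h : ∀ i j, v i * u j = v' i * u' j) :
    ∃ l : K, l ≠ 0 ∧ v' = l • v ∧ u' = l⁻¹ • u := by
  obtain ⟨i₀, hi₀⟩ := Function.ne_iff.1 hv
  obtain ⟨j₀, hj₀⟩ := Function.ne_iff.1 hu
  simp only [Pi.zero_apply] at hi₀ hj₀
  have h0 := h i₀ j₀
  have hne : v' i₀ * u' j₀ ≠ 0 := by rw [← h0]; exact mul_ne_zero hi₀ hj₀
  have hv' : v' i₀ ≠ 0 := left_ne_zero_of_mul hne
  have hu' : u' j₀ ≠ 0 := right_ne_zero_of_mul hne
  refine ⟨v' i₀ / v i₀, div_ne_zero hv' hi₀, ?_, ?_⟩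
  · funext i
    have h1 := h i j₀
    rw [Pi.smul_apply, smul_eq_mul, div_mul_eq_mul_div, eq_div_iff hi₀]
    apply mul_right_cancel₀ hj₀
    calc v' i * v i₀ * u j₀ = v' i * (v i₀ * u j₀) := by ring
      _ = v' i * u' j₀ * v' i₀ := by rw [h0]; ring
      _ = v' i₀ * v i * u j₀ := by rw [← h1]; ring
  · funext j
    have h1 := h i₀ j
    rw [Pi.smul_apply, smul_eq_mul, inv_div, div_mul_eq_mul_div, eq_div_iff hv', h1]
    ring

/-- Two continuations `(v₁, u₁)`, `(v₂, u₂)` of the same `(v, u)` with small sums of squares are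
proportional. Proof: let `f h = v₁ ρ(h) u₁ - v₂ ρ(h) u₂` on `G` (with values in `ZMod p'`). If
`f ≠ 0`, then `|G| ≤ 2 n |supp f|` (`card_le_support_rep`, `j = 2`), so `|X| ≤ 2 n m` with
`m = #{x | f (τ x) ≠ 0}` (`card_le_supportX`, `f` is odd as `ρ c = -1`). For these `x`
`bb_far` gives `p² / 2 ≤ bb₁² + bb₂²`; sum: `m p² / 2 ≤ SS₁ + SS₂ ≤ n log(p p') p² p'²`, so
`|X| ≤ 4 n² p'² log (p p')`, a contradiction. So `f = 0`; as the `ρ(h)` span all matrices modulo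
`p'` (`span_mod`) the tensors are equal: use `exists_smul_of_tensor`. -/
theorem head_unique (hc : Cover c τ κ) {n : ℕ} {ρ : G →* Matrix (Fin n) (Fin n) ℤ}
    (hρ : Rep c n ρ) (p p' : ℕ) [Fact p.Prime] [Fact p'.Prime] (hpp : p ≠ p') (hp2' : p' ≠ 2)
    (hp' : ¬ p' ∣ Fintype.card G)
    (hnum : 4 * (n : ℝ) ^ 2 * (p' : ℝ) ^ 2 * Real.log ((p : ℝ) * p') < Fintype.card X)
    (v u : Fin n → ZMod p) (v₁ u₁ v₂ u₂ : Fin n → ZMod p') (hv₁ : v₁ ≠ 0) (hu₁ : u₁ ≠ 0)
    (h₁ : SS ρ τ p p' v u v₁ u₁ ≤ (n / 2) * Real.log ((p : ℝ) * p') * ((p : ℝ) * p') ^ 2)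
    (h₂ : SS ρ τ p p' v u v₂ u₂ ≤ (n / 2) * Real.log ((p : ℝ) * p') * ((p : ℝ) * p') ^ 2) :
    ∃ l : ZMod p', l ≠ 0 ∧ v₂ = l • v₁ ∧ u₂ = l⁻¹ • u₁ := by
  classical
  set f : G → ZMod p' := fun h =>
    (v₁ ᵥ* redM p' (ρ h)) ⬝ᵥ u₁ - (v₂ ᵥ* redM p' (ρ h)) ⬝ᵥ u₂ with hf
  have hf0 : f = 0 := by
    by_contra hne
    set σ : G →* Matrix (Fin n) (Fin n) (ZMod p') :=
      ((Int.castRingHom (ZMod p')).mapMatrix : Matrix (Fin n) (Fin n) ℤ →+*
        Matrix (Fin n) (Fin n) (ZMod p')).toMonoidHom.comp ρ with hσ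
    have hσr : ∀ h, σ h = redM p' (ρ h) := fun h => rfl
    have h1 := card_le_support_rep (j := 2) σ ![v₁, -v₂] ![u₁, u₂] f (fun h => by
      rw [Fin.sum_univ_two, hσr, hf]
      simp only [Matrix.cons_val_zero, Matrix.cons_val_one]
      rw [dotProduct_mulVec, dotProduct_mulVec, Matrix.neg_vecMul, neg_dotProduct]
      ring) hne
    have hodd : ∀ h, f (c * h) = - f h := by
      intro h
      have h2 : redM p' (ρ (c * h)) = - redM p' (ρ h) := by
        rw [map_mul, hρ.neg, neg_one_mul, redM, redM]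
        ext i j
        simp
      simp only [hf, h2, Matrix.vecMul_neg, neg_dotProduct]
      ring
    have h3 := card_le_supportX hc f hodd (2 * n) h1
    set S : Finset X := Finset.univ.filter (fun x => f (τ x) ≠ 0) with hS
    have hScard : {x : X | f (τ x) ≠ 0}.ncard = S.card := by
      rw [Set.ncard_eq_toFinset_card', hS]
      congr 1
      ext x
      simp
    rw [hScard] at h3
    have h4 : (S.card : ℝ) * ((p : ℝ) ^ 2 / 2) ≤ SS ρ τ p p' v u v₁ u₁ + SS ρ τ p p' v u v₂ u₂ := by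
      unfold SS
      rw [← Finset.sum_add_distrib, ← nsmul_eq_mul, ← Finset.sum_const]
      refine le_trans (Finset.sum_le_sum (fun x hx => ?_))
        (Finset.sum_le_univ_sum_of_nonneg (fun x => by positivity))
      have h5 : f (τ x) ≠ 0 := (Finset.mem_filter.1 hx).2
      refine bb_far hpp hp2' _ _ _ ?_
      intro h6
      apply h5
      simp only [hf]
      rw [h6, sub_self]
    have hp0 : (0 : ℝ) < p := by exact_mod_cast (Fact.out : p.Prime).pos
    have h7 : (S.card : ℝ) ≤ 2 * n * Real.log ((p : ℝ) * p') * (p' : ℝ) ^ 2 := by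
      have h8 : (S.card : ℝ) * ((p : ℝ) ^ 2 / 2) ≤
          (2 * n * Real.log ((p : ℝ) * p') * (p' : ℝ) ^ 2) * ((p : ℝ) ^ 2 / 2) := by
        refine (h4.trans (add_le_add h₁ h₂)).trans (le_of_eq ?_)
        ring
      exact le_of_mul_le_mul_right h8 (by positivity)
    have h9 : (Fintype.card X : ℝ) ≤ 2 * n * S.card := by exact_mod_cast h3
    have h10 : (2 : ℝ) * n * S.card ≤
        2 * n * (2 * n * Real.log ((p : ℝ) * p') * (p' : ℝ) ^ 2) :=
      mul_le_mul_of_nonneg_left h7 (by positivity)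
    have h11 : (2 : ℝ) * n * (2 * n * Real.log ((p : ℝ) * p') * (p' : ℝ) ^ 2) =
      4 * (n : ℝ) ^ 2 * (p' : ℝ) ^ 2 * Real.log ((p : ℝ) * p') := by ring
    linarith
  refine exists_smul_of_tensor v₁ u₁ v₂ u₂ hv₁ hu₁ fun i j => ?_
  -- the linear functional on matrices
  set φ : Matrix (Fin n) (Fin n) (ZMod p') →ₗ[ZMod p'] ZMod p' :=
    { toFun := fun A => (v₁ ᵥ* A) ⬝ᵥ u₁ - (v₂ ᵥ* A) ⬝ᵥ u₂
      map_add' := fun A B => by
        simp only [Matrix.vecMul_add, add_dotProduct]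
        ring
      map_smul' := fun r A => by
        simp only [Matrix.vecMul_smul, smul_dotProduct, smul_eq_mul, RingHom.id_apply]
        ring } with hφ
  have h1 : φ = 0 := by
    apply LinearMap.ext_on_range (v := fun h : G => redM p' (ρ h))
    · exact span_mod hρ p' hp'
    · intro h
      have := congrFun hf0 h
      rw [LinearMap.zero_apply]
      exact this
  have h2 : φ (Matrix.single i j 1) = 0 := by rw [h1]; rfl
  have h3 : φ (Matrix.single i j 1) = v₁ i * u₁ j - v₂ i * u₂ j := by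
    rw [hφ]
    simp [Matrix.vecMul, dotProduct, Matrix.single, ite_and, Finset.sum_ite_eq]
  rw [h3] at h2
  exact sub_eq_zero.1 h2

open Classical in
/-- Hence for given `(v, u)` at most `p' - 1` pairs of nonzero vectors have a small sum of
squares. -/
theorem card_head_le (hc : Cover c τ κ) {n : ℕ} {ρ : G →* Matrix (Fin n) (Fin n) ℤ}
    (hρ : Rep c n ρ) (p p' : ℕ) [Fact p.Prime] [Fact p'.Prime] (hpp : p ≠ p') (hp2' : p' ≠ 2)
    (hp' : ¬ p' ∣ Fintype.card G)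
    (hnum : 4 * (n : ℝ) ^ 2 * (p' : ℝ) ^ 2 * Real.log ((p : ℝ) * p') < Fintype.card X)
    (v u : Fin n → ZMod p) :
    ((Finset.univ : Finset ((Fin n → ZMod p') × (Fin n → ZMod p'))).filter (fun q =>
      q.1 ≠ 0 ∧ q.2 ≠ 0 ∧ SS ρ τ p p' v u q.1 q.2 ≤
        (n / 2) * Real.log ((p : ℝ) * p') * ((p : ℝ) * p') ^ 2)).card ≤ p' - 1 := by
  set S := (Finset.univ : Finset ((Fin n → ZMod p') × (Fin n → ZMod p'))).filter (fun q =>
      q.1 ≠ 0 ∧ q.2 ≠ 0 ∧ SS ρ τ p p' v u q.1 q.2 ≤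
        (n / 2) * Real.log ((p : ℝ) * p') * ((p : ℝ) * p') ^ 2) with hS
  rcases S.eq_empty_or_nonempty with h0 | ⟨q, hq⟩
  · rw [h0, Finset.card_empty]
    exact Nat.zero_le _
  · obtain ⟨hq1, hq2, hq3⟩ := (Finset.mem_filter.1 hq).2
    have hsub : S ⊆ (Finset.univ.erase (0 : ZMod p')).image (fun l => (l • q.1, l⁻¹ • q.2)) := by
      intro r hr
      obtain ⟨hr1, hr2, hr3⟩ := (Finset.mem_filter.1 hr).2
      obtain ⟨l, hl, hl1, hl2⟩ := head_unique hc hρ p p' hpp hp2' hp' hnum v u q.1 q.2 r.1 r.2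
        hq1 hq2 hq3 hr3
      refine Finset.mem_image.2 ⟨l, Finset.mem_erase.2 ⟨hl, Finset.mem_univ _⟩, ?_⟩
      rw [← hl1, ← hl2]
    refine (Finset.card_le_card hsub).trans (Finset.card_image_le.trans ?_)
    rw [Finset.card_erase_of_mem (Finset.mem_univ _), Finset.card_univ, ZMod.card]

end Pool.Agent.Lib.MP_640417_ag.All
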