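import Pool.Agent.Lib.MP_640417_ag.All.TwoCount
import Pool.Agent.Lib.MP_640417_ag.All.TwoHead
import Pool.Agent.Lib.MP_640417_ag.All.RowSum

/-!
# The two-prime bound

By `card_singX_mul_le` and `card_relTwo_mul_le`
`#sing (p-1) (p'-1) p^n p'^n ≤ 2^|X| ∑_{v ≠ 0} ∑_{v' ≠ 0} ∑_u ∑_{u'} ∏_x cs (pp') θ_x`.
Split the sum according to `u = 0`, `u' = 0`:
* `u = u' = 0`: at most `p^n p'^n` (each product is `≤ 1`);
* `u' = 0`: `cs (pp') (th a 0) = cs p a`, and `∑_u ∏_x cs p ≤ 3` (`sum_row_cs_le`), total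
  `≤ 3 p^n p'^n`; the same for `u = 0`;
* `u ≠ 0`, `u' ≠ 0`, `SS > X₀ q²`, `X₀ = (n/2) log q`, `q = p p'`: by `cs_th_le` the product is at
  most `exp (-2 SS / q²) ≤ exp (-2 X₀) = q^{-n}`, and there are at most `p^{2n} p'^{2n}` terms:
  total `≤ p^n p'^n`;
* `u ≠ 0`, `u' ≠ 0`, `SS ≤ X₀ q²`: for given `(v, u)` there are at most `p' - 1` pairs `(v', u')`
  (`card_head_le`), and for each of them by `sq_le_bb` the product is at most
  `∏_x F (v ρ(τ x) u)`, `F a = exp (-2 (valMinAbs (2 p' a))² / q²)` (even, values in `[0, 1]`).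
  By `sum_row_le` the sum over `u` is at most `(∑_a F a ^ t)^n`, and
  `∑_a F a ^ t = ∑_y exp (-2 t (valMinAbs y)² / q²) =: S` (substitution `y = 2 p' a`, a bijection
  of `ZMod p`). Total at most `p^n (p' - 1) S^n ≤ p^n p'^n` by `h3`.
The sum is at most `9 p^n p'^n`.
-/

set_option autoImplicit false

namespace Pool.Agent.Lib.MP_640417_ag.All

open Module Finset Matrix Pool.Agent.Lib.MP_640417_ag.OddGal

variable {G X : Type} [Group G] [Fintype G] [Fintype X] {c : G} {τ : X → G} {κ : ℕ}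

/-- The terms with a large sum of squares. -/
theorem tail_sum_le (hc : Cover c τ κ) {n : ℕ} (ρ : G →* Matrix (Fin n) (Fin n) ℤ)
    (p p' : ℕ) [Fact p.Prime] [Fact p'.Prime] (v u : Fin n → ZMod p) (v' u' : Fin n → ZMod p')
    (h : (n / 2) * Real.log ((p : ℝ) * p') * ((p : ℝ) * p') ^ 2 < SS ρ τ p p' v u v' u') :
    ∏ x, cs (p * p') (th p p' ((v ᵥ* redM p (ρ (τ x))) ⬝ᵥ u) ((v' ᵥ* redM p' (ρ (τ x))) ⬝ᵥ u'))
      ≤ 1 / ((p : ℝ) ^ n * (p' : ℝ) ^ n) := by
  have hp0 : (0 : ℝ) < p := by exact_mod_cast (Fact.out : p.Prime).pos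
  have hp0' : (0 : ℝ) < p' := by exact_mod_cast (Fact.out : p'.Prime).pos
  have hq : (0 : ℝ) < (p : ℝ) * p' := mul_pos hp0 hp0'
  calc ∏ x, cs (p * p') (th p p' ((v ᵥ* redM p (ρ (τ x))) ⬝ᵥ u)
        ((v' ᵥ* redM p' (ρ (τ x))) ⬝ᵥ u'))
      ≤ ∏ x, Real.exp (-(2 * (bb p p' ((v ᵥ* redM p (ρ (τ x))) ⬝ᵥ u)
          ((v' ᵥ* redM p' (ρ (τ x))) ⬝ᵥ u') : ℝ) ^ 2 / ((p : ℝ) * p') ^ 2)) :=
        Finset.prod_le_prod (fun x _ => cs_nonneg _ _) fun x _ => cs_th_le _ _
    _ = Real.exp (-(2 / ((p : ℝ) * p') ^ 2 * SS ρ τ p p' v u v' u')) := by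
        rw [← Real.exp_sum]
        congr 1
        unfold SS
        rw [Finset.sum_neg_distrib, Finset.mul_sum]
        congr 1
        apply Finset.sum_congr rfl
        intro x _
        ring
    _ ≤ Real.exp (-(n * Real.log ((p : ℝ) * p'))) := by
        apply Real.exp_le_exp.2
        rw [neg_le_neg_iff]
        have h1 : 2 / ((p : ℝ) * p') ^ 2 *
            ((n / 2) * Real.log ((p : ℝ) * p') * ((p : ℝ) * p') ^ 2) =
            n * Real.log ((p : ℝ) * p') := by
          field_simp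
        rw [← h1]
        exact mul_le_mul_of_nonneg_left h.le (by positivity)
    _ = 1 / ((p : ℝ) ^ n * (p' : ℝ) ^ n) := by
        rw [Real.exp_neg, Real.exp_nat_mul, Real.exp_log hq, mul_pow, one_div]

/-- The majorant of one factor. -/
noncomputable def twoMainF (p p' : ℕ) (a : ZMod p) : ℝ :=
  Real.exp (-(2 * (((2 * (p' : ZMod p) * a).valMinAbs : ℤ) : ℝ) ^ 2 / ((p : ℝ) * p') ^ 2))

private lemma twoMainF_neg (p p' : ℕ) [NeZero p] (a : ZMod p) :
    twoMainF p p' (-a) = twoMainF p p' a := by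
  unfold twoMainF
  have h1 : (2 * (p' : ZMod p) * -a).valMinAbs.natAbs = (2 * (p' : ZMod p) * a).valMinAbs.natAbs := by
    rw [mul_neg, ZMod.natAbs_valMinAbs_neg]
  have h2 : (((2 * (p' : ZMod p) * -a).valMinAbs : ℤ) : ℝ) ^ 2 =
      (((2 * (p' : ZMod p) * a).valMinAbs : ℤ) : ℝ) ^ 2 := by
    rcases Int.natAbs_eq_natAbs_iff.1 h1 with h | h
    · rw [h]
    · rw [h]
      push_cast
      ring
  rw [h2]

private lemma twoMainF_le_one (p p' : ℕ) (a : ZMod p) : twoMainF p p' a ≤ 1 := by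
  unfold twoMainF
  rw [Real.exp_le_one_iff, neg_nonpos]
  positivity

private lemma twoMainF_sum (p p' : ℕ) [Fact p.Prime] [Fact p'.Prime] (hpp : p ≠ p')
    (hp2 : p ≠ 2) (t : ℕ) : ∑ a : ZMod p, twoMainF p p' a ^ t =
      ∑ y : ZMod p, Real.exp (-(2 * (t : ℝ) * (y.valMinAbs : ℝ) ^ 2 / ((p : ℝ) * p') ^ 2)) := by
  have hne : (2 * (p' : ZMod p)) ≠ 0 := by
    apply mul_ne_zero
    · intro h
      have h1 : ((2 : ℕ) : ZMod p) = 0 := by exact_mod_cast h
      rw [ZMod.natCast_eq_zero_iff] at h1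
      exact hp2 ((Nat.prime_dvd_prime_iff_eq (Fact.out : p.Prime) Nat.prime_two).1 h1)
    · intro h
      rw [ZMod.natCast_eq_zero_iff] at h
      exact hpp ((Nat.prime_dvd_prime_iff_eq (Fact.out : p.Prime) (Fact.out : p'.Prime)).1 h)
  have hbij : Function.Bijective (fun a : ZMod p => 2 * (p' : ZMod p) * a) := by
    apply (Finite.injective_iff_bijective).1
    intro a b hab
    exact mul_left_cancel₀ hne hab
  rw [← hbij.sum_comp (fun y : ZMod p =>
    Real.exp (-(2 * (t : ℝ) * (y.valMinAbs : ℝ) ^ 2 / ((p : ℝ) * p') ^ 2)))]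
  apply Finset.sum_congr rfl
  intro a _
  unfold twoMainF
  rw [← Real.exp_nat_mul]
  congr 1
  ring

open Classical in
/-- The terms with a small sum of squares. -/
theorem head_sum_le (hc : Cover c τ κ) {n : ℕ} {ρ : G →* Matrix (Fin n) (Fin n) ℤ}
    (hρ : Rep c n ρ) (p p' : ℕ) [Fact p.Prime] [Fact p'.Prime] (hpp : p ≠ p') (hp2 : p ≠ 2)
    (hp2' : p' ≠ 2) (hp : ¬ p ∣ Fintype.card G) (hp' : ¬ p' ∣ Fintype.card G) (t : ℕ)
    (ht : n * t ≤ Fintype.card X)
    (h2 : 4 * (n : ℝ) ^ 2 * (p' : ℝ) ^ 2 * Real.log ((p : ℝ) * p') < Fintype.card X)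
    (h3 : (p' : ℝ) * ((∑ y : ZMod p,
      Real.exp (-(2 * (t : ℝ) * (y.valMinAbs : ℝ) ^ 2 / ((p : ℝ) * p') ^ 2))) / p') ^ n ≤ 1)
    (v : Fin n → ZMod p) (hv : v ≠ 0) :
    ∑ u : Fin n → ZMod p, ∑ q ∈ (Finset.univ : Finset ((Fin n → ZMod p') × (Fin n → ZMod p'))).filter
      (fun q => q.1 ≠ 0 ∧ q.2 ≠ 0 ∧ SS ρ τ p p' v u q.1 q.2 ≤
        (n / 2) * Real.log ((p : ℝ) * p') * ((p : ℝ) * p') ^ 2),
      ∏ x, cs (p * p') (th p p' ((v ᵥ* redM p (ρ (τ x))) ⬝ᵥ u)
        ((q.1 ᵥ* redM p' (ρ (τ x))) ⬝ᵥ q.2)) ≤ (p' : ℝ) ^ n := by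
  have hp0' : (0 : ℝ) < p' := by exact_mod_cast (Fact.out : p'.Prime).pos
  have hp1' : 1 ≤ p' := (Fact.out : p'.Prime).one_le
  set S := ∑ y : ZMod p,
    Real.exp (-(2 * (t : ℝ) * (y.valMinAbs : ℝ) ^ 2 / ((p : ℝ) * p') ^ 2)) with hS
  have hF0 : ∀ a : ZMod p, 0 ≤ twoMainF p p' a := fun a => (Real.exp_pos _).le
  have h4 : ∀ u : Fin n → ZMod p, ∑ q ∈ (Finset.univ : Finset ((Fin n → ZMod p') ×
      (Fin n → ZMod p'))).filter (fun q => q.1 ≠ 0 ∧ q.2 ≠ 0 ∧ SS ρ τ p p' v u q.1 q.2 ≤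
        (n / 2) * Real.log ((p : ℝ) * p') * ((p : ℝ) * p') ^ 2),
      ∏ x, cs (p * p') (th p p' ((v ᵥ* redM p (ρ (τ x))) ⬝ᵥ u)
        ((q.1 ᵥ* redM p' (ρ (τ x))) ⬝ᵥ q.2)) ≤
      (p' : ℝ) * ∏ x, twoMainF p p' ((v ᵥ* redM p (ρ (τ x))) ⬝ᵥ u) := by
    intro u
    have hprod0 : 0 ≤ ∏ x, twoMainF p p' ((v ᵥ* redM p (ρ (τ x))) ⬝ᵥ u) :=
      Finset.prod_nonneg fun x _ => hF0 _
    have hcard := card_head_le hc hρ p p' hpp hp2' hp' h2 v u
    calc _ ≤ ∑ q ∈ (Finset.univ : Finset ((Fin n → ZMod p') ×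
          (Fin n → ZMod p'))).filter (fun q => q.1 ≠ 0 ∧ q.2 ≠ 0 ∧ SS ρ τ p p' v u q.1 q.2 ≤
            (n / 2) * Real.log ((p : ℝ) * p') * ((p : ℝ) * p') ^ 2),
          ∏ x, twoMainF p p' ((v ᵥ* redM p (ρ (τ x))) ⬝ᵥ u) := by
          apply Finset.sum_le_sum
          intro q _
          apply Finset.prod_le_prod (fun x _ => cs_nonneg _ _)
          intro x _
          refine (cs_th_le _ _).trans ?_
          unfold twoMainF
          apply Real.exp_le_exp.2
          rw [neg_le_neg_iff]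
          have h5 := sq_le_bb (p := p) (p' := p') ((v ᵥ* redM p (ρ (τ x))) ⬝ᵥ u)
            ((q.1 ᵥ* redM p' (ρ (τ x))) ⬝ᵥ q.2)
          have h6 : (0 : ℝ) ≤ ((p : ℝ) * p') ^ 2 := by positivity
          apply div_le_div_of_nonneg_right _ h6
          linarith
      _ ≤ (p' : ℝ) * ∏ x, twoMainF p p' ((v ᵥ* redM p (ρ (τ x))) ⬝ᵥ u) := by
          rw [Finset.sum_const, nsmul_eq_mul]
          apply mul_le_mul_of_nonneg_right _ hprod0
          have h7 := hcard.trans (Nat.sub_le p' 1)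
          exact_mod_cast h7
  calc _ ≤ ∑ u : Fin n → ZMod p,
        (p' : ℝ) * ∏ x, twoMainF p p' ((v ᵥ* redM p (ρ (τ x))) ⬝ᵥ u) :=
        Finset.sum_le_sum fun u _ => h4 u
    _ = (p' : ℝ) * ∑ u : Fin n → ZMod p,
        ∏ x, twoMainF p p' ((v ᵥ* redM p (ρ (τ x))) ⬝ᵥ u) := by rw [Finset.mul_sum]
    _ ≤ (p' : ℝ) * S ^ n := by
        apply mul_le_mul_of_nonneg_left _ hp0'.le
        have h8 := sum_row_le hc hρ p hp v hv (twoMainF p p') hF0 (twoMainF_le_one p p')
          (twoMainF_neg p p') t ht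
        rw [twoMainF_sum p p' hpp hp2 t, ← hS] at h8
        exact h8
    _ ≤ (p' : ℝ) ^ n := by
        rw [div_pow, ← mul_div_assoc, div_le_one (by positivity)] at h3
        exact h3

/-- The two-prime bound. -/
theorem twoPrime (hc : Cover c τ κ) {n : ℕ} {ρ : G →* Matrix (Fin n) (Fin n) ℤ}
    (hρ : Rep c n ρ) (p p' : ℕ) [Fact p.Prime] [Fact p'.Prime] (hpp : p ≠ p') (hp2 : p ≠ 2)
    (hp2' : p' ≠ 2) (hp : ¬ p ∣ Fintype.card G) (hp' : ¬ p' ∣ Fintype.card G) (t : ℕ)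
    (ht : n * t ≤ Fintype.card X)
    (h1 : 4 * n * Real.exp (-(2 * (t : ℝ) / p ^ 2)) ≤ 1)
    (h1' : 4 * n * Real.exp (-(2 * (t : ℝ) / p' ^ 2)) ≤ 1)
    (h2 : 4 * (n : ℝ) ^ 2 * (p' : ℝ) ^ 2 * Real.log ((p : ℝ) * p') < Fintype.card X)
    (h3 : (p' : ℝ) * ((∑ y : ZMod p,
      Real.exp (-(2 * (t : ℝ) * (y.valMinAbs : ℝ) ^ 2 / ((p : ℝ) * p') ^ 2))) / p') ^ n ≤ 1) :
    ((singX ρ τ).card : ℝ) * (((p : ℝ) - 1) * ((p' : ℝ) - 1)) ≤ 9 * 2 ^ Fintype.card X := by
  classical
  have hp0 : (0 : ℝ) < p := by exact_mod_cast (Fact.out : p.Prime).pos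
  have hp0' : (0 : ℝ) < p' := by exact_mod_cast (Fact.out : p'.Prime).pos
  have hp1 : 1 ≤ p := (Fact.out : p.Prime).one_le
  have hp1' : 1 ≤ p' := (Fact.out : p'.Prime).one_le
  set Q : ℝ := (p : ℝ) ^ n * (p' : ℝ) ^ n with hQ
  have hQ0 : 0 < Q := by positivity
  set P : (Fin n → ZMod p) → (Fin n → ZMod p') → (Fin n → ZMod p) → (Fin n → ZMod p') → ℝ :=
    fun v v' u u' => ∏ x, cs (p * p') (th p p' ((v ᵥ* redM p (ρ (τ x))) ⬝ᵥ u)
      ((v' ᵥ* redM p' (ρ (τ x))) ⬝ᵥ u')) with hPdef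
  have hP0 : ∀ v v' u u', 0 ≤ P v v' u u' := fun v v' u u' =>
    Finset.prod_nonneg fun x _ => cs_nonneg _ _
  set A := (Finset.univ : Finset (Fin n → ZMod p)).filter (fun v => v ≠ 0) with hA
  set B := (Finset.univ : Finset (Fin n → ZMod p')).filter (fun v' => v' ≠ 0) with hB
  have hcardV : ((Finset.univ : Finset (Fin n → ZMod p)).card : ℝ) = (p : ℝ) ^ n := by
    rw [Finset.card_univ, Fintype.card_fun, ZMod.card, Fintype.card_fin]
    push_cast
    rfl
  have hcardV' : ((Finset.univ : Finset (Fin n → ZMod p')).card : ℝ) = (p' : ℝ) ^ n := by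
    rw [Finset.card_univ, Fintype.card_fun, ZMod.card, Fintype.card_fin]
    push_cast
    rfl
  have hcardA : (A.card : ℝ) ≤ (p : ℝ) ^ n := by
    rw [← hcardV]
    exact_mod_cast Finset.card_le_card (Finset.filter_subset _ _)
  have hcardB : (B.card : ℝ) ≤ (p' : ℝ) ^ n := by
    rw [← hcardV']
    exact_mod_cast Finset.card_le_card (Finset.filter_subset _ _)
  set sm : (Fin n → ZMod p) → (Fin n → ZMod p') → (Fin n → ZMod p) → (Fin n → ZMod p') → Prop :=
    fun v v' u u' => u' ≠ 0 ∧ SS ρ τ p p' v u v' u' ≤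
      (n / 2) * Real.log ((p : ℝ) * p') * ((p : ℝ) * p') ^ 2 with hsm
  -- pointwise
  have hpt : ∀ v v' u u', P v v' u u' ≤ (if u' = 0 then P v v' u u' else 0) +
      (if u = 0 then P v v' u u' else 0) + 1 / Q + (if sm v v' u u' then P v v' u u' else 0) := by
    intro v v' u u'
    have hQ1 : 0 ≤ 1 / Q := by positivity
    have hP := hP0 v v' u u'
    by_cases h4 : u' = 0
    · rw [if_pos h4]
      have : 0 ≤ (if u = 0 then P v v' u u' else 0) := by split_ifs <;> simp [hP]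
      have : 0 ≤ (if sm v v' u u' then P v v' u u' else 0) := by split_ifs <;> simp [hP]
      linarith
    · rw [if_neg h4]
      have h5 : 0 ≤ (if u = 0 then P v v' u u' else 0) := by split_ifs <;> simp [hP]
      by_cases h6 : SS ρ τ p p' v u v' u' ≤
          (n / 2) * Real.log ((p : ℝ) * p') * ((p : ℝ) * p') ^ 2
      · rw [if_pos (show sm v v' u u' from ⟨h4, h6⟩)]
        linarith
      · have h7 := tail_sum_le hc ρ p p' v u v' u' (not_le.1 h6)
        have h8 : 0 ≤ (if sm v v' u u' then P v v' u u' else 0) := by split_ifs <;> simp [hP]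
        have h9 : P v v' u u' ≤ 1 / Q := h7
        linarith
  -- the total sum
  have htot : ∑ v ∈ A, ∑ v' ∈ B, ∑ u, ∑ u', P v v' u u' ≤ 9 * Q := by
    have hsplit : ∑ v ∈ A, ∑ v' ∈ B, ∑ u, ∑ u', P v v' u u' ≤
        ∑ v ∈ A, ∑ v' ∈ B, ∑ u, ∑ u', ((if u' = 0 then P v v' u u' else 0) +
          (if u = 0 then P v v' u u' else 0) + 1 / Q +
          (if sm v v' u u' then P v v' u u' else 0)) :=
      Finset.sum_le_sum fun v _ => Finset.sum_le_sum fun v' _ => Finset.sum_le_sum fun u _ =>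
        Finset.sum_le_sum fun u' _ => hpt v v' u u'
    simp only [Finset.sum_add_distrib] at hsplit
    have s1 : ∑ v ∈ A, ∑ v' ∈ B, ∑ u, ∑ u', (if u' = 0 then P v v' u u' else 0) ≤ 3 * Q := by
      calc _ ≤ ∑ v ∈ A, ∑ v' ∈ B, (3 : ℝ) := by
            apply Finset.sum_le_sum
            intro v hv
            apply Finset.sum_le_sum
            intro v' hv'
            have e1 : ∀ u, ∑ u' : Fin n → ZMod p', (if u' = 0 then P v v' u u' else 0) =
                ∏ x, cs p ((v ᵥ* redM p (ρ (τ x))) ⬝ᵥ u) := by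
              intro u
              rw [Finset.sum_ite_eq' Finset.univ 0, if_pos (Finset.mem_univ _)]
              simp only [hPdef, dotProduct_zero]
              apply Finset.prod_congr rfl
              intro x _
              exact cs_th_left _
            rw [Finset.sum_congr rfl fun u _ => e1 u]
            exact sum_row_cs_le hc hρ p hp2 hp v (Finset.mem_filter.1 hv).2 t ht h1
        _ = A.card * (B.card * 3) := by
            rw [Finset.sum_const, Finset.sum_const, nsmul_eq_mul, nsmul_eq_mul]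
        _ ≤ (p : ℝ) ^ n * ((p' : ℝ) ^ n * 3) := by
            apply mul_le_mul hcardA _ (by positivity) (by positivity)
            exact mul_le_mul_of_nonneg_right hcardB (by norm_num)
        _ = 3 * Q := by rw [hQ]; ring
    have s2 : ∑ v ∈ A, ∑ v' ∈ B, ∑ u, ∑ u', (if u = 0 then P v v' u u' else 0) ≤ 3 * Q := by
      calc _ ≤ ∑ v ∈ A, ∑ v' ∈ B, (3 : ℝ) := by
            apply Finset.sum_le_sum
            intro v hv
            apply Finset.sum_le_sum
            intro v' hv'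
            rw [Finset.sum_comm]
            have e1 : ∀ u', ∑ u : Fin n → ZMod p, (if u = 0 then P v v' u u' else 0) =
                ∏ x, cs p' ((v' ᵥ* redM p' (ρ (τ x))) ⬝ᵥ u') := by
              intro u'
              rw [Finset.sum_ite_eq' Finset.univ 0, if_pos (Finset.mem_univ _)]
              simp only [hPdef, dotProduct_zero]
              apply Finset.prod_congr rfl
              intro x _
              exact cs_th_right _
            rw [Finset.sum_congr rfl fun u' _ => e1 u']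
            exact sum_row_cs_le hc hρ p' hp2' hp' v' (Finset.mem_filter.1 hv').2 t ht h1'
        _ = A.card * (B.card * 3) := by
            rw [Finset.sum_const, Finset.sum_const, nsmul_eq_mul, nsmul_eq_mul]
        _ ≤ (p : ℝ) ^ n * ((p' : ℝ) ^ n * 3) := by
            apply mul_le_mul hcardA _ (by positivity) (by positivity)
            exact mul_le_mul_of_nonneg_right hcardB (by norm_num)
        _ = 3 * Q := by rw [hQ]; ring
    have s3 : ∑ v ∈ A, ∑ v' ∈ B, ∑ _u : Fin n → ZMod p, ∑ _u' : Fin n → ZMod p', 1 / Q ≤ Q := by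
      simp only [Finset.sum_const, nsmul_eq_mul, hcardV, hcardV']
      calc (A.card : ℝ) * (B.card * ((p : ℝ) ^ n * ((p' : ℝ) ^ n * (1 / Q))))
          ≤ (p : ℝ) ^ n * ((p' : ℝ) ^ n * ((p : ℝ) ^ n * ((p' : ℝ) ^ n * (1 / Q)))) := by
            apply mul_le_mul hcardA _ (by positivity) (by positivity)
            exact mul_le_mul_of_nonneg_right hcardB (by positivity)
        _ = Q * (Q * (1 / Q)) := by rw [hQ]; ring
        _ = Q := by field_simp
    have s4 : ∑ v ∈ A, ∑ v' ∈ B, ∑ u, ∑ u', (if sm v v' u u' then P v v' u u' else 0) ≤ Q := by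
      calc _ ≤ ∑ v ∈ A, (p' : ℝ) ^ n := by
            apply Finset.sum_le_sum
            intro v hv
            have h4 := head_sum_le hc hρ p p' hpp hp2 hp2' hp hp' t ht h2 h3 v
              (Finset.mem_filter.1 hv).2
            refine le_trans (le_of_eq ?_) h4
            rw [Finset.sum_comm]
            apply Finset.sum_congr rfl
            intro u _
            rw [hB, Finset.sum_filter, Finset.sum_filter, ← Finset.univ_product_univ,
              Finset.sum_product]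
            apply Finset.sum_congr rfl
            intro v' _
            by_cases hv' : v' = 0
            · rw [if_neg (not_not.2 hv')]
              symm
              apply Finset.sum_eq_zero
              intro u' _
              rw [if_neg]
              rintro ⟨h5, -⟩
              exact h5 hv'
            · rw [if_pos hv']
              apply Finset.sum_congr rfl
              intro u' _
              by_cases h5 : sm v v' u u'
              · rw [if_pos h5, if_pos ⟨hv', h5⟩]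
              · rw [if_neg h5, if_neg]
                rintro ⟨-, h6⟩
                exact h5 h6
        _ = A.card * (p' : ℝ) ^ n := by rw [Finset.sum_const, nsmul_eq_mul]
        _ ≤ (p : ℝ) ^ n * (p' : ℝ) ^ n := mul_le_mul_of_nonneg_right hcardA (by positivity)
        _ = Q := by rw [hQ]
    linarith
  -- conclusion
  have hmain : (((singX ρ τ).card * ((p - 1) * (p' - 1)) : ℕ) : ℝ) * Q ≤
      2 ^ Fintype.card X * (9 * Q) := by
    have h4 : (((singX ρ τ).card * ((p - 1) * (p' - 1)) : ℕ) : ℝ) ≤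
        ∑ v ∈ A, ∑ v' ∈ B, ((relTwo p p' n (fun x => v ᵥ* redM p (ρ (τ x)))
            (fun x => v' ᵥ* redM p' (ρ (τ x)))).card : ℝ) := by
      have h5 := card_singX_mul_le ρ τ p p' hpp
      have h6 : (((singX ρ τ).card * ((p - 1) * (p' - 1)) : ℕ) : ℝ) ≤
          ((∑ v ∈ A, ∑ v' ∈ B, (relTwo p p' n (fun x => v ᵥ* redM p (ρ (τ x)))
            (fun x => v' ᵥ* redM p' (ρ (τ x)))).card : ℕ) : ℝ) := by
        exact_mod_cast h5
      push_cast at h6 ⊢
      exact h6
    calc _ ≤ (∑ v ∈ A, ∑ v' ∈ B, ((relTwo p p' n (fun x => v ᵥ* redM p (ρ (τ x)))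
            (fun x => v' ᵥ* redM p' (ρ (τ x)))).card : ℝ)) * Q :=
          mul_le_mul_of_nonneg_right h4 hQ0.le
      _ = ∑ v ∈ A, ∑ v' ∈ B, ((relTwo p p' n (fun x => v ᵥ* redM p (ρ (τ x)))
            (fun x => v' ᵥ* redM p' (ρ (τ x)))).card : ℝ) * Q := by
          rw [Finset.sum_mul]
          apply Finset.sum_congr rfl
          intro v _
          rw [Finset.sum_mul]
      _ ≤ ∑ v ∈ A, ∑ v' ∈ B, 2 ^ Fintype.card X * ∑ u, ∑ u', P v v' u u' := by
          apply Finset.sum_le_sum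
          intro v _
          apply Finset.sum_le_sum
          intro v' _
          exact card_relTwo_mul_le p p' n hpp _ _
      _ = 2 ^ Fintype.card X * ∑ v ∈ A, ∑ v' ∈ B, ∑ u, ∑ u', P v v' u u' := by
          rw [Finset.mul_sum]
          apply Finset.sum_congr rfl
          intro v _
          rw [Finset.mul_sum]
      _ ≤ 2 ^ Fintype.card X * (9 * Q) :=
          mul_le_mul_of_nonneg_left htot (by positivity)
  have h5 : (((singX ρ τ).card * ((p - 1) * (p' - 1)) : ℕ) : ℝ) =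
      ((singX ρ τ).card : ℝ) * (((p : ℝ) - 1) * ((p' : ℝ) - 1)) := by
    rw [Nat.cast_mul, Nat.cast_mul, Nat.cast_sub hp1, Nat.cast_sub hp1', Nat.cast_one]
  rw [h5] at hmain
  have h6 : ((singX ρ τ).card : ℝ) * (((p : ℝ) - 1) * ((p' : ℝ) - 1)) * Q ≤
      9 * 2 ^ Fintype.card X * Q := by
    refine hmain.trans (le_of_eq ?_)
    ring
  exact le_of_mul_le_mul_right h6 hQ0

end Pool.Agent.Lib.MP_640417_ag.All
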