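import Pool.Agent.Lib.MP_640417_ag.All.FixRep
import Pool.Agent.Lib.MP_640417_ag.All.TraceBound
import Pool.Agent.Lib.MP_640417_ag.All.CharEvent
import Pool.Agent.Lib.MP_640417_ag.All.Basic

/-!
# Uniformity for representations of bounded degree
-/

set_option autoImplicit false

namespace Pool.Agent.Lib.MP_640417_ag.All

open Module Finset Matrix Pool.Agent.Lib.MP_640417_ag.OddGal

/-- A type with `m` elements and no algebraic structure. -/
def UniformCardCar (m : ℕ) : Type := Fin m

instance (m : ℕ) : Fintype (UniformCardCar m) := inferInstanceAs (Fintype (Fin m))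

instance (m : ℕ) : DecidableEq (UniformCardCar m) := inferInstanceAs (DecidableEq (Fin m))

/-- The group, the element and the representation have the given multiplication table and
character. -/
def UniformCardMatch {m n : ℕ} (mu : UniformCardCar m → UniformCardCar m → UniformCardCar m)
    (c : UniformCardCar m) (ch : UniformCardCar m → Finset.Icc (-(n : ℤ)) n)
    (g : Group (UniformCardCar m)) (ρ : UniformCardCar m →* Matrix (Fin n) (Fin n) ℤ) : Prop :=
  (∀ a b, g.mul a b = mu a b) ∧ Rep c n ρ ∧ ∀ h, (ρ h).trace = (ch h : ℤ)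

theorem uniformCard_aux {m n : ℕ} (hn : 2 ≤ n) (δ : ℝ) (hδ : 0 < δ)
    (mu : UniformCardCar m → UniformCardCar m → UniformCardCar m)
    (c : UniformCardCar m) (ch : UniformCardCar m → Finset.Icc (-(n : ℤ)) n) :
    ∃ C : ℝ, 0 < C ∧ ∀ (g : Group (UniformCardCar m))
      (ρ : UniformCardCar m →* Matrix (Fin n) (Fin n) ℤ),
      UniformCardMatch mu c ch g ρ →
      ∀ (X : Type) [Fintype X] (τ : X → UniformCardCar m) (κ : ℕ), Cover c τ κ → 0 < κ →
      ((singX ρ τ).card : ℝ) ≤ C * (κ : ℝ) ^ (δ - 1) * 2 ^ Fintype.card X := by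
  by_cases hg : ∃ (g : Group (UniformCardCar m))
      (ρ : UniformCardCar m →* Matrix (Fin n) (Fin n) ℤ), UniformCardMatch mu c ch g ρ
  · obtain ⟨g₀, ρ₀, h₀⟩ := hg
    obtain ⟨C, hC, h⟩ := fixRep c hn h₀.2.1 δ hδ
    refine ⟨C, hC, ?_⟩
    intro g ρ h1 X _ τ κ hc hκ
    have hgg : g = g₀ := by
      apply Group.ext
      funext a b
      exact (h1.1 a b).trans (h₀.1 a b).symm
    subst hgg
    have hs : singX ρ τ = singX ρ₀ τ :=
      singX_eq_of_trace h1.2.1 h₀.2.1 (fun a => (h1.2.2 a).trans (h₀.2.2 a).symm) τ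
    rw [hs]
    exact h X τ κ hc hκ
  · refine ⟨1, one_pos, ?_⟩
    intro g ρ h1
    exact absurd ⟨g, ρ, h1⟩ hg

/-- Transport of a representation along an isomorphism. -/
theorem uniformCard_rep {G G' : Type} [Group G] [Group G'] {n : ℕ} {c : G}
    {ρ : G →* Matrix (Fin n) (Fin n) ℤ} (hρ : Rep c n ρ) (φ : G ≃* G') :
    Rep (φ c) n (ρ.comp φ.symm.toMonoidHom) := by
  refine ⟨?_, ?_⟩
  · have : φ.symm (φ c) = c := φ.symm_apply_apply c
    simp only [MonoidHom.comp_apply, MulEquiv.coe_toMonoidHom, this]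
    exact hρ.neg
  · have h : (Set.range fun h : G' =>
        ((ρ.comp φ.symm.toMonoidHom) h).map (Int.cast : ℤ → ℚ)) =
        Set.range fun h : G => (ρ h).map (Int.cast : ℤ → ℚ) := by
      ext M
      constructor
      · rintro ⟨h, rfl⟩
        exact ⟨φ.symm h, rfl⟩
      · rintro ⟨h, rfl⟩
        refine ⟨φ h, ?_⟩
        simp
    rw [h]
    exact hρ.span

/-- For a given order `m`: there are finitely many group structures on `Fin m`, finitely many
`c : Fin m` and, by `abs_trace_le`, finitely many characters `χ : Fin m → ℤ` of representations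
`Rep c n ρ`; for each such triple choose one `ρ` and the constant of `fixRep`. By
`singX_eq_of_trace` the largest of these constants works for all `ρ` on `Fin m`. A group `G`
with `m` elements is isomorphic to a group structure on `Fin m` (`Cover.congr`; `singX` does not
change when `ρ`, `τ` are transported). -/
theorem uniform_card (n : ℕ) (hn : 2 ≤ n) (m : ℕ) (δ : ℝ) (hδ : 0 < δ) : ∃ C : ℝ, 0 < C ∧
    ∀ (G : Type) [Group G] [Fintype G] (c : G) (ρ : G →* Matrix (Fin n) (Fin n) ℤ)
      (X : Type) [Fintype X] (τ : X → G) (κ : ℕ), Fintype.card G = m → Rep c n ρ → Cover c τ κ →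
      0 < κ → ((singX ρ τ).card : ℝ) ≤ C * (κ : ℝ) ^ (δ - 1) * 2 ^ Fintype.card X := by
  classical
  choose C hC hb using fun (i : (UniformCardCar m → UniformCardCar m → UniformCardCar m) ×
    UniformCardCar m × (UniformCardCar m → Finset.Icc (-(n : ℤ)) n)) =>
      uniformCard_aux (m := m) (n := n) hn δ hδ i.1 i.2.1 i.2.2
  refine ⟨1 + ∑ i, C i, by have := Finset.sum_nonneg (s := Finset.univ) (fun i _ => (hC i).le); linarith, ?_⟩
  intro G _ _ c ρ X _ τ κ hG hρ hc hκ
  let e : G ≃ UniformCardCar m := Fintype.equivOfCardEq (by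
    rw [hG]; exact (Fintype.card_fin m).symm)
  letI g : Group (UniformCardCar m) := e.symm.group
  let φ : G ≃* UniformCardCar m := (e.symm.mulEquiv).symm
  let ρ' : UniformCardCar m →* Matrix (Fin n) (Fin n) ℤ := ρ.comp φ.symm.toMonoidHom
  have hρ' : Rep (φ c) n ρ' := uniformCard_rep hρ φ
  have hc' : Cover (φ c) (fun x => φ (τ x)) κ := hc.congr φ
  have htr : ∀ h, (ρ' h).trace ∈ Finset.Icc (-(n : ℤ)) n := by
    intro h
    have := abs_trace_le ρ' h
    rw [abs_le] at this
    exact Finset.mem_Icc.mpr this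
  let i : (UniformCardCar m → UniformCardCar m → UniformCardCar m) ×
    UniformCardCar m × (UniformCardCar m → Finset.Icc (-(n : ℤ)) n) :=
      ⟨fun a b => g.mul a b, φ c, fun h => ⟨(ρ' h).trace, htr h⟩⟩
  have h1 := hb i g ρ' ⟨fun a b => rfl, hρ', fun h => rfl⟩ X (fun x => φ (τ x)) κ hc' hκ
  have hs : singX ρ' (fun x => φ (τ x)) = singX ρ τ := by
    unfold singX
    congr 1
    ext ε
    have : ∀ x, ρ' (φ (τ x)) = ρ (τ x) := by
      intro x
      simp [ρ']
    simp only [this]
  rw [hs] at h1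
  refine h1.trans ?_
  have hle : C i ≤ 1 + ∑ j, C j := by
    have := Finset.single_le_sum (f := C) (fun j _ => (hC j).le) (Finset.mem_univ i)
    linarith
  have hk : (0 : ℝ) ≤ (κ : ℝ) ^ (δ - 1) := by positivity
  gcongr

end Pool.Agent.Lib.MP_640417_ag.All
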