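import Pool.Agent.Lib.MP_640417_ag.OddGroup
import Pool.Agent.Lib.MP_640417_ag.All.UniformCard
import Pool.Agent.Lib.MP_640417_ag.All.Minkowski

/-!
# Uniformity for representations of bounded degree
-/

set_option autoImplicit false

namespace Pool.Agent.Lib.MP_640417_ag.All

open Module Finset Matrix Pool.Agent.Lib.MP_640417_ag.OddGal

/-- One constant for all orders at most `M`. -/
private theorem uniform_aux (n : ℕ) (hn : 2 ≤ n) (δ : ℝ) (hδ : 0 < δ) (M : ℕ) : ∃ C : ℝ, 0 < C ∧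
    ∀ (m : ℕ) (G : Type) [Group G] [Fintype G] (c : G) (ρ : G →* Matrix (Fin n) (Fin n) ℤ)
      (X : Type) [Fintype X] (τ : X → G) (κ : ℕ), m < M → Fintype.card G = m → Rep c n ρ →
      Cover c τ κ → 0 < κ →
      ((singX ρ τ).card : ℝ) ≤ C * (κ : ℝ) ^ (δ - 1) * 2 ^ Fintype.card X := by
  induction M with
  | zero => exact ⟨1, one_pos, fun m _ _ _ _ _ _ _ _ _ hm => absurd hm (Nat.not_lt_zero m)⟩
  | succ k ih =>
    obtain ⟨C, hC, h⟩ := ih
    obtain ⟨C', hC', h'⟩ := uniform_card n hn k δ hδ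
    refine ⟨C + C', by positivity, ?_⟩
    intro m G _ _ c ρ X _ τ κ hm hG hρ hc hκ
    rcases Nat.lt_succ_iff_lt_or_eq.1 hm with h1 | h1
    · refine (h m G c ρ X τ κ h1 hG hρ hc hκ).trans ?_
      gcongr
      linarith
    · refine (h' G c ρ X τ κ (hG.trans h1) hρ hc hκ).trans ?_
      gcongr
      linarith

/-- There are at most `2 ^ |X|` singular sign vectors. -/
private theorem uniform_trivial {G X : Type} [Group G] [Fintype G] [Fintype X] {n : ℕ}
    (ρ : G →* Matrix (Fin n) (Fin n) ℤ) (τ : X → G) :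
    ((singX ρ τ).card : ℝ) ≤ 2 ^ Fintype.card X := by
  have : (singX ρ τ).card ≤ 2 ^ Fintype.card X := by
    rw [← card_signs]
    exact Finset.card_le_card (Finset.filter_subset _ _)
  exact_mod_cast this

/-- Pass to `G ⧸ ρ.ker`: its order `m` is at most `3^(n²)` (`ncard_range_le`), `ρ` induces a
representation (`Rep`) of it, `c ∉ ρ.ker` as `ρ c = -1 ≠ 1`, and by `Cover.quotient` one has a
cover with `κ' = κ |ρ.ker|`, `κ' m = 2 |X|` (`Cover.card_mul`), so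
`κ' ≥ 2 |X| / 3^(n²)`. `singX` is the same. Take the largest constant for `m ≤ 3^(n²)`; for
`δ ≥ 1` the bound `|sing| ≤ 2^|X|` is enough (`|X| ≥ 1`). -/
theorem uniform (n : ℕ) (hn : 2 ≤ n) (δ : ℝ) (hδ : 0 < δ) : ∃ C : ℝ, 0 < C ∧
    ∀ (G : Type) [Group G] [Fintype G] (c : G) (ρ : G →* Matrix (Fin n) (Fin n) ℤ)
      (X : Type) [Fintype X] (τ : X → G) (κ : ℕ), Rep c n ρ → Cover c τ κ → 0 < Fintype.card X →
      ((singX ρ τ).card : ℝ) ≤ C * (Fintype.card X : ℝ) ^ (δ - 1) * 2 ^ Fintype.card X := by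
  classical
  rcases le_or_gt 1 δ with hδ1 | hδ1
  · -- the trivial bound
    refine ⟨1, one_pos, ?_⟩
    intro G _ _ c ρ X _ τ κ _ _ hX
    have h1 : (1 : ℝ) ≤ (Fintype.card X : ℝ) ^ (δ - 1) :=
      Real.one_le_rpow (by exact_mod_cast hX) (by linarith)
    have h2 : (0 : ℝ) ≤ 2 ^ Fintype.card X := by positivity
    rw [one_mul]
    exact (uniform_trivial ρ τ).trans (le_mul_of_one_le_left h2 h1)
  obtain ⟨C, hC, h⟩ := uniform_aux n hn δ hδ (3 ^ (n ^ 2) + 1)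
  refine ⟨C * ((3 ^ (n ^ 2) : ℕ) : ℝ) ^ (1 - δ), by positivity, ?_⟩
  intro G _ _ c ρ X _ τ κ hρ hc hX
  -- the kernel
  have hcK : c ∉ ρ.ker := by
    intro hcon
    rw [MonoidHom.mem_ker, hρ.neg] at hcon
    have h1 := congrFun (congrFun hcon ⟨0, by omega⟩) ⟨0, by omega⟩
    rw [Matrix.neg_apply, Matrix.one_apply_eq] at h1
    norm_num at h1
  set ρ' : G ⧸ ρ.ker →* Matrix (Fin n) (Fin n) ℤ := QuotientGroup.lift ρ.ker ρ le_rfl with hρ'
  have hρ'mk : ∀ g : G, ρ' (g : G ⧸ ρ.ker) = ρ g := fun g => rfl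
  let _ : Fintype (G ⧸ ρ.ker) := Fintype.ofFinite _
  -- the order of the quotient
  have hinj : Function.Injective ρ' := by
    intro a b hab
    induction a using QuotientGroup.induction_on with
    | H a =>
      induction b using QuotientGroup.induction_on with
      | H b =>
        rw [hρ'mk, hρ'mk] at hab
        rw [QuotientGroup.eq, MonoidHom.mem_ker, map_mul, ← hab, ← map_mul, inv_mul_cancel,
          map_one]
  have hrange : Set.range ρ' = Set.range ρ := by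
    ext M
    constructor
    · rintro ⟨a, rfl⟩
      induction a using QuotientGroup.induction_on with
      | H a => exact ⟨a, rfl⟩
    · rintro ⟨a, rfl⟩
      exact ⟨(a : G ⧸ ρ.ker), rfl⟩
  have hcard : Fintype.card (G ⧸ ρ.ker) ≤ 3 ^ (n ^ 2) := by
    refine le_trans (le_of_eq ?_) (ncard_range_le ρ)
    rw [← hrange, ← Set.image_univ, Set.ncard_image_of_injective _ hinj, Set.ncard_univ,
      Nat.card_eq_fintype_card]
  -- the representation of the quotient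
  have hrep : Rep (c : G ⧸ ρ.ker) n ρ' := by
    refine ⟨by rw [hρ'mk, hρ.neg], ?_⟩
    rw [← hρ.span]
    congr 1
    ext M
    constructor
    · rintro ⟨a, rfl⟩
      induction a using QuotientGroup.induction_on with
      | H a => exact ⟨a, rfl⟩
    · rintro ⟨a, rfl⟩
      exact ⟨(a : G ⧸ ρ.ker), rfl⟩
  -- the cover
  have hcov := hc.quotient ρ.ker hcK
  have hmul := hcov.card_mul
  set κ' := κ * Nat.card ρ.ker with hκ'
  have hκ0 : 0 < κ' := by
    rcases Nat.eq_zero_or_pos κ' with h0 | h0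
    · rw [h0, zero_mul] at hmul; omega
    · exact h0
  have hsing : singX ρ' (fun x => (τ x : G ⧸ ρ.ker)) = singX ρ τ := rfl
  have key := h _ (G ⧸ ρ.ker) (c : G ⧸ ρ.ker) ρ' X (fun x => (τ x : G ⧸ ρ.ker)) κ'
    (Nat.lt_succ_of_le hcard) rfl hrep hcov hκ0
  rw [hsing] at key
  refine key.trans ?_
  -- the numbers
  have hle : Fintype.card X ≤ 3 ^ (n ^ 2) * κ' := by
    have h1 : κ' * Fintype.card (G ⧸ ρ.ker) ≤ κ' * 3 ^ (n ^ 2) := Nat.mul_le_mul_left _ hcard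
    have h2 : 3 ^ (n ^ 2) * κ' = κ' * 3 ^ (n ^ 2) := mul_comm _ _
    omega
  have hXR : (0 : ℝ) < Fintype.card X := by exact_mod_cast hX
  have hMR : (0 : ℝ) < ((3 ^ (n ^ 2) : ℕ) : ℝ) := by positivity
  have hκR : (0 : ℝ) < κ' := by exact_mod_cast hκ0
  have hleR : (Fintype.card X : ℝ) ≤ ((3 ^ (n ^ 2) : ℕ) : ℝ) * κ' := by exact_mod_cast hle
  have hpow : (κ' : ℝ) ^ (δ - 1) ≤
      ((3 ^ (n ^ 2) : ℕ) : ℝ) ^ (1 - δ) * (Fintype.card X : ℝ) ^ (δ - 1) := by
    have h1 : (((3 ^ (n ^ 2) : ℕ) : ℝ) * κ') ^ (δ - 1) ≤ (Fintype.card X : ℝ) ^ (δ - 1) :=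
      Real.rpow_le_rpow_of_nonpos hXR hleR (by linarith)
    rw [Real.mul_rpow hMR.le hκR.le] at h1
    have h2 : ((3 ^ (n ^ 2) : ℕ) : ℝ) ^ (1 - δ) * ((3 ^ (n ^ 2) : ℕ) : ℝ) ^ (δ - 1) = 1 := by
      rw [← Real.rpow_add hMR]
      norm_num
    calc (κ' : ℝ) ^ (δ - 1) = ((3 ^ (n ^ 2) : ℕ) : ℝ) ^ (1 - δ) *
          (((3 ^ (n ^ 2) : ℕ) : ℝ) ^ (δ - 1) * (κ' : ℝ) ^ (δ - 1)) := by
            rw [← mul_assoc, h2, one_mul]
      _ ≤ _ := by gcongr
  calc C * (κ' : ℝ) ^ (δ - 1) * 2 ^ Fintype.card X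
      ≤ C * (((3 ^ (n ^ 2) : ℕ) : ℝ) ^ (1 - δ) * (Fintype.card X : ℝ) ^ (δ - 1)) *
        2 ^ Fintype.card X := by gcongr
    _ = _ := by ring

end Pool.Agent.Lib.MP_640417_ag.All
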