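import Pool.Agent.Lib.MP_640417_ag.OddGroup
import Pool.Agent.Lib.MP_640417_ag.All.NumC
import Pool.Agent.Lib.MP_640417_ag.All.NumB
import Pool.Agent.Lib.MP_640417_ag.All.Nonsplit
import Pool.Agent.Lib.MP_640417_ag.All.SplitRep
import Pool.Agent.Lib.MP_640417_ag.All.TwoMain
import Pool.Agent.Lib.MP_640417_ag.All.Uniform

/-!
# The bound for one noncommutative type

Let `g = |X|`, `N = |G|` (`κ N = 2 g`, so `N ≤ 2 g` as `κ ≥ 1`), `x = #bad / 2^g`.
* `zc e ≥ 2`: `lemmaCX` and `num_z_two` (`r = rk e ≤ N`).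
* `zc e = 1`, not split: `nonsplit_bound` and `num_nonsplit`.
* `zc e = 1`, split: `exists_rep` gives `ρ` of degree `n`, `n² = rk e ≥ 2`, so `n ≥ 2`, and
  `badSetX e τ ⊆ singX ρ τ`. If `n < n₀` use `uniform` (take the largest of the constants; then
  `(rk e)^{3/4} ≥ 1`). If `n ≥ n₀` use `num_two_primes` for `x = #sing / 2^g`... Note that the
  one-prime hypothesis of `num_two_primes` is available for `x = #bad / 2^g` by `lemmaCX`
  (`zc e = 1`) and the two-prime hypothesis holds for `#bad ≤ #sing` by `twoPrime` together with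
  `gauss_sum_le` for `q = p p'`, `Y = q g^{δ/16} / √t` (then `2 t Y² / q² = 2 g^{δ/8}`; `t > 0`
  may be assumed: for `t = 0` the condition `4 n exp 0 ≤ 1` fails).
-/

set_option autoImplicit false

namespace Pool.Agent.Lib.MP_640417_ag.All

open Module Finset Matrix Pool.Agent.Lib.MP_640417_ag.OddGal

/-- One constant for all degrees below `n₀`. -/
private theorem typeBound_uniform (δ : ℝ) (hδ : 0 < δ) (n₀ : ℕ) : ∃ C : ℝ, 0 < C ∧
    ∀ n, 2 ≤ n → n < n₀ → ∀ (G : Type) [Group G] [Fintype G] (c : G)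
      (ρ : G →* Matrix (Fin n) (Fin n) ℤ)
      (X : Type) [Fintype X] (τ : X → G) (κ : ℕ), Rep c n ρ → Cover c τ κ → 0 < Fintype.card X →
      ((singX ρ τ).card : ℝ) ≤ C * (Fintype.card X : ℝ) ^ (δ - 1) * 2 ^ Fintype.card X := by
  induction n₀ with
  | zero => exact ⟨1, one_pos, fun n _ hn => absurd hn (Nat.not_lt_zero n)⟩
  | succ m ih =>
    obtain ⟨C, hC, h⟩ := ih
    by_cases hm : 2 ≤ m
    · obtain ⟨C', hC', h'⟩ := uniform m hm δ hδ
      refine ⟨C + C', by positivity, ?_⟩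
      intro n hn hnm G _ _ c ρ X _ τ κ hρ hc hX
      have hpos : (0 : ℝ) ≤ (Fintype.card X : ℝ) ^ (δ - 1) := by positivity
      have hpos2 : (0 : ℝ) ≤ (2 : ℝ) ^ Fintype.card X := by positivity
      rcases Nat.lt_succ_iff_lt_or_eq.1 hnm with h1 | h1
      · refine (h n hn h1 G c ρ X τ κ hρ hc hX).trans ?_
        gcongr
        linarith
      · subst h1
        refine (h' G c ρ X τ κ hρ hc hX).trans ?_
        gcongr
        linarith
    · refine ⟨C, hC, ?_⟩
      intro n hn hnm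
      omega

/-- The dimension of the centre of a type is positive. -/
private theorem typeBound_zc_pos {G : Type} [Group G] [Fintype G] (e : MonoidAlgebra ℚ G)
    (he : IsType e) : 1 ≤ zc e := by
  have hmem : e ∈ cen e := ⟨he.idem, he.central⟩
  have hfin : FiniteDimensional ℚ (MonoidAlgebra ℚ G) :=
    Module.Finite.equiv (eltEquiv ℚ G)
  rw [zc, Nat.one_le_iff_ne_zero]
  intro h0
  have hbot : cen e = ⊥ := Submodule.finrank_eq_zero.1 h0
  rw [hbot, Submodule.mem_bot] at hmem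
  exact he.ne_zero hmem

private theorem typeBound_rk_le {G : Type} [Group G] [Fintype G] (e : MonoidAlgebra ℚ G) :
    rk e ≤ Fintype.card G := by
  have hfin : FiniteDimensional ℚ (MonoidAlgebra ℚ G) :=
    Module.Finite.equiv (eltEquiv ℚ G)
  rw [rk, ← finrank_QH (H := G)]
  exact Submodule.finrank_le _

/-- Hypothesis `h3` of `twoPrime` from the numerical condition. -/
private theorem typeBound_h3 (g n p p' t : ℕ) [NeZero p] (δ : ℝ) (hg : 0 < g) (hp : 0 < p)
    (hp' : 0 < p') (ht : 0 < t)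
    (h : (p' : ℝ) * ((2 * (p * p' * (g : ℝ) ^ (δ / 16) / Real.sqrt t) + 1 +
          p * Real.exp (-(2 * (g : ℝ) ^ (δ / 8)))) / p') ^ n ≤ 1) :
    (p' : ℝ) * ((∑ y : ZMod p,
      Real.exp (-(2 * (t : ℝ) * (y.valMinAbs : ℝ) ^ 2 / ((p : ℝ) * p') ^ 2))) / p') ^ n ≤ 1 := by
  have hg' : (0 : ℝ) < g := by exact_mod_cast hg
  have hpR : (0 : ℝ) < p := by exact_mod_cast hp
  have hpR' : (0 : ℝ) < p' := by exact_mod_cast hp'
  have htR : (0 : ℝ) < t := by exact_mod_cast ht
  have hq : (0 : ℝ) < (p : ℝ) * p' := by positivity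
  have hs : (0 : ℝ) < Real.sqrt t := Real.sqrt_pos.2 htR
  have hY : (0 : ℝ) ≤ p * p' * (g : ℝ) ^ (δ / 16) / Real.sqrt t := by positivity
  have key := gauss_sum_le p (t : ℝ) ((p : ℝ) * p')
    (p * p' * (g : ℝ) ^ (δ / 16) / Real.sqrt t) htR.le hq hY
  have hexp : 2 * (t : ℝ) * (p * p' * (g : ℝ) ^ (δ / 16) / Real.sqrt t) ^ 2 / ((p : ℝ) * p') ^ 2
      = 2 * (g : ℝ) ^ (δ / 8) := by
    have h1 : ((g : ℝ) ^ (δ / 16)) ^ 2 = (g : ℝ) ^ (δ / 8) := by
      rw [← Real.rpow_natCast, ← Real.rpow_mul hg'.le]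
      congr 1
      push_cast
      ring
    rw [div_pow, mul_pow, h1, Real.sq_sqrt htR.le]
    field_simp
  rw [hexp] at key
  refine le_trans ?_ h
  have hsum0 : (0 : ℝ) ≤ ∑ y : ZMod p,
      Real.exp (-(2 * (t : ℝ) * (y.valMinAbs : ℝ) ^ 2 / ((p : ℝ) * p') ^ 2)) :=
    Finset.sum_nonneg fun _ _ => (Real.exp_pos _).le
  gcongr

theorem type_bound (δ : ℝ) (hδ : 0 < δ) (hδ1 : δ < 1 / 2) : ∃ C : ℝ, 0 < C ∧
    ∀ (G : Type) [Group G] [Fintype G] (c : G) (X : Type) [Fintype X] (τ : X → G) (κ : ℕ)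
      (e : MonoidAlgebra ℚ G), Cover c τ κ → 0 < Fintype.card X → IsType e → OddE c e →
      zc e < rk e → ((zc e : ℝ) * rk e ≤ (Fintype.card X : ℝ) ^ (2 - 2 * δ)) →
      ((badSetX e τ).card : ℝ) ≤
        C * (Fintype.card X : ℝ) ^ (δ - 1) * (rk e : ℝ) ^ (3 / 4 : ℝ) * 2 ^ Fintype.card X := by
  classical
  obtain ⟨C1, hC1, h1⟩ := num_z_two δ hδ (by linarith)
  obtain ⟨C2, hC2, h2⟩ := num_nonsplit δ hδ (by linarith)
  obtain ⟨n₀, C3, hC3, h3⟩ := num_two_primes δ hδ hδ1
  obtain ⟨C4, hC4, h4⟩ := typeBound_uniform δ hδ n₀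
  refine ⟨C1 + C2 + C3 + C4, by positivity, ?_⟩
  intro G _ _ c X _ τ κ e hc hX he ho hzr hzr2
  -- sizes
  have hcard := hc.card_mul
  have hN0 : 0 < Fintype.card G := Fintype.card_pos
  have hκ : 0 < κ := by
    rcases Nat.eq_zero_or_pos κ with h | h
    · rw [h] at hcard; omega
    · exact h
  have hN : Fintype.card G ≤ 2 * Fintype.card X := by
    rw [← hcard]; exact Nat.le_mul_of_pos_left _ hκ
  have hr : rk e ≤ 2 * Fintype.card X := (typeBound_rk_le e).trans hN
  have hz1 : 1 ≤ zc e := typeBound_zc_pos e he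
  have hr1 : 1 ≤ rk e := by omega
  have hbadle : (badSetX e τ).card ≤ 2 ^ Fintype.card X := by
    rw [← card_signs]
    exact Finset.card_le_card (Finset.filter_subset _ _)
  have h2pos : (0 : ℝ) < (2 : ℝ) ^ Fintype.card X := by positivity
  have hgpos : (0 : ℝ) ≤ (Fintype.card X : ℝ) ^ (δ - 1) := by positivity
  have hrpos : (0 : ℝ) ≤ (rk e : ℝ) ^ (3 / 4 : ℝ) := by positivity
  have hx1 : ((badSetX e τ).card : ℝ) / 2 ^ Fintype.card X ≤ 1 := by
    rw [div_le_one h2pos]
    exact_mod_cast hbadle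
  -- it is enough to bound the share by one of the constants
  have hfin : ∀ C' : ℝ, C' ≤ C1 + C2 + C3 + C4 →
      ((badSetX e τ).card : ℝ) / 2 ^ Fintype.card X ≤
        C' * (Fintype.card X : ℝ) ^ (δ - 1) * (rk e : ℝ) ^ (3 / 4 : ℝ) →
      ((badSetX e τ).card : ℝ) ≤ (C1 + C2 + C3 + C4) * (Fintype.card X : ℝ) ^ (δ - 1) *
        (rk e : ℝ) ^ (3 / 4 : ℝ) * 2 ^ Fintype.card X := by
    intro C' hC' h
    rw [div_le_iff₀ h2pos] at h
    refine h.trans ?_
    gcongr
  -- dividing by `2 ^ g`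
  have hdiv : ∀ a b : ℝ, ((badSetX e τ).card : ℝ) * a ≤ b * 2 ^ Fintype.card X →
      ((badSetX e τ).card : ℝ) / 2 ^ Fintype.card X * a ≤ b := by
    intro a b h
    rw [div_mul_eq_mul_div, div_le_iff₀ h2pos]
    exact h
  rcases Nat.lt_or_ge (zc e) 2 with hz | hz
  · have hz' : zc e = 1 := by omega
    by_cases hs : Split e
    · -- split types
      obtain ⟨n, ρ, hn, hnr, hρ, hsub⟩ := exists_rep e he ho hz' hs
      have hn2 : 2 ≤ n := by
        by_contra hcon
        have : n = 1 := by omega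
        rw [this] at hnr
        omega
      have hrn : (rk e : ℝ) ^ (3 / 4 : ℝ) = (n : ℝ) ^ (3 / 2 : ℝ) := by
        rw [← hnr]
        push_cast
        rw [← Real.rpow_natCast, ← Real.rpow_mul (Nat.cast_nonneg n)]
        congr 1
        norm_num
      have hbs : ((badSetX e τ).card : ℝ) ≤ ((singX ρ τ).card : ℝ) := by
        exact_mod_cast Finset.card_le_card (hsub X τ)
      rcases Nat.lt_or_ge n n₀ with hn0 | hn0
      · refine hfin C4 (by linarith) ?_
        have h5 := h4 n hn2 hn0 G c ρ X τ κ hρ hc hX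
        rw [div_le_iff₀ h2pos]
        refine hbs.trans (h5.trans ?_)
        have hge1 : (1 : ℝ) ≤ (rk e : ℝ) ^ (3 / 4 : ℝ) :=
          Real.one_le_rpow (by exact_mod_cast hr1) (by norm_num)
        have hCg : (0 : ℝ) ≤ C4 * (Fintype.card X : ℝ) ^ (δ - 1) := by positivity
        have := le_mul_of_one_le_right hCg hge1
        gcongr
      · refine hfin C3 (by linarith) ?_
        rw [hrn]
        refine h3 (Fintype.card X) n (Fintype.card G) _ hX hn0 hn (hnr ▸ hr) hN0 hN hx1 ?_ ?_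
        · intro p hp hp2 hpN d hd hnum
          have : Fact p.Prime := ⟨hp⟩
          have h6 := lemmaCX hc p hp2 hpN e he ho d (by rw [hz', one_mul, ← hnr]; exact hd) hnum
          rw [hz', pow_one] at h6
          exact hdiv _ _ h6
        · intro p p' hp hp' hpp hp2 hp2' hpN hpN' t hnt hc1 hc2 hc3 hc4
          have : Fact p.Prime := ⟨hp⟩
          have : Fact p'.Prime := ⟨hp'⟩
          have ht : 0 < t := by
            rcases Nat.eq_zero_or_pos t with h | h
            · exfalso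
              rw [h] at hc1
              simp only [Nat.cast_zero, mul_zero, zero_div, neg_zero, Real.exp_zero,
                mul_one] at hc1
              have : (1 : ℝ) ≤ n := by exact_mod_cast hn
              linarith
            · exact h
          have h7 := twoPrime hc hρ p p' hpp hp2 hp2' hpN hpN' t hnt hc1 hc2 hc3
            (typeBound_h3 (Fintype.card X) n p p' t δ hX hp.pos hp'.pos ht hc4)
          apply hdiv
          refine le_trans ?_ h7
          have hpR : (1 : ℝ) ≤ p := by exact_mod_cast hp.one_lt.le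
          have hpR' : (1 : ℝ) ≤ p' := by exact_mod_cast hp'.one_lt.le
          have : (0 : ℝ) ≤ ((p : ℝ) - 1) * ((p' : ℝ) - 1) :=
            mul_nonneg (by linarith) (by linarith)
          gcongr
    · -- types with centre `ℚ` which are not split
      refine hfin C2 (by linarith) ?_
      refine h2 (Fintype.card X) (rk e) (Fintype.card G) _ hX hr1 hr hN0 hN hx1 ?_
      intro p hp hp2 hpN d hd hnum
      have : Fact p.Prime := ⟨hp⟩
      exact hdiv _ _ (nonsplit_bound hc p hp2 hpN e he ho hz' hs d hd hnum)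
  · -- types with a large centre
    refine hfin C1 (by linarith) ?_
    refine h1 (Fintype.card X) (zc e) (rk e) (Fintype.card G) _ hX hz (zc_le_rk e) hr hN0 hN hx1
      hzr2 ?_
    intro p hp hp2 hpN d hd hnum
    have : Fact p.Prime := ⟨hp⟩
    exact hdiv _ _ (lemmaCX hc p hp2 hpN e he ho d hd hnum)

end Pool.Agent.Lib.MP_640417_ag.All
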