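import Pool.Agent.Lib.MP_640417_ag.All.Defs

/-!
# Sums over all types
-/

set_option autoImplicit false

namespace Pool.Agent.Lib.MP_640417_ag.All

open Module Finset Pool.Agent.Lib.MP_640417_ag.OddGal

variable {G : Type} [Group G] [Fintype G]

/-- The spaces `cen e` for orthogonal central idempotents are independent subspaces of the
centre, which has dimension the number of conjugacy classes (`finrank_cenAll`); with sum `1` one
has equality. -/
theorem sum_zc (J : Finset (MonoidAlgebra ℚ G)) (hJ : ∀ e ∈ J, IsType e)
    (horth : ∀ e ∈ J, ∀ e' ∈ J, e ≠ e' → e * e' = 0) (hsum : ∑ e ∈ J, e = 1) :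
    ∑ e ∈ J, zc e = Nat.card (ConjClasses G) := by
  classical
  let L : cenAll ℚ G →ₗ[ℚ] (∀ e : J, cen e.1) :=
    { toFun := fun x e => ⟨e.1 * x.1, by
        constructor
        · rw [← mul_assoc, (hJ _ e.2).idem]
        · intro y
          have h1 : x.1 * y = y * x.1 := x.2 y
          rw [mul_assoc, h1, ← mul_assoc, (hJ _ e.2).central, mul_assoc]⟩
      map_add' := fun a b => by
        funext e
        ext1
        simp [mul_add]
      map_smul' := fun r a => by
        funext e
        ext1
        simp }
  have hbij : Function.Bijective L := by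
    constructor
    · rw [injective_iff_map_eq_zero]
      intro x hx
      apply Subtype.ext
      change x.1 = 0
      rw [← one_mul x.1, ← hsum, Finset.sum_mul]
      refine Finset.sum_eq_zero fun e he => ?_
      have := congrFun hx ⟨e, he⟩
      exact congrArg Subtype.val this
    · intro y
      refine ⟨⟨∑ e : J, (y e).1, ?_⟩, ?_⟩
      · exact Submodule.sum_mem _ fun e _ => (y e).2.2
      funext e
      ext1
      change e.1 * (∑ e' : J, (y e').1) = (y e).1
      rw [Finset.mul_sum, Finset.sum_eq_single e]
      · exact (y e).2.1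
      · intro e' _ hne
        have h1 : e'.1 * (y e').1 = (y e').1 := (y e').2.1
        rw [← h1, ← mul_assoc, horth e.1 e.2 e'.1 e'.2 (fun h => hne (Subtype.ext h.symm)),
          zero_mul]
      · intro h
        exact absurd (Finset.mem_univ _) h
  have h1 := (LinearEquiv.ofBijective L hbij).finrank_eq
  rw [finrank_cenAll, Module.finrank_pi_fintype] at h1
  rw [h1, ← Finset.sum_coe_sort]
  rfl

open Classical in
/-- The mean of the elements of the commutator subgroup. -/
private noncomputable def TypesSum_f (G : Type) [Group G] [Fintype G] : MonoidAlgebra ℚ G :=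
  ((Nat.card (commutator G) : ℚ)⁻¹) • ∑ g : commutator G, MonoidAlgebra.single (g : G) (1 : ℚ)

private theorem TypesSum_single_mul {g : G} (hg : g ∈ commutator G) :
    MonoidAlgebra.single g (1 : ℚ) * TypesSum_f G = TypesSum_f G := by
  classical
  unfold TypesSum_f
  rw [mul_smul_comm, Finset.mul_sum]
  congr 1
  refine Fintype.sum_equiv (Equiv.mulLeft (⟨g, hg⟩ : commutator G)) _ _ fun x => ?_
  rw [MonoidAlgebra.single_mul_single, one_mul]
  rfl

private theorem TypesSum_comm_single (g : G) :
    TypesSum_f G * MonoidAlgebra.single g (1 : ℚ) = MonoidAlgebra.single g (1 : ℚ) * TypesSum_f G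
    := by
  classical
  unfold TypesSum_f
  rw [mul_smul_comm, smul_mul_assoc, Finset.mul_sum, Finset.sum_mul]
  congr 1
  refine Fintype.sum_equiv ((MulAut.conjNormal (H := commutator G) g⁻¹).toEquiv) _ _ fun x => ?_
  rw [MonoidAlgebra.single_mul_single, MonoidAlgebra.single_mul_single, one_mul]
  congr 1
  simp [mul_assoc]

private theorem TypesSum_ind (p : MonoidAlgebra ℚ G → Prop)
    (h1 : ∀ g, p (MonoidAlgebra.single g 1)) (h2 : ∀ a b, p a → p b → p (a + b))
    (h3 : ∀ (r : ℚ) a, p a → p (r • a)) (x : MonoidAlgebra ℚ G) : p x := by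
  induction x using MonoidAlgebra.induction_on with
  | of g => exact h1 g
  | add a b ha hb => exact h2 a b ha hb
  | smul r a ha => exact h3 r a ha

private theorem TypesSum_central (x : MonoidAlgebra ℚ G) :
    TypesSum_f G * x = x * TypesSum_f G := by
  induction x using TypesSum_ind with
  | h1 g => exact TypesSum_comm_single g
  | h2 a b ha hb => rw [mul_add, add_mul, ha, hb]
  | h3 r a ha => rw [mul_smul_comm, smul_mul_assoc, ha]

/-- products commute after multiplication with `f` -/
private theorem TypesSum_comm (a b : MonoidAlgebra ℚ G) :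
    a * b * TypesSum_f G = b * a * TypesSum_f G := by
  induction a using TypesSum_ind with
  | h2 a a' ha ha' => rw [add_mul, add_mul, mul_add, add_mul, ha, ha']
  | h3 r a ha => rw [smul_mul_assoc, smul_mul_assoc, mul_smul_comm, smul_mul_assoc, ha]
  | h1 g =>
    induction b using TypesSum_ind with
    | h2 b b' hb hb' => rw [add_mul, add_mul, mul_add, add_mul, hb, hb']
    | h3 r b hb => rw [mul_smul_comm, smul_mul_assoc, smul_mul_assoc, smul_mul_assoc, hb]
    | h1 h =>
      have h1 : MonoidAlgebra.single g (1 : ℚ) * MonoidAlgebra.single h 1 =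
          MonoidAlgebra.single h 1 * MonoidAlgebra.single g 1 *
            MonoidAlgebra.single (g⁻¹ * h⁻¹ * g * h) 1 := by
        simp only [MonoidAlgebra.single_mul_single, one_mul]
        congr 1
        group
      have h2 : g⁻¹ * h⁻¹ * g * h ∈ commutator G := by
        have h3 := Subgroup.commutator_mem_commutator (Subgroup.mem_top g⁻¹)
          (Subgroup.mem_top h⁻¹)
        rw [commutatorElement_def, inv_inv, inv_inv] at h3
        exact h3
      rw [h1, mul_assoc, mul_assoc, TypesSum_single_mul h2, mul_assoc]

private theorem TypesSum_idem : TypesSum_f G * TypesSum_f G = TypesSum_f G := by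
  classical
  have h0 : (Nat.card (commutator G) : ℚ) ≠ 0 := by
    exact_mod_cast Nat.card_pos.ne'
  have h1 : TypesSum_f G * TypesSum_f G = ((Nat.card (commutator G) : ℚ)⁻¹) •
      ∑ g : commutator G, MonoidAlgebra.single (g : G) (1 : ℚ) * TypesSum_f G := by
    conv_lhs => lhs; unfold TypesSum_f
    rw [smul_mul_assoc, Finset.sum_mul]
  rw [h1, Finset.sum_congr rfl (fun g _ => TypesSum_single_mul g.2), Finset.sum_const,
    Finset.card_univ, ← Nat.card_eq_fintype_card, ← Nat.cast_smul_eq_nsmul ℚ, smul_smul,
    inv_mul_cancel₀ h0, one_smul]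

/-- the commutative types account for the whole abelianization, dimension of `f ℚ[G]` -/
private theorem TypesSum_card_le : Nat.card (Abelianization G) ≤ finrank ℚ (comp (TypesSum_f G))
    := by
  classical
  haveI : Fintype (Abelianization G) := Fintype.ofFinite _
  let φ : MonoidAlgebra ℚ G →ₐ[ℚ] MonoidAlgebra ℚ (Abelianization G) :=
    MonoidAlgebra.mapDomainAlgHom ℚ ℚ Abelianization.of
  have hφ : ∀ g : G, ∀ r : ℚ, φ (MonoidAlgebra.single g r) =
      MonoidAlgebra.single (Abelianization.of g) r := fun g r => by
    simp [φ]
  have hf : φ (TypesSum_f G) = 1 := by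
    unfold TypesSum_f
    rw [map_smul, map_sum]
    have h1 : ∀ g : commutator G, φ (MonoidAlgebra.single (g : G) (1 : ℚ)) = 1 := by
      intro g
      rw [hφ]
      have h2 : Abelianization.of (g : G) = 1 := by
        rw [← MonoidHom.mem_ker, Abelianization.ker_of]
        exact g.2
      rw [h2]
      rfl
    have h0 : (Nat.card (commutator G) : ℚ) ≠ 0 := by
      exact_mod_cast Nat.card_pos.ne'
    rw [Finset.sum_congr rfl (fun g _ => h1 g), Finset.sum_const, Finset.card_univ,
      ← Nat.card_eq_fintype_card, ← Nat.cast_smul_eq_nsmul ℚ, smul_smul,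
      inv_mul_cancel₀ h0, one_smul]
  have hsurj : Function.Surjective (φ.toLinearMap.comp (comp (TypesSum_f G)).subtype) := by
    intro y
    induction y using TypesSum_ind with
    | h1 g =>
      obtain ⟨g, rfl⟩ := QuotientGroup.mk_surjective g
      change ∃ a, _ = MonoidAlgebra.single (Abelianization.of g) 1
      refine ⟨⟨TypesSum_f G * MonoidAlgebra.single g 1, ?_⟩, ?_⟩
      · change TypesSum_f G * (TypesSum_f G * MonoidAlgebra.single g 1) = _
        rw [← mul_assoc, TypesSum_idem]
      · change φ (TypesSum_f G * MonoidAlgebra.single g 1) = _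
        rw [map_mul, hf, one_mul, hφ]
    | h2 a b ha hb =>
      obtain ⟨x, rfl⟩ := ha
      obtain ⟨y, rfl⟩ := hb
      exact ⟨x + y, map_add _ _ _⟩
    | h3 r a ha =>
      obtain ⟨x, rfl⟩ := ha
      exact ⟨r • x, map_smul _ _ _⟩
  have h2 := LinearMap.finrank_le_finrank_of_surjective hsurj
  rwa [finrank_QH, ← Nat.card_eq_fintype_card] at h2

/-- The commutative types account for the whole abelianization. Let `f` be the mean of the
elements of the commutator subgroup, a central idempotent; `f ℚ[G]` is commutative of dimension
`|G / G'|`. For `e ∈ J` either `e f = e` or `e f = 0` (`e f` is central; by `IsType.field`,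
if `f e ≠ 0` there is a central `c'` with `f c' e = e`, so `f e = f f c' e = f c' e = e`).
If `e f = e` then `comp e ⊆ f ℚ[G]`, so `rk e = zc e`; and
`∑_{e f = e} rk e = dim f ℚ[G]`. -/
theorem card_ab_le (J : Finset (MonoidAlgebra ℚ G)) (hJ : ∀ e ∈ J, IsType e)
    (horth : ∀ e ∈ J, ∀ e' ∈ J, e ≠ e' → e * e' = 0) (hsum : ∑ e ∈ J, e = 1) :
    Nat.card (Abelianization G) ≤ ∑ e ∈ J with zc e = rk e, zc e := by
  classical
  set f := TypesSum_f G with hf
  have hdich : ∀ e ∈ J, f * e ≠ 0 → f * e = e := by
    intro e he hne
    obtain ⟨c', hc', h1⟩ := (hJ e he).field f TypesSum_central hne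
    calc f * e = f * (f * c' * e) := by rw [h1]
      _ = (f * f) * c' * e := by simp only [mul_assoc]
      _ = e := by rw [TypesSum_idem, h1]
  have hrk : ∀ e ∈ J, f * e = e → zc e = rk e := by
    intro e he hfe
    have : comp e = cen e := by
      apply le_antisymm
      · intro x hx
        refine ⟨hx, fun y => ?_⟩
        have hx' : e * x = x := hx
        have h1 : x * f = x := by
          rw [← TypesSum_central, ← hx', ← mul_assoc, hfe]
        calc x * y = x * f * y := by rw [h1]
          _ = x * y * f := by rw [mul_assoc, TypesSum_central, mul_assoc]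
          _ = y * x * f := TypesSum_comm x y
          _ = y * x := by rw [mul_assoc, h1]
      · exact fun x hx => hx.1
    rw [zc, rk, this]
  set J' := J.filter (fun e => f * e = e) with hJ'
  have h1 : finrank ℚ (comp f) ≤ ∑ e ∈ J', rk e := by
    let L : comp f →ₗ[ℚ] (∀ e : J', comp e.1) :=
      { toFun := fun x e => ⟨e.1 * x.1, by
          change e.1 * (e.1 * x.1) = e.1 * x.1
          rw [← mul_assoc, (hJ _ (Finset.mem_filter.1 e.2).1).idem]⟩
        map_add' := fun a b => by
          funext e
          ext1
          simp [mul_add]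
        map_smul' := fun r a => by
          funext e
          ext1
          simp }
    have hinj : Function.Injective L := by
      rw [injective_iff_map_eq_zero]
      intro x hx
      apply Subtype.ext
      change x.1 = 0
      have hfx : f * x.1 = x.1 := x.2
      rw [← one_mul x.1, ← hsum, Finset.sum_mul]
      refine Finset.sum_eq_zero fun e he => ?_
      by_cases hfe : f * e = e
      · have := congrFun hx ⟨e, Finset.mem_filter.2 ⟨he, hfe⟩⟩
        exact congrArg Subtype.val this
      · have h0 : f * e = 0 := by
          by_contra hne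
          exact hfe (hdich e he hne)
        rw [← hfx, ← mul_assoc, ← TypesSum_central, h0, zero_mul]
    have h2 := LinearMap.finrank_le_finrank_of_injective hinj
    rw [Module.finrank_pi_fintype] at h2
    rw [← Finset.sum_coe_sort]
    exact h2
  calc Nat.card (Abelianization G) ≤ finrank ℚ (comp f) := TypesSum_card_le
    _ ≤ ∑ e ∈ J', rk e := h1
    _ = ∑ e ∈ J', zc e := Finset.sum_congr rfl fun e he => by
        rw [Finset.mem_filter] at he
        rw [hrk e he.1 he.2]
    _ ≤ ∑ e ∈ J with zc e = rk e, zc e := by
        apply Finset.sum_le_sum_of_subset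
        intro e he
        rw [Finset.mem_filter] at he ⊢
        exact ⟨he.1, hrk e he.1 he.2⟩

end Pool.Agent.Lib.MP_640417_ag.All
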